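import Pool.Agent.P.HB.G3

/-! Weighted version of the machinery for graph bootstrap percolation: a real potential. -/

open Finset

namespace Pool.Agent.HI

open Pool.Agent.HB

/-- the real parameter of the potential -/
class AP (Γ : Type) [Fintype Γ] where
  a : ℝ
  lo : (AA Γ : ℝ) - 1 ≤ a
  hi : a ≤ AA Γ

/-- the weights of the tags -/
class WP (τ : Type) where
  w : τ → ℕ
  le : ∀ c, w c ≤ 99

def wt {τ : Type} [WP τ] (c : τ) : ℕ := WP.w c

theorem wt_le {τ : Type} [WP τ] (c : τ) : wt c ≤ 99 := WP.le c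

section template
variable (Γ : Type) [Fintype Γ]

noncomputable def rr : ℕ := (AA Γ - mm Γ - 2) / (93 * mm Γ)

/-- size bound for all sets to which sparsity is applied -/
noncomputable def LL (L1 : ℕ) : ℕ := (mm Γ + 2) * (2 + rr Γ * L1 * mm Γ + mm Γ)

variable [AP Γ]

def aa : ℝ := AP.a (Γ := Γ)

theorem aa_lo : (AA Γ : ℝ) - 1 ≤ aa Γ := AP.lo

theorem aa_hi : aa Γ ≤ AA Γ := AP.hi

/-- the slack of an entity of weight zero -/
noncomputable def gam : ℝ := (aa Γ - AA Γ + 2) / 2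

/-- the potential -/
noncomputable def pot {V : Type} (G : SimpleGraph V) (X : Finset V) : ℝ :=
  aa Γ * X.card - (mm Γ : ℝ) * ec G X

def Sparse {V : Type} (G : SimpleGraph V) (L : ℕ) : Prop :=
  ∀ X : Finset V, X.card ≤ L → 0 ≤ pot Γ G X

def Small {V : Type} (G : SimpleGraph V) (L L0 : ℕ) : Prop :=
  ∀ X : Finset V, X.card ≤ L → pot Γ G X ≤ 2010 * (mm Γ : ℝ) → ec G X ≤ L0

variable {V : Type} {G G' : SimpleGraph V} {X Y : Finset V}

theorem pot_le_old (G : SimpleGraph V) (X : Finset V) : pot Γ G X ≤ (HB.pot Γ G X : ℝ) := by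
  unfold pot HB.pot
  push_cast
  have := mul_le_mul_of_nonneg_right (aa_hi Γ) (Nat.cast_nonneg (α := ℝ) X.card)
  linarith

variable {Γ} in
theorem Sparse.old {L : ℕ} (hs : Sparse Γ G L) : HB.Sparse Γ G L := fun X hX => by
  have := (hs X hX).trans (pot_le_old Γ G X)
  exact_mod_cast this

theorem pot_empty (G : SimpleGraph V) : pot Γ G ∅ = 0 := by
  simp [pot, ec, cross_empty]

theorem pot_single (G : SimpleGraph V) (v : V) : pot Γ G {v} = aa Γ := by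
  have h : ec G {v} = 0 := by
    have := ec_le G {v}
    rw [card_singleton] at this
    omega
  simp [pot, h]

theorem pot_anti (h : G ≤ G') (X : Finset V) : pot Γ G' X ≤ pot Γ G X := by
  have h1 : (ec G X : ℝ) ≤ ec G' X := by exact_mod_cast ec_mono h Subset.rfl
  exact sub_le_sub_left (mul_le_mul_of_nonneg_left h1 (Nat.cast_nonneg _)) _

variable [DecidableEq V]

theorem pot_union (G : SimpleGraph V) (h : Disjoint X Y) :
    pot Γ G (X ∪ Y) = pot Γ G X + pot Γ G Y - 2 * (mm Γ : ℝ) * cross G X Y := by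
  rw [pot, pot, pot, ec_union G h, card_union_of_disjoint h]
  push_cast
  ring

theorem pot_submod (G : SimpleGraph V) (X Y : Finset V) :
    pot Γ G (X ∪ Y) + pot Γ G (X ∩ Y) ≤ pot Γ G X + pot Γ G Y := by
  have h1 : ((ec G X : ℝ) + ec G Y) ≤ ec G (X ∪ Y) + ec G (X ∩ Y) := by
    exact_mod_cast ec_submod G X Y
  have h2 : (((X ∪ Y).card : ℝ) + (X ∩ Y).card) = X.card + Y.card := by
    exact_mod_cast card_union_add_card_inter X Y
  have h3 := mul_le_mul_of_nonneg_left h1 (Nat.cast_nonneg (mm Γ))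
  have h4 := congrArg (fun z => aa Γ * z) h2
  unfold pot
  linarith

/-- subadditivity in a sparse graph -/
theorem pot_biUnion_le {ι : Type} {L : ℕ} (hs : Sparse Γ G L) (I : Finset ι) (f : ι → Finset V)
    (h : ∀ i ∈ I, (f i).card ≤ L) : pot Γ G (I.biUnion f) ≤ ∑ i ∈ I, pot Γ G (f i) := by
  classical
  induction I using Finset.induction_on with
  | empty => rw [biUnion_empty, sum_empty, pot_empty]
  | insert i I hi ih =>
    rw [biUnion_insert, sum_insert hi]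
    have h1 := pot_submod Γ G (f i) (I.biUnion f)
    have h2 := hs (f i ∩ I.biUnion f)
      ((card_le_card inter_subset_left).trans (h i (mem_insert_self _ _)))
    have h3 := ih fun j hj => h j (mem_insert_of_mem hj)
    linarith

variable {Γ} in
theorem blob_pot_le (B : Blob Γ G) : pot Γ G B.1 ≤ 5002 * (mm Γ : ℝ) := by
  refine (pot_le_old Γ G _).trans ?_
  exact_mod_cast B.pot_le

end template

section numbers
variable {Γ : Type} [Fintype Γ] [Nonempty Γ]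

theorem rr_lt : (93 * rr Γ + 1) * mm Γ + 1 < AA Γ := by
  have h1 := AA_ge' (Γ := Γ)
  have h2 := mm_ge (Γ := Γ)
  have h3 := sG_ge (Γ := Γ)
  have h4 : rr Γ * (93 * mm Γ) ≤ AA Γ - mm Γ - 2 := Nat.div_mul_le_self _ _
  have e : (93 * rr Γ + 1) * mm Γ = rr Γ * (93 * mm Γ) + mm Γ := by ring
  omega

theorem rr_ge : AA Γ ≤ 93 * rr Γ * mm Γ + 95 * mm Γ := by
  have h2 := mm_ge (Γ := Γ)
  have h3 := sG_ge (Γ := Γ)
  have h4 : AA Γ - mm Γ - 2 < 93 * mm Γ * (rr Γ + 1) := Nat.lt_mul_div_succ _ (by omega)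
  have e : 93 * mm Γ * (rr Γ + 1) = 93 * rr Γ * mm Γ + 93 * mm Γ := by ring
  omega

theorem rr_pos : 1 ≤ rr Γ := by
  have h1 := AA_ge' (Γ := Γ)
  have h2 := mm_ge (Γ := Γ)
  have h3 := sG_ge (Γ := Γ)
  have h4 := rr_ge (Γ := Γ)
  by_contra h
  have : rr Γ = 0 := by omega
  rw [this] at h4
  omega

theorem LL_ge (L1 : ℕ) : 5 * mm Γ ≤ LL Γ L1 := by
  have h4 := mm_ge (Γ := Γ)
  have h5 := sG_ge (Γ := Γ)
  exact Nat.mul_le_mul (by omega) (by omega)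

theorem LL_ge' (L1 : ℕ) : L1 * mm Γ ≤ LL Γ L1 := by
  have h1 : 1 * L1 * mm Γ ≤ rr Γ * L1 * mm Γ :=
    Nat.mul_le_mul_right _ (Nat.mul_le_mul_right _ rr_pos)
  have h2 : 1 * (2 + rr Γ * L1 * mm Γ + mm Γ) ≤ LL Γ L1 := Nat.mul_le_mul_right _ (by omega)
  rw [one_mul] at h1
  omega

end numbers

section horn
variable {τ : Type} [WP τ]

/-- sizes of the two link bundles -/
def lsz (a : Bool) : ℕ := cond a 99 100

/-- the slack along the left spine of a term -/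
def psi (γ : ℝ) : Term τ → ℝ
  | .nil => 0
  | .node c l _ => γ - wt c + psi γ l

theorem psi_realize : True := by have := @psi.eq_def; trivial

/-- the length of the left spine of a term -/
def len : Term τ → ℕ
  | .nil => 0
  | .node _ l _ => len l + 1

theorem len_realize : True := by have := @len.eq_def; trivial

/-- the number of nodes of a term -/
def siz : Term τ → ℕ
  | .nil => 0
  | .node _ l r => siz l + siz r + 1

theorem siz_realize : True := by have := @siz.eq_def; trivial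

/-- balanced lists -/
inductive Lst (γ : ℝ) : Term τ → Prop
  | nil : Lst γ .nil
  | cons (c : τ) (l : Term τ) : Lst γ l → 0 ≤ psi γ (.node c l .nil) →
      psi γ (.node c l .nil) ≤ 1 → Lst γ (.node c l .nil)

def Shape (γ : ℝ) (t : Term τ) : Prop := ∃ c l r, t = .node c l r ∧ Lst γ l ∧ Lst γ r

variable [Inhabited τ]

/-- bundle edges with source in a node of a clause -/
def arcs (cl : Clause τ) (i : ℕ) : ℕ :=
  2300 + wt (cl.tg i) + (if (cl.kid i).isSome then 199 else 0) + (if cl.ok i then 300 else 0) +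
    (if i = 0 then 1 else 0)

structure WF (cl : Clause τ) : Prop extends PreWF cl where
  pos : 0 < cl.length
  ok0 : cl.ok 0 = false
  oks : ∀ i < cl.length, 0 < i → cl.ok i = true
  few : ∑ i ∈ range cl.length, (2 * arcs cl i - 4999) < 2000

def Sound (γ : ℝ) (Good : Term τ → Prop) (cl : Clause τ) : Prop :=
  ∀ val, Fit cl val → (∀ i < cl.length, cl.ok i = true → Good (val i)) →
    Good (val 0) ∨ (99 ≤ wt (cl.tg 0) ∧ Shape γ (val 0))

end horn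

section static
variable {τ : Type} [Fintype τ] {V : Type} [DecidableEq V] {G : SimpleGraph V}

section
variable [AP (Gm τ)]

def Dirty (L1 : ℕ) (T : Bl τ G) : Prop :=
  Tok T ∧ ∃ 𝓑 : Finset (Bl τ G), T ∈ 𝓑 ∧ (∀ B ∈ 𝓑, Own B T) ∧ 𝓑.card ≤ L1 ∧
    pot (Gm τ) G (UU 𝓑) ≤ 1826 * (mm (Gm τ) : ℝ)

def FinP (τ : Type) [Fintype τ] [AP (Gm τ)] (G : SimpleGraph V) (L1 : ℕ) (x y : V) : Prop :=
  x ≠ y ∧ ∃ 𝓣 : Finset (Bl τ G), 𝓣.card = rr (Gm τ) ∧
    ∀ T ∈ 𝓣, Dirty L1 T ∧ Att x false T ∧ Att y true T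

def FinS (τ : Type) [Fintype τ] [AP (Gm τ)] (G : SimpleGraph V) (L1 : ℕ) (x y : V) : Prop :=
  FinP τ G L1 x y ∨ FinP τ G L1 y x

def End (τ : Type) [Fintype τ] [AP (Gm τ)] (G : SimpleGraph V) (L1 : ℕ) (x : V) : Prop :=
  ∃ y, FinS τ G L1 x y

def OK1 (τ : Type) [Fintype τ] [AP (Gm τ)] (G : SimpleGraph V) (L1 : ℕ) (u v : V) : Prop :=
  (∃ B : Bl τ G, B.Base u v) ∨
  (∃ (B : Bl τ G) (k : Kind τ) (B' : Bl τ G), B ≠ B' ∧ u ∈ B.gs (k, true) ∧ v ∈ B'.gs (k, false) ∧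
    (∀ s, k ≠ .att s) ∧ ((k = .anc ∨ ∃ c, k = .tag c) → Rel B k B')) ∨
  (∃ (s : Bool) (T : Bl τ G), End τ G L1 u ∧ Att u s T ∧ v ∈ T.gs (.att s, false)) ∨
  FinP τ G L1 u v

/-- all edges of `K` outside `G` are admissible -/
def AllOK (τ : Type) [Fintype τ] [AP (Gm τ)] (G : SimpleGraph V) (L1 : ℕ) (K : SimpleGraph V) :
    Prop :=
  ∀ u v, K.Adj u v → ¬ G.Adj u v → OK1 τ G L1 u v ∨ OK1 τ G L1 v u

end

variable [WP τ]

/-- the nominal number of ordered pairs paid by an entity -/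
noncomputable def nom (c : τ) : ℕ := E2 (Gm τ) + 2 * (2499 + wt c)

structure CleanP (T : Bl τ G) (𝓤 : Finset (Bl τ G)) (tg : Bl τ G → τ)
    (ch : Bl τ G → Bool → Bl τ G) (val : Bl τ G → Term τ) : Prop where
  nil : val T = .nil
  tag : ∀ u ∈ 𝓤, Rel u (.tag (tg u)) T
  chm : ∀ u ∈ 𝓤, ∀ a, (ch u a ∈ 𝓤 ∨ ch u a = T) ∧ ch u a ≠ u
  val_eq : ∀ u ∈ 𝓤, val u = .node (tg u) (val (ch u false)) (val (ch u true))
  pt : ∀ u ∈ 𝓤, nom (tg u) ≤ cost G T u (tg u) (ch u) + 2 * min 1 (cnt G u .ok T)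

variable [AP (Gm τ)]

structure CleanD (Good : Term τ → Prop) (L0 : ℕ) (K : SimpleGraph V) (T : Bl τ G)
    (𝓤 : Finset (Bl τ G)) (tg : Bl τ G → τ) (ch : Bl τ G → Bool → Bl τ G)
    (val : Bl τ G → Term τ) : Prop extends CleanP T 𝓤 tg ch val where
  bas : ∀ u c, Rel u (.tag c) T → ∀ x y, K.Adj x y → ¬ G.Adj x y → u.Base x y → u ∈ 𝓤
  src : ∀ u c, Rel u (.tag c) T → ∀ x y, K.Adj x y → ¬ G.Adj x y → ∀ k u', u ≠ u' →
    x ∈ u.gs (k, true) → y ∈ Blob.gs u' (k, false) →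
      u ∈ 𝓤 ∧ (∀ a, k = .lnk a → u' = ch u a)
  good : ∀ u ∈ 𝓤, Good (val u)
  short : ∀ u ∈ 𝓤, Lst (gam (Gm τ)) (val u) → len (val u) ≤ L0

def Clean (Good : Term τ → Prop) (L0 : ℕ) (K : SimpleGraph V) (T : Bl τ G) : Prop :=
  ∃ 𝓤 tg ch val, CleanD Good L0 K T 𝓤 tg ch val

structure Inv (G : SimpleGraph V) (Good : Term τ → Prop) (L0 L1 : ℕ) (K : SimpleGraph V) :
    Prop where
  le : G ≤ K
  ok : AllOK τ G L1 K
  tok : ∀ T : Bl τ G, Tok T → Dirty L1 T ∨ Clean Good L0 K T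

omit [AP (Gm τ)] in
/-- the part of a copy that belongs to one token -/
structure PartD [Inhabited τ] (cl : Clause τ) (K' : SimpleGraph V) (T : Bl τ G)
    (u : ℕ → Bl τ G) : Prop where
  tok : Tok T
  inj : ∀ i < cl.length, ∀ j < cl.length, u i = u j → i = j
  tag : ∀ i < cl.length, Rel (u i) (.tag (cl.tg i)) T
  bas : ∀ i < cl.length, ∀ x y, (u i).Base x y → K'.Adj x y
  ctag : ∀ i < cl.length, 2300 + wt (cl.tg i) ≤ cnt K' (u i) (.tag (cl.tg i)) T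
  clnk : ∀ i < cl.length, ∀ p, cl.kid i = some p → ∀ a,
    lsz a ≤ cnt K' (u i) (.lnk a) (nodeOf T u (sel p a))
  cok : ∀ i < cl.length, cl.ok i = true → 300 ≤ cnt K' (u i) .ok T

end static

section graphs
variable {τ : Type} [Fintype τ] [WP τ]

omit [Fintype τ] in
/-- nodes: `0` token, `1` anchor, `i + 2` node `i` of the clause -/
def clauseBP [Inhabited τ] (cl : Clause τ) (j : ℕ) : BP τ ℕ where
  act u := u < cl.length + 2
  arc u k u' i := (u = 0 ∧ k = .anc ∧ u' = 1 ∧ i < 3999) ∨ (2 ≤ u ∧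
    ((k = .tag (cl.tg (u - 2)) ∧ u' = 0 ∧ i < 2300 + wt (cl.tg (u - 2))) ∨
     (∃ p a, cl.kid (u - 2) = some p ∧ k = .lnk a ∧ u' = nodeOf 0 (· + 2) (sel p a) ∧
        i < lsz a) ∨
     (k = .ok ∧ u' = 0 ∧ ((cl.ok (u - 2) = true ∧ i < 300) ∨ (u = 2 ∧ i = j)))))
  att _ := False
  fin := False

omit [WP τ] in
/-- nodes: `3q` token, `3q+1` anchor, `3q+2` halting entity -/
def finBP (halt : τ) : BP τ ℕ where
  act u := u < 3 * rr (Gm τ)
  arc u k u' i := (u % 3 = 0 ∧ k = .anc ∧ u' = u + 1 ∧ i < 3999) ∨ (u % 3 = 2 ∧ u' + 2 = u ∧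
    ((k = .tag halt ∧ i < 2300) ∨ (k = .ok ∧ i < 292)))
  att u := u % 3 = 0
  fin := True

def compBP [Inhabited τ] {ι : Type} (F : ι → Clause τ) (halt : τ) :
    Option (ι × Fin 300) → BP τ ℕ
  | none => finBP halt
  | some c => clauseBP (F c.1) c.2

/-- the graph `H` -/
def HG [Inhabited τ] {ι : Type} (F : ι → Clause τ) (halt : τ) (K : ℕ) : SimpleGraph (VH τ ι K) :=
  SimpleGraph.fromRel fun a b => a.1 = b.1 ∧ ((compBP F halt a.1).comap Fin.val).rel a.2 b.2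

/-- nodes of the honest witness: for each of the tokens, the token (`false`), the anchor (`true`)
and one blob per term -/
abbrev NW (τ : Type) [Fintype τ] (𝒯 : Finset (Term τ)) : Type := Fin (rr (Gm τ)) × (Bool ⊕ 𝒯)

def witBP (𝒯 : Finset (Term τ)) : BP τ (NW τ 𝒯) where
  act _ := True
  arc u k u' i := u.1 = u'.1 ∧
    ((u.2 = .inl false ∧ k = .anc ∧ u'.2 = .inl true ∧ i < 3999) ∨
     ∃ (t : 𝒯) (c : τ) (l r : Term τ), u.2 = .inr t ∧ t.1 = .node c l r ∧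
      ((k = .tag c ∧ u'.2 = .inl false ∧ i < 2300 + wt c) ∨
       ∃ a, k = .lnk a ∧ i < lsz a ∧ ((t.1.kidT a = .nil ∧ u'.2 = .inl false) ∨
        ∃ t' : 𝒯, t'.1 ≠ .nil ∧ t.1.kidT a = t'.1 ∧ u'.2 = .inr t')))
  att u := u.2 = .inl false
  fin := False

/-- the honest witness together with a private copy of `H` -/
def WG [Inhabited τ] {ι : Type} (F : ι → Clause τ) (halt : τ) (K : ℕ) (𝒯 : Finset (Term τ)) :
    SimpleGraph (Vx τ (NW τ 𝒯) ⊕ VH τ ι K) := (witBP 𝒯).graph ⊕g HG F halt K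

end graphs

section tok
variable {τ : Type} [Fintype τ] [AP (Gm τ)] {V : Type} [DecidableEq V] {G : SimpleGraph V} {L : ℕ}

theorem pot_UU_le (hs : Sparse (Gm τ) G L) (hL : 5 * mm (Gm τ) ≤ L) (𝓒 : Finset (Bl τ G))
    {n : ℝ} (h : 𝓒.card * aa (Gm τ) ≤ ((∑ u ∈ 𝓒, out G 𝓒 u : ℕ) : ℝ) + n) :
    pot (Gm τ) G (UU 𝓒) ≤ n * (mm (Gm τ) : ℝ) := by
  have h1 : ((∑ u ∈ 𝓒, out G 𝓒 u : ℕ) : ℝ) ≤ ec G (UU 𝓒) := by
    exact_mod_cast master hs.old hL G 𝓒
  unfold pot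
  rw [card_UU hs.old hL, Nat.cast_mul]
  have h3 : (0 : ℝ) ≤ mm (Gm τ) := Nat.cast_nonneg _
  nlinarith [mul_le_mul_of_nonneg_left (h.trans (add_le_add_left h1 n)) h3]

/-- the token and its anchor cost at most `2008` -/
theorem pot_tok_le (hs : Sparse (Gm τ) G L) (hL : 5 * mm (Gm τ) ≤ L) {T T' : Bl τ G}
    (hT : Rel T .anc T') (𝓤 : Finset (Bl τ G)) (h : ∀ u ∈ 𝓤, ∃ c, Rel u (.tag c) T) {n : ℝ}
    (hsum : 𝓤.card * aa (Gm τ) + n ≤ ((∑ u ∈ 𝓤, out G (insert T 𝓤) u : ℕ) : ℝ)) :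
    pot (Gm τ) G (UU (insert T (insert T' 𝓤))) ≤ (2008 - n) * (mm (Gm τ) : ℝ) := by
  obtain ⟨h1, h2⟩ := uniq_notMem hs.old hL hT 𝓤 h
  refine pot_UU_le hs hL _ ?_
  rw [card_insert_of_notMem h1, card_insert_of_notMem h2, sum_insert h1, sum_insert h2]
  have e1 := le_out G (𝓒 := insert T (insert T' 𝓤)) T {(Kind.anc, T')} (by
    intro d hd
    rw [mem_singleton] at hd
    subst hd
    exact ⟨by simp, hT.1.symm⟩)
  have e2 := le_out G (𝓒 := insert T (insert T' 𝓤)) T' ∅ (by simp)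
  rw [sum_singleton] at e1
  rw [sum_empty] at e2
  dsimp only at e1
  have e3 := Blob.ec_ge T
  have e4 := Blob.ec_ge T'
  have e5 := uniq_anc hT
  have e6 : ∑ u ∈ 𝓤, out G (insert T 𝓤) u ≤ ∑ u ∈ 𝓤, out G (insert T (insert T' 𝓤)) u :=
    sum_le_sum fun u _ => out_mono le_rfl (insert_subset_insert _ (subset_insert _ _)) u
  have e7 : AA (Gm τ) = E2 (Gm τ) + 5000 := rfl
  have e8 : 2 * AA (Gm τ) + ∑ u ∈ 𝓤, out G (insert T 𝓤) u ≤
      out G (insert T (insert T' 𝓤)) T + (out G (insert T (insert T' 𝓤)) T' +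
        ∑ u ∈ 𝓤, out G (insert T (insert T' 𝓤)) u) + 2008 := by omega
  have e9 : 2 * (AA (Gm τ) : ℝ) + ((∑ u ∈ 𝓤, out G (insert T 𝓤) u : ℕ) : ℝ) ≤
      ((out G (insert T (insert T' 𝓤)) T + (out G (insert T (insert T' 𝓤)) T' +
        ∑ u ∈ 𝓤, out G (insert T (insert T' 𝓤)) u) : ℕ) : ℝ) + 2008 := by exact_mod_cast e8
  have e10 := aa_hi (Gm τ)
  rw [Nat.cast_add, Nat.cast_add, Nat.cast_one]
  linarith

theorem dirty_of_sum (hs : Sparse (Gm τ) G L) (hL : 5 * mm (Gm τ) ≤ L) {L1 : ℕ} {T : Bl τ G}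
    (hT : Tok T) (𝓤 : Finset (Bl τ G)) (h : ∀ u ∈ 𝓤, ∃ c, Rel u (.tag c) T)
    (hc : 𝓤.card + 2 ≤ L1) (hsum : 𝓤.card * aa (Gm τ) + 182 ≤
      ((∑ u ∈ 𝓤, out G (insert T 𝓤) u : ℕ) : ℝ)) : Dirty L1 T := by
  obtain ⟨T', hT'⟩ := id hT
  have e3 := pot_tok_le hs hL hT' 𝓤 h hsum
  refine ⟨hT, insert T (insert T' 𝓤), mem_insert_self _ _, fun B hB => ?_, ?_, ?_⟩
  · rcases mem_insert.1 hB with rfl | hB
    · exact Or.inl rfl
    rcases mem_insert.1 hB with rfl | hB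
    · exact Or.inr (Or.inl hT')
    · exact Or.inr (Or.inr (h B hB))
  · have := card_insert_le T (insert T' 𝓤)
    have := card_insert_le T' 𝓤
    omega
  · linarith

theorem dirty_of_surplus (hs : Sparse (Gm τ) G L) (hL : 5 * mm (Gm τ) ≤ L) {L1 : ℕ} {T : Bl τ G}
    (hT : Tok T) (𝓤 : Finset (Bl τ G)) (h : ∀ u ∈ 𝓤, ∃ c, Rel u (.tag c) T)
    (hc : 𝓤.card + 2 ≤ L1) (x y : V) (hsum : 𝓤.card * aa (Gm τ) + 184 ≤
      ((∑ u ∈ 𝓤, out (G ⊔ SimpleGraph.edge x y) (insert T 𝓤) u : ℕ) : ℝ)) : Dirty L1 T := by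
  have e1 : ∑ u ∈ 𝓤, out (G ⊔ SimpleGraph.edge x y) (insert T 𝓤) u ≤
      ∑ u ∈ 𝓤, out G (insert T 𝓤) u + ∑ u ∈ 𝓤, out (SimpleGraph.edge x y) (insert T 𝓤) u := by
    rw [← sum_add_distrib]
    exact sum_le_sum fun u _ => out_sup_le _ _ _ u
  have e2 : ∑ u ∈ 𝓤, out (SimpleGraph.edge x y) (insert T 𝓤) u ≤ 2 :=
    (sum_le_sum_of_subset (subset_insert T 𝓤)).trans (sum_out_edge hs.old hL x y _)
  have e3 : ∑ u ∈ 𝓤, out (G ⊔ SimpleGraph.edge x y) (insert T 𝓤) u ≤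
      ∑ u ∈ 𝓤, out G (insert T 𝓤) u + 2 := by omega
  have e4 : ((∑ u ∈ 𝓤, out (G ⊔ SimpleGraph.edge x y) (insert T 𝓤) u : ℕ) : ℝ) ≤
      ((∑ u ∈ 𝓤, out G (insert T 𝓤) u : ℕ) : ℝ) + 2 := by exact_mod_cast e3
  exact dirty_of_sum hs hL hT 𝓤 h hc (by linarith)

theorem card_le_of_small {L0 : ℕ} (hs : Sparse (Gm τ) G L) (hL : 5 * mm (Gm τ) ≤ L)
    (hsm : Small (Gm τ) G L L0) {T : Bl τ G} (hT : Tok T) (𝓤 : Finset (Bl τ G))
    (h : ∀ u ∈ 𝓤, ∃ c, Rel u (.tag c) T) (hc : (𝓤.card + 2) * mm (Gm τ) ≤ L)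
    (hsum : 𝓤.card * aa (Gm τ) - 2 ≤ ((∑ u ∈ 𝓤, out G (insert T 𝓤) u : ℕ) : ℝ)) :
    𝓤.card ≤ L0 := by
  obtain ⟨T', hT'⟩ := hT
  have e3 := pot_tok_le hs hL hT' 𝓤 h (n := -2) (by linarith)
  have e4 : (UU (insert T (insert T' 𝓤))).card ≤ L := by
    refine (card_UU_le _).trans (le_trans (Nat.mul_le_mul_right _ ?_) hc)
    have := card_insert_le T (insert T' 𝓤)
    have := card_insert_le T' 𝓤
    omega
  have e5 := hsm _ e4 (by linarith)
  refine le_trans ?_ e5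
  rw [ec_UU hs.old hL]
  have e6 : 3 ≤ E2 (Gm τ) := by
    have a1 := AA_ge' (Γ := Gm τ)
    have a2 := mm_ge (Γ := Gm τ)
    have a3 := sG_ge (Γ := Gm τ)
    have a4 : AA (Gm τ) = E2 (Gm τ) + 5000 := rfl
    omega
  calc 𝓤.card = ∑ _B ∈ 𝓤, 1 := by simp
    _ ≤ ∑ B ∈ 𝓤, (ec G B.1 + ∑ B' ∈ (insert T (insert T' 𝓤)).erase B, cross G B.1 B'.1) := by
      refine sum_le_sum fun B _ => ?_
      have := Blob.ec_ge B
      omega
    _ ≤ _ := sum_le_sum_of_subset ((subset_insert _ _).trans (subset_insert _ _))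

end tok

end Pool.Agent.HI
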