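import Pool.Agent.P.HI.I6

/-! Connectors: tokens with anchors that join the components of the graph. -/

open Finset

namespace Pool.Agent.HI

open Pool.Agent.HB

section defs
variable {τ : Type} [Fintype τ]

/-- pairs of a token and its anchor -/
def pairBP (τ J : Type) : BP τ (J × Bool) where
  act _ := True
  arc u k u' i := u.1 = u'.1 ∧ u.2 = false ∧ k = .anc ∧ u'.2 = true ∧ i < 3999
  att _ := False
  fin := False

/-- an end of a link edge -/
def lend {N : Type} (u : N) (a s : Bool) : Vx τ N := .inr (u, .inl ((.lnk a, s), 0))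

/-- a graph together with connectors, each of which sends at most two link edges -/
def Attach {V0 J : Type} (G0 : SimpleGraph V0) (tgt : J → Bool → Option (V0 ⊕ Vx τ (J × Bool))) :
    SimpleGraph (V0 ⊕ Vx τ (J × Bool)) :=
  SimpleGraph.fromRel fun v w => (G0 ⊕g (pairBP τ J).graph).Adj v w ∨
    ∃ j a, v = .inr (lend (j, false) a true) ∧ tgt j a = some w

abbrev CI (ι : Type) : Type := Option (ι × Fin 300)

/-- the links of the connected graph -/
def tgtH {ι : Type} {Kn : ℕ} (z : Fin Kn) :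
    Option (CI ι) → Bool → Option (VH τ ι Kn ⊕ Vx τ (Option (CI ι) × Bool))
  | none, _ => none
  | some c, false => some (.inl (c, lend z false false))
  | some _, true => some (.inr (lend (none, false) true false))

/-- the graph `H` with its connectors -/
def HC [WP τ] [Inhabited τ] {ι : Type} (F : ι → Clause τ) (halt : τ) {Kn : ℕ} (z : Fin Kn) :
    SimpleGraph (VH τ ι Kn ⊕ Vx τ (Option (CI ι) × Bool)) := Attach (HG F halt Kn) (tgtH z)

/-- the links of the witness -/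
def tgtW {ι : Type} {Kn : ℕ} (z : Fin Kn) (𝒯 : Finset (Term τ)) :
    Option (CI ι) ⊕ Fin (rr (Gm τ)) → Bool → Option ((Vx τ (NW τ 𝒯) ⊕ VH τ ι Kn) ⊕
      Vx τ ((Option (CI ι) ⊕ Fin (rr (Gm τ))) × Bool))
  | .inl none, _ => none
  | .inl (some c), false => some (.inl (.inr (c, lend z false false)))
  | .inr q, false => some (.inl (.inl (lend (q, .inl false) false false)))
  | _, true => some (.inr (lend (.inl none, false) true false))

/-- the witness with its connectors -/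
def WC [WP τ] [Inhabited τ] {ι : Type} (F : ι → Clause τ) (halt : τ) {Kn : ℕ} (z : Fin Kn)
    (𝒯 : Finset (Term τ)) := Attach (WG F halt Kn 𝒯) (tgtW (ι := ι) z 𝒯)

/-- two tokens with their anchors and a link between them -/
def conBP (τ : Type) (a : Bool) : BP τ ℕ where
  act u := u < 4
  arc u k u' i := ((u = 0 ∨ u = 2) ∧ k = .anc ∧ u' = u + 1 ∧ i < 3999) ∨
    (u = 0 ∧ k = .lnk a ∧ u' = 2 ∧ i = 0)
  att _ := False
  fin := False

end defs

section sparse
variable {τ : Type} [Fintype τ] {V0 J : Type}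

theorem pair_na (M : Finset (J × Bool)) : 2 * (pairBP τ J).na M ≤ 3999 * M.card := by
  classical
  have h1 : (pairBP τ J).na M ≤ 3999 * (M.filter fun u => u.2 = false ∧ (u.1, true) ∈ M).card := by
    rw [spb_na, ← spb_sum_ite]
    refine sum_le_sum fun u _ => ?_
    split_ifs with h
    · refine spb_one (u.1, true) .anc 3999 ?_
      rintro u' - k i ⟨h1, -, h2, h3, h4⟩
      exact ⟨Prod.ext h1.symm h3, h2, h4⟩
    · refine spb_zero ?_
      rintro u' hu' k i ⟨h1, h5, -, h3, -⟩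
      exact h ⟨h5, (Prod.ext h1 h3.symm : (u.1, true) = u') ▸ hu'⟩
  have h2 : (M.filter fun u => u.2 = false ∧ (u.1, true) ∈ M).card ≤
      (M.filter fun u => u.2 = false).card :=
    card_le_card fun u hu => mem_filter.2 ⟨(mem_filter.1 hu).1, (mem_filter.1 hu).2.1⟩
  have h3 : (M.filter fun u => u.2 = false ∧ (u.1, true) ∈ M).card ≤
      (M.filter fun u => ¬ u.2 = false).card := by
    refine card_le_card_of_injOn (fun u => (u.1, true)) (fun u hu => ?_) fun u hu u' hu' e => ?_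
    · exact mem_coe.2 (mem_filter.2 ⟨(mem_filter.1 (mem_coe.1 hu)).2.2, by simp⟩)
    · exact Prod.ext (Prod.mk.inj e).1 ((mem_filter.1 (mem_coe.1 hu)).2.1.trans
        (mem_filter.1 (mem_coe.1 hu')).2.1.symm)
  have h4 := card_filter_add_card_filter_not (s := M) (fun u => u.2 = false)
  omega

theorem attach_ec {x : ℝ} (g1 : (AA (Gm τ) : ℝ) - 1 ≤ x) (g2 : x ≤ AA (Gm τ)) [Fintype J]
    (G0 : SimpleGraph V0)
    (tgt : J → Bool → Option (V0 ⊕ Vx τ (J × Bool))) (X : Finset (V0 ⊕ Vx τ (J × Bool))) :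
    (mm (Gm τ) : ℝ) * ec (Attach G0 tgt) X ≤
      mm (Gm τ) * ec G0 X.toLeft + x * X.toRight.card := by
  classical
  have h1 := spa_ec_le (fun v w => (G0 ⊕g (pairBP τ J).graph).Adj v w ∨
    ∃ j a, v = .inr (lend (j, false) a true) ∧ tgt j a = some w) (G0 ⊕g (pairBP τ J).graph).Adj
    (fun v w => ∃ j a, v = .inr (lend (j, false) a true) ∧ tgt j a = some w)
    (fun _ _ h => h.symm) (fun _ _ h => h) X
  have h2 : (spa_pairs (G0 ⊕g (pairBP τ J).graph).Adj X).card =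
      ec (G0 ⊕g (pairBP τ J).graph) X := rfl
  have h3 := spc_sum G0 (pairBP τ J).graph X
  have h4 : (spa_pairs (fun v w => ∃ j a, v = .inr (lend (j, false) a true) ∧ tgt j a = some w)
      X).card ≤ ((pairBP τ J).met X.toRight).card * 2 := by
    refine le_trans (card_le_card (t := (((pairBP τ J).met X.toRight) ×ˢ (univ : Finset Bool)).image
      fun q => (.inr (lend (q.1.1, false) q.2 true), (tgt q.1.1 q.2).getD (.inr (.inl false))))
      fun p hp => ?_) (card_image_le.trans (by simp))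
    obtain ⟨h5, -, j, a, h6, h7⟩ := spa_mem_pairs.1 hp
    refine mem_image.2 ⟨((j, false), a), mem_product.2 ⟨spa_mem_met.2 ⟨trivial,
      .inl ((.lnk a, true), 0), mem_toRight.2 ?_⟩, mem_univ _⟩, Prod.ext h6.symm (by simp [h7])⟩
    rw [h6] at h5
    exact h5
  have hp := bp_pot g1 g2 (pairBP τ J) X.toRight
  have h5 := pair_na (τ := τ) ((pairBP τ J).met X.toRight)
  have h6 : (pairBP τ J).nt ((pairBP τ J).met X.toRight) = 0 := by
    unfold BP.nt
    rw [card_eq_zero, filter_eq_empty_iff]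
    exact fun _ _ h => h
  rw [if_neg fun h => h.1, h6] at hp
  obtain ⟨hm, hA⟩ := main_pos (τ := τ)
  have h7 : ec (Attach G0 tgt) X ≤ ec G0 X.toLeft + ec (pairBP τ J).graph X.toRight +
      4 * ((pairBP τ J).met X.toRight).card := by
    unfold Attach
    omega
  have h8 : (ec (Attach G0 tgt) X : ℝ) ≤ ec G0 X.toLeft + ec (pairBP τ J).graph X.toRight +
      4 * ((pairBP τ J).met X.toRight).card := by exact_mod_cast h7
  have h9 : (2 * (pairBP τ J).na ((pairBP τ J).met X.toRight) : ℝ) ≤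
      3999 * ((pairBP τ J).met X.toRight).card := by exact_mod_cast h5
  have h10 := mul_le_mul_of_nonneg_left h8 hm.le
  have h11 := mul_le_mul_of_nonneg_left h9 hm.le
  have h12 : (0 : ℝ) ≤ x * (pl X.toRight + (pairBP τ J).junk X.toRight) :=
    mul_nonneg (by linarith) (by positivity)
  have h13 : (0 : ℝ) ≤ (x - E2 (Gm τ) - 4003) * (mm (Gm τ) * ((pairBP τ J).met X.toRight).card) :=
    mul_nonneg (by linarith [AA_cast (τ := τ)]) (by positivity)
  push_cast at hp
  linarith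

theorem attach_inl (G0 : SimpleGraph V0) (tgt : J → Bool → Option (V0 ⊕ Vx τ (J × Bool)))
    {a b : V0} : (Attach G0 tgt).Adj (.inl a) (.inl b) ↔ G0.Adj a b := by
  simp only [Attach, SimpleGraph.fromRel_adj, SimpleGraph.sum_adj_inl, reduceCtorEq, false_and,
    exists_false, or_false, ne_eq, Sum.inl.injEq]
  exact ⟨fun h => h.2.elim id fun h => h.symm, fun h => ⟨h.ne, Or.inl h⟩⟩

theorem attach_inr (G0 : SimpleGraph V0) (tgt : J → Bool → Option (V0 ⊕ Vx τ (J × Bool)))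
    {a b : Vx τ (J × Bool)} (h : (pairBP τ J).rel a b) :
    (Attach G0 tgt).Adj (.inr a) (.inr b) := by
  refine (SimpleGraph.fromRel_adj _ _ _).2 ⟨fun e => copy_ne h (Sum.inr_injective e),
    Or.inl (Or.inl (SimpleGraph.sum_adj_inr.2 ?_))⟩
  exact (SimpleGraph.fromRel_adj _ _ _).2 ⟨copy_ne h, Or.inl h⟩

theorem attach_lnk (G0 : SimpleGraph V0) (tgt : J → Bool → Option (V0 ⊕ Vx τ (J × Bool)))
    {j : J} {a : Bool} {w : V0 ⊕ Vx τ (J × Bool)} (h : tgt j a = some w)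
    (hne : .inr (lend (j, false) a true) ≠ w) :
    (Attach G0 tgt).Adj (.inr (lend (j, false) a true)) w :=
  (SimpleGraph.fromRel_adj _ _ _).2 ⟨hne, Or.inl (Or.inr ⟨j, a, rfl, h⟩)⟩

/-- the three kinds of edges -/
theorem attach_cases (G0 : SimpleGraph V0) (tgt : J → Bool → Option (V0 ⊕ Vx τ (J × Bool)))
    {v w : V0 ⊕ Vx τ (J × Bool)} (h : (Attach G0 tgt).Adj v w) :
    (∃ a b, G0.Adj a b ∧ s(v, w) = s(.inl a, .inl b)) ∨
    (∃ a b, (pairBP τ J).rel a b ∧ s(v, w) = s(.inr a, .inr b)) ∨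
    ∃ j a u, tgt j a = some u ∧ s(v, w) = s(.inr (lend (j, false) a true), u) := by
  have key : ∀ v w : V0 ⊕ Vx τ (J × Bool), ((G0 ⊕g (pairBP τ J).graph).Adj v w ∨
      ∃ j a, v = .inr (lend (j, false) a true) ∧ tgt j a = some w) →
      (∃ a b, G0.Adj a b ∧ s(v, w) = s(.inl a, .inl b)) ∨
      (∃ a b, (pairBP τ J).rel a b ∧ s(v, w) = s(.inr a, .inr b)) ∨
      ∃ j a u, tgt j a = some u ∧ s(v, w) = s(.inr (lend (j, false) a true), u) := by
    rintro v w (h | ⟨j, a, rfl, h⟩)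
    · rcases v with a | a <;> rcases w with b | b
      · exact Or.inl ⟨a, b, SimpleGraph.sum_adj_inl.1 h, rfl⟩
      · simp at h
      · simp at h
      · rcases ((SimpleGraph.fromRel_adj _ _ _).1 (SimpleGraph.sum_adj_inr.1 h)).2 with h | h
        · exact Or.inr (Or.inl ⟨a, b, h, rfl⟩)
        · exact Or.inr (Or.inl ⟨b, a, h, Sym2.eq_swap⟩)
    · exact Or.inr (Or.inr ⟨j, a, w, h, rfl⟩)
  rcases ((SimpleGraph.fromRel_adj _ _ _).1 h).2 with h | h
  · exact key v w h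
  · rw [Sym2.eq_swap]
    exact key w v h

end sparse

section lower
variable {τ : Type} [Fintype τ] [WP τ] [Inhabited τ] {V : Type} [DecidableEq V] {G K : SimpleGraph V}
  {L0 L1 : ℕ} {Good : Term τ → Prop} {x y : V}

omit [Inhabited τ] in
theorem inv_con [AP (Gm τ)] (hs : Sparse (Gm τ) G (LL (Gm τ) L1)) {a : Bool} (hI : Inv G Good L0 L1 K)
    {B : ℕ → Bl τ G} {z : Bool → V} (h : CopyD (conBP τ a) K x y B z) :
    Inv G Good L0 L1 (K ⊔ SimpleGraph.edge x y) := by
  have hL := LL_ge (Γ := Gm τ) L1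
  have hne : ∀ i i', i < 4 → i' < 4 → i ≠ i' → B i ≠ B i' :=
    fun i i' h1 h2 h3 e => h3 (h.inj i i' h1 h2 e)
  have hanc : ∀ u, u = 0 ∨ u = 2 → Rel (B u) .anc (B (u + 1)) := fun u hu =>
    rel_of_cnt hs hI.ok (hne _ _ (by omega) (by omega) (by omega)) (Or.inl rfl)
      (h.cn u .anc (u + 1) 3999 (show u < 4 by omega) (show u + 1 < 4 by omega) (by omega)
        (by omega) fun i hi => Or.inl ⟨hu, rfl, rfl, hi⟩)
  have hloc : (∃ u, (conBP τ a).act u ∧ (B u).Base x y) ∨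
      ∃ u k u' i, (conBP τ a).act u ∧ (conBP τ a).act u' ∧ u ≠ u' ∧
        (conBP τ a).arc u k u' i ∧ Loc x y (B u) k (B u') := by
    rcases h.loc with h1 | h1 | ⟨u, s, -, h1, -⟩ | ⟨h1, -⟩
    exacts [Or.inl h1, Or.inr h1, h1.elim, h1.elim]
  obtain ⟨u₀, hu₀, hsrc⟩ : ∃ u, u < 4 ∧ Src x y (B u) := by
    rcases hloc with ⟨u, h1, h2⟩ | ⟨u, k, u', i, h1, h2, h3, -, h4⟩
    exacts [⟨u, h1, Or.inl h2⟩, ⟨u, h1, Or.inr ⟨k, _, hne _ _ h1 h2 h3, h4⟩⟩]
  refine ⟨hI.le.trans le_sup_left, invc_allok hI.ok ?_, fun T hT => ?_⟩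
  · rcases hloc with ⟨u, -, h2⟩ | ⟨u, k, u', i, h1, h2, h3, h4, h5⟩
    · exact Or.inl (Or.inl ⟨_, h2⟩)
    · refine invc_loc h5 (hne _ _ h1 h2 h3) ?_ ?_
      · rintro s rfl
        rcases h4 with ⟨-, h6, -⟩ | ⟨-, h6, -⟩ <;> cases h6
      · intro hk
        rcases h4 with ⟨h6, rfl, rfl, -⟩ | ⟨-, rfl, -⟩
        · exact hanc u h6
        · rcases hk with h6 | ⟨c, h6⟩ <;> cases h6
  refine (hI.tok T hT).imp id fun hc => clean_other hc fun w c hr hw => ?_
  obtain rfl := src_unique hs.old hL hw hsrc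
  have h0 := tag_not_anc hs.old hL hr hT (hanc 0 (Or.inl rfl))
  have h2 := tag_not_anc hs.old hL hr hT (hanc 2 (Or.inr rfl))
  interval_cases u₀
  exacts [h0.1 rfl, h0.2 rfl, h2.1 rfl, h2.2 rfl]

omit [Inhabited τ] [WP τ] [DecidableEq V] in
theorem fire_of_hom {W : Type} {H : SimpleGraph W} {β : BP τ ℕ} (ψ : Vx τ ℕ → W)
    (h1 : ∀ a b, β.live a → β.live b → ψ a = ψ b → a = b) (h2 : ∀ a b, β.rel a b → H.Adj (ψ a) (ψ b))
    (f : W ↪ V) (hf : ∀ a b, H.Adj a b → K.Adj (f a) (f b) ∨ s(f a, f b) = s(x, y))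
    {a b : Vx τ ℕ} (hab : β.rel a b) (e : s(f (ψ a), f (ψ b)) = s(x, y)) :
    Fire β (fun a => f (ψ a)) K x y := by
  refine ⟨fun a b ha hb e => h1 a b ha hb (f.injective e), fun a b h => ?_, a, b, hab, e⟩
  rcases hf _ _ (h2 a b h) with h3 | h3
  · exact Or.inl h3
  · exact Or.inr ((SimpleGraph.edge_adj _ _ _ _).2
      ⟨Sym2.eq_iff.1 h3, fun e1 => (h2 a b h).ne (f.injective e1)⟩)

variable {ι : Type} {F : ι → Clause τ} {halt : τ} {Kn : ℕ}

omit [WP τ] in
/-- the four blobs around a link -/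
def conMap (z o : Fin Kn) (c : CI ι) (s : Bool) :
    Vx τ ℕ → VH τ ι Kn ⊕ Vx τ (Option (CI ι) × Bool)
  | .inl b => .inr (.inl b)
  | .inr (0, t) => .inr (.inr ((some c, false), t))
  | .inr (1, t) => .inr (.inr ((some c, true), t))
  | .inr (2, t) => cond s (.inr (.inr ((none, false), t))) (.inl (c, .inr (z, t)))
  | .inr (_ + 3, t) => cond s (.inr (.inr ((none, true), t))) (.inl (c, .inr (o, t)))

theorem comp_zero (c : CI ι) : (compBP F halt c).act 0 ∧ (compBP F halt c).act 1 ∧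
    ∀ i < 3999, (compBP F halt c).arc 0 .anc 1 i := by
  have hr1 : 1 ≤ rr (Gm τ) := rr_pos
  rcases c with _ | c
  · exact ⟨show 0 < 3 * rr (Gm τ) by omega, show 1 < 3 * rr (Gm τ) by omega,
      fun i hi => Or.inl ⟨rfl, rfl, rfl, hi⟩⟩
  · exact ⟨show 0 < (F c.1).length + 2 by omega, show 1 < (F c.1).length + 2 by omega,
      fun i hi => Or.inl ⟨rfl, rfl, rfl, hi⟩⟩

omit [Inhabited τ] [WP τ] in
theorem conMap_inj {z o : Fin Kn} (hz : z.1 = 0) (ho : o.1 = 1) (c : CI ι) (s : Bool)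
    (a b : Vx τ ℕ) (ha : (conBP τ s).live a) (hb : (conBP τ s).live b)
    (e : conMap z o c s a = conMap z o c s b) : a = b := by
  have hzo : z ≠ o := fun e => by rw [e] at hz; omega
  rcases a with a | ⟨u, t⟩ <;> rcases b with b | ⟨u', t'⟩
  · simpa [conMap] using e
  · change u' < 4 at hb
    interval_cases u' <;> cases s <;> simp [conMap] at e
  · change u < 4 at ha
    interval_cases u <;> cases s <;> simp [conMap] at e
  · change u < 4 at ha
    change u' < 4 at hb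
    interval_cases u <;> interval_cases u' <;> cases s <;> simp [conMap, hzo, hzo.symm] at e ⊢ <;>
      exact e

theorem conMap_adj {z o : Fin Kn} (hz : z.1 = 0) (ho : o.1 = 1) (c : CI ι) (s : Bool)
    (a b : Vx τ ℕ) (h : (conBP τ s).rel a b) :
    (HC F halt z).Adj (conMap z o c s a) (conMap z o c s b) := by
  obtain ⟨a0, a1, a2⟩ := comp_zero (F := F) (halt := halt) c
  have hP : ∀ (u : Option (CI ι) × Bool) t t', base t t' →
      (HC F halt z).Adj (.inr (.inr (u, t))) (.inr (.inr (u, t'))) := fun u t t' h =>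
    attach_inr _ _ ⟨trivial, trivial, Or.inl ⟨rfl, h⟩⟩
  have hQ : ∀ (j : Option (CI ι)) (i : Fin 4000), (i : ℕ) < 3999 →
      (HC F halt z).Adj (.inr (.inr ((j, false), .inl ((.anc, true), i))))
        (.inr (.inr ((j, true), .inl ((.anc, false), i)))) := fun j i hi =>
    attach_inr _ _ ⟨trivial, trivial, Or.inr ⟨by simp, .anc, i, ⟨rfl, rfl, rfl, rfl, hi⟩, rfl, rfl⟩⟩
  have hH : ∀ (u : Fin Kn) t t', (compBP F halt c).act u → base t t' →
      (HC F halt z).Adj (.inl (c, .inr (u, t))) (.inl (c, .inr (u, t'))) := fun u t t' hu h =>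
    (attach_inl _ _).2 (copy_adj F halt c ⟨hu, hu, Or.inl ⟨rfl, h⟩⟩)
  rcases a with a | ⟨u, t⟩ <;> rcases b with b | ⟨u', t'⟩
  · exact h.1.elim
  · exact h.2.1.elim
  · exact h.elim
  obtain ⟨h1, h2, ⟨h3, h4⟩ | ⟨h3, k, i, h4, h5, h6⟩⟩ := h
  · obtain rfl : u = u' := h3
    change u < 4 at h1
    interval_cases u <;> cases s
    all_goals first
      | exact hP _ _ _ h4
      | exact hH _ _ _ (hz ▸ a0) h4
      | exact hH _ _ _ (ho ▸ a1) h4
  · obtain rfl : t = _ := h5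
    obtain rfl : t' = _ := h6
    rcases h4 with ⟨h7, rfl, h8, h9⟩ | ⟨h7, rfl, h8, h9⟩
    · obtain rfl : u' = u + 1 := h8
      rcases h7 with h7 | h7
      · obtain rfl : u = 0 := h7
        exact hQ _ i h9
      · obtain rfl : u = 2 := h7
        cases s
        · refine (attach_inl _ _).2 (copy_adj F halt c ⟨show (compBP F halt c).act z.1 from hz ▸ a0,
            show (compBP F halt c).act o.1 from ho ▸ a1, Or.inr ⟨?_, .anc, i, ?_, rfl, rfl⟩⟩)
          · show z.1 ≠ o.1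
            omega
          · show (compBP F halt c).arc z.1 .anc o.1 i
            rw [hz, ho]
            exact a2 i h9
        · exact hQ _ i h9
    · obtain rfl : u = 0 := h7
      obtain rfl : u' = 2 := h8
      obtain rfl : i = 0 := Fin.ext h9
      cases s
      · exact attach_lnk _ _ (j := some c) (a := false) rfl (by simp [conMap])
      · exact attach_lnk _ _ (j := some c) (a := true) rfl (by simp [conMap, lend])

theorem fire_HC (hF : ∀ c, (F c).length + 2 ≤ Kn) (hr : 3 * rr (Gm τ) ≤ Kn) {z : Fin Kn}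
    (hz : z.1 = 0) (h : (step (HC F halt z) K).Adj x y) (h' : ¬ K.Adj x y) :
    (∃ c φ, Fire (compBP F halt c) φ K x y) ∨ ∃ s φ, Fire (conBP τ s) φ K x y := by
  have hr1 : 1 ≤ rr (Gm τ) := rr_pos
  obtain ⟨o, ho⟩ : ∃ o : Fin Kn, o.1 = 1 := ⟨⟨1, by omega⟩, rfl⟩
  obtain ⟨hxy, f, ⟨v, w, hvw, e⟩, hf⟩ := h.resolve_left h'
  have key : ∀ v' w', s(v, w) = s(v', w') → s(f v', f w') = s(x, y) := by
    intro v' w' e'
    rw [← e]
    exact (congrArg (Sym2.map f) e').symm
  have fire : ∀ c s a b, (conBP τ s).rel a b → s(v, w) = s(conMap z o c s a, conMap z o c s b) →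
      ∃ s φ, Fire (conBP τ s) φ K x y := fun c s a b h1 h2 =>
    ⟨s, _, fire_of_hom (conMap z o c s) (conMap_inj hz ho c s) (conMap_adj hz ho c s) f hf h1
      (key _ _ h2)⟩
  rcases attach_cases _ _ hvw with ⟨a, b, h1, h2⟩ | ⟨a, b, h1, h2⟩ | ⟨j, a, u, h1, h2⟩
  · refine Or.inl (fire_of_step F halt hF hr (Or.inr ⟨hxy, Function.Embedding.inl.trans f,
      ⟨a, b, h1, key _ _ h2⟩, fun a b h => hf _ _ ((attach_inl _ _).2 h)⟩) h')
  · right
    rcases a with a | ⟨⟨j, s⟩, t⟩ <;> rcases b with b | ⟨⟨j', s'⟩, t'⟩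
    · exact h1.1.elim
    · exact h1.2.1.elim
    · exact h1.elim
    obtain ⟨-, -, ⟨h3, h4⟩ | ⟨h3, k, i, ⟨h4, h5, h6, h7, h8⟩, h9, h10⟩⟩ := h1
    · obtain ⟨rfl, rfl⟩ := Prod.mk.inj h3
      rcases j with _ | c <;> cases s
      · exact fire none true (.inr (2, t)) (.inr (2, t'))
          ⟨show 2 < 4 by omega, show 2 < 4 by omega, Or.inl ⟨rfl, h4⟩⟩ h2
      · exact fire none true (.inr (3, t)) (.inr (3, t'))
          ⟨show 3 < 4 by omega, show 3 < 4 by omega, Or.inl ⟨rfl, h4⟩⟩ h2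
      · exact fire c true (.inr (0, t)) (.inr (0, t'))
          ⟨show 0 < 4 by omega, show 0 < 4 by omega, Or.inl ⟨rfl, h4⟩⟩ h2
      · exact fire c true (.inr (1, t)) (.inr (1, t'))
          ⟨show 1 < 4 by omega, show 1 < 4 by omega, Or.inl ⟨rfl, h4⟩⟩ h2
    · obtain rfl : j = j' := h4
      obtain rfl : s = false := h5
      obtain rfl : s' = true := h7
      rcases j with _ | c
      · exact fire none true (.inr (2, t)) (.inr (3, t')) ⟨show 2 < 4 by omega, show 3 < 4 by omega,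
          Or.inr ⟨by simp, k, i, Or.inl ⟨Or.inr rfl, h6, rfl, h8⟩, h9, h10⟩⟩ h2
      · exact fire c true (.inr (0, t)) (.inr (1, t')) ⟨show 0 < 4 by omega, show 1 < 4 by omega,
          Or.inr ⟨by simp, k, i, Or.inl ⟨Or.inl rfl, h6, rfl, h8⟩, h9, h10⟩⟩ h2
  · right
    rcases j with _ | c
    · cases h1
    · refine fire c a (lend 0 a true) (lend 2 a false) ⟨show 0 < 4 by omega, show 2 < 4 by omega,
        Or.inr ⟨by simp, .lnk a, 0, Or.inr ⟨rfl, rfl, rfl, rfl⟩, rfl, rfl⟩⟩ ?_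
      cases a <;> obtain rfl := Option.some.inj h1 <;> exact h2

end lower

section lower2
variable {τ : Type} [Fintype τ] [WP τ] [AP (Gm τ)] [Inhabited τ] {ι : Type} {F : ι → Clause τ}
  {halt : τ} {Kn : ℕ} {Good : Term τ → Prop}

theorem lowerC_det {V : Type} [Fintype V] [DecidableEq V] {G : SimpleGraph V} {L0 : ℕ}
    (hw : ∀ c, WF (F c)) (hso : ∀ c, Sound (gam (Gm τ)) Good (F c))
    (hS : ∀ t, Good t → Shape (gam (Gm τ)) t) (hG : ∀ l r, ¬ Good (.node halt l r))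
    (hF : ∀ c, (F c).length + 2 ≤ Kn) (hr : 3 * rr (Gm τ) ≤ Kn) {o : Fin Kn} (ho : o.1 = 0)
    (hs : Sparse (Gm τ) G (LL (Gm τ) (4 * L0 + 4))) (hsm : Small (Gm τ) G (LL (Gm τ) (4 * L0 + 4)) L0)
    (Rt : Finset V) (h3 : Rt.card = 3) (hpl : ∀ v ∈ Rt, Plain (Gm τ) G v)
    (hna : ∀ u ∈ Rt, ∀ v ∈ Rt, ¬ G.Adj u v) : bootClosure (HC F halt o) G ≠ ⊤ := by
  intro htop
  have hr1 : 1 ≤ rr (Gm τ) := rr_pos
  obtain ⟨K, -, hK⟩ := Finite.exists_le_maximal (p := fun K => Inv G Good L0 (4 * L0 + 4) K)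
    (lower_inv_self G Good L0 (4 * L0 + 4))
  have hI : Inv G Good L0 (4 * L0 + 4) K := hK.prop
  have hst : step (HC F halt o) K ≤ K := by
    intro x y hxy
    by_contra hn
    have hI' : Inv G Good L0 (4 * L0 + 4) (K ⊔ SimpleGraph.edge x y) := by
      rcases fire_HC hF hr ho hxy hn with ⟨c, φ, hf⟩ | ⟨s, φ, hf⟩
      swap
      · obtain ⟨B, z, hc⟩ := copy_of_fire hs hI.ok (β := conBP τ s) (show 0 < 4 by omega) hf
        exact inv_con hs hI hc
      rcases c with _ | ⟨c, j⟩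
      · have h0 : (finBP halt).act 0 := by
          change 0 < 3 * rr (Gm τ)
          omega
        obtain ⟨B, z, hc⟩ := copy_of_fire hs hI.ok (β := finBP halt) h0 hf
        exact inv_fin hs (by omega) hG hI hc
      · have h0 : (clauseBP (F c) (j : ℕ)).act 0 := by
          change 0 < (F c).length + 2
          omega
        obtain ⟨B, z, hc⟩ := copy_of_fire hs hI.ok (β := clauseBP (F c) (j : ℕ)) h0 hf
        exact inv_clause hs hsm (hw c) (hso c) hS le_rfl j.2 hI hc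
    have hle : K ⊔ SimpleGraph.edge x y ≤ K := hK.le_of_ge hI' le_sup_left
    refine hn (hle (Or.inr ?_))
    rw [SimpleGraph.edge_adj]
    exact ⟨Or.inl ⟨rfl, rfl⟩, hxy.ne⟩
  have hle : (⊤ : SimpleGraph V) ≤ K := htop ▸ bootClosure_le _ hst hI.le
  obtain ⟨a, b, c, hab, hac, hbc, rfl⟩ := card_eq_three.1 h3
  have ha : a ∈ ({a, b, c} : Finset V) := by simp
  have hb : b ∈ ({a, b, c} : Finset V) := by simp
  have hc : c ∈ ({a, b, c} : Finset V) := by simp
  exact hbc (fin_match hs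
    (extra_fin hI.ok (hle hab) (hna a ha b hb) (hpl a ha) (hpl b hb))
    (extra_fin hI.ok (hle hac) (hna a ha c hc) (hpl a ha) (hpl c hc)))

/-- the form that is used with the first moment bound -/
theorem lowerC_theta (hw : ∀ c, WF (F c)) (hso : ∀ c, Sound (gam (Gm τ)) Good (F c))
    (hS : ∀ t, Good t → Shape (gam (Gm τ)) t)
    (hG : ∀ l r, ¬ Good (.node halt l r)) (hF : ∀ c, (F c).length + 2 ≤ Kn)
    (hr : 3 * rr (Gm τ) ≤ Kn) {o : Fin Kn} (ho : o.1 = 0) {θ : ℝ} (h0 : 0 < θ) (hθ : 2 * (mm (Gm τ) : ℝ) * θ < aa (Gm τ)) :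
    ∃ L : ℕ, ∀ (n : ℕ) (G : SimpleGraph (Fin n)) (Rt : Finset (Fin n)), Rt.card = 3 →
      (∀ X : Finset (Fin n), X.card ≤ L → (eIn G X : ℝ) ≤ θ * (X \ Rt).card) →
        bootClosure (HC F halt o) G ≠ ⊤ := by
  have hm1 : 400000 * sG (Gm τ) ≤ mm (Gm τ) := mm_ge
  have hm2 : 4000 ≤ sG (Gm τ) := sG_ge
  have hA : 100000 * mm (Gm τ) ≤ AA (Gm τ) := AA_ge'
  have hm : (1 : ℝ) ≤ mm (Gm τ) := by
    have : 1 ≤ mm (Gm τ) := by omega
    exact_mod_cast this
  have hd : (0 : ℝ) < aa (Gm τ) - 2 * (mm (Gm τ) : ℝ) * θ := by linarith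
  obtain ⟨L0, hL0⟩ := exists_nat_ge
    (4020 * (mm (Gm τ) : ℝ) * θ / (aa (Gm τ) - 2 * (mm (Gm τ) : ℝ) * θ))
  rw [div_le_iff₀ hd] at hL0
  refine ⟨LL (Gm τ) (4 * L0 + 4), fun n G Rt h3 h => ?_⟩
  have hL : 5 * mm (Gm τ) ≤ LL (Gm τ) (4 * L0 + 4) := LL_ge _
  have hec : ∀ X : Finset (Fin n), X.card ≤ LL (Gm τ) (4 * L0 + 4) →
      (ec G X : ℝ) ≤ 2 * θ * (X \ Rt).card := fun X hX => by
    have := h X hX
    rw [ec_eq_eIn]
    push_cast
    linarith
  have hec' : ∀ X : Finset (Fin n), X.card ≤ LL (Gm τ) (4 * L0 + 4) →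
      (ec G X : ℝ) ≤ 2 * θ * X.card := fun X hX => by
    refine (hec X hX).trans (mul_le_mul_of_nonneg_left ?_ (by linarith))
    exact_mod_cast card_le_card sdiff_subset
  refine lowerC_det (L0 := L0) hw hso hS hG hF hr ho (fun X hX => ?_) (fun X hX hp => ?_) Rt h3
    (fun v hv B hB => ?_) (fun u hu v hv huv => ?_)
  · have h1 := mul_le_mul_of_nonneg_left (hec' X hX) (le_trans zero_le_one hm)
    have h2 := mul_nonneg hd.le (Nat.cast_nonneg (α := ℝ) X.card)
    unfold pot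
    nlinarith
  · have h1 := hec' X hX
    have h4 : aa (Gm τ) * X.card - (mm (Gm τ) : ℝ) * ec G X ≤ 2010 * (mm (Gm τ) : ℝ) := hp
    have h5 := mul_le_mul_of_nonneg_left h1 (show 0 ≤ aa (Gm τ) by nlinarith)
    have h6 := mul_le_mul_of_nonneg_left h4 (by linarith : (0 : ℝ) ≤ 2 * θ)
    have h7 : (ec G X : ℝ) * (aa (Gm τ) - 2 * (mm (Gm τ) : ℝ) * θ) ≤
        L0 * (aa (Gm τ) - 2 * (mm (Gm τ) : ℝ) * θ) := by nlinarith
    exact_mod_cast le_of_mul_le_mul_right h7 hd
  · have hc := B.card_eq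
    have h1 := hec B.1 (by omega)
    have h2 : (B.1 \ Rt).card + 1 ≤ mm (Gm τ) := by
      rw [← hc]
      exact card_lt_card ⟨sdiff_subset, fun hsub => (mem_sdiff.1 (hsub hB)).2 hv⟩
    have h2' : ((B.1 \ Rt).card : ℝ) ≤ mm (Gm τ) - 1 := by
      have : ((B.1 \ Rt).card : ℝ) + 1 ≤ mm (Gm τ) := by exact_mod_cast h2
      linarith
    have h4 : (AA (Gm τ) : ℝ) ≤ ec G B.1 + 5002 := by
      have := B.ec_ge
      have h5 : AA (Gm τ) ≤ ec G B.1 + 5002 := by
        unfold AA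
        omega
      exact_mod_cast h5
    have hA' : (100000 : ℝ) * mm (Gm τ) ≤ AA (Gm τ) := by exact_mod_cast hA
    have h5 := mul_le_mul_of_nonneg_left h2' (by linarith : (0 : ℝ) ≤ 2 * θ)
    have h6 : (AA (Gm τ) : ℝ) - 5002 ≤ 2 * θ * (mm (Gm τ) - 1) := by linarith
    have h7 := mul_le_mul_of_nonneg_left h6 (le_trans zero_le_one hm)
    have h8 := mul_le_mul_of_nonneg_right (hθ.le.trans (aa_hi _))
      (by linarith : (0 : ℝ) ≤ mm (Gm τ) - 1)
    nlinarith
  · have h1 := hec {u, v} (card_le_two.trans (by omega))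
    have h2 : ({u, v} : Finset (Fin n)) \ Rt = ∅ := by
      rw [sdiff_eq_empty_iff_subset]
      intro w hw
      rcases mem_insert.1 hw with rfl | hw
      · exact hu
      · rw [mem_singleton.1 hw]
        exact hv
    have h4 : 1 ≤ ec G {u, v} := cross_pos.2 ⟨u, by simp, v, by simp, huv⟩
    have h5 : (1 : ℝ) ≤ ec G {u, v} := by exact_mod_cast h4
    rw [h2] at h1
    simp only [card_empty, Nat.cast_zero, mul_zero] at h1
    linarith

end lower2

section upper
variable {τ : Type} [Fintype τ] [WP τ] [Inhabited τ] {ι : Type} {F : ι → Clause τ} {halt : τ}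
  {Kn : ℕ} {𝒯 : Finset (Term τ)} {V : Type} {G K : SimpleGraph V}

/-- every copy of a component on the witness may fire -/
def FireP (F : ι → Clause τ) (halt : τ) (f : Vx τ (NW τ 𝒯) ⊕ VH τ ι Kn ↪ V)
    (K : SimpleGraph V) : Prop :=
  ∀ (c : CI ι) (ν : ℕ → NW τ 𝒯) (x y : V), (∃ q, ν 0 = (q, .inl false)) → x ≠ y →
    (∀ u u', (compBP F halt c).act u → (compBP F halt c).act u' → ν u = ν u' → u = u') →
    (∀ u k u' (i : Fin 4000), (compBP F halt c).act u → (compBP F halt c).act u' →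
      (compBP F halt c).arc u k u' i → (witBP 𝒯).arc (ν u) k (ν u') i ∨
        (K ⊔ SimpleGraph.edge x y).Adj
          (f (.inl (.inr (ν u, .inl ((k, true), i))))) (f (.inl (.inr (ν u', .inl ((k, false), i)))))) →
    (∀ u, (compBP F halt c).act u → (compBP F halt c).att u → (witBP 𝒯).att (ν u)) →
    ((compBP F halt c).fin → x = f (.inl (.inl false)) ∧ y = f (.inl (.inl true))) →
    (∃ a b, (compBP F halt c).rel a b ∧ f (.inl (Sum.map id (Prod.map ν id) a)) = x ∧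
      f (.inl (Sum.map id (Prod.map ν id) b)) = y) → K.Adj x y

theorem upperC_ok (hw : ∀ c, WF (F c)) (f : Vx τ (NW τ 𝒯) ⊕ VH τ ι Kn ↪ V)
    (hP : FireP F halt f K) (q : Fin (rr (Gm τ))) {t : Term τ} (h : Der F 𝒯 t) :
    ∃ ht : t ∈ 𝒯, ∀ j : Fin 4000, (j : ℕ) < 300 → K.Adj
      (f (.inl (.inr ((q, .inr ⟨t, ht⟩), .inl ((.ok, true), j)))))
      (f (.inl (.inr ((q, .inl false), .inl ((.ok, false), j))))) := by
  classical
  induction h with
  | step c val fit inj mem _ ih =>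
    have l0 := (hw c).pos
    refine ⟨mem 0 l0, fun j hj => ?_⟩
    let ν : ℕ → NW τ 𝒯 := fun u => (q, match u with
      | 0 => .inl false
      | 1 => .inl true
      | i + 2 => if h : val i ∈ 𝒯 then .inr ⟨val i, h⟩ else .inl false)
    have hν : ∀ i (hi : i < (F c).length), ν (i + 2) = (q, .inr ⟨val i, mem i hi⟩) :=
      fun i hi => by simp only [ν, dif_pos (mem i hi)]
    have ν0 : ν 0 = (q, .inl false) := rfl
    have ν1 : ν 1 = (q, .inl true) := rfl
    have hxy : f (.inl (.inr ((q, .inr ⟨val 0, mem 0 l0⟩), .inl ((.ok, true), j)))) ≠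
        f (.inl (.inr ((q, .inl false), .inl ((.ok, false), j)))) := fun e => by
      simpa using f.injective e
    refine hP (some (c, ⟨j, hj⟩)) ν _ _ ⟨q, rfl⟩ hxy (fun u u' hu hu' e => ?_)
      (fun u k u' i hu hu' ha => ?_) (fun _ _ h => h.elim) (fun h => h.elim)
      ⟨.inr (2, .inl ((.ok, true), j)), .inr (0, .inl ((.ok, false), j)),
        ⟨show 2 < (F c).length + 2 by omega, show 0 < (F c).length + 2 by omega,
          Or.inr ⟨by simp, .ok, j, Or.inr ⟨le_rfl, Or.inr (Or.inr ⟨rfl, rfl, Or.inr ⟨rfl, rfl⟩⟩)⟩,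
            rfl, rfl⟩⟩, by rw [← hν 0 l0]; rfl, rfl⟩
    · change u < (F c).length + 2 at hu
      change u' < (F c).length + 2 at hu'
      match u, u' with
      | 0, 0 => rfl
      | 0, 1 => simp [ν0, ν1] at e
      | 0, i + 2 => simp [ν0, hν i (by omega)] at e
      | 1, 0 => simp [ν0, ν1] at e
      | 1, 1 => rfl
      | 1, i + 2 => simp [ν1, hν i (by omega)] at e
      | i + 2, 0 => simp [ν0, hν i (by omega)] at e
      | i + 2, 1 => simp [ν1, hν i (by omega)] at e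
      | i + 2, i' + 2 =>
        rw [hν i (by omega), hν i' (by omega)] at e
        rw [inj i (by omega) i' (by omega) (by simpa using e)]
    · change u < (F c).length + 2 at hu
      change u' < (F c).length + 2 at hu'
      rcases ha with ⟨rfl, rfl, rfl, h1⟩ | ⟨h1, ha⟩
      · exact Or.inl ⟨rfl, Or.inl ⟨rfl, rfl, rfl, h1⟩⟩
      obtain ⟨n, rfl⟩ : ∃ n, u = n + 2 := ⟨u - 2, by omega⟩
      have hn : n < (F c).length := by omega
      obtain ⟨l, r, e1, e2⟩ := fit n hn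
      rw [Nat.add_sub_cancel] at ha
      rw [hν n hn]
      rcases ha with ⟨rfl, rfl, h2⟩ | ⟨p, a, h2, rfl, rfl, h3⟩ | ⟨rfl, rfl, ⟨h2, h3⟩ | ⟨h2, h3⟩⟩
      · exact Or.inl ⟨rfl, Or.inr ⟨_, _, l, r, rfl, e1, Or.inl ⟨rfl, rfl, h2⟩⟩⟩
      · obtain ⟨rfl, rfl⟩ := e2 p h2
        have e3 : (val n).kidT a = nodeOf .nil val (sel p a) := by
          rw [e1]; cases a <;> rfl
        refine Or.inl ⟨rfl, Or.inr ⟨_, _, _, _, rfl, e1, Or.inr ⟨a, rfl, h3, ?_⟩⟩⟩
        unfold nodeOf at e3 hu' ⊢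
        by_cases h0 : sel p a = 0
        · rw [if_pos h0] at e3 ⊢
          exact Or.inl ⟨e3, rfl⟩
        · rw [if_neg h0] at e3 hu' ⊢
          have h4 : sel p a < (F c).length := Nat.lt_of_add_lt_add_right hu'
          obtain ⟨l', r', e4, -⟩ := fit _ h4
          exact Or.inr ⟨⟨_, mem _ h4⟩, by simp [e4], e3, by rw [hν _ h4]⟩
      · exact Or.inr (Or.inl ((ih n hn h2).2 i h3))
      · obtain rfl : n = 0 := by omega
        obtain rfl : i = j := Fin.ext h3
        exact Or.inr (Or.inr ((SimpleGraph.edge_adj _ _ _ _).2 ⟨Or.inl ⟨rfl, rfl⟩, hxy⟩))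

theorem upperC_fin (hw : ∀ c, WF (F c)) {l r : Term τ} (h : Der F 𝒯 (.node halt l r))
    (f : Vx τ (NW τ 𝒯) ⊕ VH τ ι Kn ↪ V) (hP : FireP F halt f K) :
    K.Adj (f (.inl (.inl false))) (f (.inl (.inl true))) := by
  have r0 : 0 < rr (Gm τ) := rr_pos
  obtain ⟨ht, -⟩ := upperC_ok hw f hP ⟨0, r0⟩ h
  let ν : ℕ → NW τ 𝒯 := fun u => (⟨u / 3 % rr (Gm τ), Nat.mod_lt _ r0⟩,
    if u % 3 = 0 then .inl false else if u % 3 = 1 then .inl true else .inr ⟨_, ht⟩)
  have hm : ∀ u < 3 * rr (Gm τ), u / 3 % rr (Gm τ) = u / 3 := fun u hu => Nat.mod_eq_of_lt (by omega)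
  refine hP none ν _ _ ⟨_, rfl⟩ (fun e => by simpa using f.injective e)
    (fun u u' hu hu' e => ?_) (fun u k u' i hu hu' ha => ?_) (fun u _ h => if_pos h)
    (fun _ => ⟨rfl, rfl⟩) ⟨.inl false, .inl true, ⟨trivial, rfl, rfl⟩, rfl, rfl⟩
  · have e1 : u / 3 % rr (Gm τ) = u' / 3 % rr (Gm τ) := congrArg (fun p => p.1.1) e
    have e2 := congrArg Prod.snd e
    rw [hm u hu, hm u' hu'] at e1
    simp only [ν] at e2
    split_ifs at e2 <;> first | omega | simp at e2
  · rcases ha with ⟨h1, rfl, rfl, h2⟩ | ⟨h1, rfl, ha⟩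
    · refine Or.inl ⟨Fin.ext (show u / 3 % _ = (u + 1) / 3 % _ by congr 1; omega),
        Or.inl ⟨if_pos h1, rfl, ?_, h2⟩⟩
      simp only [ν]
      rw [if_neg (by omega), if_pos (by omega)]
    · have e1 : (ν (u' + 2)).1 = (ν u').1 :=
        Fin.ext (show (u' + 2) / 3 % _ = u' / 3 % _ by congr 1; omega)
      have e2 : (ν (u' + 2)).2 = .inr ⟨_, ht⟩ := by
        simp only [ν]
        rw [if_neg (by omega), if_neg (by omega)]
      have e3 : (ν u').2 = .inl false := if_pos (by omega)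
      rcases ha with ⟨rfl, h2⟩ | ⟨rfl, h2⟩
      · exact Or.inl ⟨e1, Or.inr ⟨_, _, _, _, e2, rfl,
          Or.inl ⟨rfl, e3, Nat.lt_add_right _ h2⟩⟩⟩
      · obtain ⟨_, h3⟩ := upperC_ok hw f hP (ν u').1 h
        rw [show ν (u' + 2) = ((ν u').1, .inr ⟨_, ht⟩) from Prod.ext e1 e2,
          show ν u' = ((ν u').1, .inl false) from Prod.ext rfl e3]
        exact Or.inr (Or.inl (h3 i (by omega)))

theorem emb_of_fire (F : ι → Clause τ) (halt : τ) {Kn : ℕ}
    (hF : ∀ c, (F c).length + 2 ≤ Kn) (hr : 3 * rr (Gm τ) ≤ Kn) (f : VH τ ι Kn ↪ V)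
    (hf : Emb (HG F halt Kn) K f) {c : Option (ι × Fin 300)} {φ : Vx τ ℕ → V} {x y : V}
    (h : Fire (compBP F halt c) φ K x y) (hd : ∀ a w, (compBP F halt c).live a → φ a ≠ f w) :
    ∃ g : VH τ ι Kn ↪ V,
      (∀ w, w.1 = c ∧ (compBP F halt c).live (copyLift w.2) → g w = φ (copyLift w.2)) ∧
      (∀ w, ¬ (w.1 = c ∧ (compBP F halt c).live (copyLift w.2)) → g w = f w) ∧
      (∃ a b, (HG F halt Kn).Adj a b ∧ s(g a, g b) = s(x, y)) ∧
      ∀ a b, (HG F halt Kn).Adj a b → K.Adj (g a) (g b) ∨ s(g a, g b) = s(x, y) := by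
  classical
  have hact := copy_act_lt F halt hF hr c
  obtain ⟨g, hg1, hg2⟩ : ∃ g : VH τ ι Kn → V,
      (∀ w, w.1 = c ∧ (compBP F halt c).live (copyLift w.2) → g w = φ (copyLift w.2)) ∧
      ∀ w, ¬ (w.1 = c ∧ (compBP F halt c).live (copyLift w.2)) → g w = f w :=
    ⟨fun w => if w.1 = c ∧ (compBP F halt c).live (copyLift w.2) then φ (copyLift w.2) else f w,
      fun w hw => if_pos hw, fun w hw => if_neg hw⟩
  have hg : Function.Injective g := by
    intro v w e
    by_cases hv : v.1 = c ∧ (compBP F halt c).live (copyLift v.2) <;>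
      by_cases hw : w.1 = c ∧ (compBP F halt c).live (copyLift w.2)
    · rw [hg1 v hv, hg1 w hw] at e
      exact Prod.ext (hv.1.trans hw.1.symm) (copyLift_inj (h.inj _ _ hv.2 hw.2 e))
    · rw [hg1 v hv, hg2 w hw] at e
      exact absurd e (hd _ _ hv.2)
    · rw [hg2 v hv, hg1 w hw] at e
      exact absurd e.symm (hd _ _ hw.2)
    · rw [hg2 v hv, hg2 w hw] at e
      exact f.injective e
  have hone : ∀ v w : VH τ ι Kn, (HG F halt Kn).Adj v w → v.1 = w.1 →
      ((compBP F halt v.1).comap Fin.val).rel v.2 w.2 →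
      K.Adj (g v) (g w) ∨ s(g v, g w) = s(x, y) := by
    intro v w hadj h1 h2
    by_cases hc : v.1 = c
    · rw [hc] at h2
      have h3 := (copy_rel_lift _ _ _).1 h2
      rw [hg1 v ⟨hc, (copy_live h3).1⟩, hg1 w ⟨h1.symm.trans hc, (copy_live h3).2⟩]
      rcases h.hom _ _ h3 with h4 | h4
      · exact Or.inl h4
      · exact Or.inr (Sym2.eq_iff.2 ((SimpleGraph.edge_adj _ _ _ _).1 h4).1)
    · rw [hg2 v fun e => hc e.1, hg2 w fun e => hc (h1.trans e.1)]
      exact Or.inl (hf _ _ hadj)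
  refine ⟨⟨g, hg⟩, hg1, hg2, ?_, ?_⟩
  · obtain ⟨a, b, hab, e⟩ := h.use
    obtain ⟨a, rfl⟩ := copy_exists_lift hact (copy_live hab).1
    obtain ⟨b, rfl⟩ := copy_exists_lift hact (copy_live hab).2
    refine ⟨(c, a), (c, b), copy_adj F halt c hab, ?_⟩
    show s(g (c, a), g (c, b)) = s(x, y)
    rw [hg1 (c, a) ⟨rfl, (copy_live hab).1⟩, hg1 (c, b) ⟨rfl, (copy_live hab).2⟩]
    exact e
  · intro v w hadj
    rcases ((SimpleGraph.fromRel_adj _ _ _).1 hadj).2 with ⟨h1, h2⟩ | ⟨h1, h2⟩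
    · exact hone v w hadj h1 h2
    · rcases hone w v hadj.symm h1 h2 with h3 | h3
      · exact Or.inl h3.symm
      · exact Or.inr (Sym2.eq_swap.trans h3)

omit [Inhabited τ] [WP τ] in
theorem attach_step {V0 J : Type} (G0 : SimpleGraph V0)
    (tgt : J → Bool → Option (V0 ⊕ Vx τ (J × Bool))) (g : V0 ↪ V) (p : Vx τ (J × Bool) ↪ V)
    (hd : ∀ a b, g a ≠ p b) {x y : V} (hxy : x ≠ y)
    (h1 : ∃ a b, G0.Adj a b ∧ s(g a, g b) = s(x, y))
    (h2 : ∀ a b, G0.Adj a b → K.Adj (g a) (g b) ∨ s(g a, g b) = s(x, y))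
    (h3 : ∀ a b, (pairBP τ J).rel a b → K.Adj (p a) (p b))
    (h4 : ∀ j a w, tgt j a = some w → K.Adj (p (lend (j, false) a true)) (Sum.elim g p w)) :
    (step (Attach G0 tgt) K).Adj x y := by
  have hinj : Function.Injective (Sum.elim g p) := g.injective.sumElim p.injective hd
  have key : ∀ v w v' w', s(v, w) = s(v', w') →
      K.Adj (Sum.elim g p v') (Sum.elim g p w') ∨
        s(Sum.elim g p v', Sum.elim g p w') = s(x, y) →
      K.Adj (Sum.elim g p v) (Sum.elim g p w) ∨ s(Sum.elim g p v, Sum.elim g p w) = s(x, y) := by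
    intro v w v' w' e h
    rcases Sym2.eq_iff.1 e with ⟨rfl, rfl⟩ | ⟨rfl, rfl⟩
    · exact h
    · exact h.imp (fun h => h.symm) fun h => Sym2.eq_swap.trans h
  obtain ⟨a, b, hab, e⟩ := h1
  refine Or.inr ⟨hxy, ⟨_, hinj⟩, ⟨.inl a, .inl b, (attach_inl _ _).2 hab, e⟩, fun v w h => ?_⟩
  rcases attach_cases _ _ h with ⟨a, b, h5, h6⟩ | ⟨a, b, h5, h6⟩ | ⟨j, a, u, h5, h6⟩
  · exact key _ _ _ _ h6 (h2 a b h5)
  · exact key _ _ _ _ h6 (Or.inl (h3 a b h5))
  · exact key _ _ _ _ h6 (Or.inl (h4 j a u h5))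

theorem fireP_HC [Fintype ι] (hF : ∀ c, (F c).length + 2 ≤ Kn) (hr : 3 * rr (Gm τ) ≤ Kn)
    {o : Fin Kn} (ho : o.1 = 0) (f' : (Vx τ (NW τ 𝒯) ⊕ VH τ ι Kn) ⊕
      Vx τ ((Option (CI ι) ⊕ Fin (rr (Gm τ))) × Bool) ↪ V) (hf : Emb (WC F halt o 𝒯) G f') :
    FireP F halt (Function.Embedding.inl.trans f') (bootClosure (HC F halt o) G) := by
  classical
  rintro c ν x y ⟨q, hq⟩ hxy hinj harc hatt hfin huse
  have hG : ∀ a b, (WC F halt o 𝒯).Adj a b → (bootClosure (HC F halt o) G).Adj (f' a) (f' b) :=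
    fun a b h => le_bootClosure _ _ (hf a b h)
  generalize hK : bootClosure (HC F halt o) G = K at hG harc ⊢
  obtain ⟨f, hff⟩ : ∃ f : Vx τ (NW τ 𝒯) ⊕ VH τ ι Kn ↪ V, f = Function.Embedding.inl.trans f' :=
    ⟨_, rfl⟩
  have hf1 : ∀ a, f a = f' (.inl a) := fun a => by rw [hff]; rfl
  rw [← hff] at harc hfin huse
  have hwit : ∀ {a b : Vx τ (NW τ 𝒯)}, (witBP 𝒯).rel a b → K.Adj (f (.inl a)) (f (.inl b)) := by
    intro a b h
    rw [hf1, hf1]
    exact hG _ _ ((attach_inl _ _).2 (SimpleGraph.sum_adj_inl.2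
      ((SimpleGraph.fromRel_adj _ _ _).2 ⟨copy_ne h, Or.inl h⟩)))
  have hfire : Fire (compBP F halt c) (fun a => f (.inl (Sum.map id (Prod.map ν id) a))) K x y := by
    refine ⟨fun a b ha hb e => ?_, fun a b h => ?_, ?_⟩
    · have e' := Sum.inl_injective (f.injective e)
      rcases a with s | ⟨u, t⟩ <;> rcases b with s' | ⟨u', t'⟩
      · simpa using e'
      · simp at e'
      · simp at e'
      · obtain ⟨e1, rfl⟩ : ν u = ν u' ∧ t = t' := by simpa using e'
        rw [hinj u u' ha hb e1]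
    · rcases a with s | ⟨u, t⟩ <;> rcases b with s' | ⟨u', t'⟩
      · obtain ⟨h1, rfl, rfl⟩ := h
        obtain ⟨rfl, rfl⟩ := hfin h1
        exact Or.inr ((SimpleGraph.edge_adj _ _ _ _).2 ⟨Or.inl ⟨rfl, rfl⟩, hxy⟩)
      · exact Or.inl (hwit (a := .inl s) (b := .inr (ν u', t')) ⟨trivial, hatt u' h.1 h.2.1, h.2.2⟩)
      · exact h.elim
      · obtain ⟨h1, h2, ⟨h3, h4⟩ | ⟨h3, k, i, h4, h5, h6⟩⟩ := h
        · exact Or.inl (hwit (a := .inr (ν u, t)) (b := .inr (ν u', t'))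
            ⟨trivial, trivial, Or.inl ⟨congrArg ν h3, h4⟩⟩)
        · obtain rfl : t = _ := h5
          obtain rfl : t' = _ := h6
          rcases harc u k u' i h1 h2 h4 with h7 | h7
          · exact Or.inl (hwit (a := .inr (ν u, _)) (b := .inr (ν u', _))
              ⟨trivial, trivial, Or.inr ⟨fun e => h3 (hinj u u' h1 h2 e), k, i, h7, rfl, rfl⟩⟩)
          · exact h7
    · obtain ⟨a, b, h, rfl, rfl⟩ := huse
      exact ⟨a, b, h, rfl⟩
  obtain ⟨g, hg1, hg2, hg3, hg4⟩ := emb_of_fire F halt hF hr (Function.Embedding.inr.trans f)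
    (fun a b h => by
      show K.Adj (f (.inr a)) (f (.inr b))
      rw [hf1, hf1]
      exact hG _ _ ((attach_inl _ _).2 (SimpleGraph.sum_adj_inr.2 h))) hfire
    (fun a w _ e => by simpa using f.injective e)
  let ρ : Option (CI ι) → Option (CI ι) ⊕ Fin (rr (Gm τ)) :=
    fun j => if j = some c then .inr q else .inl j
  have hρ : Function.Injective ρ := by
    intro j j' e
    simp only [ρ] at e
    split_ifs at e with h1 h2 h2
    · rw [h1, h2]
    · exact Sum.inl_injective e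
  have ρ0 : ρ none = .inl none := if_neg (by simp)
  have ρ1 : ρ (some c) = .inr q := if_pos rfl
  have ρ2 : ∀ c', c' ≠ c → ρ (some c') = .inl (some c') := fun c' h => if_neg (by simpa using h)
  let σ : Vx τ (Option (CI ι) × Bool) → Vx τ ((Option (CI ι) ⊕ Fin (rr (Gm τ))) × Bool) :=
    Sum.map id (Prod.map (Prod.map ρ id) id)
  have hσ : Function.Injective σ := Function.injective_id.sumMap
    ((hρ.prodMap Function.injective_id).prodMap Function.injective_id)
  have hK' : step (HC F halt o) K ≤ K := hK ▸ step_bootClosure _ _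
  refine hK' (attach_step _ _ g ⟨fun b => f' (.inr (σ b)),
    f'.injective.comp (Sum.inr_injective.comp hσ)⟩ (fun a b e => ?_) hxy hg3 hg4
    (fun a b h => hG _ _ (attach_inr _ _ ?_)) fun j a w h => ?_)
  · by_cases h : a.1 = c ∧ (compBP F halt c).live (copyLift a.2)
    · rw [hg1 a h, hf1] at e
      simpa using f'.injective e
    · rw [hg2 a h] at e
      have e' : f (.inr a) = f' (.inr (σ b)) := e
      rw [hf1] at e'
      simpa using f'.injective e'
  · rcases a with a | ⟨⟨j, s⟩, t⟩ <;> rcases b with b | ⟨⟨j', s'⟩, t'⟩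
    · exact h.1.elim
    · exact h.2.1.elim
    · exact h.elim
    obtain ⟨-, -, ⟨h3, h4⟩ | ⟨h3, k, i, ⟨h4, h5⟩, h9⟩⟩ := h
    · obtain ⟨rfl, rfl⟩ := Prod.mk.inj h3
      exact ⟨trivial, trivial, Or.inl ⟨rfl, h4⟩⟩
    · obtain rfl : j = j' := h4
      exact ⟨trivial, trivial, Or.inr ⟨fun e => h3 (Prod.ext rfl (Prod.mk.inj e).2), k, i,
        ⟨rfl, h5⟩, h9⟩⟩
  · rcases j with _ | c'
    · cases h
    cases a
    · obtain rfl := Option.some.inj h
      show K.Adj (f' (.inr (lend (ρ (some c'), false) false true))) (g (c', lend o false false))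
      by_cases hc : c' = c
      · subst hc
        have h1 : (compBP F halt c').live (copyLift (lend o false false : Vx τ (Fin Kn))) :=
          show (compBP F halt c').act o.1 from ho ▸ (comp_zero c').1
        rw [ρ1, hg1 _ ⟨rfl, h1⟩]
        show K.Adj _ (f (.inl (lend (ν o.1) false false)))
        rw [ho, hq, hf1]
        exact hG _ _ (attach_lnk _ _ rfl (by simp))
      · rw [ρ2 c' hc, hg2 _ fun h => hc h.1]
        show K.Adj _ (f (.inr (c', lend o false false)))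
        rw [hf1]
        exact hG _ _ (attach_lnk _ _ rfl (by simp))
    · obtain rfl := Option.some.inj h
      show K.Adj (f' (.inr (lend (ρ (some c'), false) true true)))
        (f' (.inr (lend (ρ none, false) true false)))
      rw [ρ0]
      by_cases hc : c' = c
      · rw [hc, ρ1]
        exact hG _ _ (attach_lnk _ _ rfl (by simp [lend]))
      · rw [ρ2 c' hc]
        exact hG _ _ (attach_lnk _ _ rfl (by simp [lend]))

theorem sparse_WC [Fintype ι] {x : ℝ} (g1 : (AA (Gm τ) : ℝ) - 1 ≤ x) (g2 : x ≤ AA (Gm τ))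
    (hw : ∀ c, WF (F c)) (halt : τ) (o : Fin Kn) {𝒯 : Finset (Term τ)}
    (hB : Bal ((x - AA (Gm τ) + 2) / 2) 𝒯)
    [DecidableEq ((Vx τ (NW τ 𝒯) ⊕ VH τ ι Kn) ⊕ Vx τ ((Option (CI ι) ⊕ Fin (rr (Gm τ))) × Bool))]
    (S : Finset ((Vx τ (NW τ 𝒯) ⊕ VH τ ι Kn) ⊕ Vx τ ((Option (CI ι) ⊕ Fin (rr (Gm τ))) × Bool)))
    (hd : Disjoint S {.inl (.inl (.inl false)), .inl (.inl (.inl true))}) :
    (mm (Gm τ) : ℝ) *
      ec (WC F halt o 𝒯) (S ∪ {.inl (.inl (.inl false)), .inl (.inl (.inl true))}) ≤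
      x * S.card := by
  classical
  have h1 := attach_ec g1 g2 (WG F halt Kn 𝒯) (tgtW (ι := ι) o 𝒯)
    (S ∪ {.inl (.inl (.inl false)), .inl (.inl (.inl true))})
  have e1 : (S ∪ {.inl (.inl (.inl false)), .inl (.inl (.inl true))}).toRight = S.toRight := by
    ext v
    simp
  have e2 : (S ∪ {.inl (.inl (.inl false)), .inl (.inl (.inl true))}).toLeft =
      S.toLeft ∪ {.inl (.inl false), .inl (.inl true)} := by
    ext v
    simp only [mem_toLeft, mem_union, mem_insert, mem_singleton, Sum.inl.injEq]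
  have hsum : (S.toLeft.card : ℝ) + S.toRight.card = S.card := by
    exact_mod_cast card_toLeft_add_card_toRight (u := S)
  rw [e1, e2] at h1
  rw [← hsum, mul_add]
  unfold WC
  have h2 := sparse_W g1 g2 hw halt Kn hB S.toLeft (by
    rw [disjoint_left]
    intro v hv hv'
    refine disjoint_left.1 hd (mem_toLeft.1 hv) ?_
    simpa only [mem_insert, mem_singleton, Sum.inl.injEq] using hv')
  linarith

end upper

section conn
variable {τ : Type} [Fintype τ] [WP τ] [Inhabited τ] {ι : Type} {F : ι → Clause τ} {halt : τ}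
  {Kn : ℕ}

omit [Inhabited τ] [WP τ] in
theorem blob_reach {W : Type} {H : SimpleGraph W} (b : Tm (Gm τ) → W)
    (h : ∀ t t', base t t' → H.Adj (b t) (b t')) (t t' : Tm (Gm τ)) : H.Reachable (b t) (b t') := by
  have h1 := sG_ge (Γ := Gm τ)
  have h2 : 0 < 100 * sG (Gm τ) ^ 2 := by positivity
  have key : ∀ t, H.Reachable (b t) (b (.inr ⟨0, h2⟩)) := by
    intro t
    by_cases e : t = .inr ⟨0, h2⟩
    · rw [e]
    · refine (h _ _ ⟨e, ?_⟩).reachable
      rcases t with p | p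
      · exact (Fintype.equivFin (Gm τ) p.1).2
      · exact Nat.zero_le _
  exact (key t).trans (key t').symm

theorem reach_HC (hF : ∀ c, (F c).length + 2 ≤ Kn) (hr : 3 * rr (Gm τ) ≤ Kn) {o : Fin Kn}
    (ho : o.1 = 0) : ∀ a ∈ (HC F halt o).support, ∀ b ∈ (HC F halt o).support,
      (HC F halt o).Reachable a b := by
  have hP : ∀ (u : Option (CI ι) × Bool) t t',
      (HC F halt o).Reachable (.inr (.inr (u, t))) (.inr (.inr (u, t'))) := fun u =>
    blob_reach (H := HC F halt o) (fun t => .inr (.inr (u, t))) fun t t' h =>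
      attach_inr _ _ ⟨trivial, trivial, Or.inl ⟨rfl, h⟩⟩
  have hH : ∀ c (u : Fin Kn), (compBP F halt c).act u → ∀ t t',
      (HC F halt o).Reachable (.inl (c, .inr (u, t))) (.inl (c, .inr (u, t'))) := fun c u hu =>
    blob_reach (H := HC F halt o) (fun t => .inl (c, .inr (u, t))) fun t t' h =>
      (attach_inl _ _).2 (copy_adj F halt c ⟨hu, hu, Or.inl ⟨rfl, h⟩⟩)
  let hub : VH τ ι Kn ⊕ Vx τ (Option (CI ι) × Bool) := .inr (lend (none, false) true false)
  have h1 : ∀ j t, (HC F halt o).Reachable (.inr (.inr ((j, false), t))) hub := by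
    rintro (_ | c) t
    · exact hP _ _ _
    · exact (hP _ _ _).trans
        (attach_lnk _ _ (j := some c) (a := true) rfl (by simp [lend, hub])).reachable
  have h2 : ∀ u t, (HC F halt o).Reachable (.inr (.inr (u, t))) hub := by
    rintro ⟨j, _ | _⟩ t
    · exact h1 j t
    · have h3 : (HC F halt o).Adj (.inr (.inr ((j, false), .inl ((.anc, true), 0))))
          (.inr (.inr ((j, true), .inl ((.anc, false), 0)))) :=
        attach_inr _ _ ⟨trivial, trivial, Or.inr ⟨by simp, .anc, 0,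
          ⟨rfl, rfl, rfl, rfl, by simp⟩, rfl, rfl⟩⟩
      exact ((hP _ _ _).trans h3.symm.reachable).trans (h1 j _)
  have h3 : ∀ c t, (HC F halt o).Reachable (.inl (c, .inr (o, t))) hub := fun c t =>
    ((hH c o (ho ▸ (comp_zero c).1) _ _).trans
      (attach_lnk _ _ (j := some c) (a := false) rfl (by simp)).symm.reachable).trans (h2 _ _)
  have harc : ∀ c (u u' : Fin Kn) k, (compBP F halt c).act u → (compBP F halt c).act u' →
      u.1 ≠ u'.1 → (compBP F halt c).arc u k u' 0 → ∀ t t',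
      (HC F halt o).Reachable (.inl (c, .inr (u, t))) (.inl (c, .inr (u', t'))) := by
    intro c u u' k hu hu' hne h t t'
    have h4 : (HC F halt o).Adj (.inl (c, .inr (u, .inl ((k, true), 0))))
        (.inl (c, .inr (u', .inl ((k, false), 0)))) :=
      (attach_inl _ _).2 (copy_adj F halt c ⟨hu, hu', Or.inr ⟨hne, k, 0, h, rfl, rfl⟩⟩)
    exact ((hH c u hu _ _).trans h4.reachable).trans (hH c u' hu' _ _)
  have hatt : ∀ (u : Fin Kn) s t, u.1 < 3 * rr (Gm τ) → u.1 % 3 = 0 →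
      (HC F halt o).Reachable (.inl (none, .inl s)) (.inl (none, .inr (u, t))) := by
    intro u s t hu h0
    have h4 : (HC F halt o).Adj (.inl (none, .inl s))
        (.inl (none, .inr (u, .inl ((.att s, false), 0)))) :=
      (attach_inl _ _).2 (copy_adj F halt none ⟨hu, h0, 0, by simp, rfl⟩)
    exact h4.reachable.trans (hH none u hu _ _)
  have hr1 : 1 ≤ rr (Gm τ) := rr_pos
  have h4 : ∀ s, (HC F halt o).Reachable (.inl (none, .inl s)) hub := fun s =>
    (hatt o s (.inl ((.ok, false), 0)) (by omega) (by omega)).trans (h3 _ _)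
  have h5 : ∀ c (u : Fin Kn) t, (compBP F halt c).act u →
      (HC F halt o).Reachable (.inl (c, .inr (u, t))) hub := by
    rintro (_ | c) u t hu
    · change u.1 < 3 * rr (Gm τ) at hu
      have h6 : ∀ (u : Fin Kn) t, u.1 < 3 * rr (Gm τ) → u.1 % 3 = 0 →
          (HC F halt o).Reachable (.inl (none, .inr (u, t))) hub := fun u t hu h0 =>
        (hatt u false t hu h0).symm.trans (h4 false)
      have h7 : u.1 / 3 * 3 < Kn := by omega
      have h8 : u.1 / 3 * 3 < 3 * rr (Gm τ) := by omega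
      obtain h0 | h0 | h0 : u.1 % 3 = 0 ∨ u.1 % 3 = 1 ∨ u.1 % 3 = 2 := by omega
      · exact h6 u t hu h0
      · exact (harc none ⟨_, h7⟩ u .anc h8 hu (by simp only; omega) (Or.inl ⟨by simp only; omega,
          rfl, by simp only; omega, by omega⟩) t t).symm.trans (h6 _ t h8 (by simp only; omega))
      · exact (harc none u ⟨_, h7⟩ (.tag halt) hu h8 (by simp only; omega) (Or.inr ⟨h0,
          by simp only; omega, Or.inl ⟨rfl, by omega⟩⟩) t t).trans (h6 _ t h8 (by simp only; omega))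
    · have h0 : (compBP F halt (some c)).act o := ho ▸ (comp_zero _).1
      obtain h6 | h6 | h6 : u.1 = 0 ∨ u.1 = 1 ∨ 2 ≤ u.1 := by omega
      · obtain rfl : u = o := Fin.ext (h6.trans ho.symm)
        exact h3 _ _
      · exact (harc _ o u .anc h0 hu (by omega) (Or.inl ⟨ho, rfl, h6, by omega⟩) t t).symm.trans
          (h3 _ _)
      · exact (harc _ u o _ hu h0 (by omega)
          (Or.inr ⟨h6, Or.inl ⟨rfl, ho, by omega⟩⟩) t t).trans (h3 _ _)
  have h6 : ∀ c (a b : Vx τ (Fin Kn)), ((compBP F halt c).comap Fin.val).rel a b →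
      (HC F halt o).Reachable (.inl (c, a)) hub ∧ (HC F halt o).Reachable (.inl (c, b)) hub := by
    intro c a b h
    rcases a with s | ⟨u, t⟩ <;> rcases b with s' | ⟨u', t'⟩
    · rcases c with _ | c
      · exact ⟨h4 _, h4 _⟩
      · exact h.1.elim
    · rcases c with _ | c
      · exact ⟨h4 _, h5 _ _ _ h.1⟩
      · exact h.2.1.elim
    · exact h.elim
    · exact ⟨h5 _ _ _ h.1, h5 _ _ _ h.2.1⟩
  have key : ∀ a ∈ (HC F halt o).support, (HC F halt o).Reachable a hub := by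
    rintro v ⟨w, h⟩
    have h7 : ∀ v' w', s(v, w) = s(v', w') → (HC F halt o).Reachable v' hub →
        (HC F halt o).Reachable v hub := by
      intro v' w' e h8
      rcases Sym2.eq_iff.1 e with ⟨rfl, rfl⟩ | ⟨rfl, rfl⟩
      · exact h8
      · exact h.reachable.trans h8
    rcases attach_cases _ _ h with ⟨⟨c, a⟩, ⟨c', b⟩, h8, h9⟩ | ⟨a, b, h8, h9⟩ | ⟨j, a, u, -, h9⟩
    · refine h7 _ _ h9 ?_
      rcases ((SimpleGraph.fromRel_adj _ _ _).1 h8).2 with ⟨h10, h11⟩ | ⟨h10, h11⟩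
      · exact (h6 c a b h11).1
      · obtain rfl : c' = c := h10
        exact (h6 c' b a h11).2
    · refine h7 _ _ h9 ?_
      rcases a with s | ⟨u, t⟩ <;> rcases b with s' | ⟨u', t'⟩
      · exact h8.1.elim
      · exact h8.2.1.elim
      · exact h8.elim
      · exact h2 _ _
    · exact h7 _ _ h9 (h2 _ _)
  exact fun a ha b hb => (key a ha).trans (key b hb).symm

variable [Fintype ι]

theorem two_le_edgesC (halt : τ) (hr : 3 * rr (Gm τ) ≤ Kn) (o : Fin Kn) :
    2 ≤ (HC F halt o).edgeSet.ncard := by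
  refine (two_le_edges (F := F) halt hr).trans ?_
  rw [← ncard_map _ (Function.Embedding.inl (β := Vx τ (Option (CI ι) × Bool)))]
  refine Set.ncard_le_ncard (SimpleGraph.edgeSet_mono fun v w h => ?_) (Set.toFinite _)
  obtain ⟨a, b, h1, rfl, rfl⟩ := (SimpleGraph.map_adj _ _ _ _).1 h
  exact (attach_inl _ _).2 h1

end conn

section main
open Filter Topology

variable {τ : Type} [Fintype τ] [WP τ] [Inhabited τ] {ι : Type} [Fintype ι] {F : ι → Clause τ}
  {halt : τ} {Kn : ℕ}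

omit [Fintype ι] in
theorem mainC_lower [AP (Gm τ)] {Good : Term τ → Prop} (hw : ∀ c, WF (F c))
    (hso : ∀ c, Sound (gam (Gm τ)) Good (F c)) (hS : ∀ t, Good t → Shape (gam (Gm τ)) t)
    (hG : ∀ l r, ¬ Good (.node halt l r)) (hF : ∀ c, (F c).length + 2 ≤ Kn)
    (hr : 3 * rr (Gm τ) ≤ Kn) {o : Fin Kn} (ho : o.1 = 0) {β : ℝ} (hβ : 2 * (mm (Gm τ) : ℝ) / aa (Gm τ) < β) :
    ∀ᶠ n : ℕ in atTop, -β ≤ expo (HC F halt o) n := by
  obtain ⟨hm, hA⟩ := main_pos (τ := τ)
  have hA0 : (0 : ℝ) < aa (Gm τ) := by linarith [aa_lo (Gm τ)]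
  have hβ0 : 0 < β := lt_trans (by positivity) hβ
  have h1 : 1 / β < aa (Gm τ) / (2 * (mm (Gm τ) : ℝ)) := by
    rw [div_lt_iff₀ hA0] at hβ
    rw [div_lt_div_iff₀ hβ0 (by positivity)]
    linarith
  obtain ⟨θ, h2, h3⟩ := exists_between h1
  have hθ : 0 < θ := lt_trans (by positivity) h2
  rw [div_lt_iff₀ hβ0] at h2
  rw [lt_div_iff₀ (by positivity)] at h3
  obtain ⟨L, hL⟩ := lowerC_theta hw hso hS hG hF hr ho hθ (by linarith)
  filter_upwards [first_rooted hθ (β := β) (by linarith) L (δ := 1 / 4) (by norm_num),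
    eventually_ge_atTop 3] with n h4 hn
  refine le_expo _ (by omega) fun p hp => ?_
  obtain ⟨Rt, -, hRt⟩ := Finset.exists_subset_card_eq
    (s := (Finset.univ : Finset (Fin n))) (n := 3) (by simpa using hn)
  refine lt_of_le_of_lt ((Pr_mono fun G hG => ?_).trans (h4 p hp Rt hRt.le)) (by norm_num)
  by_contra hc
  refine hL n G Rt hRt (fun X hX => ?_) hG
  by_contra hc'
  exact hc ⟨X, hX, not_le.1 hc'⟩

theorem mainC_upper {a : ℝ} (h1 : (AA (Gm τ) : ℝ) - 1 ≤ a) (h2 : a ≤ AA (Gm τ))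
    (hw : ∀ c, WF (F c)) (hF : ∀ c, (F c).length + 2 ≤ Kn) (hr : 3 * rr (Gm τ) ≤ Kn) {o : Fin Kn} (ho : o.1 = 0)
    {𝒯 : Finset (Term τ)} (hB : Bal ((a - AA (Gm τ) + 2) / 2) 𝒯) {l r : Term τ}
    (h : Der F 𝒯 (.node halt l r)) {β : ℝ} (hβ0 : 0 < β) (hβ : β < 2 * (mm (Gm τ) : ℝ) / a) :
    ∀ᶠ n : ℕ in atTop, expo (HC F halt o) n ≤ -β := by
  classical
  obtain ⟨hm, hA⟩ := main_pos (τ := τ)
  have hA0 : (0 : ℝ) < a := by linarith
  have g2 := two_le_edgesC (F := F) halt hr o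
  obtain ⟨x, y, hxy⟩ : ∃ x y, (HC F halt o).Adj x y := by
    have h3 : (HC F halt o).edgeSet.Nonempty := Set.nonempty_of_ncard_ne_zero (by omega)
    obtain ⟨e, he⟩ := h3
    induction e using Sym2.ind with
    | _ x y => exact ⟨x, y, he⟩
  have hβ1 : β < 1 := hβ.trans_le ((div_le_one hA0).2 (by linarith))
  rw [lt_div_iff₀ hA0] at hβ
  have h4 : ∀ S : Finset ((Vx τ (NW τ 𝒯) ⊕ VH τ ι Kn) ⊕
      Vx τ ((Option (CI ι) ⊕ Fin (rr (Gm τ))) × Bool)), S.Nonempty →
      Disjoint S {.inl (.inl (.inl false)), .inl (.inl (.inl true))} →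
      β * eIn (WC F halt o 𝒯) (S ∪ {.inl (.inl (.inl false)), .inl (.inl (.inl true))}) < S.card := by
    intro S hS hd
    have h5 := sparse_WC h1 h2 hw halt o hB S hd
    rw [ec_eq_eIn] at h5
    push_cast at h5
    have h6 : (0 : ℝ) < S.card := by exact_mod_cast hS.card_pos
    have h7 := mul_le_mul_of_nonneg_left h5 hβ0.le
    have h8 := mul_lt_mul_of_pos_right hβ h6
    refine lt_of_mul_lt_mul_left (a := 2 * (mm (Gm τ) : ℝ)) ?_ (by positivity)
    linarith
  filter_upwards [upper_whp (HC F halt o) hxy (WC F halt o 𝒯) (by simp)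
    (fun h => roots_not_adj halt Kn 𝒯 ((attach_inl _ _).1 h)) hβ0 hβ1 h4
    fun n G f hf => upperC_fin hw h _ (fireP_HC hF hr ho f hf),
    eventually_ge_atTop 2] with n h14 hn
  exact expo_le _ g2 hn hβ0 h14

theorem exists_conn {W : Type} [Fintype W] (H : SimpleGraph W)
    (h : ∀ a ∈ H.support, ∀ b ∈ H.support, H.Reachable a b) (h2 : 2 ≤ H.edgeSet.ncard) :
    ∃ (k : ℕ) (H' : SimpleGraph (Fin k)), H'.Connected ∧ ∀ᶠ n : ℕ in atTop, expo H n = expo H' n := by
  classical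
  have e0 : (H.induce H.support).map (Function.Embedding.subtype _) = H := by
    ext a b
    rw [SimpleGraph.map_adj]
    exact ⟨by rintro ⟨a, b, h, rfl, rfl⟩; exact h,
      fun h => ⟨⟨a, b, h⟩, ⟨b, a, h.symm⟩, h, rfl, rfl⟩⟩
  have key : ∀ (a : H.support) y, Relation.ReflTransGen H.Adj a.1 y →
      ∃ b : H.support, y = b.1 ∧ (H.induce H.support).Reachable a b := by
    intro a y h
    induction h with
    | refl => exact ⟨a, rfl, .refl a⟩
    | tail _ h2 ih =>
      obtain ⟨b, rfl, h3⟩ := ih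
      exact ⟨⟨_, _, h2.symm⟩, rfl, h3.trans (SimpleGraph.Adj.reachable h2)⟩
  obtain ⟨x, y, hxy⟩ : ∃ x y, H.Adj x y := by
    have h3 : H.edgeSet.Nonempty := Set.nonempty_of_ncard_ne_zero (by omega)
    obtain ⟨e, he⟩ := h3
    induction e using Sym2.ind with
    | _ x y => exact ⟨x, y, he⟩
  have : Nonempty H.support := ⟨⟨x, y, hxy⟩⟩
  have hc : (H.induce H.support).Connected := by
    refine ⟨fun a b => ?_⟩
    obtain ⟨b', h3, h4⟩ := key a _ ((SimpleGraph.reachable_iff_reflTransGen _ _).1 (h _ a.2 _ b.2))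
    rw [Subtype.ext h3]
    exact h4
  refine ⟨_, (H.induce H.support).map (Fintype.equivFin _).toEmbedding,
    (SimpleGraph.Iso.map (Fintype.equivFin _) _).connected_iff.1 hc, ?_⟩
  filter_upwards [eventually_ge_atTop (Fintype.card W)] with n hn
  rw [expo_map _ _ ((Fintype.card_fin _).trans_le ((Fintype.card_subtype_le _).trans hn)),
    ← expo_map (H.induce H.support) (Function.Embedding.subtype _) hn, e0]

end main

end Pool.Agent.HI
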