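import Pool.Agent.P.HI.I8
import Pool.Agent.P.HI.I9

/-! The main theorem for a connected graph. -/

open Finset

namespace Pool.Agent.HI

open Pool.Agent.HB

open Filter Topology

section final
variable {τ : Type} [Fintype τ] [WP τ] [Inhabited τ] {ι : Type} [Fintype ι] {F : ι → Clause τ}
  {halt : τ} {Kn : ℕ}

theorem mainC_tendsto [AP (Gm τ)] {Good : Term τ → Prop} (hlt : aa (Gm τ) < AA (Gm τ))
    (hw : ∀ c, WF (F c)) (hso : ∀ c, Sound (gam (Gm τ)) Good (F c))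
    (hS : ∀ t, Good t → Shape (gam (Gm τ)) t) (hG : ∀ l r, ¬ Good (.node halt l r))
    (hF : ∀ c, (F c).length + 2 ≤ Kn) (hr : 3 * rr (Gm τ) ≤ Kn) {o : Fin Kn} (ho : o.1 = 0)
    (hup : ∀ γ', gam (Gm τ) < γ' → ∃ (𝒯 : Finset (Term τ)) (l r : Term τ), Bal γ' 𝒯 ∧
      Der F 𝒯 (.node halt l r)) :
    Tendsto (expo (HC F halt o)) atTop (𝓝 (-(2 * (mm (Gm τ) : ℝ) / aa (Gm τ)))) := by
  obtain ⟨hm, hA⟩ := main_pos (τ := τ)
  have hlo := aa_lo (Gm τ)
  have ha0 : 0 < aa (Gm τ) := by linarith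
  refine tendsto_order.2 ⟨fun z hz => ?_, fun z hz => ?_⟩
  · obtain ⟨w, h3, h4⟩ := exists_between hz
    filter_upwards [mainC_lower hw hso hS hG hF hr ho (β := -w) (by linarith)] with n hn
    linarith
  · have h3 : max 0 (-z) < 2 * (mm (Gm τ) : ℝ) / aa (Gm τ) :=
      max_lt (div_pos (by linarith) ha0) (by linarith)
    obtain ⟨β, h4, h5⟩ := exists_between h3
    have h6 : 0 < β := (le_max_left _ _).trans_lt h4
    have h7 : -z < β := (le_max_right _ _).trans_lt h4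
    have h8 : aa (Gm τ) < min (2 * (mm (Gm τ) : ℝ) / β) (AA (Gm τ)) := by
      refine lt_min ?_ hlt
      rw [lt_div_iff₀ ha0] at h5
      rw [lt_div_iff₀ h6]
      linarith
    obtain ⟨a, h9, h10⟩ := exists_between h8
    have h11 := h10.trans_le (min_le_left _ _)
    have h12 := h10.trans_le (min_le_right _ _)
    obtain ⟨𝒯, l, r, hB, hD⟩ := hup ((a - AA (Gm τ) + 2) / 2) (by unfold gam; linarith)
    filter_upwards [mainC_upper (by linarith) h12.le hw hF hr ho hB hD h6 (by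
      rw [lt_div_iff₀ h6] at h11
      rw [lt_div_iff₀ (by linarith)]
      linarith)] with n hn
    linarith

theorem mainC_irr {γ : ℝ} (hγ : Irrational γ) (h1 : 1 / 2 ≤ γ) (h2 : γ < 1)
    {Good : Term τ → Prop} (hw : ∀ c, WF (F c)) (hso : ∀ c, Sound γ Good (F c))
    (hS : ∀ t, Good t → Shape γ t) (hG : ∀ l r, ¬ Good (.node halt l r)) {N : ℕ}
    (hF : ∀ c, (F c).length ≤ N)
    (hup : ∀ γ', γ < γ' → ∃ (𝒯 : Finset (Term τ)) (l r : Term τ), Bal γ' 𝒯 ∧
      Der F 𝒯 (.node halt l r)) :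
    ∃ (k : ℕ) (H : SimpleGraph (Fin k)) (x : ℝ), H.Connected ∧ Irrational x ∧
      Tendsto (expo H) atTop (𝓝 x) := by
  obtain ⟨hm, hA⟩ := main_pos (τ := τ)
  let inst : AP (Gm τ) := ⟨AA (Gm τ) - 2 + 2 * γ, by linarith, by linarith⟩
  have ha : aa (Gm τ) = AA (Gm τ) - 2 + 2 * γ := rfl
  have hg : gam (Gm τ) = γ := by
    unfold gam
    rw [ha]
    ring
  have hF' : ∀ c, (F c).length + 2 ≤ 3 * rr (Gm τ) + (N + 2) := fun c => by
    have := hF c
    omega
  have hr : 3 * rr (Gm τ) ≤ 3 * rr (Gm τ) + (N + 2) := Nat.le_add_right _ _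
  obtain ⟨o, ho⟩ : ∃ o : Fin (3 * rr (Gm τ) + (N + 2)), o.1 = 0 := ⟨⟨0, by omega⟩, rfl⟩
  have key := mainC_tendsto (F := F) (halt := halt) (Good := Good)
    (by linarith) hw (hg ▸ hso) (hg ▸ hS) hG hF' hr ho (hg ▸ hup)
  obtain ⟨k, H, hc, he⟩ := exists_conn (HC F halt o) (reach_HC hF' hr ho) (two_le_edgesC halt hr o)
  refine ⟨k, H, -(2 * (mm (Gm τ) : ℝ) / aa (Gm τ)), hc, ?_, key.congr' he⟩
  · have e : aa (Gm τ) = ((2 : ℕ) : ℝ) * γ + ((AA (Gm τ) - 2 : ℤ) : ℝ) := by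
      rw [ha]
      push_cast
      ring
    have i6 : Irrational (aa (Gm τ)) := e ▸ (hγ.natCast_mul two_ne_zero).add_intCast _
    have i7 := i6.natCast_div (m := 2 * mm (Gm τ)) (by
      have : 0 < mm (Gm τ) := by exact_mod_cast hm
      omega)
    push_cast at i7
    exact i7.neg

end final

theorem main_conn : ∃ (k : ℕ) (H : SimpleGraph (Fin k)) (x : ℝ), H.Connected ∧ Irrational x ∧
    Tendsto (expo H) atTop (𝓝 x) := by
  obtain ⟨γ, hγd⟩ : ∃ γ : ℝ, γ = (√5 - 1) / 2 := ⟨_, rfl⟩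
  have s5 : √5 ^ 2 = (5 : ℝ) := Real.sq_sqrt (by norm_num)
  have s2 : (2 : ℝ) ≤ √5 := Real.le_sqrt_of_sq_le (by norm_num)
  have hγ : γ ^ 2 + γ = 1 := by
    rw [hγd]
    linear_combination (1 / 4 : ℝ) * s5
  have h1 : 1 / 2 ≤ γ := by
    rw [hγd]
    linarith
  have h2 : γ < 1 := by nlinarith
  have i5 : Irrational √5 := by
    have := Nat.Prime.irrational_sqrt (p := 5) (by norm_num)
    exact_mod_cast this
  have i6 : Irrational γ := by
    have := (i5.sub_natCast 1).div_natCast (m := 2) two_ne_zero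
    rw [hγd]
    exact_mod_cast this
  exact mainC_irr (halt := (.inr true : Tg)) (Good := GoodP γ) i6 h1 h2 prog_wf (prog_sound hγ h1)
    good_shape (fun _ _ h => h) (fun c => (prog_check c).1) fun γ' h => prog_halts hγ h1 h

end Pool.Agent.HI
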