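import Pool.Agent.P.HI.I1

section FileFinL

/-! (M): final pairs are plain, form a matching and have a cheap witness. -/

open Finset

namespace Pool.Agent.HI

open Pool.Agent.HB

variable {τ : Type} [Fintype τ] [AP (Gm τ)] {V : Type} [DecidableEq V] {G : SimpleGraph V} {L1 : ℕ}

/-- the set of blobs that makes a token dirty -/
noncomputable def dset (L1 : ℕ) (T : Bl τ G) : Finset (Bl τ G) :=
  open Classical in if h : Dirty L1 T then h.2.choose else ∅

theorem dset_spec {T : Bl τ G} (h : Dirty L1 T) : T ∈ dset L1 T ∧ (∀ B ∈ dset L1 T, Own B T) ∧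
    (dset L1 T).card ≤ L1 ∧ pot (Gm τ) G (UU (dset L1 T)) ≤ 1826 * (mm (Gm τ) : ℝ) := by
  unfold dset
  rw [dif_pos h]
  exact h.2.choose_spec

theorem finl_att (hs : Sparse (Gm τ) G (LL (Gm τ) L1)) {x : V} {s : Bool} (𝓣 : Finset (Bl τ G))
    (h : ∀ T ∈ 𝓣, Dirty L1 T ∧ Att x s T) :
    499 * 𝓣.card ≤ cross G {x} (UU (𝓣.biUnion (dset L1))) := by
  have e : UU 𝓣 ⊆ UU (𝓣.biUnion (dset L1)) := fun v hv => by
    obtain ⟨T, a, b⟩ := mem_UU.1 hv
    exact mem_UU.2 ⟨T, mem_biUnion.2 ⟨T, a, (dset_spec (h T a).1).1⟩, b⟩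
  refine le_trans ?_ (cross_mono le_rfl subset_rfl e)
  unfold UU
  rw [cross_biUnion_right G 𝓣 _ fun T _ T' _ n => Blob.disj hs.old (LL_ge L1) n, mul_comm,
    ← smul_eq_mul]
  refine Finset.card_nsmul_le_sum _ _ _ fun T a => ?_
  have := (h T a).2.2
  have := cross_mono (G := G) (X := {x}) le_rfl subset_rfl (T.gs_sub (.att s, false))
  omega

/-- adding the sets of dirty tokens to a set that contains both ends; `G'` has to contain the
edges of `G` with an end in a blob -/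
theorem pot_add_le (hs : Sparse (Gm τ) G (LL (Gm τ) L1)) {G' : SimpleGraph V}
    (hG : ∀ u v, G.Adj u v → ¬ Plain (Gm τ) G v → G'.Adj u v) {x y : V} (hxy : x ≠ y)
    (𝓣 : Finset (Bl τ G)) (h : ∀ T ∈ 𝓣, Dirty L1 T ∧ Att x false T ∧ Att y true T)
    (X : Finset V) (hx : x ∈ X) (hy : y ∈ X) (hd : ∀ T ∈ 𝓣, Disjoint X (UU (dset L1 T))) :
    pot (Gm τ) G' (X ∪ UU (𝓣.biUnion (dset L1))) ≤
      pot (Gm τ) G' X - 170 * (mm (Gm τ) : ℝ) * 𝓣.card := by
  have e : UU (𝓣.biUnion (dset L1)) = 𝓣.biUnion fun T => UU (dset L1 T) := by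
    unfold UU
    exact Finset.biUnion_biUnion _ _ _
  have d : Disjoint X (UU (𝓣.biUnion (dset L1))) := by
    rw [e, disjoint_biUnion_right]; exact hd
  have mono : ∀ Z, cross G Z (UU (𝓣.biUnion (dset L1))) ≤ cross G' Z (UU (𝓣.biUnion (dset L1))) :=
    fun Z => cross_mono' fun u _ v hv a => hG u v a fun p => by
      obtain ⟨B, -, b⟩ := mem_UU.1 hv
      exact p B b
  have m0 : (0 : ℝ) ≤ mm (Gm τ) := Nat.cast_nonneg _
  have p1 : pot (Gm τ) G' (UU (𝓣.biUnion (dset L1))) ≤ pot (Gm τ) G (UU (𝓣.biUnion (dset L1))) :=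
    sub_le_sub_left (mul_le_mul_of_nonneg_left (Nat.cast_le.2 (mono _)) m0) _
  have p2 : pot (Gm τ) G (UU (𝓣.biUnion (dset L1))) ≤ 𝓣.card * (1826 * (mm (Gm τ) : ℝ)) := by
    rw [e]
    refine (pot_biUnion_le (Gm τ) hs 𝓣 _ fun T a => (card_UU_le _).trans
      ((Nat.mul_le_mul_right _ (dset_spec (h T a).1).2.2.1).trans (LL_ge' L1))).trans ?_
    rw [← nsmul_eq_mul]
    exact Finset.sum_le_card_nsmul _ _ _ fun T a => (dset_spec (h T a).1).2.2.2
  have c1 := finl_att hs 𝓣 fun T a => ⟨(h T a).1, (h T a).2.1⟩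
  have c2 := finl_att hs 𝓣 fun T a => ⟨(h T a).1, (h T a).2.2⟩
  have c3 := cross_union_left G (UU (𝓣.biUnion (dset L1))) (disjoint_singleton.2 hxy)
  have c4 := cross_mono (G := G) (X := {x} ∪ {y}) (X' := X) (Y := UU (𝓣.biUnion (dset L1))) le_rfl
    (union_subset (singleton_subset_iff.2 hx) (singleton_subset_iff.2 hy)) subset_rfl
  have c5 := mono X
  have c6 : 998 * (𝓣.card : ℝ) ≤ cross G' X (UU (𝓣.biUnion (dset L1))) := by
    exact_mod_cast (by omega : 998 * 𝓣.card ≤ cross G' X (UU (𝓣.biUnion (dset L1))))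
  have c7 := mul_le_mul_of_nonneg_left c6 m0
  rw [pot_union (Gm τ) G' d]
  linarith

theorem FinS.symm {x y : V} (h : FinS τ G L1 x y) : FinS τ G L1 y x := Or.symm h

theorem FinS.ne {x y : V} (h : FinS τ G L1 x y) : x ≠ y := h.elim (fun a => a.1) fun a => a.1.symm

omit [AP (Gm τ)] in
theorem finl_num : (100000 : ℝ) * mm (Gm τ) ≤ AA (Gm τ) ∧ (0 : ℝ) < mm (Gm τ) ∧
    (AA (Gm τ) : ℝ) ≤ 93 * ((mm (Gm τ) : ℝ) * rr (Gm τ)) + 95 * mm (Gm τ) := by
  have a1 := AA_ge' (Γ := Gm τ)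
  have a2 := rr_ge (Γ := Gm τ)
  have a3 := sG_ge (Γ := Gm τ)
  have a4 := mm_ge (Γ := Gm τ)
  rw [mul_assoc, mul_comm (rr _)] at a2
  exact ⟨by exact_mod_cast a1, by exact_mod_cast (by omega : 0 < mm (Gm τ)), by exact_mod_cast a2⟩

omit [DecidableEq V] in
theorem pot_pair_le {G' : SimpleGraph V} [DecidableEq V] {x y : V} (hxy : x ≠ y) :
    pot (Gm τ) G' {x, y} ≤ 2 * (AA (Gm τ) : ℝ) := by
  unfold pot
  rw [card_pair hxy]
  have : (0 : ℝ) ≤ (mm (Gm τ) : ℝ) * ec G' {x, y} := by positivity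
  have := aa_hi (Gm τ)
  push_cast
  linarith

theorem finl_cell (hs : Sparse (Gm τ) G (LL (Gm τ) L1)) (v : V) : ∃ C : Finset V, v ∈ C ∧
    C.card ≤ mm (Gm τ) ∧ pot (Gm τ) G C ≤ AA (Gm τ) ∧
    (¬ Plain (Gm τ) G v → pot (Gm τ) G C ≤ 5002 * (mm (Gm τ) : ℝ)) ∧
    ∀ T T' : Bl τ G, Dirty L1 T → Dirty L1 T' → ¬ Disjoint C (UU (dset L1 T)) →
      ¬ Disjoint C (UU (dset L1 T')) → T = T' := by
  obtain ⟨n1, n2, -⟩ := finl_num (τ := τ)
  by_cases p : Plain (Gm τ) G v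
  · refine ⟨{v}, mem_singleton_self _, by rw [card_singleton]; exact_mod_cast n2,
      (pot_single _ G v).le.trans (aa_hi _),
      fun n => absurd p n, fun T _ _ _ a _ => absurd (disjoint_singleton_left.2 fun b => ?_) a⟩
    obtain ⟨B, -, b⟩ := mem_UU.1 b
    exact p B b
  · obtain ⟨B, hB⟩ := not_forall.1 p
    have own : ∀ T : Bl τ G, Dirty L1 T → ¬ Disjoint B.1 (UU (dset L1 T)) → Own B T :=
      fun T a b => by
        obtain ⟨w, b1, b2⟩ := not_disjoint_iff.1 b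
        obtain ⟨B', b3, b4⟩ := mem_UU.1 b2
        rw [Blob.eq_of_mem hs.old (LL_ge L1) b1 b4]
        exact (dset_spec a).2.1 B' b3
    have := blob_pot_le B
    exact ⟨B.1, not_not.1 hB, B.card_eq.le, by linarith, fun _ => this, fun T T' a a' b b' =>
      own_unique hs.old (LL_ge L1) (own T a b) a.1 (own T' a' b') a'.1⟩

theorem finl_card (𝓣 : Finset (Bl τ G)) (h : ∀ T ∈ 𝓣, Dirty L1 T) :
    (𝓣.biUnion (dset L1)).card ≤ 𝓣.card * L1 :=
  card_biUnion_le_card_mul _ _ _ fun T a => (dset_spec (h T a)).2.2.1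

theorem finl_plain (hs : Sparse (Gm τ) G (LL (Gm τ) L1)) {x y : V} (h : FinP τ G L1 x y) :
    Plain (Gm τ) G x ∧ Plain (Gm τ) G y := by
  classical
  obtain ⟨hxy, 𝓣, hc, h⟩ := h
  obtain ⟨n1, n2, n3⟩ := finl_num (τ := τ)
  obtain ⟨C, c1, c2, c3, c4, c5⟩ := finl_cell hs x
  obtain ⟨D, d1, d2, d3, d4, d5⟩ := finl_cell hs y
  have hL := LL_ge (Γ := Gm τ) L1
  by_contra hn
  have p1 := pot_submod (Gm τ) G C D
  have p2 := hs (C ∩ D) ((card_le_card inter_subset_left).trans (by omega))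
  have p3 : pot (Gm τ) G (C ∪ D) ≤ AA (Gm τ) + 5002 * (mm (Gm τ) : ℝ) := by
    rcases not_and_or.1 hn with a | a
    · have := c4 a; linarith
    · have := d4 a; linarith
  let 𝓢 := 𝓣.filter fun T => Disjoint (C ∪ D) (UU (dset L1 T))
  have sub : 𝓢 ⊆ 𝓣 := filter_subset _ _
  have k1 : (𝓣.filter fun T => ¬ Disjoint C (UU (dset L1 T))).card ≤ 1 :=
    card_le_one.2 fun T a T' a' => c5 T T' (h T (mem_filter.1 a).1).1 (h T' (mem_filter.1 a').1).1
      (mem_filter.1 a).2 (mem_filter.1 a').2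
  have k2 : (𝓣.filter fun T => ¬ Disjoint D (UU (dset L1 T))).card ≤ 1 :=
    card_le_one.2 fun T a T' a' => d5 T T' (h T (mem_filter.1 a).1).1 (h T' (mem_filter.1 a').1).1
      (mem_filter.1 a).2 (mem_filter.1 a').2
  have k3 : 𝓣 ⊆ 𝓢 ∪ ((𝓣.filter fun T => ¬ Disjoint C (UU (dset L1 T))) ∪
      𝓣.filter fun T => ¬ Disjoint D (UU (dset L1 T))) := fun T a => by
    simp only [𝓢, mem_union, mem_filter, disjoint_union_left, a, true_and]
    tauto
  have k4 := (card_le_card k3).trans ((card_union_le _ _).trans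
    (Nat.add_le_add_left (card_union_le _ _) _))
  have k5 : (rr (Gm τ) : ℝ) - 2 ≤ 𝓢.card := by
    have : (rr (Gm τ) : ℝ) ≤ 𝓢.card + 2 := by exact_mod_cast (by omega : rr (Gm τ) ≤ 𝓢.card + 2)
    linarith
  have k6 := mul_le_mul_of_nonneg_left k5 n2.le
  have p4 := pot_add_le hs (G' := G) (fun _ _ a _ => a) hxy 𝓢 (fun T a => h T (sub a)) (C ∪ D)
    (mem_union_left _ c1) (mem_union_right _ d1) fun T a => (mem_filter.1 a).2
  have p5 := hs ((C ∪ D) ∪ UU (𝓢.biUnion (dset L1))) (by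
    have a1 := card_union_le (C ∪ D) (UU (𝓢.biUnion (dset L1)))
    have a2 := card_union_le C D
    have a3 : (UU (𝓢.biUnion (dset L1))).card ≤ rr (Gm τ) * L1 * mm (Gm τ) :=
      (card_UU_le _).trans (Nat.mul_le_mul_right _ ((finl_card 𝓢 fun T a => (h T (sub a)).1).trans
        (Nat.mul_le_mul_right _ (hc ▸ card_le_card sub))))
    have a4 : LL (Gm τ) L1 = mm (Gm τ) * (2 + rr (Gm τ) * L1 * mm (Gm τ) + mm (Gm τ)) +
        2 * (2 + rr (Gm τ) * L1 * mm (Gm τ) + mm (Gm τ)) := by unfold LL; ring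
    omega)
  linarith

theorem end_plain (hs : Sparse (Gm τ) G (LL (Gm τ) L1)) {x : V} (h : End τ G L1 x) :
    Plain (Gm τ) G x := by
  obtain ⟨y, h | h⟩ := h
  exacts [(finl_plain hs h).1, (finl_plain hs h).2]

theorem finl_wit (hs : Sparse (Gm τ) G (LL (Gm τ) L1)) {x y : V} (h : FinP τ G L1 x y) :
    ∃ 𝓑 : Finset (Bl τ G), 𝓑.card ≤ rr (Gm τ) * L1 ∧ ∀ G' : SimpleGraph V,
      (∀ u v, G.Adj u v → ¬ Plain (Gm τ) G v → G'.Adj u v) →
        100 * pot (Gm τ) G' ({x, y} ∪ UU 𝓑) ≤ 18 * (AA (Gm τ) : ℝ) := by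
  obtain ⟨px, py⟩ := finl_plain hs h
  obtain ⟨hxy, 𝓣, hc, h⟩ := h
  obtain ⟨n1, n2, n3⟩ := finl_num (τ := τ)
  refine ⟨𝓣.biUnion (dset L1), hc ▸ finl_card 𝓣 fun T a => (h T a).1, fun G' hG => ?_⟩
  have p1 := pot_add_le hs hG hxy 𝓣 h {x, y} (by simp) (by simp) fun T _ =>
    disjoint_left.2 fun v a b => by
      obtain ⟨B, -, b⟩ := mem_UU.1 b
      rcases mem_insert.1 a with rfl | a
      · exact px B b
      · rw [mem_singleton.1 a] at b
        exact py B b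
  have p2 : pot (Gm τ) G' {x, y} ≤ 2 * (AA (Gm τ) : ℝ) := pot_pair_le hxy
  rw [hc] at p1
  linarith

theorem fin_wit (hs : Sparse (Gm τ) G (LL (Gm τ) L1)) {x y : V} (h : FinS τ G L1 x y) :
    ∃ 𝓑 : Finset (Bl τ G), 𝓑.card ≤ rr (Gm τ) * L1 ∧ ∀ G' : SimpleGraph V,
      (∀ u v, G.Adj u v → ¬ Plain (Gm τ) G v → G'.Adj u v) →
        100 * pot (Gm τ) G' ({x, y} ∪ UU 𝓑) ≤ 18 * (AA (Gm τ) : ℝ) := by
  rcases h with h | h
  · exact finl_wit hs h
  · rw [pair_comm]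
    exact finl_wit hs h

end Pool.Agent.HI

end FileFinL

section FileFinM

/-! Final pairs form a matching; the shape of the extra edges. -/

open Finset

namespace Pool.Agent.HI

open Pool.Agent.HB

variable {τ : Type} [Fintype τ] [AP (Gm τ)] {V : Type} [DecidableEq V] {G K : SimpleGraph V} {L1 : ℕ}

theorem finm_data {x y : V} (h : FinS τ G L1 x y) : ∃ (𝓣 : Finset (Bl τ G)) (s : Bool),
    𝓣.card = rr (Gm τ) ∧ ∀ T ∈ 𝓣, Dirty L1 T ∧ Att x s T ∧ Att y (!s) T := by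
  rcases h with ⟨_, 𝓣, hc, h⟩ | ⟨_, 𝓣, hc, h⟩
  · exact ⟨𝓣, false, hc, h⟩
  · exact ⟨𝓣, true, hc, fun T hT => ⟨(h T hT).1, (h T hT).2.2, (h T hT).2.1⟩⟩

theorem finm_add (hs : Sparse (Gm τ) G (LL (Gm τ) L1)) {x y : V} (hxy : x ≠ y) (s : Bool)
    (𝓣 : Finset (Bl τ G)) (h : ∀ T ∈ 𝓣, Dirty L1 T ∧ Att x s T ∧ Att y (!s) T)
    (X : Finset V) (hx : x ∈ X) (hy : y ∈ X) (hd : ∀ T ∈ 𝓣, Disjoint X (UU (dset L1 T))) :
    pot (Gm τ) G (X ∪ UU (𝓣.biUnion (dset L1))) ≤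
      pot (Gm τ) G X - 170 * (mm (Gm τ) : ℝ) * 𝓣.card := by
  cases s
  · exact pot_add_le hs (fun _ _ h _ => h) hxy 𝓣 h X hx hy hd
  · exact pot_add_le hs (fun _ _ h _ => h) hxy.symm 𝓣
      (fun T hT => ⟨(h T hT).1, (h T hT).2.2, (h T hT).2.1⟩) X hy hx hd

theorem finm_card (𝓣 : Finset (Bl τ G)) (h : ∀ T ∈ 𝓣, Dirty L1 T)
    (hc : 𝓣.card ≤ rr (Gm τ)) :
    (UU (𝓣.biUnion (dset L1))).card ≤ rr (Gm τ) * L1 * mm (Gm τ) := by
  refine (card_UU_le _).trans (Nat.mul_le_mul_right _ ?_)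
  refine (card_biUnion_le_card_mul 𝓣 _ L1 fun T hT => (dset_spec (h T hT)).2.2.1).trans ?_
  exact Nat.mul_le_mul_right _ hc

omit [AP (Gm τ)] in
theorem finm_not_mem {v : V} (hv : Plain (Gm τ) G v) (𝓑 : Finset (Bl τ G)) : v ∉ UU 𝓑 := by
  intro h
  obtain ⟨B, _, hB⟩ := mem_UU.1 h
  exact hv B hB

theorem finm_end1 {u v : V} (h : FinP τ G L1 u v) : End τ G L1 u := ⟨v, Or.inl h⟩

theorem finm_end2 {u v : V} (h : FinP τ G L1 u v) : End τ G L1 v := ⟨u, Or.inr h⟩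

theorem fin_match (hs : Sparse (Gm τ) G (LL (Gm τ) L1)) {x y z : V} (h : FinS τ G L1 x y)
    (h' : FinS τ G L1 x z) : y = z := by
  by_contra hyz
  have hL : 5 * mm (Gm τ) ≤ LL (Gm τ) L1 := LL_ge L1
  have px : Plain (Gm τ) G x := end_plain hs ⟨y, h⟩
  have py : Plain (Gm τ) G y := end_plain hs ⟨x, h.symm⟩
  have pz : Plain (Gm τ) G z := end_plain hs ⟨x, h'.symm⟩
  obtain ⟨𝓣, s, hc, h𝓣⟩ := finm_data h
  obtain ⟨𝓢, s', hc', h𝓢⟩ := finm_data h'
  obtain ⟨W, hW⟩ : ∃ W, W = ({x, y} : Finset V) ∪ UU (𝓣.biUnion (dset L1)) := ⟨_, rfl⟩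
  have h1 : pot (Gm τ) G W ≤ pot (Gm τ) G {x, y} - 170 * (mm (Gm τ) : ℝ) * 𝓣.card := by
    rw [hW]
    refine finm_add hs h.ne s 𝓣 h𝓣 _ (by simp) (by simp) fun T _ => ?_
    rw [disjoint_left]
    intro v hv
    rcases mem_insert.1 hv with rfl | hv
    · exact finm_not_mem px _
    · rw [mem_singleton.1 hv]; exact finm_not_mem py _
  have h2 : pot (Gm τ) G {x, y} ≤ 2 * (AA (Gm τ) : ℝ) := pot_pair_le h.ne
  have hzW : Disjoint {z} W := by
    rw [disjoint_singleton_left, hW, mem_union, mem_insert, mem_singleton]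
    rintro ((h | h) | h)
    · exact h'.ne h.symm
    · exact hyz h.symm
    · exact finm_not_mem pz _ h
  have h3 := pot_union (Gm τ) G hzW
  rw [pot_single] at h3
  have h4 : 499 * (𝓢 ∩ 𝓣).card ≤ cross G {z} W := by
    have e1 := cross_biUnion_right G (𝓢 ∩ 𝓣) (fun T : Bl τ G => T.gs (.att (!s'), false))
      (fun i _ j _ hij => Disjoint.mono (i.gs_sub _) (j.gs_sub _) (Blob.disj hs.old hL hij)) {z}
    have e2 : cross G {z} ((𝓢 ∩ 𝓣).biUnion fun T : Bl τ G => T.gs (.att (!s'), false)) ≤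
        cross G {z} W := by
      refine cross_mono le_rfl (Subset.refl _) (biUnion_subset.2 fun T hT v hv => ?_)
      have hT' := (mem_inter.1 hT).2
      rw [hW]
      exact mem_union_right _ (mem_UU.2 ⟨T, mem_biUnion.2 ⟨T, hT', (dset_spec (h𝓣 T hT').1).1⟩,
        T.gs_sub _ hv⟩)
    refine le_trans ?_ e2
    rw [e1, mul_comm, ← smul_eq_mul]
    refine card_nsmul_le_sum _ _ _ fun T hT => ?_
    have := (h𝓢 T (mem_inter.1 hT).1).2.2.2
    omega
  have h5 := finm_add hs h'.ne s' (𝓢 \ 𝓣) (fun T hT => h𝓢 T (mem_sdiff.1 hT).1) ({z} ∪ W)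
    (by rw [hW]; simp) (by simp) (by
      intro T hT
      obtain ⟨hT1, hT2⟩ := mem_sdiff.1 hT
      rw [disjoint_left]
      intro v hv hv'
      rcases mem_union.1 hv with hv | hv
      · rw [mem_singleton.1 hv] at hv'
        exact finm_not_mem pz _ hv'
      · rw [hW] at hv
        rcases mem_union.1 hv with hv | hv
        · rcases mem_insert.1 hv with rfl | hv
          · exact finm_not_mem px _ hv'
          · rw [mem_singleton.1 hv] at hv'
            exact finm_not_mem py _ hv'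
        · obtain ⟨B, hB, hvB⟩ := mem_UU.1 hv
          obtain ⟨B', hB', hvB'⟩ := mem_UU.1 hv'
          obtain ⟨T', hT', hBT'⟩ := mem_biUnion.1 hB
          have e : B = B' := Blob.eq_of_mem hs.old hL hvB hvB'
          subst e
          have d1 := (h𝓢 T hT1).1
          have d2 := (h𝓣 T' hT').1
          have e' : T = T' := own_unique hs.old hL ((dset_spec d1).2.1 B hB') d1.1
            ((dset_spec d2).2.1 B hBT') d2.1
          exact hT2 (e' ▸ hT'))
  have h6 : (({z} ∪ W) ∪ UU ((𝓢 \ 𝓣).biUnion (dset L1))).card ≤ LL (Gm τ) L1 := by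
    have c1 := finm_card 𝓣 (fun T hT => (h𝓣 T hT).1) hc.le
    have c2 := finm_card (𝓢 \ 𝓣) (fun T hT => (h𝓢 T (mem_sdiff.1 hT).1).1)
      ((card_le_card sdiff_subset).trans hc'.le)
    have c3 : W.card ≤ 2 + rr (Gm τ) * L1 * mm (Gm τ) := by
      rw [hW]
      exact (card_union_le _ _).trans (Nat.add_le_add card_le_two c1)
    have c4 := card_union_le ({z} ∪ W) (UU ((𝓢 \ 𝓣).biUnion (dset L1)))
    have c5 := card_union_le {z} W
    rw [card_singleton] at c5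
    have c6 : 2 * (2 + rr (Gm τ) * L1 * mm (Gm τ) + mm (Gm τ)) ≤ LL (Gm τ) L1 :=
      Nat.mul_le_mul_right _ (Nat.le_add_left 2 _)
    omega
  have h7 := hs _ h6
  have h8 : (𝓢 \ 𝓣).card + (𝓢 ∩ 𝓣).card = rr (Gm τ) := by
    rw [card_sdiff_add_card_inter, hc']
  have h9 : AA (Gm τ) ≤ 93 * rr (Gm τ) * mm (Gm τ) + 95 * mm (Gm τ) := rr_ge
  have i0 := aa_hi (Gm τ)
  have h10 : 100000 * mm (Gm τ) ≤ AA (Gm τ) := AA_ge'
  have h11 : 400000 * sG (Gm τ) ≤ mm (Gm τ) := mm_ge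
  have h12 : 4000 ≤ sG (Gm τ) := sG_ge
  rw [hc] at h1
  have i4 : (499 : ℝ) * (𝓢 ∩ 𝓣).card ≤ cross G {z} W := by exact_mod_cast h4
  have i8 : ((𝓢 \ 𝓣).card : ℝ) + (𝓢 ∩ 𝓣).card = rr (Gm τ) := by exact_mod_cast h8
  have i9 : (AA (Gm τ) : ℝ) ≤ 93 * rr (Gm τ) * mm (Gm τ) + 95 * mm (Gm τ) := by
    exact_mod_cast h9
  have i10 : (100000 : ℝ) * mm (Gm τ) ≤ AA (Gm τ) := by exact_mod_cast h10
  have i11 : (1 : ℝ) ≤ mm (Gm τ) := by
    have : 1 ≤ mm (Gm τ) := by omega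
    exact_mod_cast this
  have j1 : (mm (Gm τ) : ℝ) * (499 * (𝓢 ∩ 𝓣).card) ≤ mm (Gm τ) * cross G {z} W :=
    mul_le_mul_of_nonneg_left i4 (by linarith)
  have j2 : (0 : ℝ) ≤ (mm (Gm τ) : ℝ) * (𝓢 ∩ 𝓣).card :=
    mul_nonneg (Nat.cast_nonneg _) (Nat.cast_nonneg _)
  have j3 : (mm (Gm τ) : ℝ) * (𝓢 \ 𝓣).card + mm (Gm τ) * (𝓢 ∩ 𝓣).card =
      mm (Gm τ) * rr (Gm τ) := by rw [← mul_add, i8]
  nlinarith

/-- an extra edge inside a blob is a base edge -/
theorem extra_in (hs : Sparse (Gm τ) G (LL (Gm τ) L1)) (hK : AllOK τ G L1 K) {u v : V}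
    (h : K.Adj u v) (h' : ¬ G.Adj u v) {B : Bl τ G} (hu : u ∈ B.1) (hv : v ∈ B.1) :
    B.Base u v := by
  have hL : 5 * mm (Gm τ) ≤ LL (Gm τ) L1 := LL_ge L1
  have key : ∀ {u v : V}, u ∈ B.1 → v ∈ B.1 → OK1 τ G L1 u v → B.Base u v := by
    intro u v hu hv h
    rcases h with ⟨B0, h⟩ | ⟨B1, k, B2, hne, h1, h2, _⟩ | ⟨s, T, h, _⟩ | h
    · rwa [Blob.eq_of_mem hs.old hL hu h.mem.1]
    · exact absurd ((Blob.eq_of_mem hs.old hL (B1.gs_sub _ h1) hu).trans
        (Blob.eq_of_mem hs.old hL hv (B2.gs_sub _ h2))) hne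
    · exact absurd hu (end_plain hs h B)
    · exact absurd hu (end_plain hs (finm_end1 h) B)
  rcases hK u v h h' with h | h
  · exact key hu hv h
  · exact Blob.Base.symm (key hv hu h)

/-- an extra edge from outside into a blob ends in a group -/
theorem extra_out (hs : Sparse (Gm τ) G (LL (Gm τ) L1)) (hK : AllOK τ G L1 K) {u v : V}
    (h : K.Adj u v) (h' : ¬ G.Adj u v) {B : Bl τ G} (hu : u ∉ B.1) (hv : v ∈ B.1) :
    ∃ g, v ∈ B.gs g := by
  have hL : 5 * mm (Gm τ) ≤ LL (Gm τ) L1 := LL_ge L1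
  rcases hK u v h h' with h | h
  · rcases h with ⟨B0, h⟩ | ⟨B1, k, B2, _, _, h2, _⟩ | ⟨s, T, _, _, h⟩ | h
    · rw [Blob.eq_of_mem hs.old hL hv h.mem.2] at hu
      exact absurd h.mem.1 hu
    · rw [Blob.eq_of_mem hs.old hL hv (B2.gs_sub _ h2)]
      exact ⟨_, h2⟩
    · rw [Blob.eq_of_mem hs.old hL hv (T.gs_sub _ h)]
      exact ⟨_, h⟩
    · exact absurd hv (end_plain hs (finm_end2 h) B)
  · rcases h with ⟨B0, h⟩ | ⟨B1, k, B2, _, h1, _⟩ | ⟨s, T, h, _⟩ | h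
    · rw [Blob.eq_of_mem hs.old hL hv h.mem.1] at hu
      exact absurd h.mem.2 hu
    · rw [Blob.eq_of_mem hs.old hL hv (B1.gs_sub _ h1)]
      exact ⟨_, h1⟩
    · exact absurd hv (end_plain hs h B)
    · exact absurd hv (end_plain hs (finm_end1 h) B)

/-- an extra edge between different blobs joins a source group and a target group -/
theorem extra_inter (hs : Sparse (Gm τ) G (LL (Gm τ) L1)) (hK : AllOK τ G L1 K) {u v : V}
    (h : K.Adj u v) (h' : ¬ G.Adj u v) {B B' : Bl τ G} (hB : B ≠ B') (hu : u ∈ B.1)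
    (hv : v ∈ B'.1) : ∃ k, (u ∈ B.gs (k, true) ∧ v ∈ B'.gs (k, false)) ∨
      (u ∈ B.gs (k, false) ∧ v ∈ B'.gs (k, true)) := by
  have hL : 5 * mm (Gm τ) ≤ LL (Gm τ) L1 := LL_ge L1
  have key : ∀ {u v : V} {B B' : Bl τ G}, B ≠ B' → u ∈ B.1 → v ∈ B'.1 → OK1 τ G L1 u v →
      ∃ k, u ∈ B.gs (k, true) ∧ v ∈ B'.gs (k, false) := by
    intro u v B B' hB hu hv h
    rcases h with ⟨B0, h⟩ | ⟨B1, k, B2, _, h1, h2, _⟩ | ⟨s, T, h, _⟩ | h
    · exact absurd ((Blob.eq_of_mem hs.old hL hu h.mem.1).trans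
        (Blob.eq_of_mem hs.old hL h.mem.2 hv)) hB
    · rw [Blob.eq_of_mem hs.old hL hu (B1.gs_sub _ h1), Blob.eq_of_mem hs.old hL hv (B2.gs_sub _ h2)]
      exact ⟨k, h1, h2⟩
    · exact absurd hu (end_plain hs h B)
    · exact absurd hu (end_plain hs (finm_end1 h) B)
  rcases hK u v h h' with h | h
  · obtain ⟨k, hk⟩ := key hB hu hv h
    exact ⟨k, Or.inl hk⟩
  · obtain ⟨k, hk⟩ := key hB.symm hv hu h
    exact ⟨k, Or.inr hk.symm⟩

/-- an extra edge at a plain vertex -/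
theorem extra_end (hK : AllOK τ G L1 K) {u v : V} (h : K.Adj u v) (h' : ¬ G.Adj u v)
    (hu : Plain (Gm τ) G u) : End τ G L1 u := by
  rcases hK u v h h' with h | h
  · rcases h with ⟨B0, h⟩ | ⟨B1, k, B2, _, h1, _⟩ | ⟨s, T, h, _⟩ | h
    · exact absurd h.mem.1 (hu B0)
    · exact absurd (B1.gs_sub _ h1) (hu B1)
    · exact h
    · exact finm_end1 h
  · rcases h with ⟨B0, h⟩ | ⟨B1, k, B2, _, _, h2, _⟩ | ⟨s, T, _, _, h⟩ | h
    · exact absurd h.mem.2 (hu B0)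
    · exact absurd (B2.gs_sub _ h2) (hu B2)
    · exact absurd (T.gs_sub _ h) (hu T)
    · exact finm_end2 h

/-- an extra edge between plain vertices -/
theorem extra_fin (hK : AllOK τ G L1 K) {u v : V} (h : K.Adj u v) (h' : ¬ G.Adj u v)
    (hu : Plain (Gm τ) G u) (hv : Plain (Gm τ) G v) : FinS τ G L1 u v := by
  have key : ∀ {u v : V}, Plain (Gm τ) G v → OK1 τ G L1 u v → FinP τ G L1 u v := by
    intro u v hv h
    rcases h with ⟨B0, h⟩ | ⟨B1, k, B2, _, _, h2, _⟩ | ⟨s, T, _, _, h⟩ | h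
    · exact absurd h.mem.2 (hv B0)
    · exact absurd (B2.gs_sub _ h2) (hv B2)
    · exact absurd (T.gs_sub _ h) (hv T)
    · exact h
  rcases hK u v h h' with h | h
  · exact Or.inl (key hv h)
  · exact Or.inr (key hu h)

theorem rel_of_cnt (hs : Sparse (Gm τ) G (LL (Gm τ) L1)) (hK : AllOK τ G L1 K) {x y : V}
    {u u' : Bl τ G} {k : Kind τ} (hu : u ≠ u') (hk : k = .anc ∨ ∃ c, k = .tag c)
    (h : k.sz ≤ cnt (K ⊔ SimpleGraph.edge x y) u k u') : Rel u k u' := by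
  have hL : 5 * mm (Gm τ) ≤ LL (Gm τ) L1 := LL_ge L1
  by_cases hall : ∀ a ∈ u.gs (k, true), ∀ b ∈ u'.gs (k, false), K.Adj a b → G.Adj a b
  · refine ⟨hu, h.trans ?_⟩
    have h1 : cnt (K ⊔ SimpleGraph.edge x y) u k u' ≤
        cnt K u k u' + cnt (SimpleGraph.edge x y) u k u' := cross_sup_le _ _ _ _
    have h2 : cnt K u k u' ≤ cnt G u k u' := cross_mono' hall
    have h3 := cnt_edge_le hs.old hL x y u k u'
    omega
  · push Not at hall
    obtain ⟨a, ha, b, hb, hab, hab'⟩ := hall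
    have ha' := u.gs_sub _ ha
    have hb' := u'.gs_sub _ hb
    rcases hK a b hab hab' with h | h
    · rcases h with ⟨B0, h⟩ | ⟨B1, k0, B2, _, h1, h2, _, h3⟩ | ⟨s, T, h, _⟩ | h
      · exact absurd ((Blob.eq_of_mem hs.old hL ha' h.mem.1).trans
          (Blob.eq_of_mem hs.old hL h.mem.2 hb')) hu
      · obtain ⟨e1, e2⟩ := Blob.gs_eq hs.old hL ha h1
        obtain ⟨e3, _⟩ := Blob.gs_eq hs.old hL hb h2
        have e4 : k = k0 := congrArg Prod.fst e2
        subst e1 e3 e4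
        exact h3 hk
      · exact absurd ha' (end_plain hs h u)
      · exact absurd ha' (end_plain hs (finm_end1 h) u)
    · rcases h with ⟨B0, h⟩ | ⟨B1, k0, B2, _, h1, _⟩ | ⟨s, T, h, _⟩ | h
      · exact absurd ((Blob.eq_of_mem hs.old hL ha' h.mem.2).trans
          (Blob.eq_of_mem hs.old hL h.mem.1 hb')) hu
      · have := (Blob.gs_eq hs.old hL hb h1).2
        simp at this
      · exact absurd hb' (end_plain hs h u')
      · exact absurd hb' (end_plain hs (finm_end1 h) u')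

theorem att_of_cnt (hs : Sparse (Gm τ) G (LL (Gm τ) L1)) (hK : AllOK τ G L1 K) {x y z : V}
    {s : Bool} {T : Bl τ G} (hz : z ∉ T.1)
    (h : 500 ≤ cross (K ⊔ SimpleGraph.edge x y) {z} (T.gs (.att s, false))) : Att z s T := by
  have hL : 5 * mm (Gm τ) ≤ LL (Gm τ) L1 := LL_ge L1
  by_cases hall : ∀ b ∈ T.gs (.att s, false), K.Adj z b → G.Adj z b
  · refine ⟨hz, h.trans ?_⟩
    have h1 := cross_sup_le K (SimpleGraph.edge x y) {z} (T.gs (.att s, false))
    have h2 : cross K {z} (T.gs (.att s, false)) ≤ cross G {z} (T.gs (.att s, false)) :=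
      cross_mono' fun a ha b hb hab => by
        rw [mem_singleton.1 ha] at hab ⊢
        exact hall b hb hab
    have h3 : cross (SimpleGraph.edge x y) {z} (T.gs (.att s, false)) ≤ 1 :=
      cross_edge_le x y (disjoint_singleton_left.2 fun h => hz (T.gs_sub _ h))
    omega
  · push Not at hall
    obtain ⟨b, hb, hab, hab'⟩ := hall
    have hb' := T.gs_sub _ hb
    rcases hK z b hab hab' with h | h
    · rcases h with ⟨B0, h⟩ | ⟨B1, k0, B2, _, _, h2, h3, _⟩ | ⟨s0, T0, _, h1, h2⟩ | h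
      · rw [Blob.eq_of_mem hs.old hL hb' h.mem.2] at hz
        exact absurd h.mem.1 hz
      · exact absurd (congrArg Prod.fst (Blob.gs_eq hs.old hL h2 hb).2) (h3 s)
      · obtain ⟨e1, e2⟩ := Blob.gs_eq hs.old hL hb h2
        have e3 : s = s0 := by simpa using e2
        subst e1 e3
        exact h1
      · exact absurd hb' (end_plain hs (finm_end2 h) T)
    · rcases h with ⟨B0, h⟩ | ⟨B1, k0, B2, _, h1, _⟩ | ⟨s0, T0, h, _⟩ | h
      · rw [Blob.eq_of_mem hs.old hL hb' h.mem.1] at hz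
        exact absurd h.mem.2 hz
      · have := (Blob.gs_eq hs.old hL hb h1).2
        simp at this
      · exact absurd hb' (end_plain hs h T)
      · exact absurd hb' (end_plain hs (finm_end1 h) T)

end Pool.Agent.HI

end FileFinM

section FileNewA

/-! (A), parts (a) and (b): a new template copy has few vertices in blobs. -/

open Finset

namespace Pool.Agent.HI

open Pool.Agent.HB

variable {τ : Type} [Fintype τ] [AP (Gm τ)] {V : Type} [DecidableEq V] {G K : SimpleGraph V} {L1 : ℕ}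
  {φ : Tm (Gm τ) → V} {x y : V}

omit [DecidableEq V] in
theorem newa_single (J : SimpleGraph V) (u : V) (Y : Finset V)
    [DecidablePred fun v => J.Adj u v] :
    cross J {u} Y = (Y.filter fun v => J.Adj u v).card := by
  rw [cross_single]
  exact congrArg card (filter_congr_decidable _ _ _)

theorem newA_one (hs : Sparse (Gm τ) G (LL (Gm τ) L1)) (hK : AllOK τ G L1 K)
    (hφ : Function.Injective φ)
    (h : ∀ t t', base t t' → (K ⊔ SimpleGraph.edge x y).Adj (φ t) (φ t')) (B : Bl τ G)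
    (hB : B.1 ≠ univ.image φ) (S : Finset (Tm (Gm τ))) (hS : ∀ t ∈ S, φ t ∈ B.1) :
    2 * S.card ≤ mm (Gm τ) + 4 * sG (Gm τ) + 5006 := by
  classical
  have hL := LL_ge (Γ := Gm τ) L1
  obtain ⟨t0, ht0⟩ : ∃ t0, φ t0 ∉ B.1 := by
    by_contra hno
    push Not at hno
    refine hB (Finset.eq_of_subset_of_card_le (s := univ.image φ) (t := B.1) ?_ ?_).symm
    · intro v hv
      obtain ⟨t, -, rfl⟩ := mem_image.1 hv
      exact hno t
    · rw [card_image_of_injective _ hφ, card_univ, card_Tm, Blob.card_eq]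
  have h1 := cross_TG_ge t0 S
  have h2 := Blob.deg_le hs.old hL B ht0
  have h3 : cross (SimpleGraph.edge x y) {φ t0} B.1 ≤ 1 :=
    cross_edge_le x y (disjoint_singleton_left.2 ht0)
  have h4 := B.card_group_le (B.1.filter fun v => ∃ g, v ∈ B.gs g) fun v hv => (mem_filter.1 hv).2
  rw [newa_single] at h1 h2 h3
  have h5 : (S.filter fun t => (TG (Gm τ)).Adj t0 t).image φ ⊆
      (B.1.filter fun v => G.Adj (φ t0) v) ∪ ((B.1.filter fun v => ∃ g, v ∈ B.gs g) ∪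
        B.1.filter fun v => (SimpleGraph.edge x y).Adj (φ t0) v) := by
    intro v hv
    obtain ⟨t, ht, rfl⟩ := mem_image.1 hv
    obtain ⟨htS, htb⟩ := mem_filter.1 ht
    have hm := hS t htS
    simp only [mem_union, mem_filter]
    rcases (SimpleGraph.sup_adj _ _ _ _).1 (h t0 t htb) with hk | he
    · by_cases hg : G.Adj (φ t0) (φ t)
      · exact Or.inl ⟨hm, hg⟩
      · exact Or.inr (Or.inl ⟨hm, extra_out hs hK hk hg ht0 hm⟩)
    · exact Or.inr (Or.inr ⟨hm, he⟩)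
  have h6 := card_le_card h5
  rw [card_image_of_injective _ hφ] at h6
  have h7 := h6.trans ((card_union_le _ _).trans (Nat.add_le_add_left (card_union_le _ _) _))
  omega

/-- the edges of a graph that do not lie inside a blob -/
def newa_inter (τ : Type) [Fintype τ] (G J : SimpleGraph V) : SimpleGraph V where
  Adj u v := J.Adj u v ∧ ∀ B : Bl τ G, u ∈ B.1 → v ∉ B.1
  symm := ⟨fun _ _ h => ⟨h.1.symm, fun B hv hu => h.2 B hu hv⟩⟩
  loopless := ⟨fun _ h => h.1.ne rfl⟩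

theorem newa_ec_le (hs : Sparse (Gm τ) G (LL (Gm τ) L1)) (𝓑 : Finset (Bl τ G))
    (hc : 𝓑.card ≤ mm (Gm τ)) :
    ec (newa_inter τ G (G ⊔ SimpleGraph.edge x y)) (UU 𝓑) ≤ 5002 * 𝓑.card + 2 := by
  have hL := LL_ge (Γ := Gm τ) L1
  have hm : 𝓑.card * mm (Gm τ) ≤ LL (Gm τ) L1 := by
    unfold LL
    exact Nat.mul_le_mul (by omega) (by omega)
  have h1 := inter_le hs.old hL 𝓑 hm
  have h2 : ec (SimpleGraph.edge x y) (UU 𝓑) ≤ 2 := cross_edge_le_two x y _ _
  rw [ec_UU hs.old hL] at h2 ⊢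
  have h3 : ∀ B ∈ 𝓑, ec (newa_inter τ G (G ⊔ SimpleGraph.edge x y)) B.1 +
      ∑ B' ∈ 𝓑.erase B, cross (newa_inter τ G (G ⊔ SimpleGraph.edge x y)) B.1 B'.1 ≤
      ∑ B' ∈ 𝓑.erase B, cross G B.1 B'.1 + (ec (SimpleGraph.edge x y) B.1 +
        ∑ B' ∈ 𝓑.erase B, cross (SimpleGraph.edge x y) B.1 B'.1) := by
    intro B _
    have h0 : ec (newa_inter τ G (G ⊔ SimpleGraph.edge x y)) B.1 = 0 := by
      by_contra hne
      obtain ⟨u, hu, v, hv, huv⟩ := cross_pos.1 (Nat.one_le_iff_ne_zero.2 hne)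
      exact huv.2 B hu hv
    have h4 : ∑ B' ∈ 𝓑.erase B, cross (newa_inter τ G (G ⊔ SimpleGraph.edge x y)) B.1 B'.1 ≤
        ∑ B' ∈ 𝓑.erase B, (cross G B.1 B'.1 + cross (SimpleGraph.edge x y) B.1 B'.1) :=
      sum_le_sum fun B' _ =>
        (cross_mono' (G := newa_inter τ G (G ⊔ SimpleGraph.edge x y))
          (G' := G ⊔ SimpleGraph.edge x y) fun u _ v _ huv => huv.1).trans (cross_sup_le _ _ _ _)
    rw [sum_add_distrib] at h4
    omega
  have h5 := sum_le_sum h3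
  rw [sum_add_distrib (f := fun B => ∑ B' ∈ 𝓑.erase B, cross G B.1 B'.1)] at h5
  exact h5.trans (Nat.add_le_add h1 h2)

theorem newA_q (hs : Sparse (Gm τ) G (LL (Gm τ) L1)) (hφ : Function.Injective φ)
    (S : Finset (Tm (Gm τ))) (hS : ∀ t ∈ S, ¬ Plain (Gm τ) G (φ t)) {J : ℕ}
    (hJ : ∀ (B : Bl τ G), ∀ S' ⊆ S, (∀ t ∈ S', φ t ∈ B.1) → S'.card ≤ J)
    (h : ∀ t ∈ S, ∀ t' ∈ S, base t t' → (∀ B : Bl τ G, φ t ∈ B.1 → φ t' ∉ B.1) →
      (G ⊔ SimpleGraph.edge x y).Adj (φ t) (φ t')) : S.card ≤ J + sG (Gm τ) + 5004 := by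
  classical
  have hL := LL_ge (Γ := Gm τ) L1
  have hex : ∀ t : S, ∃ B : Bl τ G, φ t ∈ B.1 := by
    intro t
    have := hS t t.2
    unfold Plain at this
    push Not at this
    exact this
  choose β hβ using hex
  set 𝓑 : Finset (Bl τ G) := univ.image β with h𝓑
  have hc : 𝓑.card ≤ S.card := card_image_le.trans (by simp)
  have hSm : S.card ≤ mm (Gm τ) := by
    rw [← card_Tm]
    exact card_le_univ _
  have h1 := newa_ec_le (x := x) (y := y) hs 𝓑 (hc.trans hSm)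
  set H := newa_inter τ G (G ⊔ SimpleGraph.edge x y) with hH
  have hsub : S.image φ ⊆ UU 𝓑 := by
    intro v hv
    obtain ⟨t, ht, rfl⟩ := mem_image.1 hv
    exact mem_UU.2 ⟨β ⟨t, ht⟩, mem_image_of_mem _ (mem_univ _), hβ ⟨t, ht⟩⟩
  have h2 : ec H (S.image φ) ≤ ec H (UU 𝓑) := ec_mono le_rfl hsub
  have h3 : ec H (S.image φ) = ∑ t ∈ S, cross (H.comap φ) {t} S := by
    unfold ec
    rw [cross_image hφ, cross_eq_sum]
  have h4 : ∀ t ∈ S, S.card ≤ cross (H.comap φ) {t} S + (J + sG (Gm τ) + 1) := by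
    intro t ht
    have g1 := cross_TG_ge t S
    have g2 := hJ (β ⟨t, ht⟩) (S.filter fun t' => φ t' ∈ (β ⟨t, ht⟩).1) (filter_subset _ _)
      fun t' ht' => (mem_filter.1 ht').2
    rw [newa_single] at g1 ⊢
    have g3 : (S.filter fun t' => (TG (Gm τ)).Adj t t') ⊆
        (S.filter fun t' => (H.comap φ).Adj t t') ∪
          S.filter fun t' => φ t' ∈ (β ⟨t, ht⟩).1 := by
      intro t' ht'
      obtain ⟨g4, g5⟩ := mem_filter.1 ht'
      simp only [mem_union, mem_filter]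
      by_cases g6 : φ t' ∈ (β ⟨t, ht⟩).1
      · exact Or.inr ⟨g4, g6⟩
      · have g7 : ∀ B : Bl τ G, φ t ∈ B.1 → φ t' ∉ B.1 := by
          intro B hB
          rw [Blob.eq_of_mem hs.old hL hB (hβ ⟨t, ht⟩)]
          exact g6
        exact Or.inl ⟨g4, h t ht t' g4 g5 g7, g7⟩
    have g8 := (card_le_card g3).trans (card_union_le _ _)
    omega
  have h5 := sum_le_sum h4
  rw [sum_add_distrib, ← h3, sum_const, sum_const, smul_eq_mul, smul_eq_mul] at h5
  by_contra hlt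
  push Not at hlt
  have h6 : S.card * (J + sG (Gm τ) + 1 + 5004) ≤ S.card * S.card :=
    Nat.mul_le_mul_left _ (by omega)
  rw [mul_add] at h6
  omega

theorem newA (hs : Sparse (Gm τ) G (LL (Gm τ) L1)) (hK : AllOK τ G L1 K)
    (hφ : Function.Injective φ)
    (h : ∀ t t', base t t' → (K ⊔ SimpleGraph.edge x y).Adj (φ t) (φ t'))
    (hB : ∀ B : Bl τ G, B.1 ≠ univ.image φ) (S : Finset (Tm (Gm τ)))
    (hS : ∀ t ∈ S, ¬ Plain (Gm τ) G (φ t)) : 100 * S.card ≤ 51 * mm (Gm τ) := by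
  classical
  have hL := LL_ge (Γ := Gm τ) L1
  let P : Tm (Gm τ) → Prop := fun t => ∃ (B : Bl τ G) (k : Kind τ), φ t ∈ B.gs (k, false)
  have key : ∀ t ∈ S, ∀ t' ∈ S, base t t' → (∀ B : Bl τ G, φ t ∈ B.1 → φ t' ∉ B.1) →
      (P t ↔ P t') → (G ⊔ SimpleGraph.edge x y).Adj (φ t) (φ t') := by
    intro t ht t' ht' hb hd hP
    rcases (SimpleGraph.sup_adj _ _ _ _).1 (h t t' hb) with hk | he
    · by_cases hg : G.Adj (φ t) (φ t')
      · exact Or.inl hg
      · exfalso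
        have e1 := hS t ht
        have e2 := hS t' ht'
        unfold Plain at e1 e2
        push Not at e1 e2
        obtain ⟨B, hBt⟩ := e1
        obtain ⟨B', hBt'⟩ := e2
        have hne : B ≠ B' := fun e => hd B hBt (e ▸ hBt')
        obtain ⟨k, ⟨g1, g2⟩ | ⟨g1, g2⟩⟩ := extra_inter hs hK hk hg hne hBt hBt'
        · obtain ⟨B1, k1, g3⟩ := hP.2 ⟨B', k, g2⟩
          have := (Blob.gs_eq hs.old hL g1 g3).2
          simp at this
        · obtain ⟨B1, k1, g3⟩ := hP.1 ⟨B, k, g1⟩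
          have := (Blob.gs_eq hs.old hL g2 g3).2
          simp at this
    · exact Or.inr he
  have h1 : (S.filter P).card ≤ sG (Gm τ) + sG (Gm τ) + 5004 := by
    refine newA_q (x := x) (y := y) hs hφ _ (fun t ht => hS t (mem_filter.1 ht).1) ?_ ?_
    · intro B S' hS' hm
      rw [← card_image_of_injective S' hφ]
      refine B.card_group_le _ fun v hv => ?_
      obtain ⟨t, ht, rfl⟩ := mem_image.1 hv
      obtain ⟨B1, k, g⟩ := (mem_filter.1 (hS' ht)).2
      rw [Blob.eq_of_mem hs.old hL (hm t ht) (B1.gs_sub _ g)]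
      exact ⟨_, g⟩
    · intro t ht t' ht' hb hd
      exact key t (mem_filter.1 ht).1 t' (mem_filter.1 ht').1 hb hd
        (iff_of_true (mem_filter.1 ht).2 (mem_filter.1 ht').2)
  have h2 : (S.filter fun t => ¬ P t).card ≤
      (mm (Gm τ) + 4 * sG (Gm τ) + 5006) / 2 + sG (Gm τ) + 5004 := by
    refine newA_q (x := x) (y := y) hs hφ _ (fun t ht => hS t (mem_filter.1 ht).1) ?_ ?_
    · intro B S' _ hm
      have := newA_one hs hK hφ h B (hB B) S' hm
      omega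
    · intro t ht t' ht' hb hd
      exact key t (mem_filter.1 ht).1 t' (mem_filter.1 ht').1 hb hd
        (iff_of_false (mem_filter.1 ht).2 (mem_filter.1 ht').2)
  have h3 := card_filter_add_card_filter_not (s := S) P
  have h4 := sG_ge (Γ := Gm τ)
  have h5 := mm_ge (Γ := Gm τ)
  omega

end Pool.Agent.HI

end FileNewA

section FileNewB

/-! (A), part (c): a template copy has few ends of final pairs. -/

open Finset

namespace Pool.Agent.HI

open Pool.Agent.HB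

variable {τ : Type} [Fintype τ] [AP (Gm τ)] {V : Type} [DecidableEq V] {G K : SimpleGraph V} {L1 : ℕ}
  {φ : Tm (Gm τ) → V} {x y : V}

/-- the edges that do not lie inside a given set -/
def newb_out (G : SimpleGraph V) (F : Finset V) : SimpleGraph V where
  Adj u v := G.Adj u v ∧ ¬ (u ∈ F ∧ v ∈ F)
  symm := ⟨fun _ _ h => ⟨h.1.symm, fun e => h.2 ⟨e.2, e.1⟩⟩⟩
  loopless := ⟨fun _ h => h.1.ne rfl⟩

theorem newb_ec_ge (G : SimpleGraph V) {F Y : Finset V} (h : F ⊆ Y) :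
    ec (newb_out G F) Y + ec G F ≤ ec G Y := by
  classical
  unfold ec cross
  rw [← card_union_of_disjoint]
  · refine card_le_card fun p hp => ?_
    simp only [mem_union, mem_filter, mem_product] at hp ⊢
    rcases hp with hp | hp
    · exact ⟨hp.1, hp.2.1⟩
    · exact ⟨⟨h hp.1.1, h hp.1.2⟩, hp.2⟩
  · refine disjoint_left.2 fun p a b => ?_
    simp only [mem_filter, mem_product] at a b
    exact a.2.2 b.1

/-- the witnesses of a set of ends -/
theorem ends_wit (hs : Sparse (Gm τ) G (LL (Gm τ) L1)) (F : Finset V)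
    (hF : ∀ v ∈ F, End τ G L1 v) : ∃ Y : Finset V, F ⊆ Y ∧
      Y.card ≤ F.card * (2 + rr (Gm τ) * L1 * mm (Gm τ)) ∧
      (∀ v ∈ Y, End τ G L1 v ∨ ¬ Plain (Gm τ) G v) ∧
      100 * (pot (Gm τ) G Y + (mm (Gm τ) : ℝ) * ec G F) ≤ 18 * (AA (Gm τ) : ℝ) * F.card := by
  classical
  have ex : ∀ v : V, ∃ (p : V) (𝓑 : Finset (Bl τ G)), v ∈ F → FinS τ G L1 v p ∧
      𝓑.card ≤ rr (Gm τ) * L1 ∧
        100 * pot (Gm τ) (newb_out G F) ({v, p} ∪ UU 𝓑) ≤ 18 * (AA (Gm τ) : ℝ) := by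
    intro v
    by_cases hv : v ∈ F
    · obtain ⟨p, hp⟩ := hF v hv
      obtain ⟨𝓑, h1, h2⟩ := fin_wit hs hp
      exact ⟨p, 𝓑, fun _ => ⟨hp, h1, h2 _ fun a b hab hb =>
        ⟨hab, fun e => hb (end_plain hs (hF b e.2))⟩⟩⟩
    · exact ⟨v, ∅, fun e => (hv e).elim⟩
  choose p 𝓑 hp using ex
  have hc : ∀ v ∈ F, (({v, p v} : Finset V) ∪ UU (𝓑 v)).card ≤
      2 + rr (Gm τ) * L1 * mm (Gm τ) := fun v hv =>
    (card_union_le _ _).trans (Nat.add_le_add card_le_two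
      ((card_UU_le _).trans (Nat.mul_le_mul_right _ (hp v hv).2.1)))
  have hL : 2 + rr (Gm τ) * L1 * mm (Gm τ) ≤ LL (Gm τ) L1 := by
    unfold LL
    exact le_trans (by omega) (Nat.le_mul_of_pos_left _ (by omega))
  have hs1 : Sparse (Gm τ) (newb_out G F) (LL (Gm τ) L1) := fun X hX =>
    (hs X hX).trans (pot_anti (Gm τ) (G := newb_out G F) (G' := G) (fun _ _ e => e.1) X)
  have hsub : F ⊆ F.biUnion fun v => ({v, p v} : Finset V) ∪ UU (𝓑 v) := fun v hv =>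
    mem_biUnion.2 ⟨v, hv, mem_union_left _ (mem_insert_self _ _)⟩
  refine ⟨F.biUnion fun v => ({v, p v} : Finset V) ∪ UU (𝓑 v), hsub,
    card_biUnion_le_card_mul _ _ _ hc, fun w hw => ?_, ?_⟩
  · obtain ⟨v, hv, hw⟩ := mem_biUnion.1 hw
    rcases mem_union.1 hw with hw | hw
    · rcases mem_insert.1 hw with rfl | hw
      · exact Or.inl (hF _ hv)
      · rw [mem_singleton.1 hw]
        exact Or.inl ⟨v, (hp v hv).1.symm⟩
    · obtain ⟨B, -, hB⟩ := mem_UU.1 hw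
      exact Or.inr fun e => e B hB
  · have h1 := pot_biUnion_le (Gm τ) hs1 F (fun v => ({v, p v} : Finset V) ∪ UU (𝓑 v))
      fun v hv => (hc v hv).trans hL
    have h2 : 100 * ∑ v ∈ F, pot (Gm τ) (newb_out G F) (({v, p v} : Finset V) ∪ UU (𝓑 v)) ≤
        F.card * (18 * (AA (Gm τ) : ℝ)) := by
      rw [mul_sum, ← nsmul_eq_mul]
      exact sum_le_card_nsmul _ _ _ fun v hv => (hp v hv).2.2
    have h3 := newb_ec_ge G hsub
    generalize (F.biUnion fun v => ({v, p v} : Finset V) ∪ UU (𝓑 v)) = Y at h1 h3 ⊢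
    have h4 : (mm (Gm τ) : ℝ) * (ec (newb_out G F) Y + ec G F) ≤ (mm (Gm τ) : ℝ) * ec G Y :=
      mul_le_mul_of_nonneg_left (by exact_mod_cast h3) (Nat.cast_nonneg _)
    have h5 : pot (Gm τ) (newb_out G F) Y =
        aa (Gm τ) * Y.card - (mm (Gm τ) : ℝ) * ec (newb_out G F) Y := rfl
    have h6 : pot (Gm τ) G Y = aa (Gm τ) * Y.card - (mm (Gm τ) : ℝ) * ec G Y := rfl
    linarith

theorem newb_extra (hs : Sparse (Gm τ) G (LL (Gm τ) L1)) (hK : AllOK τ G L1 K) (F : Finset V)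
    (hF : ∀ v ∈ F, End τ G L1 v) : cross (K \ G) F F ≤ F.card := by
  rw [cross_eq_sum]
  refine (sum_le_card_nsmul _ _ 1 fun u hu => ?_).trans (by simp)
  rw [cross_single]
  refine card_le_one.2 fun a ha b hb => ?_
  simp only [mem_filter, SimpleGraph.sdiff_adj] at ha hb
  obtain ⟨a1, a2⟩ := ha
  obtain ⟨b1, b2⟩ := hb
  exact fin_match hs
    (extra_fin hK a2.1 a2.2 (end_plain hs (hF u hu)) (end_plain hs (hF a a1)))
    (extra_fin hK b2.1 b2.2 (end_plain hs (hF u hu)) (end_plain hs (hF b b1)))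

theorem newb_arith {m s A f e : ℝ} (hm : 100 * s ^ 2 ≤ m) (hm' : 1000 ≤ m)
    (hA : A ≤ m * (m - 1)) (hf : 0 ≤ f) (h1 : 100 * (m * e) ≤ 18 * A * f)
    (h2 : f * f ≤ e + f + 2 + s ^ 2 + f) : 100 * f ≤ 19 * m := by
  by_contra hn
  push Not at hn
  have t1 : A * f ≤ m * (m - 1) * f := mul_le_mul_of_nonneg_right hA hf
  have t2 : m * (100 * e) ≤ m * (18 * (m - 1) * f) := by linarith
  have t3 : 100 * e ≤ 18 * (m - 1) * f := le_of_mul_le_mul_left t2 (by linarith)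
  have t4 : 19 * m * f ≤ 100 * f * f := mul_le_mul_of_nonneg_right hn.le hf
  have t5 : (m - 185) * 2 ≤ (m - 185) * f :=
    mul_le_mul_of_nonneg_left (by linarith) (by linarith)
  linarith

theorem newB (hs : Sparse (Gm τ) G (LL (Gm τ) L1)) (hK : AllOK τ G L1 K)
    (hφ : Function.Injective φ)
    (h : ∀ t t', base t t' → (K ⊔ SimpleGraph.edge x y).Adj (φ t) (φ t'))
    (S : Finset (Tm (Gm τ))) (hS : ∀ t ∈ S, End τ G L1 (φ t)) :
    100 * S.card ≤ 19 * mm (Gm τ) := by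
  classical
  have hF : ∀ v ∈ S.image φ, End τ G L1 v := fun v hv => by
    obtain ⟨t, a, rfl⟩ := mem_image.1 hv
    exact hS t a
  have cF : (S.image φ).card = S.card := card_image_of_injective _ hφ
  have hSm : S.card ≤ mm (Gm τ) := by
    rw [← card_Tm]
    exact card_le_univ _
  obtain ⟨Y, -, y2, -, y4⟩ := ends_wit hs (S.image φ) hF
  rw [cF] at y2 y4
  have p0 : 0 ≤ pot (Gm τ) G Y := hs Y (y2.trans (by
    unfold LL
    exact Nat.mul_le_mul (by omega) (by omega)))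
  have q1 := cross_TG_ge' S S
  have q2 : cross (TG (Gm τ)) S S ≤
      cross ((G ⊔ K \ G) ⊔ SimpleGraph.edge x y) (S.image φ) (S.image φ) := by
    rw [cross_image hφ]
    refine cross_mono' fun t _ t' _ b => ?_
    rcases h t t' b with e | e
    · by_cases a : G.Adj (φ t) (φ t')
      · exact Or.inl (Or.inl a)
      · exact Or.inl (Or.inr ⟨e, a⟩)
    · exact Or.inr e
  have q3 := cross_sup_le (G ⊔ K \ G) (SimpleGraph.edge x y) (S.image φ) (S.image φ)
  have q4 := cross_sup_le G (K \ G) (S.image φ) (S.image φ)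
  have q5 := cross_edge_le_two x y (S.image φ) (S.image φ)
  have q6 := newb_extra hs hK _ hF
  rw [cF] at q6
  have q7 : S.card * S.card ≤ ec G (S.image φ) + S.card + 2 + sG (Gm τ) ^ 2 + S.card := by
    unfold ec
    omega
  have s1 := sG_ge (Γ := Gm τ)
  have s2 := mm_ge (Γ := Gm τ)
  have m1 : 100 * sG (Gm τ) ^ 2 ≤ mm (Gm τ) := by unfold mm; omega
  have m2 : 1 ≤ mm (Gm τ) := by omega
  have A1 : (AA (Gm τ) : ℝ) ≤ mm (Gm τ) * (mm (Gm τ) - 1) := by
    have := AA_le (Γ := Gm τ)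
    zify [m2] at this
    exact_mod_cast this
  have m3 : 100 * (sG (Gm τ) : ℝ) ^ 2 ≤ mm (Gm τ) := by exact_mod_cast m1
  have key := newb_arith (m := mm (Gm τ)) (s := sG (Gm τ)) (A := AA (Gm τ)) (f := S.card)
    (e := ec G (S.image φ)) m3 (by exact_mod_cast (by omega : 1000 ≤ mm (Gm τ))) A1
    (Nat.cast_nonneg _) (by linarith) (by exact_mod_cast q7)
  exact_mod_cast key

end Pool.Agent.HI

end FileNewB

section FileNewC

/-! (A): no new blobs. -/

open Finset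

namespace Pool.Agent.HI

open Pool.Agent.HB

variable {τ : Type} [Fintype τ] [AP (Gm τ)] {V : Type} [DecidableEq V] {G K : SimpleGraph V} {L1 : ℕ}
  {φ : Tm (Gm τ) → V} {x y : V}

theorem newc_arith {m s A h p e c Y : ℝ} (hs : 2 ≤ s) (hm : 100 * s ^ 2 ≤ m) (hA : A ≤ m * (m - 1))
    (hh : 1 ≤ h) (hp : h + p = m) (h67 : 100 * h ≤ 70 * m) (hY : 100 * Y ≤ 18 * A * h)
    (he : p * p ≤ e + 2 + s ^ 2 + p) (hc : h * p ≤ c + 1 + s ^ 2 + h) :
    Y + (A * p - m * e) - 2 * m * c < 0 := by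
  have s2 : 4 ≤ s ^ 2 := by nlinarith
  have m0 : 0 < m := by linarith
  have p0 : 0 ≤ p := by linarith
  have t1 : A * p ≤ m * (m - 1) * p := mul_le_mul_of_nonneg_right hA p0
  have t2 : A * h ≤ m * m * h := mul_le_mul_of_nonneg_right (by nlinarith) (by linarith)
  have t3 : m * (p * p) ≤ m * (e + 2 + s ^ 2 + p) := mul_le_mul_of_nonneg_left he m0.le
  have t4 : m * (h * p) ≤ m * (c + 1 + s ^ 2 + h) := mul_le_mul_of_nonneg_left hc m0.le
  have t5 : 30 * m * h ≤ 100 * p * h := mul_le_mul_of_nonneg_right (by linarith) (by linarith)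
  have t6 : (12 * m - 200) * 1 ≤ (12 * m - 200) * h :=
    mul_le_mul_of_nonneg_left hh (by linarith)
  have t7 : 18 * m * h - 100 * p * h + 200 * h + 300 * s ^ 2 + 400 < 0 := by linarith
  have t8 := mul_neg_of_pos_of_neg m0 t7
  have t9 : m * (m - 1) * p = m * (p * p) + m * (h * p) - m * p := by rw [← hp]; ring
  linarith

theorem new_set (hs : Sparse (Gm τ) G (LL (Gm τ) L1)) (hK : AllOK τ G L1 K)
    (hφ : Function.Injective φ)
    (h : ∀ t t', base t t' → (K ⊔ SimpleGraph.edge x y).Adj (φ t) (φ t')) :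
    ∃ B : Bl τ G, B.1 = univ.image φ := by
  classical
  by_contra hne
  have hB : ∀ B : Bl τ G, B.1 ≠ univ.image φ := fun B e => hne ⟨B, e⟩
  let O : Finset (Tm (Gm τ)) := univ.filter fun t => ¬ Plain (Gm τ) G (φ t)
  let F : Finset (Tm (Gm τ)) := univ.filter fun t => End τ G L1 (φ t)
  let P : Finset (Tm (Gm τ)) := univ.filter fun t => Plain (Gm τ) G (φ t) ∧ ¬ End τ G L1 (φ t)
  have mO : ∀ t, t ∈ O ↔ ¬ Plain (Gm τ) G (φ t) := fun t => by simp [O]
  have mF : ∀ t, t ∈ F ↔ End τ G L1 (φ t) := fun t => by simp [F]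
  have mP : ∀ t, t ∈ P ↔ Plain (Gm τ) G (φ t) ∧ ¬ End τ G L1 (φ t) := fun t => by simp [P]
  have dOF : Disjoint O F :=
    disjoint_left.2 fun t a b => (mO t).1 a (end_plain hs ((mF t).1 b))
  have dP : Disjoint (O ∪ F) P := disjoint_left.2 fun t a b => by
    rcases mem_union.1 a with a | a
    · exact (mO t).1 a ((mP t).1 b).1
    · exact ((mP t).1 b).2 ((mF t).1 a)
  have cov : (O ∪ F) ∪ P = univ := eq_univ_of_forall fun t => by
    simp only [mem_union, mO, mF, mP]; tauto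
  have cH : (O ∪ F).card = O.card + F.card := card_union_of_disjoint dOF
  have cA : O.card + F.card + P.card = mm (Gm τ) := by
    rw [← cH, ← card_union_of_disjoint dP, cov, card_univ, card_Tm]
  have cO := newA hs hK hφ h hB O fun t a => (mO t).1 a
  have cF := newB hs hK hφ h F fun t a => (mF t).1 a
  have adj : ∀ t t', t' ∈ P → base t t' → (G ⊔ SimpleGraph.edge x y).Adj (φ t) (φ t') :=
    fun t t' a b => by
      rcases h t t' b with e | e
      · exact Or.inl (by_contra fun n => ((mP t').1 a).2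
          (extra_end hK e.symm (fun n' => n n'.symm) ((mP t').1 a).1))
      · exact Or.inr e
  rcases Nat.eq_zero_or_pos (O.card + F.card) with h0 | h0
  · have : P = univ := by
      rw [← cov, card_eq_zero.1 (cH.trans h0), empty_union]
    exact hne ⟨⟨_, φ, ⟨hφ, x, y, fun t t' b => adj t t' (this ▸ mem_univ _) b⟩, rfl⟩, rfl⟩
  have ex : ∀ t : O, ∃ B : Bl τ G, φ t ∈ B.1 := fun t => by
    have := (mO t).1 t.2
    unfold Plain at this
    push Not at this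
    exact this
  choose bl hbl using ex
  let 𝓑 : Finset (Bl τ G) := univ.image bl
  have c𝓑 : 𝓑.card ≤ O.card := card_image_le.trans (by simp)
  have hL := LL_ge (Γ := Gm τ) L1
  have pU : pot (Gm τ) G (UU 𝓑) ≤ O.card * (5002 * (mm (Gm τ) : ℝ)) := by
    refine (pot_biUnion_le (Gm τ) hs 𝓑 _ fun B _ => by rw [B.card_eq]; omega).trans ?_
    refine (Finset.sum_le_card_nsmul _ _ _ fun B _ => blob_pot_le B).trans ?_
    rw [nsmul_eq_mul]
    exact mul_le_mul_of_nonneg_right (by exact_mod_cast c𝓑) (by positivity)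
  obtain ⟨Y, y1, y2, y3, y4⟩ := ends_wit hs (F.image φ) fun v hv => by
    obtain ⟨t, a, rfl⟩ := mem_image.1 hv
    exact (mF t).1 a
  rw [card_image_of_injective _ hφ] at y2 y4
  have cU : (UU 𝓑).card ≤ O.card * mm (Gm τ) :=
    (card_UU_le 𝓑).trans (Nat.mul_le_mul_right _ c𝓑)
  have cP : (P.image φ).card = P.card := card_image_of_injective _ hφ
  have cT : (UU 𝓑).card + Y.card + (P.image φ).card ≤ LL (Gm τ) L1 := by
    have a1 : O.card * mm (Gm τ) ≤ mm (Gm τ) * mm (Gm τ) := Nat.mul_le_mul_right _ (by omega)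
    have a2 : F.card * (2 + rr (Gm τ) * L1 * mm (Gm τ)) ≤
        mm (Gm τ) * (2 + rr (Gm τ) * L1 * mm (Gm τ)) := Nat.mul_le_mul_right _ (by omega)
    have a3 : LL (Gm τ) L1 = mm (Gm τ) * mm (Gm τ) + mm (Gm τ) * (2 + rr (Gm τ) * L1 * mm (Gm τ)) +
        2 * (2 + rr (Gm τ) * L1 * mm (Gm τ) + mm (Gm τ)) := by unfold LL; ring
    omega
  have p1 := pot_submod (Gm τ) G (X := UU 𝓑) (Y := Y)
  have p2 := hs (UU 𝓑 ∩ Y) ((card_le_card inter_subset_right).trans (by omega))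
  have dY : Disjoint (UU 𝓑 ∪ Y) (P.image φ) := disjoint_left.2 fun v a b => by
    obtain ⟨t, c, rfl⟩ := mem_image.1 b
    obtain ⟨c1, c2⟩ := (mP t).1 c
    rcases mem_union.1 a with a | a
    · obtain ⟨B, -, e⟩ := mem_UU.1 a
      exact c1 B e
    · exact (y3 _ a).elim c2 fun n => n c1
  have sY : (O ∪ F).image φ ⊆ UU 𝓑 ∪ Y := fun v a => by
    obtain ⟨t, c, rfl⟩ := mem_image.1 a
    rcases mem_union.1 c with c | c
    · exact mem_union_left _ (mem_UU.2 ⟨bl ⟨t, c⟩, mem_image_of_mem _ (mem_univ _), hbl ⟨t, c⟩⟩)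
    · exact mem_union_right _ (y1 (mem_image_of_mem _ c))
  have p3 := pot_union (Gm τ) G dY
  have p4 := hs ((UU 𝓑 ∪ Y) ∪ P.image φ) ((card_union_le _ _).trans (by
    have := card_union_le (UU 𝓑) Y; omega))
  have cr : ∀ S : Finset (Tm (Gm τ)), cross (TG (Gm τ)) S P ≤ cross G (S.image φ) (P.image φ) +
      cross (SimpleGraph.edge x y) (S.image φ) (P.image φ) := fun S => by
    refine le_trans ?_ (cross_sup_le _ _ _ _)
    rw [cross_image hφ]
    exact cross_mono' fun t _ t' a b => adj t t' a b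
  have q1 := (cross_TG_ge' P P).trans (Nat.add_le_add_right (Nat.add_le_add_right ((cr P).trans
    (Nat.add_le_add_left (cross_edge_le_two x y _ _) _)) _) _)
  have q2 := (cross_TG_ge' (O ∪ F) P).trans (Nat.add_le_add_right (Nat.add_le_add_right
    ((cr (O ∪ F)).trans (Nat.add_le_add (cross_mono le_rfl sY subset_rfl)
      (cross_edge_le x y (dY.mono_left sY)))) _) _)
  rw [cH] at q2
  have s1 := sG_ge (Γ := Gm τ)
  have m1 : 100 * sG (Gm τ) ^ 2 ≤ mm (Gm τ) := by unfold mm; omega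
  have m2 : 1 ≤ mm (Gm τ) := by omega
  have A1 : (AA (Gm τ) : ℝ) ≤ mm (Gm τ) * (mm (Gm τ) - 1) := by
    have := AA_le (Γ := Gm τ)
    zify [m2] at this
    exact_mod_cast this
  have A2 : (100000 : ℝ) * mm (Gm τ) ≤ AA (Gm τ) := by exact_mod_cast AA_ge' (Γ := Gm τ)
  have m3 : 100 * (sG (Gm τ) : ℝ) ^ 2 ≤ mm (Gm τ) := by exact_mod_cast m1
  have key := newc_arith (m := mm (Gm τ)) (s := sG (Gm τ)) (A := AA (Gm τ))
    (h := (O.card + F.card : ℕ)) (p := P.card) (e := ec G (P.image φ))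
    (c := cross G (UU 𝓑 ∪ Y) (P.image φ)) (Y := pot (Gm τ) G (UU 𝓑 ∪ Y))
    (by exact_mod_cast (by omega : 2 ≤ sG (Gm τ))) m3 A1 (by exact_mod_cast h0)
    (by exact_mod_cast cA)
    (by exact_mod_cast (by omega : 100 * (O.card + F.card) ≤ 70 * mm (Gm τ)))
    (by
      have b1 : (0 : ℝ) ≤ (mm (Gm τ) : ℝ) * ec G (F.image φ) :=
        mul_nonneg (Nat.cast_nonneg _) (Nat.cast_nonneg _)
      have b2 : (O.card : ℝ) * (100000 * mm (Gm τ)) ≤ O.card * AA (Gm τ) :=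
        mul_le_mul_of_nonneg_left A2 (Nat.cast_nonneg _)
      have b3 : (0 : ℝ) ≤ (O.card : ℝ) * mm (Gm τ) :=
        mul_nonneg (Nat.cast_nonneg _) (Nat.cast_nonneg _)
      push_cast
      linarith)
    (by exact_mod_cast q1) (by exact_mod_cast q2)
  have p5 : pot (Gm τ) G (P.image φ) =
      aa (Gm τ) * P.card - (mm (Gm τ) : ℝ) * ec G (P.image φ) := by rw [pot, cP]
  have p6 := mul_le_mul_of_nonneg_right (aa_hi (Gm τ)) (Nat.cast_nonneg (α := ℝ) P.card)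
  linarith

theorem new_blob (hs : Sparse (Gm τ) G (LL (Gm τ) L1)) (hK : AllOK τ G L1 K)
    (hφ : Function.Injective φ)
    (h : ∀ t t', base t t' → (K ⊔ SimpleGraph.edge x y).Adj (φ t) (φ t')) :
    ∃ B : Bl τ G, Fits B φ := by
  obtain ⟨B, hB⟩ := new_set hs hK hφ h
  have hm : ∀ t, φ t ∈ B.1 := fun t => hB ▸ mem_image_of_mem _ (mem_univ _)
  refine ⟨B, rigid hs.old (LL_ge L1) B hφ hB (x := x) (y := y) fun t t' b => ?_⟩
  rcases h t t' b with e | e
  · by_cases a : G.Adj (φ t) (φ t')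
    · exact Or.inl a
    · exact Or.inr (Or.inl (extra_in hs hK e a (hm t) (hm t')))
  · exact Or.inr (Or.inr e)

end Pool.Agent.HI

end FileNewC

section FileCopy

/-! A copy of a component consists of blobs. -/

open Finset

namespace Pool.Agent.HI

open Pool.Agent.HB

variable {τ : Type} [Fintype τ] {V : Type} [DecidableEq V] {G K : SimpleGraph V} {L1 : ℕ}

theorem copy_live {N : Type} {β : BP τ N} {a b : Vx τ N} (h : β.rel a b) :
    β.live a ∧ β.live b := by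
  rcases a with s | p <;> rcases b with s' | p'
  · exact ⟨trivial, trivial⟩
  · exact ⟨trivial, h.1⟩
  · exact h.elim
  · exact ⟨h.1, h.2.1⟩

theorem copy_ne {N : Type} {β : BP τ N} {a b : Vx τ N} (h : β.rel a b) : a ≠ b := by
  rintro rfl
  rcases a with s | p
  · obtain ⟨-, h1, h2⟩ := h
    rw [h1] at h2
    exact Bool.false_ne_true h2
  · rcases h.2.2 with h1 | h1
    · exact h1.2.1 rfl
    · exact h1.1 rfl

/-- forget the bound on the node index -/
def copyLift {Kn : ℕ} : Vx τ (Fin Kn) → Vx τ ℕ := Sum.map id (Prod.map Fin.val id)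

theorem copyLift_inj {Kn : ℕ} : Function.Injective (copyLift : Vx τ (Fin Kn) → Vx τ ℕ) :=
  Function.injective_id.sumMap (Fin.val_injective.prodMap Function.injective_id)

theorem copy_rel_lift {Kn : ℕ} (β : BP τ ℕ) (a b : Vx τ (Fin Kn)) :
    (β.comap Fin.val).rel a b ↔ β.rel (copyLift a) (copyLift b) := by
  rcases a with s | p <;> rcases b with s' | p'
  · exact Iff.rfl
  · exact Iff.rfl
  · exact Iff.rfl
  · have h : p.1 = p'.1 ↔ (p.1 : ℕ) = p'.1 := Fin.ext_iff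
    exact and_congr Iff.rfl (and_congr Iff.rfl
      (or_congr (and_congr h Iff.rfl) (and_congr (not_congr h) Iff.rfl)))

theorem copy_exists_lift {Kn : ℕ} {β : BP τ ℕ} (hβ : ∀ n, β.act n → n < Kn) {a : Vx τ ℕ}
    (h : β.live a) : ∃ w : Vx τ (Fin Kn), copyLift w = a := by
  rcases a with s | p
  · exact ⟨.inl s, rfl⟩
  · exact ⟨.inr (⟨p.1, hβ _ h⟩, p.2), rfl⟩

theorem copy_act_lt [WP τ] [Inhabited τ] {ι : Type} (F : ι → Clause τ) (halt : τ) {Kn : ℕ}
    (hF : ∀ c, (F c).length + 2 ≤ Kn) (hr : 3 * rr (Gm τ) ≤ Kn) (c : Option (ι × Fin 300)) :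
    ∀ n, (compBP F halt c).act n → n < Kn := by
  intro n hn
  rcases c with _ | c
  · exact lt_of_lt_of_le hn hr
  · exact lt_of_lt_of_le hn (hF c.1)

theorem copy_adj [WP τ] [Inhabited τ] {ι : Type} (F : ι → Clause τ) (halt : τ) {Kn : ℕ}
    (c : Option (ι × Fin 300)) {a b : Vx τ (Fin Kn)}
    (h : (compBP F halt c).rel (copyLift a) (copyLift b)) :
    (HG F halt Kn).Adj (c, a) (c, b) := by
  have h1 := (copy_rel_lift _ a b).2 h
  refine (SimpleGraph.fromRel_adj _ _ _).2 ⟨fun e => copy_ne h1 (Prod.ext_iff.1 e).2, Or.inl ⟨rfl, h1⟩⟩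

theorem copy_card (n : ℕ) (hn : n ≤ 4000) :
    (univ.filter fun i : Fin 4000 => (i : ℕ) < n).card = n := by
  rw [Fin.card_filter_val_lt]
  exact min_eq_right hn

theorem copy_of_fire [AP (Gm τ)] (hs : Sparse (Gm τ) G (LL (Gm τ) L1)) (hK : AllOK τ G L1 K) {β : BP τ ℕ}
    (h0 : β.act 0) {φ : Vx τ ℕ → V} {x y : V} (h : Fire β φ K x y) :
    ∃ (B : ℕ → Bl τ G) (z : Bool → V), CopyD β K x y B z := by
  have hinj : ∀ u, β.act u → Function.Injective fun t => φ (.inr (u, t)) := by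
    intro u hu t t' e
    have := h.inj (.inr (u, t)) (.inr (u, t')) hu hu e
    exact (Prod.ext_iff.1 (Sum.inr_injective this)).2
  have hb : ∀ u, β.act u → ∀ t t', base t t' → β.rel (.inr (u, t)) (.inr (u, t')) :=
    fun u hu t t' e => ⟨hu, hu, Or.inl ⟨rfl, e⟩⟩
  have hex : ∀ u, β.act u → ∃ B : Bl τ G, Fits B fun t => φ (.inr (u, t)) :=
    fun u hu => new_blob hs hK (hinj u hu) fun t t' e => h.hom _ _ (hb u hu t t' e)
  have hex' : ∀ u, ∃ B : Bl τ G, β.act u → Fits B fun t => φ (.inr (u, t)) := by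
    intro u
    by_cases hu : β.act u
    · obtain ⟨B, hB⟩ := hex u hu
      exact ⟨B, fun _ => hB⟩
    · obtain ⟨B, -⟩ := hex 0 h0
      exact ⟨B, fun e => absurd e hu⟩
  choose B hB using hex'
  have hmem : ∀ u, β.act u → ∀ v ∈ (B u).1, ∃ t, φ (.inr (u, t)) = v := by
    intro u hu v hv
    rw [(hB u hu).eq_image (hinj u hu)] at hv
    obtain ⟨t, -, ht⟩ := mem_image.1 hv
    exact ⟨t, ht⟩
  have harc : ∀ u k u' (i : Fin 4000), β.act u → β.act u' → u ≠ u' → β.arc u k u' i →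
      φ (.inr (u, .inl ((k, true), i))) ∈ (B u).gs (k, true) ∧
      φ (.inr (u', .inl ((k, false), i))) ∈ (B u').gs (k, false) ∧
      (K ⊔ SimpleGraph.edge x y).Adj (φ (.inr (u, .inl ((k, true), i))))
        (φ (.inr (u', .inl ((k, false), i)))) :=
    fun u k u' i hu hu' hne ha => ⟨(hB u hu).2.1 _ _, (hB u' hu').2.1 _ _,
      h.hom _ _ ⟨hu, hu', Or.inr ⟨hne, k, i, ha, rfl, rfl⟩⟩⟩
  refine ⟨B, fun s => φ (.inl s), ⟨?_, ?_, ?_, ?_, ?_, ?_, ?_⟩⟩
  · intro u u' hu hu' e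
    have h1 := (hB u hu).1 (.inl ((.ok, true), 0))
    rw [e] at h1
    obtain ⟨t, ht⟩ := hmem u' hu' _ h1
    have := h.inj (.inr (u', t)) (.inr (u, _)) hu' hu ht
    exact (Prod.ext_iff.1 (Sum.inr_injective this)).1.symm
  · intro e
    exact Bool.false_ne_true (Sum.inl_injective (h.inj (.inl false) (.inl true) trivial trivial e))
  · intro u hu a b hab
    obtain ⟨t, t', e, rfl, rfl⟩ := (hB u hu).2.2.2 a b hab
    exact h.hom _ _ (hb u hu t t' e)
  · intro u k u' n hu hu' hne hn ha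
    have := le_cross (G := K ⊔ SimpleGraph.edge x y) (X := (B u).gs (k, true))
      (Y := (B u').gs (k, false)) (univ.filter fun i : Fin 4000 => (i : ℕ) < n)
      (fun i => φ (.inr (u, .inl ((k, true), i)))) (fun i => φ (.inr (u', .inl ((k, false), i))))
      (fun i _ j _ e _ => (Prod.ext_iff.1 (Sum.inl_injective (hinj u hu e))).2)
      (fun i hi => harc u k u' i hu hu' hne (ha i (mem_filter.1 hi).2))
    rw [copy_card n hn] at this
    exact this
  · intro u k u' i hu hu' hne hi ha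
    obtain ⟨h1, h2, h3⟩ := harc u k u' ⟨i, hi⟩ hu hu' hne ha
    exact cross_pos.2 ⟨_, h1, _, h2, h3⟩
  · intro u s hu ha
    refine ⟨fun hv => ?_, ?_⟩
    · obtain ⟨t, ht⟩ := hmem u hu _ hv
      exact Sum.inr_ne_inl (h.inj (.inr (u, t)) (.inl s) hu trivial ht)
    · have := le_cross (G := K ⊔ SimpleGraph.edge x y) (X := {φ (.inl s)})
        (Y := (B u).gs (.att s, false)) (univ.filter fun i : Fin 4000 => (i : ℕ) < 500)
        (fun _ => φ (.inl s)) (fun i => φ (.inr (u, .inl ((.att s, false), i))))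
        (fun i _ j _ _ e => (Prod.ext_iff.1 (Sum.inl_injective (hinj u hu e))).2)
        (fun i hi => ⟨mem_singleton_self _, (hB u hu).2.1 _ _,
          h.hom (.inl s) (.inr (u, _)) ⟨hu, ha, i, (mem_filter.1 hi).2, rfl⟩⟩)
      rw [copy_card 500 (by norm_num)] at this
      exact this
  · obtain ⟨a, b, hab, e⟩ := h.use
    have e' := Sym2.eq_iff.1 e
    rcases a with s | ⟨u, t⟩ <;> rcases b with s' | ⟨u', t'⟩
    · obtain ⟨h1, rfl, rfl⟩ := hab
      refine Or.inr (Or.inr (Or.inr ⟨h1, ?_⟩))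
      rcases e' with ⟨e1, e2⟩ | ⟨e1, e2⟩
      · exact Or.inl ⟨e1.symm, e2.symm⟩
      · exact Or.inr ⟨e1.symm, e2.symm⟩
    · obtain ⟨h1, h2, i, -, h3⟩ := hab
      have h3' : t' = .inl ((.att s, false), i) := h3
      subst h3'
      have h4 := (hB u' h1).2.1 (.att s, false) i
      refine Or.inr (Or.inr (Or.inl ⟨u', s, h1, h2, ?_⟩))
      rcases e' with ⟨e1, e2⟩ | ⟨e1, e2⟩
      · exact Or.inl ⟨e1.symm, e2 ▸ h4⟩
      · exact Or.inr ⟨e1.symm, e2 ▸ h4⟩
    · exact hab.elim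
    · obtain ⟨h1, h2, ⟨h3, h4⟩ | ⟨h3, k, i, h4, h5, h6⟩⟩ := hab
      · have h3' : u = u' := h3
        subst h3'
        have h5 := (hB u h1).2.2.1 t t' h4
        refine Or.inl ⟨u, h1, ?_⟩
        rcases e' with ⟨e1, e2⟩ | ⟨e1, e2⟩
        · exact e1 ▸ e2 ▸ h5
        · exact e1 ▸ e2 ▸ h5.symm
      · have h5' : t = .inl ((k, true), i) := h5
        have h6' : t' = .inl ((k, false), i) := h6
        subst h5' h6'
        obtain ⟨h7, h8, -⟩ := harc u k u' i h1 h2 h3 h4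
        refine Or.inr (Or.inl ⟨u, k, u', i, h1, h2, h3, h4, ?_⟩)
        rcases e' with ⟨e1, e2⟩ | ⟨e1, e2⟩
        · exact Or.inl ⟨e1 ▸ h7, e2 ▸ h8⟩
        · exact Or.inr ⟨e1 ▸ h7, e2 ▸ h8⟩

omit [DecidableEq V] in
/-- from a step of the process to a copy of one component -/
theorem fire_of_step [WP τ] [Inhabited τ] {ι : Type} (F : ι → Clause τ) (halt : τ) {Kn : ℕ}
    (hF : ∀ c, (F c).length + 2 ≤ Kn) (hr : 3 * rr (Gm τ) ≤ Kn) {x y : V}
    (h : (step (HG F halt Kn) K).Adj x y) (h' : ¬ K.Adj x y) :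
    ∃ c φ, Fire (compBP F halt c) φ K x y := by
  obtain ⟨hxy, f, ⟨a, b, hab, e⟩, hf⟩ := h.resolve_left h'
  have key : ∃ (c : Option (ι × Fin 300)) (a b : Vx τ (Fin Kn)),
      (compBP F halt c).rel (copyLift a) (copyLift b) ∧ s(f (c, a), f (c, b)) = s(x, y) := by
    obtain ⟨c, a⟩ := a
    obtain ⟨c', b⟩ := b
    rcases ((SimpleGraph.fromRel_adj _ _ _).1 hab).2 with ⟨h1, h2⟩ | ⟨h1, h2⟩
    · have h1' : c = c' := h1
      subst h1'
      exact ⟨c, a, b, (copy_rel_lift _ a b).1 h2, e⟩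
    · have h1' : c' = c := h1
      subst h1'
      exact ⟨c', b, a, (copy_rel_lift _ b a).1 h2, Sym2.eq_swap.trans e⟩
  obtain ⟨c, a, b, hr', e'⟩ := key
  have hact := copy_act_lt F halt hF hr c
  obtain ⟨φ, hφ⟩ : ∃ φ : Vx τ ℕ → V, ∀ w : Vx τ (Fin Kn), φ (copyLift w) = f (c, w) :=
    ⟨Function.extend copyLift (fun w => f (c, w)) fun _ => x,
      fun w => copyLift_inj.extend_apply _ _ w⟩
  refine ⟨c, φ, ?_, ?_, ⟨_, _, hr', by rw [hφ, hφ]; exact e'⟩⟩
  · intro v w hv hw e1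
    obtain ⟨v, rfl⟩ := copy_exists_lift hact hv
    obtain ⟨w, rfl⟩ := copy_exists_lift hact hw
    rw [hφ, hφ] at e1
    exact congrArg copyLift (Prod.ext_iff.1 (f.injective e1)).2
  · intro v w hvw
    obtain ⟨v, rfl⟩ := copy_exists_lift hact (copy_live hvw).1
    obtain ⟨w, rfl⟩ := copy_exists_lift hact (copy_live hvw).2
    rw [hφ, hφ]
    have h1 := copy_adj F halt c hvw
    rcases hf _ _ h1 with h2 | h2
    · exact Or.inl h2
    · exact Or.inr ((SimpleGraph.edge_adj _ _ _ _).2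
        ⟨Sym2.eq_iff.1 h2, fun e1 => h1.ne (f.injective e1)⟩)

omit [DecidableEq V] in
/-- from a copy of one component to a step of the process -/
theorem step_of_fire [WP τ] [Inhabited τ] {ι : Type} (F : ι → Clause τ) (halt : τ) {Kn : ℕ}
    (hF : ∀ c, (F c).length + 2 ≤ Kn) (hr : 3 * rr (Gm τ) ≤ Kn) (f : VH τ ι Kn ↪ V)
    (hf : Emb (HG F halt Kn) K f) {c : Option (ι × Fin 300)} {φ : Vx τ ℕ → V} {x y : V}
    (h : Fire (compBP F halt c) φ K x y) (hd : ∀ a w, (compBP F halt c).live a → φ a ≠ f w)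
    (hxy : x ≠ y) : (step (HG F halt Kn) K).Adj x y := by
  classical
  have hact := copy_act_lt F halt hF hr c
  obtain ⟨g, hg1, hg2⟩ : ∃ g : VH τ ι Kn → V,
      (∀ w, w.1 = c ∧ (compBP F halt c).live (copyLift w.2) → g w = φ (copyLift w.2)) ∧
      ∀ w, ¬ (w.1 = c ∧ (compBP F halt c).live (copyLift w.2)) → g w = f w :=
    ⟨fun w => if w.1 = c ∧ (compBP F halt c).live (copyLift w.2) then φ (copyLift w.2) else f w,
      fun w hw => if_pos hw, fun w hw => if_neg hw⟩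
  have hg : Function.Injective g := by
    intro v w e
    by_cases hv : v.1 = c ∧ (compBP F halt c).live (copyLift v.2) <;>
      by_cases hw : w.1 = c ∧ (compBP F halt c).live (copyLift w.2)
    · rw [hg1 v hv, hg1 w hw] at e
      exact Prod.ext (hv.1.trans hw.1.symm) (copyLift_inj (h.inj _ _ hv.2 hw.2 e))
    · rw [hg1 v hv, hg2 w hw] at e
      exact absurd e (hd _ _ hv.2)
    · rw [hg2 v hv, hg1 w hw] at e
      exact absurd e.symm (hd _ _ hw.2)
    · rw [hg2 v hv, hg2 w hw] at e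
      exact f.injective e
  have hone : ∀ v w : VH τ ι Kn, (HG F halt Kn).Adj v w → v.1 = w.1 →
      ((compBP F halt v.1).comap Fin.val).rel v.2 w.2 →
      K.Adj (g v) (g w) ∨ s(g v, g w) = s(x, y) := by
    intro v w hadj h1 h2
    by_cases hc : v.1 = c
    · rw [hc] at h2
      have h3 := (copy_rel_lift _ _ _).1 h2
      rw [hg1 v ⟨hc, (copy_live h3).1⟩, hg1 w ⟨h1.symm.trans hc, (copy_live h3).2⟩]
      rcases h.hom _ _ h3 with h4 | h4
      · exact Or.inl h4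
      · exact Or.inr (Sym2.eq_iff.2 ((SimpleGraph.edge_adj _ _ _ _).1 h4).1)
    · rw [hg2 v fun e => hc e.1, hg2 w fun e => hc (h1.trans e.1)]
      exact Or.inl (hf _ _ hadj)
  refine Or.inr ⟨hxy, ⟨g, hg⟩, ?_, ?_⟩
  · obtain ⟨a, b, hab, e⟩ := h.use
    obtain ⟨a, rfl⟩ := copy_exists_lift hact (copy_live hab).1
    obtain ⟨b, rfl⟩ := copy_exists_lift hact (copy_live hab).2
    refine ⟨(c, a), (c, b), copy_adj F halt c hab, ?_⟩
    show s(g (c, a), g (c, b)) = s(x, y)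
    rw [hg1 (c, a) ⟨rfl, (copy_live hab).1⟩, hg1 (c, b) ⟨rfl, (copy_live hab).2⟩]
    exact e
  · intro v w hadj
    rcases ((SimpleGraph.fromRel_adj _ _ _).1 hadj).2 with ⟨h1, h2⟩ | ⟨h1, h2⟩
    · exact hone v w hadj h1 h2
    · rcases hone w v hadj.symm h1 h2 with h3 | h3
      · exact Or.inl h3.symm
      · exact Or.inr (Sym2.eq_swap.trans h3)

end Pool.Agent.HI

end FileCopy
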