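import Pool.Agent.P.HI.I2

/-! Chains of list entities, and the part of a copy at a clean token that is not dirty. -/

open Finset

namespace Pool.Agent.HI

open Pool.Agent.HB

section chain
variable {τ : Type} [Fintype τ] [WP τ] {V : Type} [DecidableEq V] {G : SimpleGraph V}
  {T : Bl τ G} {𝓤 : Finset (Bl τ G)} {tg : Bl τ G → τ} {ch : Bl τ G → Bool → Bl τ G}
  {val : Bl τ G → Term τ} {γ : ℝ}

omit [WP τ] in
/-- a set of entities that is closed under taking children -/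
def Cls (T : Bl τ G) (𝓤 : Finset (Bl τ G)) (ch : Bl τ G → Bool → Bl τ G)
    (C : Finset (Bl τ G)) : Prop := C ⊆ 𝓤 ∧ ∀ v ∈ C, ∀ a, ch v a ∈ C ∨ ch v a = T

omit [WP τ] in
theorem cls_empty : Cls T 𝓤 ch ∅ := ⟨empty_subset _, fun _ h => absurd h (notMem_empty _)⟩

omit [Fintype τ] in
theorem Lst.le_one {t : Term τ} (h : Lst γ t) : psi γ t ≤ 1 := by
  cases h with
  | nil => simp [psi]
  | cons c l _ _ h => exact h

omit [Fintype τ] in
theorem Lst.nonneg {t : Term τ} (h : Lst γ t) : 0 ≤ psi γ t := by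
  cases h with
  | nil => simp [psi]
  | cons c l _ h _ => exact h

theorem CleanP.eq_T (hc : CleanP T 𝓤 tg ch val) {u : Bl τ G} (hu : u ∈ 𝓤 ∨ u = T)
    (h : val u = .nil) : u = T := by
  rcases hu with hu | hu
  · rw [hc.val_eq u hu] at h
    cases h
  · exact hu

theorem chain (hc : CleanP T 𝓤 tg ch val) {t : Term τ} (ht : Lst γ t) :
    ∀ u, (u ∈ 𝓤 ∨ u = T) → val u = t → ∃ C, Cls T 𝓤 ch C ∧ (u ∈ C ∨ u = T) ∧ C.card = len t ∧
      (∀ v ∈ C, siz (val v) ≤ siz t) ∧ ∀ D, Cls T 𝓤 ch D → ((u ∈ D ∨ u = T) → C ⊆ D) ∧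
        ∑ v ∈ C \ D, (γ - wt (tg v)) ≤ psi γ t := by
  induction ht with
  | nil =>
    intro u hu h
    exact ⟨∅, cls_empty, Or.inr (hc.eq_T hu h), rfl, fun _ h => absurd h (notMem_empty _),
      fun D _ => ⟨fun _ => empty_subset _, by simp [psi]⟩⟩
  | cons c l _ h0 _ ih =>
    intro u hu h
    have hT : u ≠ T := by
      rintro rfl
      rw [hc.nil] at h
      cases h
    have hu' := hu.resolve_right hT
    have e := (hc.val_eq u hu').symm.trans h
    obtain ⟨e1, e2, e3⟩ := Term.node.inj e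
    have e4 : ch u true = T := hc.eq_T (hc.chm u hu' true).1 e3
    obtain ⟨C, c1, c2, c3, c4, c5⟩ := ih _ (hc.chm u hu' false).1 e2
    have hn : u ∉ C := fun hm => by
      have := c4 u hm
      rw [h, siz] at this
      omega
    refine ⟨insert u C, ⟨insert_subset hu' c1.1, fun v hv a => ?_⟩, Or.inl (mem_insert_self _ _),
      by rw [card_insert_of_notMem hn, c3, len], fun v hv => ?_, fun D hD => ?_⟩
    · rcases mem_insert.1 hv with rfl | hv
      · cases a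
        · exact c2.imp_left mem_insert_of_mem
        · exact Or.inr e4
      · exact (c1.2 v hv a).imp_left mem_insert_of_mem
    · rcases mem_insert.1 hv with rfl | hv
      · rw [h]
      · have := c4 v hv
        rw [siz]
        omega
    · have k : u ∈ D → insert u C ⊆ D := fun hm =>
        insert_subset hm ((c5 D hD).1 (hD.2 u hm false))
      refine ⟨fun hm => k (hm.resolve_right hT), ?_⟩
      by_cases hm : u ∈ D
      · rw [sdiff_eq_empty_iff_subset.2 (k hm), sum_empty]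
        exact h0
      · rw [insert_sdiff_of_notMem _ hm, sum_insert fun h' => hn (mem_sdiff.1 h').1, e1, psi]
        have := (c5 D hD).2
        linarith

theorem add_chain (hc : CleanP T 𝓤 tg ch val) {u : Bl τ G} (hu : u ∈ 𝓤 ∨ u = T)
    (hl : Lst γ (val u)) {D : Finset (Bl τ G)} (hD : Cls T 𝓤 ch D) :
    ∃ D', Cls T 𝓤 ch D' ∧ D ⊆ D' ∧ (u ∈ D' ∨ u = T) ∧ D'.card ≤ D.card + len (val u) ∧
      ∑ v ∈ D', (γ - wt (tg v)) ≤ ∑ v ∈ D, (γ - wt (tg v)) + 1 ∧
        ∀ x ∈ D', x ∈ D ∨ siz (val x) ≤ siz (val u) := by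
  obtain ⟨C, c1, c2, c3, c4, c5⟩ := chain hc hl u hu rfl
  refine ⟨D ∪ C, ⟨union_subset hD.1 c1.1, fun v hv a => ?_⟩, subset_union_left,
    c2.imp_left (mem_union_right _), c3 ▸ card_union_le _ _, ?_,
    fun x hx => (mem_union.1 hx).imp_right (c4 x)⟩
  · rcases mem_union.1 hv with hv | hv
    · exact (hD.2 v hv a).imp_left (mem_union_left _)
    · exact (c1.2 v hv a).imp_left (mem_union_right _)
  · rw [← union_sdiff_self_eq_union, sum_union disjoint_sdiff]
    have := (c5 D hD).2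
    have := hl.le_one
    linarith

theorem cone (hc : CleanP T 𝓤 tg ch val) {u : Bl τ G} (hu : u ∈ 𝓤) {L0 : ℕ}
    (hl : ∀ a, Lst γ (val (ch u a)) ∧ len (val (ch u a)) ≤ L0) {D : Finset (Bl τ G)}
    (hD : Cls T 𝓤 ch D) :
    ∃ D', Cls T 𝓤 ch D' ∧ D ⊆ D' ∧ u ∈ D' ∧ D'.card ≤ D.card + 2 * L0 + 1 ∧
      ∑ v ∈ D', (γ - wt (tg v)) ≤ ∑ v ∈ D, (γ - wt (tg v)) + 2 +
        if u ∈ D then 0 else γ - wt (tg u) := by
  obtain ⟨D1, a1, a2, a3, a4, a5, a6⟩ := add_chain hc (hc.chm u hu false).1 (hl false).1 hD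
  obtain ⟨D2, b1, b2, b3, b4, b5, b6⟩ := add_chain hc (hc.chm u hu true).1 (hl true).1 a1
  have h0 := (hl false).2
  have h1 := (hl true).2
  by_cases hm : u ∈ D
  · refine ⟨D2, b1, a2.trans b2, b2 (a2 hm), by omega, ?_⟩
    rw [if_pos hm]
    linarith
  · have hs : siz (val u) = siz (val (ch u false)) + siz (val (ch u true)) + 1 := by
      conv_lhs => rw [hc.val_eq u hu, siz]
    have hn : u ∉ D2 := fun h => by
      rcases b6 u h with h | h
      · rcases a6 u h with h | h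
        · exact hm h
        · omega
      · omega
    refine ⟨insert u D2, ⟨insert_subset hu b1.1, fun v hv a => ?_⟩,
      (a2.trans b2).trans (subset_insert _ _), mem_insert_self _ _, ?_, ?_⟩
    · rcases mem_insert.1 hv with rfl | hv
      · cases a
        · exact a3.imp_left fun h => mem_insert_of_mem (b2 h)
        · exact b3.imp_left mem_insert_of_mem
      · exact (b1.2 v hv a).imp_left mem_insert_of_mem
    · rw [card_insert_of_notMem hn]
      omega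
    · rw [if_neg hm, sum_insert hn]
      linarith

omit [WP τ] in
theorem cost_mono {K K' : SimpleGraph V} (h : K ≤ K') (w : Bl τ G) (c : τ)
    (f : Bool → Bl τ G) : cost K T w c f ≤ cost K' T w c f := by
  have h1 : ec K w.1 ≤ ec K' w.1 := ec_mono h subset_rfl
  have h2 := cnt_mono h w (.tag c) T
  have h3 := cnt_mono h w (.lnk false) (f false)
  have h4 := cnt_mono h w (.lnk true) (f true)
  unfold cost
  omega

theorem cls_ch (hc : CleanP T 𝓤 tg ch val) {C : Finset (Bl τ G)} (hC : Cls T 𝓤 ch C)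
    {v : Bl τ G} (hv : v ∈ C) (a : Bool) : ch v a ∈ insert T C ∧ ch v a ≠ v :=
  ⟨mem_insert.2 (hC.2 v hv a).symm, (hc.chm v (hC.1 hv) a).2⟩

theorem nom_le_out (hc : CleanP T 𝓤 tg ch val) {C : Finset (Bl τ G)} (hC : Cls T 𝓤 ch C)
    {v : Bl τ G} (hv : v ∈ C) : nom (tg v) ≤ out G (insert T C) v := by
  have h1 := hc.pt v (hC.1 hv)
  have h2 := cost_le_out G (𝓒 := insert T C) (tg v) (ch := ch v) (mem_insert_self _ _)
    (hc.tag v (hC.1 hv)).1.symm (cls_ch hc hC hv)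
  have h3 := min_le_right 1 (cnt G v .ok T)
  omega

theorem sum_nom [AP (Gm τ)] (C : Finset (Bl τ G)) (tg : Bl τ G → τ) :
    C.card * aa (Gm τ) =
      ((∑ v ∈ C, nom (tg v) : ℕ) : ℝ) + 2 * ∑ v ∈ C, (gam (Gm τ) - wt (tg v)) := by
  rw [Nat.cast_sum, mul_sum, ← sum_add_distrib, ← nsmul_eq_mul, ← sum_const]
  refine sum_congr rfl fun v _ => ?_
  unfold nom gam AA
  push_cast
  ring

theorem sum_out_ge [AP (Gm τ)] (hc : CleanP T 𝓤 tg ch val) {C : Finset (Bl τ G)}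
    (hC : Cls T 𝓤 ch C) : C.card * aa (Gm τ) - 2 * ∑ v ∈ C, (gam (Gm τ) - wt (tg v)) ≤
      ((∑ v ∈ C, out G (insert T C) v : ℕ) : ℝ) := by
  have h1 : ∑ v ∈ C, nom (tg v) ≤ ∑ v ∈ C, out G (insert T C) v :=
    sum_le_sum fun v hv => nom_le_out hc hC hv
  have h2 : ((∑ v ∈ C, nom (tg v) : ℕ) : ℝ) ≤ ((∑ v ∈ C, out G (insert T C) v : ℕ) : ℝ) :=
    Nat.cast_le.2 h1
  rw [sum_nom C tg]
  linarith

end chain

theorem gam_le (Γ : Type) [Fintype Γ] [AP Γ] : gam Γ ≤ 1 := by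
  have := aa_hi Γ
  unfold gam
  linarith

section part
variable {τ : Type} [Fintype τ] [WP τ] [AP (Gm τ)] {V : Type} [DecidableEq V]
  {G K : SimpleGraph V} {L L0 L1 : ℕ} {Good : Term τ → Prop} {T : Bl τ G} {𝓤 : Finset (Bl τ G)}
  {tg : Bl τ G → τ} {ch : Bl τ G → Bool → Bl τ G} {val : Bl τ G → Term τ} {cl : Clause τ}
  {u : ℕ → Bl τ G} {x y : V}

omit [AP (Gm τ)] in
theorem PartD.node_ne [Inhabited τ] {K' : SimpleGraph V} (hw : PreWF cl) (hp : PartD cl K' T u)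
    {i : ℕ} (hi : i < cl.length) {p : ℕ × ℕ} (hk : cl.kid i = some p) (a : Bool) :
    nodeOf T u (sel p a) ≠ u i := by
  rcases hw.kids i hi p hk a with h | ⟨h1, h2⟩
  · rw [h]
    simp only [nodeOf, if_true]
    exact (hp.tag i hi).1.symm
  · have h0 : sel p a ≠ 0 := by omega
    simp only [nodeOf, if_neg h0]
    intro h
    have := hp.inj _ h2 _ hi h
    omega

omit [WP τ] [AP (Gm τ)] in
/-- a pair of groups without extra edge -/
theorem parta_cnt_le {w w' : Bl τ G} {k : Kind τ}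
    (h : ∀ a ∈ w.gs (k, true), ∀ b ∈ w'.gs (k, false), K.Adj a b → G.Adj a b) :
    cnt (K ⊔ SimpleGraph.edge x y) w k w' ≤ cnt (G ⊔ SimpleGraph.edge x y) w k w' := by
  unfold cnt
  refine cross_mono' fun a ha b hb hab => ?_
  rw [SimpleGraph.sup_adj] at hab ⊢
  exact hab.imp (h a ha b hb) id

theorem new_cnt (hc : CleanD Good L0 K T 𝓤 tg ch val) {v : Bl τ G} {c : τ}
    (hv : Rel v (.tag c) T) (hu : v ∉ 𝓤) (k : Kind τ) {w : Bl τ G} (hw : v ≠ w) :
    cnt (K ⊔ SimpleGraph.edge x y) v k w ≤ cnt (G ⊔ SimpleGraph.edge x y) v k w := by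
  refine parta_cnt_le fun a ha b hb hab => ?_
  by_contra hG
  exact hu (hc.src v _ hv a b hab hG k w hw ha hb).1

theorem new_ec (hc : CleanD Good L0 K T 𝓤 tg ch val) {v : Bl τ G} {c : τ}
    (hv : Rel v (.tag c) T) (hu : v ∉ 𝓤)
    (hb : ∀ a b, v.Base a b → (K ⊔ SimpleGraph.edge x y).Adj a b) :
    E2 (Gm τ) ≤ ec (G ⊔ SimpleGraph.edge x y) v.1 := by
  refine Blob.E2_le _ fun a b hab => ?_
  have h := hb a b hab
  rw [SimpleGraph.sup_adj] at h ⊢
  refine h.imp (fun h => ?_) id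
  by_contra hG
  exact hu (hc.bas v _ hv a b h hG hab)

/-- a new entity with its `ok` edges makes the token dirty -/
theorem new_ok_dirty (hs : Sparse (Gm τ) G L) (hL : 5 * mm (Gm τ) ≤ L) (hL1 : 3 ≤ L1)
    (hc : CleanD Good L0 K T 𝓤 tg ch val) (hT : Tok T) {v : Bl τ G} {c : τ}
    (hv : Rel v (.tag c) T) (hu : v ∉ 𝓤)
    (hb : ∀ a b, v.Base a b → (K ⊔ SimpleGraph.edge x y).Adj a b)
    (h1 : 2300 ≤ cnt (K ⊔ SimpleGraph.edge x y) v (.tag c) T)
    (h2 : 292 ≤ cnt (K ⊔ SimpleGraph.edge x y) v .ok T) : Dirty L1 T := by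
  refine dirty_of_surplus hs hL hT {v} (fun w hw => ⟨c, mem_singleton.1 hw ▸ hv⟩)
    (by rw [card_singleton]; omega) x y ?_
  have e1 := new_ec hc hv hu hb
  have e2 := h1.trans (new_cnt hc hv hu _ hv.1)
  have e3 := h2.trans (new_cnt hc hv hu _ hv.1)
  have e4 := cost_le_out (G ⊔ SimpleGraph.edge x y) (𝓒 := insert T {v}) c (ch := fun _ => T)
    (mem_insert_self _ _) hv.1.symm (fun _ => ⟨mem_insert_self _ _, hv.1.symm⟩)
  unfold cost at e4
  have e5 : AA (Gm τ) + 184 ≤ out (G ⊔ SimpleGraph.edge x y) (insert T {v}) v := by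
    unfold AA
    omega
  have e6 : (AA (Gm τ) : ℝ) + 184 ≤ out (G ⊔ SimpleGraph.edge x y) (insert T {v}) v := by
    exact_mod_cast e5
  have e7 := aa_hi (Gm τ)
  rw [card_singleton, sum_singleton, Nat.cast_one]
  linarith

theorem halt_dirty (hs : Sparse (Gm τ) G L) (hL : 5 * mm (Gm τ) ≤ L) (hL1 : 3 ≤ L1)
    {halt : τ} (hG : ∀ l r, ¬ Good (.node halt l r)) (hc : Clean Good L0 K T) (hT : Tok T)
    {v : Bl τ G} (hv : Rel v (.tag halt) T)
    (hb : ∀ a b, v.Base a b → (K ⊔ SimpleGraph.edge x y).Adj a b)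
    (h1 : 2300 ≤ cnt (K ⊔ SimpleGraph.edge x y) v (.tag halt) T)
    (h2 : 292 ≤ cnt (K ⊔ SimpleGraph.edge x y) v .ok T) : Dirty L1 T := by
  obtain ⟨𝓤, tg, ch, val, hc⟩ := hc
  by_cases hu : v ∈ 𝓤
  · have h3 := hc.good v hu
    rw [hc.val_eq v hu, (tag_unique hs.old hL (hc.tag v hu) hT hv hT).1] at h3
    exact absurd h3 (hG _ _)
  · exact new_ok_dirty hs hL hL1 hc hT hv hu hb h1 h2

theorem kid_short (hc : CleanD Good L0 K T 𝓤 tg ch val) {w : Bl τ G} (hw : w ∈ 𝓤 ∨ w = T)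
    (h : Lst (gam (Gm τ)) (val w)) : len (val w) ≤ L0 := by
  rcases hw with hw | rfl
  · exact hc.short w hw h
  · rw [hc.nil]
    exact Nat.zero_le _

theorem kids_lst (hG : ∀ t, Good t → Shape (gam (Gm τ)) t) (hc : CleanD Good L0 K T 𝓤 tg ch val)
    {v : Bl τ G} (hv : v ∈ 𝓤) (a : Bool) :
    Lst (gam (Gm τ)) (val (ch v a)) ∧ len (val (ch v a)) ≤ L0 := by
  obtain ⟨c, l, r, e, hl, hr⟩ := hG _ (hc.good v hv)
  rw [hc.val_eq v hv] at e
  obtain ⟨-, e2, e3⟩ := Term.node.inj e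
  have h : Lst (gam (Gm τ)) (val (ch v a)) := by
    cases a
    · rwa [e2]
    · rwa [e3]
  exact ⟨h, kid_short hc (hc.chm v hv a).1 h⟩

theorem cone3 (hG : ∀ t, Good t → Shape (gam (Gm τ)) t) (hc : CleanD Good L0 K T 𝓤 tg ch val)
    {v : Bl τ G} (hv : v ∈ 𝓤 ∨ v = T) {D : Finset (Bl τ G)} (hD : Cls T 𝓤 ch D) :
    ∃ D', Cls T 𝓤 ch D' ∧ D ⊆ D' ∧ (v ∈ D' ∨ v = T) ∧ D'.card ≤ D.card + 2 * L0 + 1 ∧
      ∑ v ∈ D', (gam (Gm τ) - wt (tg v)) ≤ ∑ v ∈ D, (gam (Gm τ) - wt (tg v)) + 3 := by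
  rcases hv with hv | hv
  · obtain ⟨D', h1, h2, h3, h4, h5⟩ := cone hc.toCleanP hv (kids_lst hG hc hv) hD
    refine ⟨D', h1, h2, Or.inl h3, h4, h5.trans ?_⟩
    have := gam_le (Gm τ)
    have : (0 : ℝ) ≤ wt (tg v) := Nat.cast_nonneg _
    split_ifs <;> linarith
  · exact ⟨D, hD, Subset.rfl, Or.inr hv, by omega, by linarith⟩

theorem link_arith {n c c' k k' l o N O : ℕ} (h1 : 99 ≤ l) (h2 : c' + 2 * k' + 2 * l ≤ o)
    (h3 : c ≤ c') (h4 : k ≤ k') (h5 : n ≤ c + 2 * min 1 k) (h8 : N ≤ O) :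
    n + N + 198 ≤ o + O := by
  have := min_le_right 1 k
  omega

theorem new_arith {n c c' d k k' e o : ℕ} (a5 : n ≤ c') (a6 : c' ≤ c + d) (a7 : d + 2 * e ≤ o)
    (a8 : o ≤ 2) (a9 : 1 ≤ k') (a10 : k' ≤ k + e) : n ≤ c + 2 * min 1 k := by
  omega

/-- a second link bundle at an old entity makes the token dirty -/
theorem link_dirty (hs : Sparse (Gm τ) G L) (hL : 5 * mm (Gm τ) ≤ L) (hL1 : 4 * L0 + 4 ≤ L1)
    (hG : ∀ t, Good t → Shape (gam (Gm τ)) t) (hc : CleanD Good L0 K T 𝓤 tg ch val) (hT : Tok T)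
    {v w : Bl τ G} (hv : v ∈ 𝓤) (hw : w ∈ 𝓤 ∨ w = T) (hwv : w ≠ v) {a : Bool} (hne : w ≠ ch v a)
    (h : 99 ≤ cnt (K ⊔ SimpleGraph.edge x y) v (.lnk a) w) : Dirty L1 T := by
  obtain ⟨D1, a1, -, a3, a4, a5⟩ := cone3 hG hc (Or.inl hv) (cls_empty (T := T) (ch := ch))
  obtain ⟨C, b1, b2, b3, b4, b5⟩ := cone3 hG hc hw a1
  have hv' : v ∈ C := b2 (a3.resolve_right (hc.tag v hv).1)
  rw [card_empty] at a4
  rw [sum_empty] at a5
  refine dirty_of_surplus hs hL hT C (fun z hz => ⟨_, hc.tag z (b1.1 hz)⟩) (by omega) x y ?_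
  have h1 : 99 ≤ cnt (G ⊔ SimpleGraph.edge x y) v (.lnk a) w := by
    refine h.trans (parta_cnt_le fun b hb c hc' hbc => ?_)
    by_contra hG
    exact hne ((hc.src v _ (hc.tag v hv) b c hbc hG _ _ hwv.symm hb hc').2 a rfl)
  have h2 := cost_le_out' (G ⊔ SimpleGraph.edge x y) (𝓒 := insert T C) (tg v) (ch := ch v)
    (mem_insert_self _ _) (hc.tag v hv).1.symm (cls_ch hc.toCleanP b1 hv') a
    (mem_insert.2 b3.symm) hwv hne
  have h3 := cost_mono (T := T) (le_sup_left : G ≤ G ⊔ SimpleGraph.edge x y) v (tg v) (ch v)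
  have h4 := cnt_mono (le_sup_left : G ≤ G ⊔ SimpleGraph.edge x y) v .ok T
  have h5 := hc.pt v hv
  have h7 : ∑ z ∈ C, nom (tg z) + 198 ≤
      ∑ z ∈ C, out (G ⊔ SimpleGraph.edge x y) (insert T C) z := by
    rw [← add_sum_erase _ _ hv', ← add_sum_erase _ _ hv']
    have h8 : ∑ z ∈ C.erase v, nom (tg z) ≤
        ∑ z ∈ C.erase v, out (G ⊔ SimpleGraph.edge x y) (insert T C) z :=
      sum_le_sum fun z hz => (nom_le_out hc.toCleanP b1 (mem_of_mem_erase hz)).trans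
        (out_mono le_sup_left Subset.rfl z)
    exact link_arith h1 h2 h3 h4 h5 h8
  have h9 : ((∑ z ∈ C, nom (tg z) : ℕ) : ℝ) + 198 ≤
      ((∑ z ∈ C, out (G ⊔ SimpleGraph.edge x y) (insert T C) z : ℕ) : ℝ) := by
    exact_mod_cast h7
  rw [sum_nom C tg]
  linarith

theorem lsz_ge (a : Bool) : 99 ≤ lsz a := by cases a <;> simp [lsz]

theorem lsz_le (a : Bool) : lsz a ≤ 100 := by cases a <;> simp [lsz]

variable [Inhabited τ]

theorem part_old (hs : Sparse (Gm τ) G L) (hL : 5 * mm (Gm τ) ≤ L) (hw : WF cl)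
    (hL1 : 4 * L0 + 4 ≤ L1) (hc : CleanD Good L0 K T 𝓤 tg ch val) (hd : ¬ Dirty L1 T)
    (hp : PartD cl (K ⊔ SimpleGraph.edge x y) T u) : ∀ i < cl.length, 0 < i → u i ∈ 𝓤 := by
  intro i hi h0
  by_contra hu
  exact hd (new_ok_dirty hs hL (by omega) hc hp.tok (hp.tag i hi) hu (hp.bas i hi)
    (le_trans (by omega) (hp.ctag i hi)) (le_trans (by omega) (hp.cok i hi (hw.oks i hi h0))))

omit [AP (Gm τ)] in
theorem node_old (hw : WF cl) (ho : ∀ i < cl.length, 0 < i → u i ∈ 𝓤) {i : ℕ}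
    (hi : i < cl.length) {p : ℕ × ℕ} (hk : cl.kid i = some p) (a : Bool) :
    nodeOf T u (sel p a) ∈ 𝓤 ∨ nodeOf T u (sel p a) = T := by
  unfold nodeOf
  rcases hw.kids i hi p hk a with h | h
  · exact Or.inr (if_pos h)
  · rw [if_neg (by omega)]
    exact Or.inl (ho _ h.2 (by omega))

theorem part_cases (hs : Sparse (Gm τ) G L) (hL : 5 * mm (Gm τ) ≤ L) (hw : WF cl)
    (hG : ∀ t, Good t → Shape (gam (Gm τ)) t)
    (hL1 : 4 * L0 + 4 ≤ L1) (hc : CleanD Good L0 K T 𝓤 tg ch val) (hd : ¬ Dirty L1 T)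
    (hp : PartD cl (K ⊔ SimpleGraph.edge x y) T u) : ∀ i < cl.length, u i ∈ 𝓤 →
      tg (u i) = cl.tg i ∧ ∀ p, cl.kid i = some p → ∀ a, ch (u i) a = nodeOf T u (sel p a) := by
  intro i hi hu
  refine ⟨(tag_unique hs.old hL (hc.tag _ hu) hp.tok (hp.tag i hi) hp.tok).1, fun p hk a => ?_⟩
  by_contra hne
  exact hd (link_dirty hs hL hL1 hG hc hp.tok hu
    (node_old hw (part_old hs hL hw hL1 hc hd hp) hi hk a) (hp.node_ne hw.toPreWF hi hk a)
    (fun e => hne e.symm) ((lsz_ge a).trans (hp.clnk i hi p hk a)))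

omit [Inhabited τ] in
theorem clean_other (hc : Clean Good L0 K T) (h : ∀ w c, Rel w (.tag c) T → ¬ Src x y w) :
    Clean Good L0 (K ⊔ SimpleGraph.edge x y) T := by
  obtain ⟨𝓤, tg, ch, val, hc⟩ := hc
  refine ⟨𝓤, tg, ch, val, hc.toCleanP, ?_, ?_, hc.good, hc.short⟩
  · intro w c hr a b hab hG hb
    rcases (SimpleGraph.sup_adj _ _ _ _).1 hab with hab | hab
    · exact hc.bas w c hr a b hab hG hb
    · refine absurd ?_ (h w c hr)
      rcases ((SimpleGraph.edge_adj _ _ _ _).1 hab).1 with ⟨rfl, rfl⟩ | ⟨rfl, rfl⟩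
      · exact Or.inl hb
      · exact Or.inl hb.symm
  · intro w c hr a b hab hG k w' hne ha hb
    rcases (SimpleGraph.sup_adj _ _ _ _).1 hab with hab | hab
    · exact hc.src w c hr a b hab hG k w' hne ha hb
    · refine absurd ?_ (h w c hr)
      rcases ((SimpleGraph.edge_adj _ _ _ _).1 hab).1 with ⟨rfl, rfl⟩ | ⟨rfl, rfl⟩
      · exact Or.inr ⟨k, w', hne, Or.inl ⟨ha, hb⟩⟩
      · exact Or.inr ⟨k, w', hne, Or.inr ⟨ha, hb⟩⟩

omit [Inhabited τ] [WP τ] [AP (Gm τ)] in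
theorem partb_cost (K K' : SimpleGraph V) (T w : Bl τ G) (c : τ) (ch : Bool → Bl τ G) :
    cost (K ⊔ K') T w c ch ≤ cost K T w c ch + cost K' T w c ch := by
  have h1 := cross_sup_le K K' w.1 w.1
  have h2 := cross_sup_le K K' (w.gs (.tag c, true)) (T.gs (.tag c, false))
  have h3 := cross_sup_le K K' (w.gs (.lnk false, true)) ((ch false).gs (.lnk false, false))
  have h4 := cross_sup_le K K' (w.gs (.lnk true, true)) ((ch true).gs (.lnk true, false))
  unfold cost cnt ec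
  omega

omit [DecidableEq V] in
theorem partb_edge {a b : V} (h : (K ⊔ SimpleGraph.edge x y).Adj a b) :
    K.Adj a b ∨ (a = x ∧ b = y) ∨ (a = y ∧ b = x) :=
  h.imp_right fun h => ((SimpleGraph.edge_adj x y a b).1 h).1

/-- the conclusion of a clause pays its nominal price -/
theorem new_pt (hs : Sparse (Gm τ) G L) (hL : 5 * mm (Gm τ) ≤ L) (hw : WF cl)
    (hc : CleanD Good L0 K T 𝓤 tg ch val) (hp : PartD cl (K ⊔ SimpleGraph.edge x y) T u)
    (h1 : 1 ≤ cnt (K ⊔ SimpleGraph.edge x y) (u 0) .ok T) (hu : u 0 ∉ 𝓤) {p : ℕ × ℕ}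
    (hk : cl.kid 0 = some p) : nom (cl.tg 0) ≤
      cost G T (u 0) (cl.tg 0) (fun a => nodeOf T u (sel p a)) + 2 * min 1 (cnt G (u 0) .ok T) := by
  have ht := hp.tag 0 hw.pos
  have a1 := new_ec hc ht hu (hp.bas 0 hw.pos)
  have a2 := (hp.ctag 0 hw.pos).trans (new_cnt hc ht hu _ ht.1)
  have a3 := (hp.clnk 0 hw.pos p hk false).trans
    (new_cnt hc ht hu _ (hp.node_ne hw.toPreWF hw.pos hk false).symm)
  have a4 := (hp.clnk 0 hw.pos p hk true).trans
    (new_cnt hc ht hu _ (hp.node_ne hw.toPreWF hw.pos hk true).symm)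
  have a5 : nom (cl.tg 0) ≤
      cost (G ⊔ SimpleGraph.edge x y) T (u 0) (cl.tg 0) fun a => nodeOf T u (sel p a) := by
    have e0 : lsz false = 100 := rfl
    have e1 : lsz true = 99 := rfl
    unfold nom cost
    beta_reduce
    omega
  have a6 := partb_cost G (SimpleGraph.edge x y) T (u 0) (cl.tg 0) fun a => nodeOf T u (sel p a)
  have a7 := cost_le_out (SimpleGraph.edge x y)
    (𝓒 := {u 0, T, nodeOf T u (sel p false), nodeOf T u (sel p true)}) (T := T) (u := u 0)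
    (cl.tg 0) (ch := fun a => nodeOf T u (sel p a)) (by simp) ht.1.symm
    (fun a => ⟨by cases a <;> simp, hp.node_ne hw.toPreWF hw.pos hk a⟩)
  have a8 := (single_le_sum (f := out (SimpleGraph.edge x y)
    {u 0, T, nodeOf T u (sel p false), nodeOf T u (sel p true)}) (fun _ _ => Nat.zero_le _)
    (mem_insert_self (u 0) _)).trans (sum_out_edge hs.old hL x y _)
  have a9 := h1.trans (new_cnt hc ht hu .ok ht.1)
  have a10 : cnt (G ⊔ SimpleGraph.edge x y) (u 0) .ok T ≤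
      cnt G (u 0) .ok T + cnt (SimpleGraph.edge x y) (u 0) .ok T := cross_sup_le _ _ _ _
  exact new_arith a5 a6 a7 a8 a9 a10

theorem clean_ext (hc : CleanD Good L0 K T 𝓤 tg ch val) {𝓤' : Finset (Bl τ G)}
    {tg' : Bl τ G → τ} {ch' : Bl τ G → Bool → Bl τ G} {val' : Bl τ G → Term τ}
    (hc' : CleanP T 𝓤' tg' ch' val') (sub : 𝓤 ⊆ 𝓤') (och : ∀ w ∈ 𝓤, ch' w = ch w)
    (memu : ∀ i < cl.length, u i ∈ 𝓤')
    (nch : ∀ i < cl.length, ∀ p, cl.kid i = some p → ∀ a, ch' (u i) a = nodeOf T u (sel p a))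
    (hg : ∀ w ∈ 𝓤', Good (val' w))
    (hl : ∀ w ∈ 𝓤', Lst (gam (Gm τ)) (val' w) → len (val' w) ≤ L0)
    (hsrc : ∀ w c, Rel w (.tag c) T → Src x y w → ∃ i < cl.length, u i = w)
    (hlnk : ∀ i < cl.length, ∀ a w, Loc x y (u i) (.lnk a) w → u i ≠ w →
      ∃ p, cl.kid i = some p ∧ w = nodeOf T u (sel p a)) :
    Clean Good L0 (K ⊔ SimpleGraph.edge x y) T := by
  refine ⟨𝓤', tg', ch', val', hc', ?_, ?_, hg, hl⟩
  · intro w c hr a b hab hG hb
    rcases partb_edge hab with h | ⟨rfl, rfl⟩ | ⟨rfl, rfl⟩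
    · exact sub (hc.bas w c hr a b h hG hb)
    · obtain ⟨i, hi, rfl⟩ := hsrc w c hr (Or.inl hb)
      exact memu i hi
    · obtain ⟨i, hi, rfl⟩ := hsrc w c hr (Or.inl hb.symm)
      exact memu i hi
  · intro w c hr a b hab hG k w' hne ha hb
    by_cases h : K.Adj a b
    · obtain ⟨h2, h3⟩ := hc.src w c hr a b h hG k w' hne ha hb
      rw [och w h2]
      exact ⟨sub h2, h3⟩
    · have hl : Loc x y w k w' := by
        rcases (partb_edge hab).resolve_left h with ⟨rfl, rfl⟩ | ⟨rfl, rfl⟩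
        exacts [Or.inl ⟨ha, hb⟩, Or.inr ⟨ha, hb⟩]
      obtain ⟨i, hi, rfl⟩ := hsrc w c hr (Or.inr ⟨k, w', hne, hl⟩)
      refine ⟨memu i hi, ?_⟩
      rintro a rfl
      obtain ⟨p, hk, h2⟩ := hlnk i hi a w' hl hne
      rw [nch i hi p hk]
      exact h2

theorem part_step (hs : Sparse (Gm τ) G L) (hL : 5 * mm (Gm τ) ≤ L)
    (hsm : Small (Gm τ) G L L0) (hLL : L1 * mm (Gm τ) ≤ L) (hw : WF cl)
    (hso : Sound (gam (Gm τ)) Good cl) (hG : ∀ t, Good t → Shape (gam (Gm τ)) t)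
    (hL1 : 4 * L0 + 4 ≤ L1) (hc : Clean Good L0 K T) (hd : ¬ Dirty L1 T)
    (hp : PartD cl (K ⊔ SimpleGraph.edge x y) T u)
    (h1 : 1 ≤ cnt (K ⊔ SimpleGraph.edge x y) (u 0) .ok T)
    (hsrc : ∀ w c, Rel w (.tag c) T → Src x y w → ∃ i < cl.length, u i = w)
    (hlnk : ∀ i < cl.length, ∀ a w, Loc x y (u i) (.lnk a) w → u i ≠ w →
      ∃ p, cl.kid i = some p ∧ w = nodeOf T u (sel p a)) :
    Clean Good L0 (K ⊔ SimpleGraph.edge x y) T := by
  classical
  obtain ⟨𝓤, tg, ch, val, hc⟩ := hc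
  have ho := part_old hs hL hw hL1 hc hd hp
  have hcs := part_cases hs hL hw hG hL1 hc hd hp
  by_cases h0 : u 0 ∈ 𝓤
  · have hall : ∀ i < cl.length, u i ∈ 𝓤 := fun i hi => by
      rcases Nat.eq_zero_or_pos i with rfl | h
      exacts [h0, ho i hi h]
    exact clean_ext hc hc.toCleanP Subset.rfl (fun _ _ => rfl) hall
      (fun i hi => (hcs i hi (hall i hi)).2) hc.good hc.short hsrc hlnk
  obtain ⟨p, hk⟩ : ∃ p, cl.kid 0 = some p := Option.ne_none_iff_exists'.1 fun h => by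
    have h2 := hw.leaf 0 hw.pos h
    rw [hw.ok0] at h2
    exact Bool.false_ne_true h2
  have ht := hp.tag 0 hw.pos
  have hko := node_old (T := T) hw ho hw.pos hk
  have hne : ∀ w, w ∈ 𝓤 ∨ w = T → w ≠ u 0 := by
    rintro w (h | h) rfl
    exacts [h0 h, ht.1 h]
  obtain ⟨tg', htg'⟩ : ∃ tg', tg' = Function.update tg (u 0) (cl.tg 0) := ⟨_, rfl⟩
  obtain ⟨ch', hch'⟩ : ∃ ch', ch' = Function.update ch (u 0) fun a => nodeOf T u (sel p a) :=
    ⟨_, rfl⟩
  obtain ⟨val', hval'⟩ : ∃ val', val' = Function.update val (u 0)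
    (.node (cl.tg 0) (val (nodeOf T u (sel p false))) (val (nodeOf T u (sel p true)))) := ⟨_, rfl⟩
  have otg : ∀ w ∈ 𝓤, tg' w = tg w := fun w h => by
    rw [htg', Function.update_of_ne (hne w (Or.inl h))]
  have och : ∀ w ∈ 𝓤, ch' w = ch w := fun w h => by
    rw [hch', Function.update_of_ne (hne w (Or.inl h))]
  have oval : ∀ w, w ∈ 𝓤 ∨ w = T → val' w = val w := fun w h => by
    rw [hval', Function.update_of_ne (hne w h)]
  have ntg : tg' (u 0) = cl.tg 0 := by rw [htg', Function.update_self]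
  have nch : ch' (u 0) = fun a => nodeOf T u (sel p a) := by rw [hch', Function.update_self]
  have nval : val' (u 0) =
      .node (cl.tg 0) (val (nodeOf T u (sel p false))) (val (nodeOf T u (sel p true))) := by
    rw [hval', Function.update_self]
  have hc' : CleanP T (insert (u 0) 𝓤) tg' ch' val' := by
    refine ⟨by rw [oval _ (Or.inr rfl), hc.nil], fun w h => ?_, fun w h a => ?_, fun w h => ?_,
      fun w h => ?_⟩ <;> rcases mem_insert.1 h with rfl | h
    · rw [ntg]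
      exact ht
    · rw [otg w h]
      exact hc.tag w h
    · rw [nch]
      exact ⟨(hko a).imp_left mem_insert_of_mem, hne _ (hko a)⟩
    · rw [och w h]
      exact ⟨(hc.chm w h a).1.imp_left mem_insert_of_mem, (hc.chm w h a).2⟩
    · rw [nval, ntg, nch, oval _ (hko false), oval _ (hko true)]
    · rw [oval _ (Or.inl h), otg _ h, och _ h, oval _ (hc.chm w h false).1,
        oval _ (hc.chm w h true).1]
      exact hc.val_eq w h
    · rw [ntg, nch]
      exact new_pt hs hL hw hc hp h1 h0 hk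
    · rw [otg w h, och w h]
      exact hc.pt w h
  have memu : ∀ i < cl.length, u i ∈ insert (u 0) 𝓤 := fun i hi => by
    rcases Nat.eq_zero_or_pos i with rfl | h
    exacts [mem_insert_self _ _, mem_insert_of_mem (ho i hi h)]
  have atg : ∀ i < cl.length, tg' (u i) = cl.tg i := fun i hi => by
    rcases Nat.eq_zero_or_pos i with rfl | h
    · exact ntg
    · rw [otg _ (ho i hi h), (hcs i hi (ho i hi h)).1]
  have ach : ∀ i < cl.length, ∀ q, cl.kid i = some q → ∀ a, ch' (u i) a = nodeOf T u (sel q a) :=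
    fun i hi q hq a => by
      rcases Nat.eq_zero_or_pos i with rfl | h
      · rw [hk] at hq
        cases hq
        rw [nch]
      · rw [och _ (ho i hi h), (hcs i hi (ho i hi h)).2 q hq a]
  have hnode : ∀ j, val' (nodeOf T u j) = nodeOf .nil (fun i => val' (u i)) j := fun j => by
    unfold nodeOf
    split_ifs
    exacts [hc'.nil, rfl]
  have hfit : Fit cl fun i => val' (u i) := fun i hi => by
    refine ⟨val' (ch' (u i) false), val' (ch' (u i) true), ?_, fun q hq => ?_⟩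
    · rw [← atg i hi]
      exact hc'.val_eq _ (memu i hi)
    · rw [ach i hi q hq, ach i hi q hq, hnode, hnode]
      exact ⟨rfl, rfl⟩
  have hgood : ∀ i < cl.length, cl.ok i = true → Good (val' (u i)) := fun i hi h => by
    have h2 : 0 < i := Nat.pos_of_ne_zero fun e => by
      rw [e, hw.ok0] at h
      exact Bool.false_ne_true h
    rw [oval _ (Or.inl (ho i hi h2))]
    exact hc.good _ (ho i hi h2)
  have hkl : Shape (gam (Gm τ)) (val' (u 0)) → ∀ a,
      Lst (gam (Gm τ)) (val' (ch' (u 0) a)) ∧ len (val' (ch' (u 0) a)) ≤ L0 := by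
    rintro ⟨c, l, r, e, hl, hr⟩ a
    rw [nval] at e
    obtain ⟨-, e2, e3⟩ := Term.node.inj e
    have h : Lst (gam (Gm τ)) (val (nodeOf T u (sel p a))) := by
      cases a
      · rwa [e2]
      · rwa [e3]
    rw [nch, oval _ (hko a)]
    exact ⟨h, kid_short hc (hko a) h⟩
  rcases hso _ hfit hgood with h | ⟨h2, h3⟩
  · refine clean_ext hc hc' (subset_insert _ _) och memu ach (fun w hw' => ?_)
      (fun w hw' hl => ?_) hsrc hlnk
    · rcases mem_insert.1 hw' with rfl | hw'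
      · exact h
      · rw [oval _ (Or.inl hw')]
        exact hc.good w hw'
    · rcases mem_insert.1 hw' with rfl | hw'
      · obtain ⟨C, c1, -, c3, -, c5⟩ := chain hc' hl _ (Or.inl (mem_insert_self _ _)) rfl
        have e1 := (hkl (hG _ h) false).2
        have e2 : len (val' (u 0)) = len (val' (ch' (u 0) false)) + 1 := by
          conv_lhs => rw [hc'.val_eq _ (mem_insert_self _ _), len]
        have e3 := (c5 ∅ cls_empty).2
        have e4 := hl.le_one
        have e5 := sum_out_ge hc' c1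
        rw [sdiff_empty] at e3
        rw [← c3]
        exact card_le_of_small hs hL hsm hp.tok C (fun z hz => ⟨_, hc'.tag z (c1.1 hz)⟩)
          (le_trans (Nat.mul_le_mul_right _ (by omega)) hLL) (by linarith)
      · rw [oval _ (Or.inl hw')] at hl ⊢
        exact hc.short w hw' hl
  · obtain ⟨C, c1, -, -, c4, c5⟩ := cone hc' (mem_insert_self _ _) (hkl h3)
      (cls_empty (T := T) (ch := ch'))
    rw [card_empty] at c4
    rw [sum_empty, if_neg (notMem_empty _), ntg] at c5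
    have e1 := sum_out_ge hc' c1
    have e2 := gam_le (Gm τ)
    have e3 : (99 : ℝ) ≤ wt (cl.tg 0) := by exact_mod_cast h2
    exact absurd (dirty_of_sum hs hL hp.tok C (fun z hz => ⟨_, hc'.tag z (c1.1 hz)⟩) (by omega)
      (by linarith)) hd

end part

end Pool.Agent.HI
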