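import Pool.Agent.P.HI.I3

/-! The invariant, the deterministic lower bound and the honest witness. -/

open Finset

namespace Pool.Agent.HI

open Pool.Agent.HB

section inv
variable {τ : Type} [Fintype τ] [WP τ] [AP (Gm τ)] [Inhabited τ] {V : Type} [DecidableEq V]
  {G K : SimpleGraph V} {L0 L1 : ℕ} {Good : Term τ → Prop} {x y : V}

omit [Inhabited τ] [WP τ] in
theorem invc_allok (hK : AllOK τ G L1 K) (h : OK1 τ G L1 x y ∨ OK1 τ G L1 y x) :
    AllOK τ G L1 (K ⊔ SimpleGraph.edge x y) := by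
  intro a b hab hG
  rcases partb_edge hab with h' | ⟨rfl, rfl⟩ | ⟨rfl, rfl⟩
  exacts [hK a b h' hG, h, h.symm]

omit [Inhabited τ] [WP τ] in
theorem invc_loc {u u' : Bl τ G} {k : Kind τ} (hl : Loc x y u k u') (hne : u ≠ u')
    (hk : ∀ s, k ≠ .att s) (hr : (k = .anc ∨ ∃ c, k = .tag c) → Rel u k u') :
    OK1 τ G L1 x y ∨ OK1 τ G L1 y x :=
  hl.imp (fun h => Or.inr (Or.inl ⟨u, k, u', hne, h.1, h.2, hk, hr⟩))
    fun h => Or.inr (Or.inl ⟨u, k, u', hne, h.1, h.2, hk, hr⟩)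

theorem inv_clause (hs : Sparse (Gm τ) G (LL (Gm τ) L1)) (hsm : Small (Gm τ) G (LL (Gm τ) L1) L0)
    {cl : Clause τ} (hw : WF cl) (hso : Sound (gam (Gm τ)) Good cl)
    (hG : ∀ t, Good t → Shape (gam (Gm τ)) t) (hL1 : 4 * L0 + 4 ≤ L1) {j : ℕ}
    (hj : j < 300) (hI : Inv G Good L0 L1 K) {B : ℕ → Bl τ G} {z : Bool → V}
    (h : CopyD (clauseBP cl j) K x y B z) : Inv G Good L0 L1 (K ⊔ SimpleGraph.edge x y) := by
  have hL := LL_ge (Γ := Gm τ) L1
  have act : ∀ i, (clauseBP cl j).act i ↔ i < cl.length + 2 := fun _ => Iff.rfl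
  have a0 : (clauseBP cl j).act 0 := (act 0).2 (by omega)
  have a1 : (clauseBP cl j).act 1 := (act 1).2 (by omega)
  have a2 : ∀ i < cl.length, (clauseBP cl j).act (i + 2) := fun i hi => (act _).2 (by omega)
  have hne : ∀ i i', (clauseBP cl j).act i → (clauseBP cl j).act i' → i ≠ i' → B i ≠ B i' :=
    fun i i' h1 h2 h3 e => h3 (h.inj i i' h1 h2 e)
  have hanc : Rel (B 0) .anc (B 1) :=
    rel_of_cnt hs hI.ok (hne 0 1 a0 a1 (by omega)) (Or.inl rfl)
      (h.cn 0 .anc 1 3999 a0 a1 (by omega) (by omega) fun i hi => Or.inl ⟨rfl, rfl, rfl, hi⟩)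
  have ctag : ∀ i < cl.length,
      2300 + wt (cl.tg i) ≤ cnt (K ⊔ SimpleGraph.edge x y) (B (i + 2)) (.tag (cl.tg i)) (B 0) :=
    fun i hi => h.cn (i + 2) _ 0 _ (a2 i hi) a0 (by omega)
      (by have := wt_le (cl.tg i); omega) fun n hn =>
      Or.inr ⟨by omega, Or.inl ⟨rfl, rfl, hn⟩⟩
  have htag : ∀ i < cl.length, Rel (B (i + 2)) (.tag (cl.tg i)) (B 0) := fun i hi =>
    rel_of_cnt hs hI.ok (hne _ _ (a2 i hi) a0 (by omega)) (Or.inr ⟨_, rfl⟩)
      ((Nat.le_add_right 2300 _).trans (ctag i hi))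
  have hnode : ∀ n, B (nodeOf 0 (· + 2) n) = nodeOf (B 0) (fun i => B (i + 2)) n := fun n => by
    unfold nodeOf
    split_ifs <;> rfl
  have hp : PartD cl (K ⊔ SimpleGraph.edge x y) (B 0) fun i => B (i + 2) := by
    refine ⟨⟨_, hanc⟩, fun i hi i' hi' e => ?_, htag, fun i hi => h.bas _ (a2 i hi), ctag,
      fun i hi p hk a => ?_, fun i hi ho => ?_⟩
    · have := h.inj _ _ (a2 i hi) (a2 i' hi') e
      omega
    · rw [← hnode]
      refine h.cn (i + 2) _ _ (lsz a) (a2 i hi) ?_ ?_ ((lsz_le a).trans (by omega)) fun n hn =>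
        Or.inr ⟨by omega, Or.inr (Or.inl ⟨p, a, hk, rfl, rfl, hn⟩)⟩
      · rw [act, nodeOf]
        rcases hw.kids i hi p hk a with h1 | h1 <;> split_ifs <;> omega
      · rw [nodeOf]
        rcases hw.kids i hi p hk a with h1 | h1 <;> split_ifs <;> omega
    · exact h.cn (i + 2) _ 0 300 (a2 i hi) a0 (by omega) (by omega) fun n hn =>
        Or.inr ⟨by omega, Or.inr (Or.inr ⟨rfl, rfl, Or.inl ⟨ho, hn⟩⟩)⟩
  have hloc : (∃ u, (clauseBP cl j).act u ∧ (B u).Base x y) ∨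
      ∃ u k u' i, (clauseBP cl j).act u ∧ (clauseBP cl j).act u' ∧ u ≠ u' ∧
        (clauseBP cl j).arc u k u' i ∧ Loc x y (B u) k (B u') := by
    rcases h.loc with h1 | h1 | ⟨u, s, -, h1, -⟩ | ⟨h1, -⟩
    exacts [Or.inl h1, Or.inr h1, h1.elim, h1.elim]
  obtain ⟨u₀, hu₀, hsrc⟩ : ∃ u, (clauseBP cl j).act u ∧ Src x y (B u) := by
    rcases hloc with ⟨u, h1, h2⟩ | ⟨u, k, u', i, h1, h2, h3, -, h4⟩
    exacts [⟨u, h1, Or.inl h2⟩, ⟨u, h1, Or.inr ⟨k, _, hne _ _ h1 h2 h3, h4⟩⟩]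
  have hown : Own (B u₀) (B 0) := by
    rw [act] at hu₀
    match u₀, hu₀ with
    | 0, _ => exact Or.inl rfl
    | 1, _ => exact Or.inr (Or.inl hanc)
    | i + 2, hi => exact Or.inr (Or.inr ⟨_, htag i (by omega)⟩)
  have harc : ∀ i < cl.length, ∀ k w, Loc x y (B (i + 2)) k w → B (i + 2) ≠ w →
      ∃ u' n, w = B u' ∧ (clauseBP cl j).arc (i + 2) k u' n := by
    intro i hi k w hl hw'
    rcases hloc with ⟨u, -, h2⟩ | ⟨u, k', u', n, h1, -, -, h3, h4⟩
    · exact absurd (base_not_loc hs.old hL h2 hl) hw'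
    · obtain ⟨e1, rfl, e3⟩ := loc_unique hs.old hL hl h4
      obtain rfl := h.inj _ _ (a2 i hi) h1 e1
      exact ⟨u', n, e3, h3⟩
  refine ⟨hI.le.trans le_sup_left, invc_allok hI.ok ?_, fun T hT => ?_⟩
  · rcases hloc with ⟨u, -, h2⟩ | ⟨u, k, u', i, h1, h2, h3, h4, h5⟩
    · exact Or.inl (Or.inl ⟨_, h2⟩)
    · refine invc_loc h5 (hne _ _ h1 h2 h3) ?_ ?_
      · rintro s rfl
        rcases h4 with ⟨-, h6, -⟩ | ⟨-, ⟨h6, -⟩ | ⟨p, a, -, h6, -⟩ | ⟨h6, -⟩⟩ <;> cases h6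
      · intro hk
        rcases h4 with ⟨rfl, rfl, rfl, -⟩ | ⟨h7, ⟨rfl, rfl, -⟩ | ⟨p, a, -, rfl, -⟩ | ⟨rfl, -⟩⟩
        · exact hanc
        · obtain ⟨n, rfl⟩ : ∃ n, u = n + 2 := ⟨u - 2, by omega⟩
          exact htag n (by rw [act] at h1; omega)
        · rcases hk with h6 | ⟨c, h6⟩ <;> cases h6
        · rcases hk with h6 | ⟨c, h6⟩ <;> cases h6
  by_cases hd : Dirty L1 T
  · exact Or.inl hd
  have hc := (hI.tok T hT).resolve_left hd
  refine Or.inr ?_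
  by_cases e : T = B 0
  · subst e
    refine part_step hs hL hsm (LL_ge' L1) hw hso hG hL1 hc hd hp ?_ ?_ ?_
    · exact h.c1 2 .ok 0 j (a2 0 hw.pos) a0 (by omega) (by omega)
        (Or.inr ⟨le_rfl, Or.inr (Or.inr ⟨rfl, rfl, Or.inr ⟨rfl, rfl⟩⟩)⟩)
    · intro w c hr hw'
      obtain rfl := src_unique hs.old hL hw' hsrc
      rw [act] at hu₀
      match u₀, hu₀, hr with
      | 0, _, hr => exact absurd rfl hr.1
      | 1, _, hr => exact absurd rfl (tag_not_anc hs.old hL hr hT hanc).2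
      | i + 2, hi, _ => exact ⟨i, by omega, rfl⟩
    · intro i hi a w hl hw'
      obtain ⟨u', n, rfl, h4⟩ := harc i hi _ w hl hw'
      rcases h4 with ⟨h6, -⟩ | ⟨-, ⟨h6, -⟩ | ⟨p, a', hk, h6, rfl, -⟩ | ⟨h6, -⟩⟩
      · omega
      · cases h6
      · cases h6
        exact ⟨p, hk, hnode _⟩
      · cases h6
  · refine clean_other hc fun w c hr hw' => e ?_
    obtain rfl := src_unique hs.old hL hw' hsrc
    exact own_unique hs.old hL (Or.inr (Or.inr ⟨c, hr⟩)) hT hown ⟨_, hanc⟩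

omit [Inhabited τ] in
theorem inv_fin (hs : Sparse (Gm τ) G (LL (Gm τ) L1)) (hL1 : 3 ≤ L1) {halt : τ}
    (hG : ∀ l r, ¬ Good (.node halt l r)) (hI : Inv G Good L0 L1 K) {B : ℕ → Bl τ G}
    {z : Bool → V} (h : CopyD (finBP halt) K x y B z) :
    Inv G Good L0 L1 (K ⊔ SimpleGraph.edge x y) := by
  have hL := LL_ge (Γ := Gm τ) L1
  have act : ∀ i, (finBP halt).act i ↔ i < 3 * rr (Gm τ) := fun _ => Iff.rfl
  have hne : ∀ i i', i < 3 * rr (Gm τ) → i' < 3 * rr (Gm τ) → i ≠ i' → B i ≠ B i' :=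
    fun i i' h1 h2 h3 e => h3 (h.inj i i' h1 h2 e)
  have hanc : ∀ q < rr (Gm τ), Rel (B (3 * q)) .anc (B (3 * q + 1)) := fun q hq =>
    rel_of_cnt hs hI.ok (hne _ _ (by omega) (by omega) (by omega)) (Or.inl rfl)
      (h.cn _ .anc _ 3999 ((act _).2 (by omega)) ((act _).2 (by omega)) (by omega) (by omega)
        fun i hi => Or.inl ⟨by omega, rfl, rfl, hi⟩)
  have ctag : ∀ q < rr (Gm τ),
      2300 ≤ cnt (K ⊔ SimpleGraph.edge x y) (B (3 * q + 2)) (.tag halt) (B (3 * q)) := fun q hq =>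
    h.cn _ _ _ 2300 ((act _).2 (by omega)) ((act _).2 (by omega)) (by omega) (by omega)
      fun i hi => Or.inr ⟨by omega, rfl, Or.inl ⟨rfl, hi⟩⟩
  have htag : ∀ q < rr (Gm τ), Rel (B (3 * q + 2)) (.tag halt) (B (3 * q)) := fun q hq =>
    rel_of_cnt hs hI.ok (hne _ _ (by omega) (by omega) (by omega)) (Or.inr ⟨_, rfl⟩) (ctag q hq)
  have hdirty : ∀ q < rr (Gm τ), Dirty L1 (B (3 * q)) := fun q hq => by
    refine (hI.tok _ ⟨_, hanc q hq⟩).elim id fun hc => ?_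
    exact halt_dirty (x := x) (y := y) hs hL hL1 hG hc ⟨_, hanc q hq⟩ (htag q hq)
      (h.bas _ ((act _).2 (by omega))) (ctag q hq)
      (h.cn _ _ _ 292 ((act _).2 (by omega)) ((act _).2 (by omega)) (by omega) (by omega)
        fun i hi => Or.inr ⟨by omega, rfl, Or.inr ⟨rfl, hi⟩⟩)
  have hatt : ∀ u < 3 * rr (Gm τ), u % 3 = 0 → ∀ s, Att (z s) s (B u) := fun u hu h0 s =>
    att_of_cnt hs hI.ok (h.att u s hu h0).1 (h.att u s hu h0).2
  have hfin : FinP τ G L1 (z false) (z true) := by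
    refine ⟨h.zne, (range (rr (Gm τ))).image fun q => B (3 * q), ?_, fun T hT => ?_⟩
    · rw [card_image_of_injOn, card_range]
      intro q hq q' hq' e
      have h1 := mem_range.1 (mem_coe.1 hq)
      have h2 := mem_range.1 (mem_coe.1 hq')
      have h3 := h.inj _ _ ((act _).2 (by omega)) ((act _).2 (by omega)) e
      omega
    · obtain ⟨q, hq, rfl⟩ := mem_image.1 hT
      have h1 := mem_range.1 hq
      exact ⟨hdirty q h1, hatt _ (by omega) (by omega) _, hatt _ (by omega) (by omega) _⟩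
  have hend : ∀ s, End τ G L1 (z s) := fun s => by
    cases s
    exacts [⟨_, Or.inl hfin⟩, ⟨_, Or.inr hfin⟩]
  have hown : ∀ u < 3 * rr (Gm τ), Own (B u) (B (3 * (u / 3))) := fun u hu => by
    obtain ⟨q, e | e | e⟩ : ∃ q, u = 3 * q ∨ u = 3 * q + 1 ∨ u = 3 * q + 2 := ⟨u / 3, by omega⟩
    all_goals
      rw [show u / 3 = q by omega, e]
    exacts [Or.inl rfl, Or.inr (Or.inl (hanc q (by omega))),
      Or.inr (Or.inr ⟨_, htag q (by omega)⟩)]
  refine ⟨hI.le.trans le_sup_left, invc_allok hI.ok ?_, fun T hT => ?_⟩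
  · rcases h.loc with ⟨u, -, h2⟩ | ⟨u, k, u', i, h1, h2, h3, h4, h5⟩ | ⟨u, s, h1, h2, h3⟩ | ⟨-, h1⟩
    · exact Or.inl (Or.inl ⟨_, h2⟩)
    · refine invc_loc h5 (hne _ _ h1 h2 h3) ?_ ?_
      · rintro s rfl
        rcases h4 with ⟨-, h6, -⟩ | ⟨-, -, ⟨h6, -⟩ | ⟨h6, -⟩⟩ <;> cases h6
      · intro hk
        rw [act] at h1
        rcases h4 with ⟨h7, rfl, rfl, -⟩ | ⟨h7, rfl, ⟨rfl, -⟩ | ⟨rfl, -⟩⟩
        · obtain ⟨q, rfl⟩ : ∃ q, u = 3 * q := ⟨u / 3, by omega⟩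
          exact hanc q (by omega)
        · obtain ⟨q, rfl⟩ : ∃ q, u' = 3 * q := ⟨u' / 3, by omega⟩
          exact htag q (by omega)
        · rcases hk with h6 | ⟨c, h6⟩ <;> cases h6
    · refine h3.imp ?_ ?_ <;> rintro ⟨rfl, h4⟩ <;>
        exact Or.inr (Or.inr (Or.inl ⟨s, _, hend s, hatt u h1 h2 s, h4⟩))
    · refine h1.imp ?_ ?_ <;> rintro ⟨rfl, rfl⟩ <;> exact Or.inr (Or.inr (Or.inr hfin))
  by_cases hd : Dirty L1 T
  · exact Or.inl hd
  refine Or.inr (clean_other ((hI.tok T hT).resolve_left hd) fun w c hr hw => ?_)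
  have key : ∀ u < 3 * rr (Gm τ), ¬ Src x y (B u) := fun u hu hsrc => by
    obtain rfl := src_unique hs.old hL hw hsrc
    have h1 : u / 3 < rr (Gm τ) := by omega
    rw [own_unique hs.old hL (Or.inr (Or.inr ⟨c, hr⟩)) hT (hown u hu) ⟨_, hanc _ h1⟩] at hd
    exact hd (hdirty _ h1)
  rcases h.loc with ⟨u, h1, h2⟩ | ⟨u, k, u', i, h1, h2, h3, -, h5⟩ | ⟨u, s, -, -, h3⟩ | ⟨-, h1⟩
  · exact key u h1 (Or.inl h2)
  · exact key u h1 (Or.inr ⟨k, _, hne _ _ h1 h2 h3, h5⟩)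
  · rcases h3 with ⟨e, -⟩ | ⟨e, -⟩
    · exact hw.not_plain.1 (e ▸ end_plain hs (hend s))
    · exact hw.not_plain.2 (e ▸ end_plain hs (hend s))
  · rcases h1 with ⟨e, -⟩ | ⟨e, -⟩
    · exact hw.not_plain.1 (e ▸ end_plain hs (hend false))
    · exact hw.not_plain.2 (e ▸ end_plain hs (hend false))

end inv

section lower
variable {τ : Type} [Fintype τ] [WP τ] [AP (Gm τ)] [Inhabited τ] {ι : Type} {F : ι → Clause τ}
  {halt : τ} {Kn : ℕ} {Good : Term τ → Prop}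

/-- the invariant holds at the start -/
theorem lower_inv_self {V : Type} [DecidableEq V] (G : SimpleGraph V) (Good : Term τ → Prop)
    (L0 L1 : ℕ) : Inv G Good L0 L1 G where
  le := le_rfl
  ok := fun _ _ h h' => absurd h h'
  tok := fun T _ => Or.inr ⟨∅, fun _ => default, fun _ _ => T, fun _ => .nil,
    { nil := rfl
      tag := fun u hu => absurd hu (notMem_empty u)
      chm := fun u hu => absurd hu (notMem_empty u)
      val_eq := fun u hu => absurd hu (notMem_empty u)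
      pt := fun u hu => absurd hu (notMem_empty u)
      bas := fun _ _ _ _ _ h h' => absurd h h'
      src := fun _ _ _ _ _ h h' => absurd h h'
      good := fun u hu => absurd hu (notMem_empty u)
      short := fun u hu => absurd hu (notMem_empty u) }⟩

theorem lower_det {V : Type} [Fintype V] [DecidableEq V] {G : SimpleGraph V} {L0 : ℕ}
    (hw : ∀ c, WF (F c)) (hso : ∀ c, Sound (gam (Gm τ)) Good (F c))
    (hS : ∀ t, Good t → Shape (gam (Gm τ)) t) (hG : ∀ l r, ¬ Good (.node halt l r))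
    (hF : ∀ c, (F c).length + 2 ≤ Kn) (hr : 3 * rr (Gm τ) ≤ Kn)
    (hs : Sparse (Gm τ) G (LL (Gm τ) (4 * L0 + 4))) (hsm : Small (Gm τ) G (LL (Gm τ) (4 * L0 + 4)) L0)
    (Rt : Finset V) (h3 : Rt.card = 3) (hpl : ∀ v ∈ Rt, Plain (Gm τ) G v)
    (hna : ∀ u ∈ Rt, ∀ v ∈ Rt, ¬ G.Adj u v) : bootClosure (HG F halt Kn) G ≠ ⊤ := by
  intro htop
  have hr1 : 1 ≤ rr (Gm τ) := rr_pos
  obtain ⟨K, -, hK⟩ := Finite.exists_le_maximal (p := fun K => Inv G Good L0 (4 * L0 + 4) K)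
    (lower_inv_self G Good L0 (4 * L0 + 4))
  have hI : Inv G Good L0 (4 * L0 + 4) K := hK.prop
  have hst : step (HG F halt Kn) K ≤ K := by
    intro x y hxy
    by_contra hn
    obtain ⟨c, φ, hf⟩ := fire_of_step F halt hF hr hxy hn
    have hI' : Inv G Good L0 (4 * L0 + 4) (K ⊔ SimpleGraph.edge x y) := by
      rcases c with _ | ⟨c, j⟩
      · have h0 : (finBP halt).act 0 := by
          change 0 < 3 * rr (Gm τ)
          omega
        obtain ⟨B, z, hc⟩ := copy_of_fire hs hI.ok (β := finBP halt) h0 hf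
        exact inv_fin hs (by omega) hG hI hc
      · have h0 : (clauseBP (F c) (j : ℕ)).act 0 := by
          change 0 < (F c).length + 2
          omega
        obtain ⟨B, z, hc⟩ := copy_of_fire hs hI.ok (β := clauseBP (F c) (j : ℕ)) h0 hf
        exact inv_clause hs hsm (hw c) (hso c) hS le_rfl j.2 hI hc
    have hle : K ⊔ SimpleGraph.edge x y ≤ K := hK.le_of_ge hI' le_sup_left
    refine hn (hle (Or.inr ?_))
    rw [SimpleGraph.edge_adj]
    exact ⟨Or.inl ⟨rfl, rfl⟩, hxy.ne⟩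
  have hle : (⊤ : SimpleGraph V) ≤ K := htop ▸ bootClosure_le _ hst hI.le
  obtain ⟨a, b, c, hab, hac, hbc, rfl⟩ := card_eq_three.1 h3
  have ha : a ∈ ({a, b, c} : Finset V) := by simp
  have hb : b ∈ ({a, b, c} : Finset V) := by simp
  have hc : c ∈ ({a, b, c} : Finset V) := by simp
  exact hbc (fin_match hs
    (extra_fin hI.ok (hle hab) (hna a ha b hb) (hpl a ha) (hpl b hb))
    (extra_fin hI.ok (hle hac) (hna a ha c hc) (hpl a ha) (hpl c hc)))

/-- the form that is used with the first moment bound -/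
theorem lower_theta (hw : ∀ c, WF (F c)) (hso : ∀ c, Sound (gam (Gm τ)) Good (F c))
    (hS : ∀ t, Good t → Shape (gam (Gm τ)) t)
    (hG : ∀ l r, ¬ Good (.node halt l r)) (hF : ∀ c, (F c).length + 2 ≤ Kn)
    (hr : 3 * rr (Gm τ) ≤ Kn) {θ : ℝ} (h0 : 0 < θ) (hθ : 2 * (mm (Gm τ) : ℝ) * θ < aa (Gm τ)) :
    ∃ L : ℕ, ∀ (n : ℕ) (G : SimpleGraph (Fin n)) (Rt : Finset (Fin n)), Rt.card = 3 →
      (∀ X : Finset (Fin n), X.card ≤ L → (eIn G X : ℝ) ≤ θ * (X \ Rt).card) →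
        bootClosure (HG F halt Kn) G ≠ ⊤ := by
  have hm1 : 400000 * sG (Gm τ) ≤ mm (Gm τ) := mm_ge
  have hm2 : 4000 ≤ sG (Gm τ) := sG_ge
  have hA : 100000 * mm (Gm τ) ≤ AA (Gm τ) := AA_ge'
  have hm : (1 : ℝ) ≤ mm (Gm τ) := by
    have : 1 ≤ mm (Gm τ) := by omega
    exact_mod_cast this
  have hd : (0 : ℝ) < aa (Gm τ) - 2 * (mm (Gm τ) : ℝ) * θ := by linarith
  obtain ⟨L0, hL0⟩ := exists_nat_ge
    (4020 * (mm (Gm τ) : ℝ) * θ / (aa (Gm τ) - 2 * (mm (Gm τ) : ℝ) * θ))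
  rw [div_le_iff₀ hd] at hL0
  refine ⟨LL (Gm τ) (4 * L0 + 4), fun n G Rt h3 h => ?_⟩
  have hL : 5 * mm (Gm τ) ≤ LL (Gm τ) (4 * L0 + 4) := LL_ge _
  have hec : ∀ X : Finset (Fin n), X.card ≤ LL (Gm τ) (4 * L0 + 4) →
      (ec G X : ℝ) ≤ 2 * θ * (X \ Rt).card := fun X hX => by
    have := h X hX
    rw [ec_eq_eIn]
    push_cast
    linarith
  have hec' : ∀ X : Finset (Fin n), X.card ≤ LL (Gm τ) (4 * L0 + 4) →
      (ec G X : ℝ) ≤ 2 * θ * X.card := fun X hX => by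
    refine (hec X hX).trans (mul_le_mul_of_nonneg_left ?_ (by linarith))
    exact_mod_cast card_le_card sdiff_subset
  refine lower_det (L0 := L0) hw hso hS hG hF hr (fun X hX => ?_) (fun X hX hp => ?_) Rt h3
    (fun v hv B hB => ?_) (fun u hu v hv huv => ?_)
  · have h1 := mul_le_mul_of_nonneg_left (hec' X hX) (le_trans zero_le_one hm)
    have h2 := mul_nonneg hd.le (Nat.cast_nonneg (α := ℝ) X.card)
    unfold pot
    nlinarith
  · have h1 := hec' X hX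
    have h4 : aa (Gm τ) * X.card - (mm (Gm τ) : ℝ) * ec G X ≤ 2010 * (mm (Gm τ) : ℝ) := hp
    have h5 := mul_le_mul_of_nonneg_left h1 (show 0 ≤ aa (Gm τ) by nlinarith)
    have h6 := mul_le_mul_of_nonneg_left h4 (by linarith : (0 : ℝ) ≤ 2 * θ)
    have h7 : (ec G X : ℝ) * (aa (Gm τ) - 2 * (mm (Gm τ) : ℝ) * θ) ≤
        L0 * (aa (Gm τ) - 2 * (mm (Gm τ) : ℝ) * θ) := by nlinarith
    exact_mod_cast le_of_mul_le_mul_right h7 hd
  · have hc := B.card_eq
    have h1 := hec B.1 (by omega)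
    have h2 : (B.1 \ Rt).card + 1 ≤ mm (Gm τ) := by
      rw [← hc]
      exact card_lt_card ⟨sdiff_subset, fun hsub => (mem_sdiff.1 (hsub hB)).2 hv⟩
    have h2' : ((B.1 \ Rt).card : ℝ) ≤ mm (Gm τ) - 1 := by
      have : ((B.1 \ Rt).card : ℝ) + 1 ≤ mm (Gm τ) := by exact_mod_cast h2
      linarith
    have h4 : (AA (Gm τ) : ℝ) ≤ ec G B.1 + 5002 := by
      have := B.ec_ge
      have h5 : AA (Gm τ) ≤ ec G B.1 + 5002 := by
        unfold AA
        omega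
      exact_mod_cast h5
    have hA' : (100000 : ℝ) * mm (Gm τ) ≤ AA (Gm τ) := by exact_mod_cast hA
    have h5 := mul_le_mul_of_nonneg_left h2' (by linarith : (0 : ℝ) ≤ 2 * θ)
    have h6 : (AA (Gm τ) : ℝ) - 5002 ≤ 2 * θ * (mm (Gm τ) - 1) := by linarith
    have h7 := mul_le_mul_of_nonneg_left h6 (le_trans zero_le_one hm)
    have h8 := mul_le_mul_of_nonneg_right (hθ.le.trans (aa_hi _))
      (by linarith : (0 : ℝ) ≤ mm (Gm τ) - 1)
    nlinarith
  · have h1 := hec {u, v} (card_le_two.trans (by omega))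
    have h2 : ({u, v} : Finset (Fin n)) \ Rt = ∅ := by
      rw [sdiff_eq_empty_iff_subset]
      intro w hw
      rcases mem_insert.1 hw with rfl | hw
      · exact hu
      · rw [mem_singleton.1 hw]
        exact hv
    have h4 : 1 ≤ ec G {u, v} := cross_pos.2 ⟨u, by simp, v, by simp, huv⟩
    have h5 : (1 : ℝ) ≤ ec G {u, v} := by exact_mod_cast h4
    rw [h2] at h1
    simp only [card_empty, Nat.cast_zero, mul_zero] at h1
    linarith

end lower

section upper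
variable {τ : Type} [Fintype τ] [WP τ] [Inhabited τ] {ι : Type} [Fintype ι] {F : ι → Clause τ}
  {halt : τ} {Kn : ℕ} {𝒯 : Finset (Term τ)} {V : Type} {G : SimpleGraph V}

omit [Inhabited τ] in
theorem up_rel_ne {a b : Vx τ (NW τ 𝒯)} (h : (witBP 𝒯).rel a b) : a ≠ b := by
  rcases a with s | ⟨u, t⟩ <;> rcases b with s' | ⟨u', t'⟩
  · exact h.1.elim
  · simp
  · simp
  · rintro e
    obtain ⟨rfl, rfl⟩ : u = u' ∧ t = t' := by simpa using e
    rcases h.2.2 with h | h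
    · exact h.2.1 rfl
    · exact h.1 rfl

omit [Fintype ι] in
theorem up_wit (f : Vx τ (NW τ 𝒯) ⊕ VH τ ι Kn ↪ V) (hf : Emb (WG F halt Kn 𝒯) G f)
    {a b : Vx τ (NW τ 𝒯)} (h : (witBP 𝒯).rel a b) :
    (bootClosure (HG F halt Kn) G).Adj (f (.inl a)) (f (.inl b)) :=
  le_bootClosure _ _ (hf _ _ (SimpleGraph.sum_adj_inl.2
    ((SimpleGraph.fromRel_adj _ _ _).2 ⟨up_rel_ne h, Or.inl h⟩)))

theorem up_fire (hF : ∀ c, (F c).length + 2 ≤ Kn) (hr : 3 * rr (Gm τ) ≤ Kn)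
    (f : Vx τ (NW τ 𝒯) ⊕ VH τ ι Kn ↪ V) (hf : Emb (WG F halt Kn 𝒯) G f)
    (c : Option (ι × Fin 300)) (ν : ℕ → NW τ 𝒯) {x y : V} (hxy : x ≠ y)
    (hinj : ∀ u u', (compBP F halt c).act u → (compBP F halt c).act u' → ν u = ν u' → u = u')
    (harc : ∀ u k u' (i : Fin 4000), (compBP F halt c).act u → (compBP F halt c).act u' →
      (compBP F halt c).arc u k u' i → (witBP 𝒯).arc (ν u) k (ν u') i ∨
        (bootClosure (HG F halt Kn) G ⊔ SimpleGraph.edge x y).Adj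
          (f (.inl (.inr (ν u, .inl ((k, true), i))))) (f (.inl (.inr (ν u', .inl ((k, false), i))))))
    (hatt : ∀ u, (compBP F halt c).act u → (compBP F halt c).att u → (witBP 𝒯).att (ν u))
    (hfin : (compBP F halt c).fin → x = f (.inl (.inl false)) ∧ y = f (.inl (.inl true)))
    (huse : ∃ a b, (compBP F halt c).rel a b ∧ f (.inl (Sum.map id (Prod.map ν id) a)) = x ∧
      f (.inl (Sum.map id (Prod.map ν id) b)) = y) :
    (bootClosure (HG F halt Kn) G).Adj x y := by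
  refine step_bootClosure _ _ (step_of_fire F halt hF hr (Function.Embedding.inr.trans f)
    (fun a b h => le_bootClosure _ _ (hf _ _ (SimpleGraph.sum_adj_inr.2 h))) (c := c)
    (φ := fun a => f (.inl (Sum.map id (Prod.map ν id) a))) ⟨fun a b ha hb e => ?_,
      fun a b h => ?_, ?_⟩ (fun a w _ e => by simpa using f.injective e) hxy)
  · have e' := Sum.inl_injective (f.injective e)
    rcases a with s | ⟨u, t⟩ <;> rcases b with s' | ⟨u', t'⟩
    · simpa using e'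
    · simp at e'
    · simp at e'
    · obtain ⟨e1, rfl⟩ : ν u = ν u' ∧ t = t' := by simpa using e'
      rw [hinj u u' ha hb e1]
  · rcases a with s | ⟨u, t⟩ <;> rcases b with s' | ⟨u', t'⟩
    · obtain ⟨h1, rfl, rfl⟩ := h
      obtain ⟨rfl, rfl⟩ := hfin h1
      exact Or.inr ((SimpleGraph.edge_adj _ _ _ _).2 ⟨Or.inl ⟨rfl, rfl⟩, hxy⟩)
    · exact Or.inl (up_wit f hf (a := .inl s) (b := .inr (ν u', t')) ⟨trivial, hatt u' h.1 h.2.1, h.2.2⟩)
    · exact h.elim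
    · obtain ⟨h1, h2, ⟨h3, h4⟩ | ⟨h3, k, i, h4, h5, h6⟩⟩ := h
      · exact Or.inl (up_wit f hf (a := .inr (ν u, t)) (b := .inr (ν u', t'))
          ⟨trivial, trivial, Or.inl ⟨congrArg ν h3, h4⟩⟩)
      · obtain rfl : t = _ := h5
        obtain rfl : t' = _ := h6
        rcases harc u k u' i h1 h2 h4 with h7 | h7
        · exact Or.inl (up_wit f hf (a := .inr (ν u, _)) (b := .inr (ν u', _))
            ⟨trivial, trivial, Or.inr ⟨fun e => h3 (hinj u u' h1 h2 e), k, i, h7, rfl, rfl⟩⟩)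
        · exact h7
  · obtain ⟨a, b, h, rfl, rfl⟩ := huse
    exact ⟨a, b, h, rfl⟩

theorem upper_ok (hw : ∀ c, WF (F c)) (hF : ∀ c, (F c).length + 2 ≤ Kn)
    (hr : 3 * rr (Gm τ) ≤ Kn) (f : Vx τ (NW τ 𝒯) ⊕ VH τ ι Kn ↪ V)
    (hf : Emb (WG F halt Kn 𝒯) G f) (q : Fin (rr (Gm τ))) {t : Term τ} (h : Der F 𝒯 t) :
    ∃ ht : t ∈ 𝒯, ∀ j : Fin 4000, (j : ℕ) < 300 → (bootClosure (HG F halt Kn) G).Adj
      (f (.inl (.inr ((q, .inr ⟨t, ht⟩), .inl ((.ok, true), j)))))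
      (f (.inl (.inr ((q, .inl false), .inl ((.ok, false), j))))) := by
  classical
  induction h with
  | step c val fit inj mem _ ih =>
    have l0 := (hw c).pos
    refine ⟨mem 0 l0, fun j hj => ?_⟩
    let ν : ℕ → NW τ 𝒯 := fun u => (q, match u with
      | 0 => .inl false
      | 1 => .inl true
      | i + 2 => if h : val i ∈ 𝒯 then .inr ⟨val i, h⟩ else .inl false)
    have hν : ∀ i (hi : i < (F c).length), ν (i + 2) = (q, .inr ⟨val i, mem i hi⟩) :=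
      fun i hi => by simp only [ν, dif_pos (mem i hi)]
    have ν0 : ν 0 = (q, .inl false) := rfl
    have ν1 : ν 1 = (q, .inl true) := rfl
    have hxy : f (.inl (.inr ((q, .inr ⟨val 0, mem 0 l0⟩), .inl ((.ok, true), j)))) ≠
        f (.inl (.inr ((q, .inl false), .inl ((.ok, false), j)))) := fun e => by
      simpa using f.injective e
    refine up_fire hF hr f hf (some (c, ⟨j, hj⟩)) ν hxy (fun u u' hu hu' e => ?_)
      (fun u k u' i hu hu' ha => ?_) (fun _ _ h => h.elim) (fun h => h.elim)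
      ⟨.inr (2, .inl ((.ok, true), j)), .inr (0, .inl ((.ok, false), j)),
        ⟨show 2 < (F c).length + 2 by omega, show 0 < (F c).length + 2 by omega,
          Or.inr ⟨by simp, .ok, j, Or.inr ⟨le_rfl, Or.inr (Or.inr ⟨rfl, rfl, Or.inr ⟨rfl, rfl⟩⟩)⟩,
            rfl, rfl⟩⟩, by rw [← hν 0 l0]; rfl, rfl⟩
    · change u < (F c).length + 2 at hu
      change u' < (F c).length + 2 at hu'
      match u, u' with
      | 0, 0 => rfl
      | 0, 1 => simp [ν0, ν1] at e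
      | 0, i + 2 => simp [ν0, hν i (by omega)] at e
      | 1, 0 => simp [ν0, ν1] at e
      | 1, 1 => rfl
      | 1, i + 2 => simp [ν1, hν i (by omega)] at e
      | i + 2, 0 => simp [ν0, hν i (by omega)] at e
      | i + 2, 1 => simp [ν1, hν i (by omega)] at e
      | i + 2, i' + 2 =>
        rw [hν i (by omega), hν i' (by omega)] at e
        rw [inj i (by omega) i' (by omega) (by simpa using e)]
    · change u < (F c).length + 2 at hu
      change u' < (F c).length + 2 at hu'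
      rcases ha with ⟨rfl, rfl, rfl, h1⟩ | ⟨h1, ha⟩
      · exact Or.inl ⟨rfl, Or.inl ⟨rfl, rfl, rfl, h1⟩⟩
      obtain ⟨n, rfl⟩ : ∃ n, u = n + 2 := ⟨u - 2, by omega⟩
      have hn : n < (F c).length := by omega
      obtain ⟨l, r, e1, e2⟩ := fit n hn
      rw [Nat.add_sub_cancel] at ha
      rw [hν n hn]
      rcases ha with ⟨rfl, rfl, h2⟩ | ⟨p, a, h2, rfl, rfl, h3⟩ | ⟨rfl, rfl, ⟨h2, h3⟩ | ⟨h2, h3⟩⟩
      · exact Or.inl ⟨rfl, Or.inr ⟨_, _, l, r, rfl, e1, Or.inl ⟨rfl, rfl, h2⟩⟩⟩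
      · obtain ⟨rfl, rfl⟩ := e2 p h2
        have e3 : (val n).kidT a = nodeOf .nil val (sel p a) := by
          rw [e1]; cases a <;> rfl
        refine Or.inl ⟨rfl, Or.inr ⟨_, _, _, _, rfl, e1, Or.inr ⟨a, rfl, h3, ?_⟩⟩⟩
        unfold nodeOf at e3 hu' ⊢
        by_cases h0 : sel p a = 0
        · rw [if_pos h0] at e3 ⊢
          exact Or.inl ⟨e3, rfl⟩
        · rw [if_neg h0] at e3 hu' ⊢
          have h4 : sel p a < (F c).length := Nat.lt_of_add_lt_add_right hu'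
          obtain ⟨l', r', e4, -⟩ := fit _ h4
          exact Or.inr ⟨⟨_, mem _ h4⟩, by simp [e4], e3, by rw [hν _ h4]⟩
      · exact Or.inr (Or.inl ((ih n hn h2).2 i h3))
      · obtain rfl : n = 0 := by omega
        obtain rfl : i = j := Fin.ext h3
        exact Or.inr (Or.inr ((SimpleGraph.edge_adj _ _ _ _).2 ⟨Or.inl ⟨rfl, rfl⟩, hxy⟩))

theorem upper_det (hw : ∀ c, WF (F c)) (hF : ∀ c, (F c).length + 2 ≤ Kn)
    (hr : 3 * rr (Gm τ) ≤ Kn) {l r : Term τ} (h : Der F 𝒯 (.node halt l r))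
    (f : Vx τ (NW τ 𝒯) ⊕ VH τ ι Kn ↪ V) (hf : Emb (WG F halt Kn 𝒯) G f) :
    (bootClosure (HG F halt Kn) G).Adj (f (.inl (.inl false))) (f (.inl (.inl true))) := by
  have r0 : 0 < rr (Gm τ) := rr_pos
  obtain ⟨ht, -⟩ := upper_ok hw hF hr f hf ⟨0, r0⟩ h
  let ν : ℕ → NW τ 𝒯 := fun u => (⟨u / 3 % rr (Gm τ), Nat.mod_lt _ r0⟩,
    if u % 3 = 0 then .inl false else if u % 3 = 1 then .inl true else .inr ⟨_, ht⟩)
  have hm : ∀ u < 3 * rr (Gm τ), u / 3 % rr (Gm τ) = u / 3 := fun u hu => Nat.mod_eq_of_lt (by omega)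
  refine up_fire hF hr f hf none ν (fun e => by simpa using f.injective e)
    (fun u u' hu hu' e => ?_) (fun u k u' i hu hu' ha => ?_) (fun u _ h => if_pos h)
    (fun _ => ⟨rfl, rfl⟩) ⟨.inl false, .inl true, ⟨trivial, rfl, rfl⟩, rfl, rfl⟩
  · have e1 : u / 3 % rr (Gm τ) = u' / 3 % rr (Gm τ) := congrArg (fun p => p.1.1) e
    have e2 := congrArg Prod.snd e
    rw [hm u hu, hm u' hu'] at e1
    simp only [ν] at e2
    split_ifs at e2 <;> first | omega | simp at e2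
  · rcases ha with ⟨h1, rfl, rfl, h2⟩ | ⟨h1, rfl, ha⟩
    · refine Or.inl ⟨Fin.ext (show u / 3 % _ = (u + 1) / 3 % _ by congr 1; omega),
        Or.inl ⟨if_pos h1, rfl, ?_, h2⟩⟩
      simp only [ν]
      rw [if_neg (by omega), if_pos (by omega)]
    · have e1 : (ν (u' + 2)).1 = (ν u').1 :=
        Fin.ext (show (u' + 2) / 3 % _ = u' / 3 % _ by congr 1; omega)
      have e2 : (ν (u' + 2)).2 = .inr ⟨_, ht⟩ := by
        simp only [ν]
        rw [if_neg (by omega), if_neg (by omega)]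
      have e3 : (ν u').2 = .inl false := if_pos (by omega)
      rcases ha with ⟨rfl, h2⟩ | ⟨rfl, h2⟩
      · exact Or.inl ⟨e1, Or.inr ⟨_, _, _, _, e2, rfl,
          Or.inl ⟨rfl, e3, Nat.lt_add_right _ h2⟩⟩⟩
      · obtain ⟨_, h3⟩ := upper_ok hw hF hr f hf (ν u').1 h
        rw [show ν (u' + 2) = ((ν u').1, .inr ⟨_, ht⟩) from Prod.ext e1 e2,
          show ν u' = ((ν u').1, .inl false) from Prod.ext rfl e3]
        exact Or.inr (Or.inl (h3 i (by omega)))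

end upper

end Pool.Agent.HI
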