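import Pool.Agent.P.HI.I4
import Pool.Agent.P.HB.G6
import Pool.Agent.P.HB.G1

/-! The honest witness is sparse over its roots; the two bounds on the exponent. -/

open Finset

namespace Pool.Agent.HI

open Pool.Agent.HB

section pot
variable {τ : Type} [Fintype τ] {N : Type} [Fintype N] {a : ℝ}

theorem fib_le (h1 : (AA (Gm τ) : ℝ) - 1 ≤ a) (h2 : a ≤ AA (Gm τ)) (X : Finset (Tm (Gm τ)))
    (hX : X.Nonempty) :
    (mm (Gm τ) : ℝ) * ec (TG (Gm τ)) X + (a - E2 (Gm τ)) * mm (Gm τ) ≤ a * X.card := by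
  have c1 : 1 ≤ X.card := card_pos.2 hX
  have c2 : X.card ≤ mm (Gm τ) := by
    rw [← card_Tm]
    exact card_le_univ X
  have eA : (AA (Gm τ) : ℝ) = E2 (Gm τ) + 5000 := by
    unfold AA
    push_cast
    rfl
  rcases c2.lt_or_eq with h3 | h3
  · have h4 := part_le (Γ := Gm τ) c1 h3
    have h5 := Nat.mul_le_mul_left (mm (Gm τ)) (ec_le (TG (Gm τ)) X)
    have h6 : mm (Gm τ) * ec (TG (Gm τ)) X + 20000 * mm (Gm τ) ≤ AA (Gm τ) * X.card := by omega
    have h7 : (mm (Gm τ) : ℝ) * ec (TG (Gm τ)) X + 20000 * mm (Gm τ) ≤ AA (Gm τ) * X.card := by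
      exact_mod_cast h6
    have h8 : (X.card : ℝ) ≤ mm (Gm τ) := by exact_mod_cast c2
    have h9 := mul_le_mul_of_nonneg_right h1 (Nat.cast_nonneg (α := ℝ) X.card)
    have h10 := mul_le_mul_of_nonneg_right h2 (Nat.cast_nonneg (α := ℝ) (mm (Gm τ)))
    have h11 : (0 : ℝ) ≤ mm (Gm τ) := Nat.cast_nonneg _
    rw [eA] at h7 h9 h10
    nlinarith
  · have h4 : X = univ := by
      rw [← card_eq_iff_eq_univ, h3, card_Tm]
    rw [h3, h4]
    unfold E2
    linarith

open Classical in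
theorem bp_pot (h1 : (AA (Gm τ) : ℝ) - 1 ≤ a) (h2 : a ≤ AA (Gm τ)) (β : BP τ N)
    (S : Finset (Vx τ N)) :
    (mm (Gm τ) : ℝ) * ec β.graph S + (a - E2 (Gm τ)) * mm (Gm τ) * (β.met S).card +
        a * (pl S + β.junk S) ≤
      a * S.card + mm (Gm τ) * ((2 * β.na (β.met S) + 1000 * pl S * β.nt (β.met S) +
        if β.fin ∧ pl S = 2 then 2 else 0 : ℕ) : ℝ) := by
  have g1 := spa_ec_le β.rel (spa_B β) (fun a b => spa_A β a b ∨ spa_T β a b ∨ spa_F β a b)
    (by
      rintro a b ⟨u, t, t', hu, ht, h1, h2⟩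
      exact ⟨u, t', t, hu, (TG (Gm τ)).adj_symm ht, h2, h1⟩) (spa_rel β) S
  have g2 := spa_or_le (spa_A β) (fun a b => spa_T β a b ∨ spa_F β a b) S
  have g3 := spa_or_le (spa_T β) (spa_F β) S
  have hB := spa_B_le β S
  have hA := spa_A_le β S
  have hT := spa_T_le β S
  have hF := spa_F_le β S
  have hT' : pl S * (β.nt (β.met S) * 500) * 2 = 1000 * pl S * β.nt (β.met S) := by ring
  have hec : ec β.graph S ≤ ∑ u ∈ β.met S, ec (TG (Gm τ)) (spa_fib S u) +
      (2 * β.na (β.met S) + 1000 * pl S * β.nt (β.met S) +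
        if β.fin ∧ pl S = 2 then 2 else 0) := by
    have h0 : ec β.graph S = ec (SimpleGraph.fromRel β.rel) S := rfl
    omega
  generalize (2 * β.na (β.met S) + 1000 * pl S * β.nt (β.met S) +
    if β.fin ∧ pl S = 2 then 2 else 0) = n at hec ⊢
  have hec' : (ec β.graph S : ℝ) ≤ ∑ u ∈ β.met S, (ec (TG (Gm τ)) (spa_fib S u) : ℝ) + n := by
    exact_mod_cast hec
  have hsum : ∑ u ∈ β.met S, ((mm (Gm τ) : ℝ) * ec (TG (Gm τ)) (spa_fib S u) +
      (a - E2 (Gm τ)) * mm (Gm τ)) ≤ ∑ u ∈ β.met S, a * (spa_fib S u).card := by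
    refine sum_le_sum fun u hu => fib_le h1 h2 _ ?_
    obtain ⟨-, t, ht⟩ := spa_mem_met.1 hu
    exact ⟨t, spa_mem_fib.2 ht⟩
  rw [sum_add_distrib, sum_const, nsmul_eq_mul, ← mul_sum, ← mul_sum] at hsum
  have h4 := mul_le_mul_of_nonneg_left hec' (Nat.cast_nonneg (α := ℝ) (mm (Gm τ)))
  have h5 : (S.card : ℝ) = pl S + β.junk S + ∑ u ∈ β.met S, ((spa_fib S u).card : ℝ) := by
    exact_mod_cast spa_card β S
  rw [h5]
  linarith

end pot

section count
variable {τ : Type} [Fintype τ] [WP τ]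

omit [WP τ] in
/-- the link bundles of a clause node -/
theorem clause_lnk [Inhabited τ] (cl : Clause τ) (M : Finset ℕ) (u : ℕ) :
    spb_c M (fun u' (k : Kind τ) i => ∃ p a, cl.kid (u - 2) = some p ∧ k = .lnk a ∧
      u' = nodeOf 0 (· + 2) (sel p a) ∧ i < lsz a) ≤
        if (cl.kid (u - 2)).isSome then 199 else 0 := by
  rcases hk : cl.kid (u - 2) with _ | p
  · refine le_trans (spb_zero ?_) (Nat.zero_le _)
    rintro u' - k i ⟨p, a, h, -⟩
    exact absurd h (by simp)
  · refine le_trans (spb_or (fun u' k i => u' = nodeOf 0 (· + 2) (sel p false) ∧ k = .lnk false ∧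
      i < 100) (fun u' k i => u' = nodeOf 0 (· + 2) (sel p true) ∧ k = .lnk true ∧ i < 99) ?_) ?_
    · rintro u' - k i ⟨p', a, h, h1, h2, h3⟩
      obtain rfl : p = p' := Option.some.inj h
      cases a
      · exact Or.inl ⟨h2, h1, h3⟩
      · exact Or.inr ⟨h2, h1, h3⟩
    · exact Nat.add_le_add (spb_one _ _ 100 fun _ _ _ _ h => h) (spb_one _ _ 99 fun _ _ _ _ h => h)

theorem clause_node [Inhabited τ] (cl : Clause τ) (j : ℕ) (M : Finset ℕ) (n : ℕ) :
    spb_c M (fun u' k i => (clauseBP cl j).arc (n + 2) k u' i) ≤ arcs cl n := by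
  have e1 : spb_c M (fun u' (k : Kind τ) i => u' = 0 ∧ k = .ok ∧ cl.ok n = true ∧ i < 300) ≤
      if cl.ok n then 300 else 0 := by
    split_ifs with hc
    · exact spb_one 0 .ok 300 fun _ _ _ _ h => ⟨h.1, h.2.1, h.2.2.2⟩
    · exact spb_zero fun _ _ _ _ h => hc h.2.2.1
  have e2 : spb_c M (fun u' (k : Kind τ) i => u' = 0 ∧ k = .ok ∧ n = 0 ∧ i = j) ≤
      if n = 0 then 1 else 0 := by
    split_ifs with hc
    · refine le_trans (spb_le {j} ?_ ?_) (card_singleton j).le
      · intro _ _ _ _ h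
        exact mem_singleton.2 h.2.2.2
      · intro _ _ _ _ _ _ _ h h'
        exact ⟨h.1.trans h'.1.symm, h.2.1.trans h'.2.1.symm⟩
    · exact spb_zero fun _ _ _ _ h => hc h.2.2.1
  have e3 : spb_c M (fun u' (k : Kind τ) i =>
      u' = 0 ∧ k = .tag (cl.tg n) ∧ i < 2300 + wt (cl.tg n)) ≤ 2300 + wt (cl.tg n) :=
    spb_one _ _ _ fun _ _ _ _ h => h
  have e4 := clause_lnk cl M (n + 2)
  rw [Nat.add_sub_cancel] at e4
  have e5 := spb_or (M := M) (A := fun u' (k : Kind τ) i =>
      k = .ok ∧ u' = 0 ∧ ((cl.ok n = true ∧ i < 300) ∨ (n + 2 = 2 ∧ i = j)))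
    (fun u' (k : Kind τ) i => u' = 0 ∧ k = .ok ∧ cl.ok n = true ∧ i < 300)
    (fun u' (k : Kind τ) i => u' = 0 ∧ k = .ok ∧ n = 0 ∧ i = j) (by
      rintro u' - k i ⟨h1, h2, h3 | h3⟩
      · exact Or.inl ⟨h2, h1, h3⟩
      · exact Or.inr ⟨h2, h1, by omega, h3.2⟩)
  have e6 := spb_or (M := M) (A := fun u' (k : Kind τ) i =>
      (∃ p a, cl.kid n = some p ∧ k = .lnk a ∧ u' = nodeOf 0 (· + 2) (sel p a) ∧ i < lsz a) ∨
      (k = .ok ∧ u' = 0 ∧ ((cl.ok n = true ∧ i < 300) ∨ (n + 2 = 2 ∧ i = j))))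
    _ _ (fun _ _ _ _ h => h)
  have e7 := spb_or (M := M) (A := fun u' k i => (clauseBP cl j).arc (n + 2) k u' i)
    (fun u' (k : Kind τ) i => u' = 0 ∧ k = .tag (cl.tg n) ∧ i < 2300 + wt (cl.tg n))
    (fun u' (k : Kind τ) i => (∃ p a, cl.kid n = some p ∧ k = .lnk a ∧
        u' = nodeOf 0 (· + 2) (sel p a) ∧ i < lsz a) ∨
      (k = .ok ∧ u' = 0 ∧ ((cl.ok n = true ∧ i < 300) ∨ (n + 2 = 2 ∧ i = j)))) (by
      rintro u' - k i (⟨h, -⟩ | ⟨-, ⟨h1, h2, h3⟩ | h⟩)
      · omega
      · exact Or.inl ⟨h2, h1, h3⟩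
      · exact Or.inr h)
  unfold arcs
  omega

theorem clause_na [Inhabited τ] {cl : Clause τ} (hw : WF cl) (j : ℕ) (M : Finset ℕ)
    (hact : ∀ u ∈ M, u < cl.length + 2) : 2 * (clauseBP cl j).na M ≤ 4999 * M.card := by
  classical
  rw [spb_na, mul_sum]
  by_cases h0 : 0 ∈ M
  · have hb : ∀ u ∈ M, 2 * spb_c M (fun u' k i => (clauseBP cl j).arc u k u' i) ≤
        (if u = 0 ∧ 1 ∈ M then 7998 else 0) + (if 2 ≤ u then 4999 else 0) +
          (if 2 ≤ u then 2 * arcs cl (u - 2) - 4999 else 0) := by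
      intro u hu
      by_cases h2 : 2 ≤ u
      · obtain ⟨n, rfl⟩ : ∃ n, u = n + 2 := ⟨u - 2, by omega⟩
        have := clause_node cl j M n
        rw [if_pos h2, if_pos h2, Nat.add_sub_cancel]
        omega
      · have e1 : spb_c M (fun u' k i => (clauseBP cl j).arc u k u' i) ≤
            if u = 0 ∧ 1 ∈ M then 3999 else 0 := by
          split_ifs with hc
          · refine spb_one 1 .anc 3999 ?_
            rintro u' - k i (⟨-, h1, h2, h3⟩ | ⟨h, -⟩)
            · exact ⟨h2, h1, h3⟩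
            · exact absurd h h2
          · refine spb_zero ?_
            rintro u' hu' k i (⟨h0, -, rfl, -⟩ | ⟨h, -⟩)
            · exact hc ⟨h0, hu'⟩
            · exact h2 h
        split_ifs at e1 ⊢ <;> omega
    refine (sum_le_sum hb).trans ?_
    rw [sum_add_distrib, sum_add_distrib, spb_sum_ite, spb_sum_ite M (fun u => 2 ≤ u)]
    have c2 : ∑ u ∈ M, (if 2 ≤ u then 2 * arcs cl (u - 2) - 4999 else 0) < 2000 := by
      refine lt_of_le_of_lt ?_ hw.few
      rw [← sum_filter]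
      rw [← sum_image (g := fun u => u - 2) (f := fun n => 2 * arcs cl n - 4999)]
      · refine sum_le_sum_of_subset fun v hv => ?_
        obtain ⟨u, hu, rfl⟩ := mem_image.1 hv
        have h1 := mem_filter.1 hu
        have := hact u h1.1
        have := h1.2
        exact mem_range.2 (by omega)
      · intro a ha b hb hab
        have ha' := (mem_filter.1 (mem_coe.1 ha)).2
        have hb' := (mem_filter.1 (mem_coe.1 hb)).2
        simp only at hab
        omega
    by_cases h1 : 1 ∈ M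
    · have c3 : (M.filter fun u => u = 0 ∧ 1 ∈ M).card ≤ 1 := by
        refine card_le_one.2 fun a ha b hb => ?_
        rw [(mem_filter.1 ha).2.1, (mem_filter.1 hb).2.1]
      have c4 : (M.filter fun u => 2 ≤ u).card + 2 ≤ M.card := by
        have hd : Disjoint (M.filter fun u => 2 ≤ u) {0, 1} := by
          rw [disjoint_left]
          intro a ha hb
          have := (mem_filter.1 ha).2
          simp only [mem_insert, mem_singleton] at hb
          omega
        have := card_le_card (s := (M.filter fun u => 2 ≤ u) ∪ {0, 1}) (t := M) (by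
          intro a ha
          simp only [mem_union, mem_filter, mem_insert, mem_singleton] at ha
          rcases ha with ha | rfl | rfl
          exacts [ha.1, h0, h1])
        rwa [card_union_of_disjoint hd, card_pair (by omega)] at this
      omega
    · have c3 : (M.filter fun u => u = 0 ∧ 1 ∈ M).card = 0 := by
        rw [card_eq_zero, filter_eq_empty_iff]
        exact fun _ _ h => h1 h.2
      have c4 : (M.filter fun u => 2 ≤ u).card < M.card := by
        refine card_lt_card ⟨filter_subset _ _, fun h => ?_⟩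
        have := (mem_filter.1 (h h0)).2
        omega
      omega
  · have hb : ∀ u ∈ M, 2 * spb_c M (fun u' k i => (clauseBP cl j).arc u k u' i) ≤ 4999 := by
      intro u hu
      have e := spb_or (M := M) (A := fun u' k i => (clauseBP cl j).arc u k u' i)
        (fun u' (k : Kind τ) i => ∃ p a, cl.kid (u - 2) = some p ∧ k = .lnk a ∧
          u' = nodeOf 0 (· + 2) (sel p a) ∧ i < lsz a) (fun _ _ _ => False) (by
          rintro u' hu' k i (⟨rfl, -⟩ | ⟨-, ⟨-, rfl, -⟩ | h | ⟨-, rfl, -⟩⟩)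
          · exact absurd hu h0
          · exact absurd hu' h0
          · exact Or.inl h
          · exact absurd hu' h0)
      have e1 := clause_lnk cl M u
      have e2 : spb_c M (fun _ (_ : Kind τ) _ => False) ≤ 0 := spb_zero fun _ _ _ _ h => h
      split_ifs at e1 <;> omega
    refine (sum_le_sum hb).trans ?_
    rw [sum_const, smul_eq_mul, mul_comm]

theorem na_clause [Inhabited τ] {cl : Clause τ} (hw : WF cl) (j Kn : ℕ) (M : Finset (Fin Kn))
    (hact : ∀ u ∈ M, (u : ℕ) < cl.length + 2) :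
    2 * ((clauseBP cl j).comap Fin.val).na M ≤ 4999 * M.card := by
  rw [spb_na_comap, ← card_map Fin.valEmbedding]
  refine clause_na hw j _ fun u hu => ?_
  obtain ⟨v, hv, rfl⟩ := mem_map.1 hu
  exact hact v hv

omit [WP τ] in
theorem fin_na (halt : τ) (M : Finset ℕ) : ∃ a h n1 n2 : ℕ,
    (finBP halt).na M ≤ 3999 * a + 2592 * h ∧ a ≤ (finBP halt).nt M ∧ a ≤ n1 ∧
      h ≤ (finBP halt).nt M ∧ h ≤ n2 ∧ (finBP halt).nt M + n1 + n2 = M.card := by
  classical
  have hnt : (finBP halt).nt M = (M.filter fun u => u % 3 = 0).card :=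
    spb_nt _ _ _ fun _ => Iff.rfl
  rw [hnt]
  refine ⟨(M.filter fun u => u % 3 = 0 ∧ u + 1 ∈ M).card,
    (M.filter fun u => u % 3 = 2 ∧ u - 2 ∈ M).card, (M.filter fun u => u % 3 = 1).card,
    (M.filter fun u => u % 3 = 2).card, ?_, ?_, ?_, ?_, ?_, ?_⟩
  · rw [spb_na, ← spb_sum_ite, ← spb_sum_ite, ← sum_add_distrib]
    refine sum_le_sum fun u hu => ?_
    have e := spb_or (M := M) (A := fun u' k i => (finBP halt).arc u k u' i) _ _
      (fun _ _ _ _ h => h)
    refine e.trans (Nat.add_le_add ?_ ?_)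
    · split_ifs with hc
      · exact spb_one (u + 1) .anc 3999 fun _ _ _ _ h => ⟨h.2.2.1, h.2.1, h.2.2.2⟩
      · refine spb_zero ?_
        rintro u' hu' k i ⟨h1, -, rfl, -⟩
        exact hc ⟨h1, hu'⟩
    · split_ifs with hc
      · refine le_trans (spb_or (fun u' k i => u' = u - 2 ∧ k = .tag halt ∧ i < 2300)
          (fun u' k i => u' = u - 2 ∧ k = .ok ∧ i < 292) ?_) ?_
        · rintro u' - k i ⟨-, rfl, h | h⟩
          · exact Or.inl ⟨by omega, h⟩
          · exact Or.inr ⟨by omega, h⟩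
        · exact Nat.add_le_add (spb_one _ _ 2300 fun _ _ _ _ h => h)
            (spb_one _ _ 292 fun _ _ _ _ h => h)
      · refine spb_zero ?_
        rintro u' hu' k i ⟨h1, rfl, -⟩
        exact hc ⟨h1, by simpa using hu'⟩
  · exact card_le_card fun u hu => mem_filter.2 ⟨(mem_filter.1 hu).1, (mem_filter.1 hu).2.1⟩
  · refine card_le_card_of_injOn (fun u => u + 1) ?_ ?_
    · intro u hu
      have hu' := (mem_filter.1 (mem_coe.1 hu)).2
      exact mem_coe.2 (mem_filter.2 ⟨hu'.2, by have := hu'.1; simp only; omega⟩)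
    · intro a _ b _ hab
      simpa using hab
  · refine card_le_card_of_injOn (fun u => u - 2) ?_ ?_
    · intro u hu
      have hu' := (mem_filter.1 (mem_coe.1 hu)).2
      exact mem_coe.2 (mem_filter.2 ⟨hu'.2, by have := hu'.1; simp only; omega⟩)
    · intro a ha b hb hab
      have ha' := (mem_filter.1 (mem_coe.1 ha)).2.1
      have hb' := (mem_filter.1 (mem_coe.1 hb)).2.1
      simp only at hab
      omega
  · exact card_le_card fun u hu => mem_filter.2 ⟨(mem_filter.1 hu).1, (mem_filter.1 hu).2.1⟩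
  · rw [card_filter, card_filter, card_filter, ← sum_add_distrib, ← sum_add_distrib,
      card_eq_sum_ones]
    refine sum_congr rfl fun u _ => ?_
    split_ifs <;> omega

omit [WP τ] in
/-- with at most one plain vertex -/
theorem na_fin1 (halt : τ) (Kn : ℕ) (M : Finset (Fin Kn)) :
    2 * ((finBP halt).comap Fin.val).na M + 1000 * ((finBP halt).comap Fin.val).nt M ≤
      4999 * M.card := by
  rw [spb_na_comap, spb_nt_comap]
  obtain ⟨a, h, n1, n2, h1, h2, h3, h4, h5, h6⟩ := fin_na halt (M.map Fin.valEmbedding)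
  rw [card_map] at h6
  omega

omit [WP τ] in
/-- with both plain vertices -/
theorem na_fin2 (halt : τ) (Kn : ℕ) (M : Finset (Fin Kn))
    (hact : ∀ u ∈ M, (u : ℕ) < 3 * rr (Gm τ)) :
    2 * ((finBP halt).comap Fin.val).na M + 2000 * ((finBP halt).comap Fin.val).nt M ≤
      4999 * M.card + 185 * rr (Gm τ) := by
  classical
  rw [spb_na_comap, spb_nt_comap]
  obtain ⟨a, h, n1, n2, h1, h2, h3, h4, h5, h6⟩ := fin_na halt (M.map Fin.valEmbedding)
  rw [card_map] at h6
  have hr : (finBP halt).nt (M.map Fin.valEmbedding) ≤ rr (Gm τ) := by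
    unfold BP.nt
    refine le_trans (card_le_card_of_injOn (t := range (rr (Gm τ))) (fun u => u / 3) ?_ ?_)
      (card_range _).le
    · intro u hu
      obtain ⟨v, hv, rfl⟩ := mem_map.1 (mem_filter.1 (mem_coe.1 hu)).1
      have := hact v hv
      refine mem_coe.2 (mem_range.2 ?_)
      simp only [Fin.valEmbedding_apply]
      omega
    · intro a ha b hb hab
      have ha' : a % 3 = 0 := (mem_filter.1 (mem_coe.1 ha)).2
      have hb' : b % 3 = 0 := (mem_filter.1 (mem_coe.1 hb)).2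
      simp only at hab
      omega
  omega

end count

end Pool.Agent.HI
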