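import Pool.Agent.P.HI.I5

/-! Balanced witnesses are sparse; the two bounds on the exponent. -/

open Finset

namespace Pool.Agent.HI

open Pool.Agent.HB

section bal
variable {τ : Type} [WP τ]

open Classical in
/-- half of the slack of a term inside a set of terms -/
noncomputable def slk (γ : ℝ) (M : Finset (Term τ)) : Term τ → ℝ
  | .nil => 0
  | .node c l r => γ - wt c + (if l = .nil ∨ l ∈ M then 0 else 100) +
      (if r = .nil ∨ r ∈ M then 0 else 99)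

theorem slk_realize : True := by have := @slk.eq_def; trivial

open Classical in
theorem slk_node (γ : ℝ) (M : Finset (Term τ)) (c : τ) (l r : Term τ) :
    slk γ M (.node c l r) = γ - wt c + (if l = .nil ∨ l ∈ M then 0 else 100) +
      (if r = .nil ∨ r ∈ M then 0 else 99) := rfl

/-- balanced sets of terms -/
def Bal (γ : ℝ) (𝒯 : Finset (Term τ)) : Prop := ∀ M ⊆ 𝒯, 0 ≤ ∑ t ∈ M, slk γ M t

end bal

section wit
variable {τ : Type} [Fintype τ] [WP τ] {𝒯 : Finset (Term τ)}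

omit [WP τ] in
open Classical in
/-- the terms met at one token -/
noncomputable def wfib (M : Finset (NW τ 𝒯)) (q : Fin (rr (Gm τ))) : Finset (Term τ) :=
  (univ.filter fun t : 𝒯 => (q, Sum.inr t) ∈ M).map (Function.Embedding.subtype _)

omit [WP τ] in
theorem mem_wfib {M : Finset (NW τ 𝒯)} {q : Fin (rr (Gm τ))} {t : 𝒯}
    (h : (q, Sum.inr t) ∈ M) : t.1 ∈ wfib M q := by
  classical
  exact mem_map.2 ⟨t, mem_filter.2 ⟨mem_univ _, h⟩, rfl⟩

omit [WP τ] in
theorem wfib_sub (M : Finset (NW τ 𝒯)) (q : Fin (rr (Gm τ))) : wfib M q ⊆ 𝒯 := fun t ht => by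
  obtain ⟨s, -, rfl⟩ := mem_map.1 ht
  exact s.2

omit [WP τ] in
open Classical in
theorem wit_lnk (M : Finset (NW τ 𝒯)) (q : Fin (rr (Gm τ))) (t : 𝒯) (a : Bool) :
    spb_c M (fun u' (k : Kind τ) i => q = u'.1 ∧ k = .lnk a ∧ i < lsz a ∧
      ((t.1.kidT a = .nil ∧ u'.2 = .inl false) ∨
        ∃ t' : 𝒯, t'.1 ≠ .nil ∧ t.1.kidT a = t'.1 ∧ u'.2 = .inr t')) ≤
      if t.1.kidT a = .nil ∨ t.1.kidT a ∈ wfib M q then lsz a else 0 := by
  split_ifs with hc
  · refine le_trans (spb_le (range (lsz a)) (fun _ _ _ _ h => mem_range.2 h.2.2.1) ?_)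
      (card_range _).le
    rintro u' - u'' - k k' i ⟨h1, h2, -, h3⟩ ⟨h1', h2', -, h3'⟩
    refine ⟨Prod.ext (h1.symm.trans h1') ?_, h2.trans h2'.symm⟩
    rcases h3 with ⟨h3, h4⟩ | ⟨s, h3, h4, h5⟩ <;> rcases h3' with ⟨h3', h4'⟩ | ⟨s', h3', h4', h5'⟩
    · rw [h4, h4']
    · exact absurd (h4'.symm.trans h3) h3'
    · exact absurd (h4.symm.trans h3') h3
    · rw [h5, h5', Subtype.ext (h4.symm.trans h4')]
  · refine spb_zero ?_
    rintro ⟨q', w⟩ hu' k i ⟨rfl, -, -, ⟨h3, -⟩ | ⟨s, -, h4, rfl⟩⟩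
    · exact hc (Or.inl h3)
    · exact hc (Or.inr (h4 ▸ mem_wfib hu'))

open Classical in
theorem wit_node (M : Finset (NW τ 𝒯)) (q : Fin (rr (Gm τ))) (t : 𝒯) {c : τ} {l r : Term τ}
    (ht : t.1 = .node c l r) :
    spb_c M (fun u' k i => (witBP 𝒯).arc (q, .inr t) k u' i) ≤
      (if (q, Sum.inl false) ∈ M then 2300 + wt c else 0) +
        ((if l = .nil ∨ l ∈ wfib M q then 100 else 0) +
          (if r = .nil ∨ r ∈ wfib M q then 99 else 0)) := by
  have e1 := wit_lnk M q t false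
  have e2 := wit_lnk M q t true
  have k1 : t.1.kidT false = l := by rw [ht]; rfl
  have k2 : t.1.kidT true = r := by rw [ht]; rfl
  have e3 : spb_c M (fun u' (k : Kind τ) i => u' = (q, .inl false) ∧ k = .tag c ∧
      i < 2300 + wt c) ≤ if (q, Sum.inl false) ∈ M then 2300 + wt c else 0 := by
    split_ifs with hc
    · exact spb_one _ _ _ fun _ _ _ _ h => h
    · exact spb_zero fun u' hu' _ _ h => hc (h.1 ▸ hu')
  have e4 := spb_or (M := M) (A := fun u' (k : Kind τ) i => ∃ a, q = u'.1 ∧ k = .lnk a ∧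
      i < lsz a ∧ ((t.1.kidT a = .nil ∧ u'.2 = .inl false) ∨
        ∃ t' : 𝒯, t'.1 ≠ .nil ∧ t.1.kidT a = t'.1 ∧ u'.2 = .inr t')) _ _
    (fun _ _ _ _ h => Bool.exists_bool.1 h)
  have e5 := spb_or (M := M) (A := fun u' k i => (witBP 𝒯).arc (q, .inr t) k u' i)
    (fun u' (k : Kind τ) i => u' = (q, .inl false) ∧ k = .tag c ∧ i < 2300 + wt c)
    (fun u' (k : Kind τ) i => ∃ a, q = u'.1 ∧ k = .lnk a ∧
      i < lsz a ∧ ((t.1.kidT a = .nil ∧ u'.2 = .inl false) ∨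
        ∃ t' : 𝒯, t'.1 ≠ .nil ∧ t.1.kidT a = t'.1 ∧ u'.2 = .inr t')) (by
      rintro u' - k i ⟨h1, ⟨h, -⟩ | ⟨s, c', l', r', h2, h3, h4⟩⟩
      · exact absurd h (by simp)
      · obtain rfl : t = s := Sum.inr.inj h2
        obtain rfl : c = c' := (Term.node.inj (ht.symm.trans h3)).1
        rcases h4 with ⟨h4, h5, h6⟩ | ⟨a, h4⟩
        · exact Or.inl ⟨Prod.ext h1.symm h5, h4, h6⟩
        · exact Or.inr ⟨a, h1, h4⟩)
  refine e5.trans (Nat.add_le_add e3 (e4.trans (Nat.add_le_add ?_ ?_)))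
  · rw [← k1]
    exact e1
  · rw [← k2]
    exact e2

theorem wit_nil (M : Finset (NW τ 𝒯)) (q : Fin (rr (Gm τ))) (t : 𝒯) (ht : t.1 = .nil) :
    spb_c M (fun u' k i => (witBP 𝒯).arc (q, .inr t) k u' i) ≤ 0 := by
  refine spb_zero ?_
  rintro u' - k i ⟨-, ⟨h, -⟩ | ⟨s, c', l', r', h2, h3, -⟩⟩
  · exact absurd h (by simp)
  · obtain rfl : t = s := Sum.inr.inj h2
    rw [ht] at h3
    cases h3

open Classical in
theorem wit_tok (M : Finset (NW τ 𝒯)) (q : Fin (rr (Gm τ))) (b : Bool) :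
    spb_c M (fun u' k i => (witBP 𝒯).arc (q, .inl b) k u' i) ≤
      if b = false ∧ (q, Sum.inl true) ∈ M then 3999 else 0 := by
  split_ifs with hc
  · refine spb_one (q, Sum.inl true) .anc 3999 ?_
    rintro u' - k i ⟨h1, ⟨-, h2, h3, h4⟩ | ⟨s, c, l, r, h2, -⟩⟩
    · exact ⟨Prod.ext h1.symm h3, h2, h4⟩
    · exact absurd h2 (by simp)
  · refine spb_zero ?_
    rintro ⟨q', w⟩ hu' k i ⟨rfl, ⟨h0, -, rfl, -⟩ | ⟨s, c, l, r, h2, -⟩⟩
    · exact hc ⟨Sum.inl.inj h0, hu'⟩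
    · exact absurd h2 (by simp)

theorem na_wit {γ : ℝ} (hγ : 1 / 2 ≤ γ) (hB : Bal γ 𝒯) (M : Finset (NW τ 𝒯)) :
    ((2 * (witBP 𝒯).na M + 2000 * (witBP 𝒯).nt M : ℕ) : ℝ) ≤ (4998 + 2 * γ) * M.card := by
  classical
  have hnt : (witBP 𝒯).nt M = (M.filter fun u => u.2 = .inl false).card :=
    spb_nt _ _ _ fun _ => Iff.rfl
  obtain ⟨g, hg⟩ : ∃ g : NW τ 𝒯 → ℝ, ∀ u, g u = 4998 + 2 * γ -
      2 * (spb_c M (fun u' k i => (witBP 𝒯).arc u k u' i) : ℝ) -
        if u.2 = .inl false then 2000 else 0 := ⟨_, fun _ => rfl⟩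
  have e0 : ∑ u ∈ M, g u = (4998 + 2 * γ) * M.card -
      ((2 * (witBP 𝒯).na M + 2000 * (witBP 𝒯).nt M : ℕ) : ℝ) := by
    rw [sum_congr rfl fun u _ => hg u, sum_sub_distrib, sum_sub_distrib, sum_const, ← sum_filter,
      sum_const, ← mul_sum, hnt, spb_na, nsmul_eq_mul, nsmul_eq_mul]
    push_cast
    ring
  have e1 : ∑ u ∈ M, g u = ∑ q : Fin (rr (Gm τ)), ∑ w : Bool ⊕ 𝒯,
      if (q, w) ∈ M then g (q, w) else 0 := by
    rw [← Fintype.sum_prod_type (f := fun u => if u ∈ M then g u else 0), sum_ite_mem, univ_inter]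
  suffices h : 0 ≤ ∑ u ∈ M, g u by linarith
  rw [e1]
  refine sum_nonneg fun q _ => ?_
  rw [Fintype.sum_sum_type, Fintype.sum_bool]
  have a1 : 4998 + 2 * γ ≤ g (q, .inl true) := by
    have h := wit_tok M q true
    rw [if_neg (by simp)] at h
    rw [hg, if_neg (by simp), Nat.le_zero.1 h]
    simp
  have a2 : 2998 + 2 * γ - (if (q, Sum.inl true) ∈ M then 7998 else 0) ≤ g (q, .inl false) := by
    have h := wit_tok M q false
    rw [hg, if_pos rfl]
    by_cases hm : (q, Sum.inl true) ∈ M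
    · rw [if_pos ⟨rfl, hm⟩] at h
      have h' : (spb_c M (fun u' k i => (witBP 𝒯).arc (q, .inl false) k u' i) : ℝ) ≤ 3999 := by
        exact_mod_cast h
      rw [if_pos hm]
      linarith
    · rw [if_neg fun h => hm h.2] at h
      rw [if_neg hm, Nat.le_zero.1 h]
      push_cast
      linarith
  refine add_nonneg ?_ ?_
  · split_ifs at a2 ⊢ <;> linarith
  by_cases hm : (q, Sum.inl false) ∈ M
  · have h1 := hB _ (wfib_sub M q)
    rw [wfib, sum_map, sum_filter] at h1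
    refine le_trans (mul_nonneg zero_le_two h1) ?_
    rw [mul_sum]
    refine sum_le_sum fun t _ => ?_
    split_ifs with ht
    · rw [hg, if_neg (by simp)]
      change 2 * slk γ (wfib M q) t.1 ≤ _
      rcases e : t.1 with _ | ⟨c, l, r⟩
      · rw [Nat.le_zero.1 (wit_nil M q t e)]
        change 2 * (0 : ℝ) ≤ _
        push_cast
        linarith
      · have h2 := Nat.cast_le (α := ℝ).2 (wit_node M q t e)
        rw [if_pos hm] at h2
        rw [slk_node]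
        push_cast at h2
        split_ifs at h2 ⊢ <;> linarith
    · simp
  · refine sum_nonneg fun t _ => ?_
    split_ifs with ht
    · rw [hg, if_neg (by simp)]
      rcases e : t.1 with _ | ⟨c, l, r⟩
      · rw [Nat.le_zero.1 (wit_nil M q t e)]
        push_cast
        linarith
      · have h2 := Nat.cast_le (α := ℝ).2 (wit_node M q t e)
        rw [if_neg hm] at h2
        push_cast at h2
        split_ifs at h2 <;> linarith
    · exact le_rfl

end wit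

section sparse
variable {τ : Type} [Fintype τ] {a : ℝ}

theorem AA_cast : (AA (Gm τ) : ℝ) = E2 (Gm τ) + 5000 := by
  unfold AA
  push_cast
  rfl

theorem main_pos : (0 : ℝ) < mm (Gm τ) ∧ 2 * (mm (Gm τ) : ℝ) + 1 < AA (Gm τ) := by
  have h1 := sG_ge (Γ := Gm τ)
  have h2 := mm_ge (Γ := Gm τ)
  have h3 := AA_ge' (Γ := Gm τ)
  constructor
  · exact_mod_cast (by omega : 0 < mm (Gm τ))
  · exact_mod_cast (by omega : 2 * mm (Gm τ) + 1 < AA (Gm τ))

/-- the case in which the edge between the plain vertices is absent -/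
theorem spc_gen (h1 : (AA (Gm τ) : ℝ) - 1 ≤ a) (h2 : a ≤ AA (Gm τ)) {N : Type} [Fintype N]
    (β : BP τ N) (S : Finset (Vx τ N)) (hf : ¬ (β.fin ∧ pl S = 2))
    (h : 2 * β.na (β.met S) + 1000 * pl S * β.nt (β.met S) ≤ 4999 * (β.met S).card) :
    (mm (Gm τ) : ℝ) * ec β.graph S ≤ a * S.card := by
  have hp := bp_pot h1 h2 β S
  rw [if_neg hf, add_zero] at hp
  obtain ⟨hm, hA⟩ := main_pos (τ := τ)
  have h3 : ((2 * β.na (β.met S) + 1000 * pl S * β.nt (β.met S) : ℕ) : ℝ) ≤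
      4999 * (β.met S).card := by exact_mod_cast h
  have h4 := mul_le_mul_of_nonneg_left h3 hm.le
  have h5 : (0 : ℝ) ≤ a * (pl S + β.junk S) := mul_nonneg (by linarith) (by positivity)
  have h6 : (0 : ℝ) ≤ (a - E2 (Gm τ) - 4999) * (mm (Gm τ) * (β.met S).card) :=
    mul_nonneg (by linarith [AA_cast (τ := τ)]) (by positivity)
  linarith

/-- a graph on a product all of whose edges lie in fibres -/
theorem spc_fib {C W : Type} [Fintype C] [Fintype W] (G : SimpleGraph (C × W))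
    (Gc : C → SimpleGraph W) (h : ∀ a b, G.Adj a b → a.1 = b.1 ∧ (Gc a.1).Adj a.2 b.2) {m A : ℝ}
    (hm : 0 ≤ m) (hA : 0 ≤ A) (hc : ∀ c, ∀ S : Finset W, m * ec (Gc c) S ≤ A * S.card)
    (S : Finset (C × W)) : m * ec G S ≤ A * S.card := by
  classical
  have e1 : ec G S ≤ ∑ c, ec (Gc c) (univ.filter fun v => (c, v) ∈ S) := by
    unfold ec cross
    rw [card_eq_sum_card_fiberwise (f := fun p : (C × W) × (C × W) => p.1.1) (t := univ)
      (fun _ _ => mem_coe.2 (mem_univ _))]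
    refine sum_le_sum fun c _ => card_le_card_of_injOn (fun p => (p.1.2, p.2.2)) ?_ ?_
    · rintro ⟨⟨c1, v1⟩, ⟨c2, v2⟩⟩ hp
      simp only [coe_filter, mem_filter, mem_product, Set.mem_ofPred_eq, mem_univ, true_and] at hp ⊢
      obtain ⟨⟨⟨h1, h2⟩, h3⟩, rfl⟩ := hp
      obtain ⟨h4, h5⟩ := h _ _ h3
      simp only at h4 h5
      subst h4
      exact ⟨⟨h1, h2⟩, h5⟩
    · rintro ⟨⟨c1, v1⟩, ⟨c2, v2⟩⟩ hp ⟨⟨c3, v3⟩, ⟨c4, v4⟩⟩ hq hpq
      simp only [coe_filter, mem_filter, mem_product, Set.mem_ofPred_eq] at hp hq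
      have h1 := (h _ _ hp.1.2).1
      have h2 := (h _ _ hq.1.2).1
      have h3 := hp.2
      have h4 := hq.2
      simp only [Prod.mk.injEq] at h1 h2 h3 h4 hpq ⊢
      exact ⟨⟨h3.trans h4.symm, hpq.1⟩, h1.symm.trans (h3.trans (h4.symm.trans h2)), hpq.2⟩
  have e2 : ∑ c, (univ.filter fun v => (c, v) ∈ S).card ≤ S.card := by
    rw [card_eq_sum_card_fiberwise (f := fun p : C × W => p.1) (s := S) (t := univ)
      (fun _ _ => mem_coe.2 (mem_univ _))]
    refine sum_le_sum fun c _ => card_le_card_of_injOn (fun v => (c, v)) ?_ ?_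
    · intro v hv
      exact mem_coe.2 (mem_filter.2 ⟨(mem_filter.1 (mem_coe.1 hv)).2, rfl⟩)
    · intro v _ w _ hvw
      exact (Prod.mk.inj hvw).2
  have e3 : (ec G S : ℝ) ≤ ∑ c, (ec (Gc c) (univ.filter fun v => (c, v) ∈ S) : ℝ) := by
    exact_mod_cast e1
  have e4 : ∑ c, ((univ.filter fun v => (c, v) ∈ S).card : ℝ) ≤ S.card := by exact_mod_cast e2
  refine (mul_le_mul_of_nonneg_left e3 hm).trans (le_trans ?_ (mul_le_mul_of_nonneg_left e4 hA))
  rw [mul_sum, mul_sum]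
  exact sum_le_sum fun c _ => hc c _

variable [WP τ] [Inhabited τ] {ι : Type} [Fintype ι] {F : ι → Clause τ}

omit [Fintype ι] in
theorem sparse_comp (h1 : (AA (Gm τ) : ℝ) - 1 ≤ a) (h2 : a ≤ AA (Gm τ)) (hw : ∀ c, WF (F c))
    (halt : τ) (Kn : ℕ) (c : Option (ι × Fin 300)) (S : Finset (Vx τ (Fin Kn))) :
    (mm (Gm τ) : ℝ) * ec ((compBP F halt c).comap (Fin.val : Fin Kn → ℕ)).graph S ≤
      a * S.card := by
  rcases c with _ | ⟨c, j⟩
  · show (mm (Gm τ) : ℝ) * ec ((finBP halt).comap (Fin.val : Fin Kn → ℕ)).graph S ≤ _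
    by_cases g2 : pl S = 2
    · have hp := bp_pot h1 h2 ((finBP halt).comap (Fin.val : Fin Kn → ℕ)) S
      have g1 := na_fin2 halt Kn _ (spc_met_act ((finBP halt).comap (Fin.val : Fin Kn → ℕ)) S)
      have g3 := rr_lt (Γ := Gm τ)
      rw [if_pos ⟨trivial, g2⟩, g2] at hp
      generalize ((finBP halt).comap (Fin.val : Fin Kn → ℕ)).na _ = x at hp g1
      generalize ((finBP halt).comap (Fin.val : Fin Kn → ℕ)).nt _ = t at hp g1
      generalize (((finBP halt).comap (Fin.val : Fin Kn → ℕ)).met S).card = n at hp g1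
      generalize ((finBP halt).comap (Fin.val : Fin Kn → ℕ)).junk S = z at hp
      obtain ⟨hm, hA⟩ := main_pos (τ := τ)
      have g4 : (2 * x + 2000 * t : ℝ) ≤ 4999 * n + 185 * rr (Gm τ) := by exact_mod_cast g1
      have g5 : (93 * rr (Gm τ) + 1 : ℝ) * mm (Gm τ) + 1 < AA (Gm τ) := by exact_mod_cast g3
      have g6 := mul_le_mul_of_nonneg_left g4 hm.le
      have g7 : (0 : ℝ) ≤ a * z := mul_nonneg (by linarith) (by positivity)
      have g8 : (0 : ℝ) ≤ (a - E2 (Gm τ) - 4999) * (mm (Gm τ) * n) :=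
        mul_nonneg (by linarith [AA_cast (τ := τ)]) (by positivity)
      have g9 : (0 : ℝ) ≤ mm (Gm τ) * rr (Gm τ) := by positivity
      push_cast at hp
      linarith
    · refine spc_gen h1 h2 _ S (fun h => g2 h.2) ?_
      have g1 := na_fin1 halt Kn (((finBP halt).comap (Fin.val : Fin Kn → ℕ)).met S)
      have g3 := pl_le S
      have g4 : pl S ≤ 1 := by omega
      have g5 := Nat.mul_le_mul_right (((finBP halt).comap (Fin.val : Fin Kn → ℕ)).nt
        (((finBP halt).comap (Fin.val : Fin Kn → ℕ)).met S)) (Nat.mul_le_mul_left 1000 g4)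
      omega
  · show (mm (Gm τ) : ℝ) * ec ((clauseBP (F c) j).comap (Fin.val : Fin Kn → ℕ)).graph S ≤ _
    refine spc_gen h1 h2 _ S (fun h => h.1) ?_
    have g1 := na_clause (hw c) j Kn _
      (spc_met_act ((clauseBP (F c) j).comap (Fin.val : Fin Kn → ℕ)) S)
    have g2 : ((clauseBP (F c) j).comap (Fin.val : Fin Kn → ℕ)).nt
        (((clauseBP (F c) j).comap (Fin.val : Fin Kn → ℕ)).met S) = 0 := by
      classical
      unfold BP.nt
      rw [card_eq_zero, filter_eq_empty_iff]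
      exact fun _ _ h => h
    rw [g2]
    omega

theorem sparse_H (h1 : (AA (Gm τ) : ℝ) - 1 ≤ a) (h2 : a ≤ AA (Gm τ)) (hw : ∀ c, WF (F c))
    (halt : τ) (Kn : ℕ) (S : Finset (VH τ ι Kn)) :
    (mm (Gm τ) : ℝ) * ec (HG F halt Kn) S ≤ a * S.card := by
  obtain ⟨hm, hA⟩ := main_pos (τ := τ)
  refine spc_fib (HG F halt Kn) (fun c => ((compBP F halt c).comap (Fin.val : Fin Kn → ℕ)).graph)
    ?_ hm.le (by linarith) (fun c S => sparse_comp h1 h2 hw halt Kn c S) S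
  rintro ⟨c, v⟩ ⟨c', v'⟩ h
  rw [HG, SimpleGraph.fromRel_adj] at h
  obtain ⟨hne, h⟩ := h
  have hc : c = c' := h.elim (fun h => h.1) fun h => h.1.symm
  subst hc
  refine ⟨rfl, ?_⟩
  rw [BP.graph, SimpleGraph.fromRel_adj]
  exact ⟨fun hv => hne (congrArg (Prod.mk c) hv), h.imp (fun h => h.2) fun h => h.2⟩

theorem sparse_W (h1 : (AA (Gm τ) : ℝ) - 1 ≤ a) (h2 : a ≤ AA (Gm τ)) (hw : ∀ c, WF (F c))
    (halt : τ) (Kn : ℕ) {𝒯 : Finset (Term τ)} (hB : Bal ((a - AA (Gm τ) + 2) / 2) 𝒯)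
    [DecidableEq (Vx τ (NW τ 𝒯) ⊕ VH τ ι Kn)] (S : Finset (Vx τ (NW τ 𝒯) ⊕ VH τ ι Kn))
    (hd : Disjoint S {.inl (.inl false), .inl (.inl true)}) :
    (mm (Gm τ) : ℝ) * ec (WG F halt Kn 𝒯) (S ∪ {.inl (.inl false), .inl (.inl true)}) ≤
      a * S.card := by
  set X : Finset (Vx τ (NW τ 𝒯) ⊕ VH τ ι Kn) := S ∪ {.inl (.inl false), .inl (.inl true)} with hX
  have hXc : X.card = S.card + 2 := by
    rw [hX, card_union_of_disjoint hd, card_pair (by simp)]
  have hsum := card_toLeft_add_card_toRight (u := X)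
  obtain ⟨hm, hA⟩ := main_pos (τ := τ)
  have e0 : (ec (WG F halt Kn 𝒯) X : ℝ) ≤
      ec (witBP 𝒯).graph X.toLeft + ec (HG F halt Kn) X.toRight := by
    exact_mod_cast spc_sum (witBP 𝒯).graph (HG F halt Kn) X
  have e1 := mul_le_mul_of_nonneg_left e0 hm.le
  have hpl : pl X.toLeft = 2 := by
    unfold pl
    refine (congrArg card (?_ : _ = (univ : Finset Bool))).trans rfl
    ext s
    cases s <;> simp [hX]
  have hp := bp_pot h1 h2 (witBP 𝒯) X.toLeft
  rw [if_neg fun h => h.1, hpl, add_zero] at hp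
  have e2 : (X.toLeft.card : ℝ) + X.toRight.card = S.card + 2 := by
    exact_mod_cast hsum.trans hXc
  have e3 := congrArg (fun z => a * z) e2
  have e4 := mul_le_mul_of_nonneg_left (na_wit (by linarith) hB ((witBP 𝒯).met X.toLeft)) hm.le
  have e5 := sparse_H h1 h2 hw halt Kn X.toRight
  have e6 : (0 : ℝ) ≤ a * (witBP 𝒯).junk X.toLeft := mul_nonneg (by linarith) (by positivity)
  rw [AA_cast] at e4
  push_cast at hp e4
  linarith

omit [Fintype ι] in
theorem roots_not_adj (halt : τ) (Kn : ℕ) (𝒯 : Finset (Term τ)) :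
    ¬ (WG F halt Kn 𝒯).Adj (.inl (.inl false)) (.inl (.inl true)) := by
  intro h
  have h' : (witBP 𝒯).graph.Adj (.inl false) (.inl true) := h
  rw [BP.graph, SimpleGraph.fromRel_adj] at h'
  exact h'.2.elim (fun h => h.1) fun h => h.1

theorem two_le_edges (halt : τ) {Kn : ℕ} (hr : 3 * rr (Gm τ) ≤ Kn) :
    2 ≤ (HG F halt Kn).edgeSet.ncard := by
  have h1 := rr_pos (Γ := Gm τ)
  have h0 : 0 < Kn := by omega
  let a : VH τ ι Kn := (none, .inl false)
  let b : VH τ ι Kn := (none, .inl true)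
  let c : VH τ ι Kn := (none, .inr (⟨0, h0⟩, .inl ((.att false, false), 0)))
  have hab : (HG F halt Kn).Adj a b := by
    rw [HG, SimpleGraph.fromRel_adj]
    exact ⟨by simp [a, b], Or.inl ⟨rfl, trivial, rfl, rfl⟩⟩
  have hac : (HG F halt Kn).Adj a c := by
    rw [HG, SimpleGraph.fromRel_adj]
    refine ⟨by simp [a, c], Or.inl ⟨rfl, ?_, rfl, 0, by simp, rfl⟩⟩
    show 0 < 3 * rr (Gm τ)
    omega
  have hne : s(a, b) ≠ s(a, c) := by
    simp [a, b, c]
  rw [← Set.ncard_pair hne]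
  refine Set.ncard_le_ncard ?_ (Set.toFinite _)
  rintro e (rfl | rfl)
  exacts [hab, hac]

end sparse

section main
open Filter Topology

variable {τ : Type} [Fintype τ] [WP τ] [Inhabited τ] {ι : Type} [Fintype ι] {F : ι → Clause τ}
  {halt : τ} {Kn : ℕ}

omit [Fintype ι] in
theorem main_lower [AP (Gm τ)] {Good : Term τ → Prop} (hw : ∀ c, WF (F c))
    (hso : ∀ c, Sound (gam (Gm τ)) Good (F c)) (hS : ∀ t, Good t → Shape (gam (Gm τ)) t)
    (hG : ∀ l r, ¬ Good (.node halt l r)) (hF : ∀ c, (F c).length + 2 ≤ Kn)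
    (hr : 3 * rr (Gm τ) ≤ Kn) {β : ℝ} (hβ : 2 * (mm (Gm τ) : ℝ) / aa (Gm τ) < β) :
    ∀ᶠ n : ℕ in atTop, -β ≤ expo (HG F halt Kn) n := by
  obtain ⟨hm, hA⟩ := main_pos (τ := τ)
  have hA0 : (0 : ℝ) < aa (Gm τ) := by linarith [aa_lo (Gm τ)]
  have hβ0 : 0 < β := lt_trans (by positivity) hβ
  have h1 : 1 / β < aa (Gm τ) / (2 * (mm (Gm τ) : ℝ)) := by
    rw [div_lt_iff₀ hA0] at hβ
    rw [div_lt_div_iff₀ hβ0 (by positivity)]
    linarith
  obtain ⟨θ, h2, h3⟩ := exists_between h1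
  have hθ : 0 < θ := lt_trans (by positivity) h2
  rw [div_lt_iff₀ hβ0] at h2
  rw [lt_div_iff₀ (by positivity)] at h3
  obtain ⟨L, hL⟩ := lower_theta hw hso hS hG hF hr hθ (by linarith)
  filter_upwards [first_rooted hθ (β := β) (by linarith) L (δ := 1 / 4) (by norm_num),
    eventually_ge_atTop 3] with n h4 hn
  refine le_expo _ (by omega) fun p hp => ?_
  obtain ⟨Rt, -, hRt⟩ := Finset.exists_subset_card_eq
    (s := (Finset.univ : Finset (Fin n))) (n := 3) (by simpa using hn)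
  refine lt_of_le_of_lt ((Pr_mono fun G hG => ?_).trans (h4 p hp Rt hRt.le)) (by norm_num)
  by_contra hc
  refine hL n G Rt hRt (fun X hX => ?_) hG
  by_contra hc'
  exact hc ⟨X, hX, not_le.1 hc'⟩

theorem main_upper {a : ℝ} (h1 : (AA (Gm τ) : ℝ) - 1 ≤ a) (h2 : a ≤ AA (Gm τ))
    (hw : ∀ c, WF (F c)) (hF : ∀ c, (F c).length + 2 ≤ Kn) (hr : 3 * rr (Gm τ) ≤ Kn)
    {𝒯 : Finset (Term τ)} (hB : Bal ((a - AA (Gm τ) + 2) / 2) 𝒯) {l r : Term τ}
    (h : Der F 𝒯 (.node halt l r)) {β : ℝ} (hβ0 : 0 < β) (hβ : β < 2 * (mm (Gm τ) : ℝ) / a) :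
    ∀ᶠ n : ℕ in atTop, expo (HG F halt Kn) n ≤ -β := by
  classical
  obtain ⟨hm, hA⟩ := main_pos (τ := τ)
  have hA0 : (0 : ℝ) < a := by linarith
  have g2 := two_le_edges (F := F) halt hr
  obtain ⟨x, y, hxy⟩ : ∃ x y, (HG F halt Kn).Adj x y := by
    have h3 : (HG F halt Kn).edgeSet.Nonempty := Set.nonempty_of_ncard_ne_zero (by omega)
    obtain ⟨e, he⟩ := h3
    induction e using Sym2.ind with
    | _ x y => exact ⟨x, y, he⟩
  have hβ1 : β < 1 := hβ.trans_le ((div_le_one hA0).2 (by linarith))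
  rw [lt_div_iff₀ hA0] at hβ
  have h4 : ∀ S : Finset (Vx τ (NW τ 𝒯) ⊕ VH τ ι Kn), S.Nonempty →
      Disjoint S {.inl (.inl false), .inl (.inl true)} →
      β * eIn (WG F halt Kn 𝒯) (S ∪ {.inl (.inl false), .inl (.inl true)}) < S.card := by
    intro S hS hd
    have h5 := sparse_W h1 h2 hw halt Kn hB S hd
    rw [ec_eq_eIn] at h5
    push_cast at h5
    have h6 : (0 : ℝ) < S.card := by exact_mod_cast hS.card_pos
    have h7 := mul_le_mul_of_nonneg_left h5 hβ0.le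
    have h8 := mul_lt_mul_of_pos_right hβ h6
    refine lt_of_mul_lt_mul_left (a := 2 * (mm (Gm τ) : ℝ)) ?_ (by positivity)
    linarith
  filter_upwards [upper_whp (HG F halt Kn) hxy (WG F halt Kn 𝒯) (by simp)
    (roots_not_adj halt Kn 𝒯) hβ0 hβ1 h4 fun n G f hf => upper_det hw hF hr h f hf,
    eventually_ge_atTop 2] with n h14 hn
  exact expo_le _ g2 hn hβ0 h14

end main

end Pool.Agent.HI
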