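import Pool.Agent.P.HI.I6

/-! A program that writes a Sturmian word, and the irrational exponent. -/

open Finset

namespace Pool.Agent.HI

open Pool.Agent.HB

section general
variable {τ : Type}

/-- derivable inside a finite set of admissible terms -/
def DerA [Inhabited τ] {ι : Type} (F : ι → Clause τ) (A : Term τ → Prop) (t : Term τ) : Prop :=
  ∃ 𝒯 : Finset (Term τ), (∀ s ∈ 𝒯, A s) ∧ Der F 𝒯 t

theorem der_mono [Inhabited τ] {ι : Type} {F : ι → Clause τ} {𝒯 𝒯' : Finset (Term τ)}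
    (h : 𝒯 ⊆ 𝒯') {t : Term τ} (ht : Der F 𝒯 t) : Der F 𝒯' t := by
  induction ht with
  | step c val h1 h2 h3 _ ih => exact Der.step c val h1 h2 (fun i hi => h (h3 i hi)) ih

theorem DerA.mono [Inhabited τ] {ι : Type} {F : ι → Clause τ} {A B : Term τ → Prop}
    (h : ∀ t, A t → B t) {t : Term τ} (ht : DerA F A t) : DerA F B t := by
  obtain ⟨𝒯, h1, h2⟩ := ht
  exact ⟨𝒯, fun s hs => h s (h1 s hs), h2⟩

theorem DerA.step [Inhabited τ] {ι : Type} {F : ι → Clause τ} {A : Term τ → Prop}
    {cl : Clause τ} (hc : ∃ c, F c = cl) (t : Term τ) (vs : List (Term τ))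
    (hl : cl.length = vs.length + 1) (h0 : cl.ok 0 = false)
    (h1 : Fit cl fun i => (t :: vs).getD i .nil) (h2 : (t :: vs).Nodup) (h3 : A t)
    (h4 : ∀ s ∈ vs, A s ∧ DerA F A s) : DerA F A t := by
  classical
  obtain ⟨c, rfl⟩ := hc
  have h5 : ∀ s, ∃ 𝒯 : Finset (Term τ), s ∈ vs → (∀ s ∈ 𝒯, A s) ∧ Der F 𝒯 s := fun s => by
    by_cases hs : s ∈ vs
    · obtain ⟨𝒯, h⟩ := (h4 s hs).2
      exact ⟨𝒯, fun _ => h⟩
    · exact ⟨∅, fun h => absurd h hs⟩
  choose T hT using h5
  have hm : ∀ i < vs.length, (t :: vs).getD (i + 1) .nil ∈ vs := fun i hi => by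
    rw [List.getD_cons_succ, List.getD_eq_getElem _ _ hi]
    exact List.getElem_mem hi
  refine ⟨insert t (vs.toFinset.biUnion fun s => insert s (T s)), fun s hs => ?_,
    Der.step c (fun i => (t :: vs).getD i .nil) h1 (fun i hi j hj e => ?_) (fun i hi => ?_)
      fun i hi ho => ?_⟩
  · rcases mem_insert.1 hs with rfl | hs
    · exact h3
    · obtain ⟨w, hw, hs⟩ := mem_biUnion.1 hs
      rw [List.mem_toFinset] at hw
      rcases mem_insert.1 hs with rfl | hs
      exacts [(h4 _ hw).1, (hT w hw).1 s hs]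
  · rw [hl] at hi hj
    rw [List.getD_eq_getElem _ _ (show i < (t :: vs).length from hi),
      List.getD_eq_getElem _ _ (show j < (t :: vs).length from hj)] at e
    exact (h2.getElem_inj_iff).1 e
  · rcases i with _ | i
    · exact mem_insert_self _ _
    · exact mem_insert_of_mem (mem_biUnion.2
        ⟨_, List.mem_toFinset.2 (hm i (by omega)), mem_insert_self _ _⟩)
  · rcases i with _ | i
    · rw [h0] at ho
      cases ho
    · have h6 := hm i (by omega)
      exact der_mono (fun s hs => mem_insert_of_mem (mem_biUnion.2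
        ⟨_, List.mem_toFinset.2 h6, mem_insert_of_mem hs⟩)) (hT _ h6).2

theorem fit_eq [Inhabited τ] {cl : Clause τ} {val : ℕ → Term τ} (h : Fit cl val)
    (i : ℕ) (hi : i < cl.length) (p : ℕ × ℕ) (hp : cl.kid i = some p) :
    val i = .node (cl.tg i) (nodeOf .nil val p.1) (nodeOf .nil val p.2) := by
  obtain ⟨l, r, h1, h2⟩ := h i hi
  obtain ⟨rfl, rfl⟩ := h2 p hp
  exact h1

open Classical in
/-- the terms along the left spine -/
noncomputable def tails : Term τ → Finset (Term τ)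
  | .nil => ∅
  | .node c l r => insert (.node c l r) (tails l)

theorem tails_realize : True := by have := @tails.eq_def; trivial

theorem tails_siz {t : Term τ} : ∀ s ∈ tails t, siz s ≤ siz t := by
  classical
  induction t with
  | nil => exact fun s hs => absurd hs (notMem_empty _)
  | node c l r ih _ =>
    intro s hs
    rcases mem_insert.1 hs with rfl | hs
    · exact le_rfl
    · have := ih s hs
      rw [siz]
      omega

variable [WP τ] {γ γ' : ℝ}

open Classical in
theorem bal_list (hγ : γ ≤ γ') (M : Finset (Term τ)) {R : Term τ} (hR : Lst γ R) :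
    0 ≤ ∑ t ∈ (tails R).filter (· ∈ M), slk γ' M t ∧ ((R = .nil ∨ R ∈ M) →
      psi γ R + min ((γ' - γ) * len R) 99 ≤ ∑ t ∈ (tails R).filter (· ∈ M), slk γ' M t) := by
  induction hR with
  | nil => simp [tails, psi, len]
  | cons c l hl h0 h1 ih =>
    have hn : Term.node c l .nil ∉ (tails l).filter (· ∈ M) := fun h => by
      have := tails_siz _ (mem_filter.1 h).1
      rw [siz] at this
      omega
    rw [tails, filter_insert]
    by_cases hm : Term.node c l .nil ∈ M
    · rw [if_pos hm, sum_insert hn, slk_node, if_pos (Or.inl rfl)]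
      have k : psi γ (.node c l .nil) + min ((γ' - γ) * len (.node c l .nil)) 99 ≤
          γ' - wt c + (if l = .nil ∨ l ∈ M then 0 else 100) + 0 +
            ∑ t ∈ (tails l).filter (· ∈ M), slk γ' M t := by
        rw [psi, len]
        push_cast
        split_ifs with hc
        · have h2 := ih.2 hc
          rcases le_total ((γ' - γ) * len l) 99 with h3 | h3
          · rw [min_eq_left h3] at h2
            have := min_le_left ((γ' - γ) * (len l + 1)) 99
            linarith
          · rw [min_eq_right h3] at h2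
            have := min_le_right ((γ' - γ) * (len l + 1)) 99
            linarith
        · have := min_le_right ((γ' - γ) * (len l + 1)) 99
          have := hl.le_one
          have := ih.1
          linarith
      refine ⟨le_trans (add_nonneg h0 (le_min ?_ (by norm_num))) k, fun _ => k⟩
      exact mul_nonneg (by linarith) (Nat.cast_nonneg _)
    · rw [if_neg hm]
      exact ⟨ih.1, fun h => h.elim (fun h => by cases h) fun h => absurd h hm⟩

theorem bal_of (h0 : 0 ≤ γ') (hγ : γ ≤ γ') {R : Term τ} (hR : Lst γ R)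
    (hlen : 99 ≤ (γ' - γ) * len R) (c : τ) {𝒯 : Finset (Term τ)}
    (h : ∀ t ∈ 𝒯, t = .node c R .nil ∨ t ∈ tails R ∨ ∃ d l r, t = .node d l r ∧ wt d = 0) :
    Bal γ' 𝒯 := by
  classical
  intro M hM
  obtain ⟨h1, h2⟩ := bal_list hγ M hR
  rw [min_eq_right hlen] at h2
  have e : M.filter (· ∈ tails R) = (tails R).filter (· ∈ M) := by
    ext t
    simp only [mem_filter]
    exact and_comm
  rw [← sum_filter_add_sum_filter_not M (· ∈ tails R), e]
  have h3 : ∀ t ∈ M.filter (fun t => t ∉ tails R),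
      (if t = .node c R .nil then slk γ' M t else 0) ≤ slk γ' M t := fun t ht => by
    obtain ⟨h4, h5⟩ := mem_filter.1 ht
    split_ifs with h6
    · exact le_rfl
    · obtain ⟨d, l, r, rfl, h7⟩ := ((h t (hM h4)).resolve_left h6).resolve_left h5
      rw [slk_node, h7]
      push_cast
      split_ifs <;> linarith
  have h4 := sum_le_sum h3
  rw [sum_ite_eq'] at h4
  have h5 : (wt c : ℝ) ≤ 99 := by exact_mod_cast wt_le c
  have h6 := hR.nonneg
  split_ifs at h4 with h7
  · rw [slk_node, if_pos (Or.inl rfl)] at h4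
    split_ifs at h4 with h8
    · have := h2 h8
      linarith
    · linarith
  · linarith

end general

/-- tags: two letters, four states, the heavy tag and the halting tag -/
abbrev Tg : Type := (Bool ⊕ Fin 4) ⊕ Bool

instance : Inhabited Tg := ⟨.inr true⟩

instance : WP Tg where
  w c := match c with
    | .inl (.inl true) => 1
    | .inr false => 99
    | _ => 0
  le c := by rcases c with ((_ | _) | _) | (_ | _) <;> simp

def cell (b : Bool) : Tg := .inl (.inl b)

def st (k : Fin 4) : Tg := .inl (.inr k)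

def cC (k : Fin 4) (b x y : Bool) : Clause Tg :=
  [(cell b, some (3, 0), false), (st k, some (2, 3), true), (cell x, none, true),
    (cell y, none, true)]

def cW (k k' : Fin 4) (b x y : Bool) : Clause Tg :=
  [(st k', some (3, 2), false), (st k, some (3, 4), true), (cell b, some (4, 0), true),
    (cell x, none, true), (cell y, none, true)]

def cM (k' : Fin 4) (b x y : Bool) : Clause Tg :=
  [(st k', some (2, 4), false), (st 2, some (3, 4), true), (cell b, some (3, 0), true),
    (cell x, none, true), (cell y, none, true)]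

def cI0 : Clause Tg := [(cell false, some (0, 0), false)]

def cI1 : Clause Tg := [(cell true, some (1, 0), false), (cell false, some (0, 0), true)]

def cI2 : Clause Tg :=
  [(st 0, some (2, 1), false), (cell true, some (2, 0), true), (cell false, some (0, 0), true)]

def cP (x : Bool) : Clause Tg := [(.inr false, some (1, 0), false), (cell x, none, true)]

def cH : Clause Tg := [(.inr true, some (1, 0), false), (.inr false, none, true)]

/-- the program -/
def prog (c : Fin 13 × Bool × Bool) : Clause Tg :=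
  ![cC 0 false c.2.1 c.2.2, cC 1 true c.2.1 c.2.2, cC 3 true c.2.1 c.2.2,
    cW 0 1 false c.2.1 c.2.2, cW 1 2 true c.2.1 c.2.2, cW 3 0 true c.2.1 c.2.2,
    cM 0 false c.2.1 c.2.2, cM 3 true c.2.1 c.2.2, cI0, cI1, cI2, cP c.2.1, cH] c.1

theorem prog_check : ∀ c, (prog c).length ≤ 5 ∧
    (∀ i < (prog c).length, (prog c).kid i = none → (prog c).ok i = true) ∧
    (∀ i < (prog c).length, ∀ p ∈ (prog c).kid i, ∀ a,
      sel p a = 0 ∨ (i < sel p a ∧ sel p a < (prog c).length)) ∧
    0 < (prog c).length ∧ (prog c).ok 0 = false ∧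
    (∀ i < (prog c).length, 0 < i → (prog c).ok i = true) ∧
    ∑ i ∈ range (prog c).length, (2 * arcs (prog c) i - 4999) < 2000 := by
  decide +kernel

theorem prog_wf (c : Fin 13 × Bool × Bool) : WF (prog c) :=
  have h := (prog_check c).2
  ⟨⟨h.1, h.2.1⟩, h.2.2.1, h.2.2.2.1, h.2.2.2.2.1, h.2.2.2.2.2⟩

section sound
variable {γ : ℝ}

/-- the offsets of the four states -/
def off (γ : ℝ) : Fin 4 → ℝ := ![0, γ, 2 * γ - 1, 1 - γ]

def GoodP (γ : ℝ) : Term Tg → Prop
  | .node (.inl (.inl b)) l r => Lst γ (.node (cell b) l r)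
  | .node (.inl (.inr k)) l r => Lst γ l ∧ Lst γ r ∧ psi γ r = γ ^ 2 * psi γ l + off γ k
  | _ => False

theorem goodP_realize : True := by have := @GoodP.eq_def; trivial

theorem good_cell {b : Bool} {l r : Term Tg} :
    GoodP γ (.node (cell b) l r) ↔ Lst γ (.node (cell b) l r) := Iff.rfl

theorem good_st {k : Fin 4} {l r : Term Tg} : GoodP γ (.node (st k) l r) ↔
    Lst γ l ∧ Lst γ r ∧ psi γ r = γ ^ 2 * psi γ l + off γ k := Iff.rfl

theorem good_shape (t : Term Tg) (h : GoodP γ t) : Shape γ t := by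
  rcases t with _ | ⟨(b | k) | b, l, r⟩
  · exact h.elim
  · cases (good_cell.1 h) with
    | cons _ _ h1 _ _ => exact ⟨_, _, _, rfl, h1, .nil⟩
  · exact ⟨_, _, _, rfl, h.1, h.2.1⟩
  · exact h.elim

theorem wt_c0 : ((wt (cell false) : ℕ) : ℝ) = 0 := Nat.cast_zero

theorem wt_c1 : ((wt (cell true) : ℕ) : ℝ) = 1 := Nat.cast_one

/-- the admissible writing steps -/
def Wr (k k' : Fin 4) (b : Bool) : Prop :=
  (k = 0 ∧ k' = 1 ∧ b = false) ∨ (k = 1 ∧ k' = 2 ∧ b = true) ∨ (k = 3 ∧ k' = 0 ∧ b = true)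

theorem good_C (hγ : γ ^ 2 + γ = 1) (h1 : 1 / 2 ≤ γ) {k k' : Fin 4} {b : Bool} (hw : Wr k k' b)
    {l r : Term Tg} (h : GoodP γ (.node (st k) l r)) : Lst γ (.node (cell b) r .nil) := by
  obtain ⟨hl, hr, e⟩ := good_st.1 h
  have a0 := mul_nonneg (sq_nonneg γ) hl.nonneg
  have a1 := mul_le_mul_of_nonneg_left hl.le_one (sq_nonneg γ)
  have a2 := sq_nonneg γ
  rcases hw with ⟨rfl, -, rfl⟩ | ⟨rfl, -, rfl⟩ | ⟨rfl, -, rfl⟩
  · have e' : psi γ r = γ ^ 2 * psi γ l + 0 := e
    refine .cons _ _ hr ?_ ?_ <;> rw [psi, wt_c0] <;> linarith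
  · have e' : psi γ r = γ ^ 2 * psi γ l + γ := e
    refine .cons _ _ hr ?_ ?_ <;> rw [psi, wt_c1] <;> linarith
  · have e' : psi γ r = γ ^ 2 * psi γ l + (1 - γ) := e
    refine .cons _ _ hr ?_ ?_ <;> rw [psi, wt_c1] <;> linarith

theorem good_W {k k' : Fin 4} {b : Bool} (hw : Wr k k' b) {l r : Term Tg}
    (h : GoodP γ (.node (st k) l r)) (h' : Lst γ (.node (cell b) r .nil)) :
    GoodP γ (.node (st k') l (.node (cell b) r .nil)) := by
  obtain ⟨hl, -, e⟩ := good_st.1 h
  refine good_st.2 ⟨hl, h', ?_⟩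
  rcases hw with ⟨rfl, rfl, rfl⟩ | ⟨rfl, rfl, rfl⟩ | ⟨rfl, rfl, rfl⟩
  · have e' : psi γ r = γ ^ 2 * psi γ l + 0 := e
    change _ = γ ^ 2 * psi γ l + γ
    rw [psi, wt_c0]
    linarith
  · have e' : psi γ r = γ ^ 2 * psi γ l + γ := e
    change _ = γ ^ 2 * psi γ l + (2 * γ - 1)
    rw [psi, wt_c1]
    linarith
  · have e' : psi γ r = γ ^ 2 * psi γ l + (1 - γ) := e
    change _ = γ ^ 2 * psi γ l + 0
    rw [psi, wt_c1]
    linarith

theorem good_M (hγ : γ ^ 2 + γ = 1) (b : Bool) {l r : Term Tg}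
    (h : GoodP γ (.node (st 2) l r)) (h' : Lst γ (.node (cell b) l .nil)) :
    GoodP γ (.node (st (cond b 3 0)) (.node (cell b) l .nil) r) := by
  obtain ⟨-, hr, e⟩ := good_st.1 h
  have e' : psi γ r = γ ^ 2 * psi γ l + (2 * γ - 1) := e
  refine good_st.2 ⟨h', hr, ?_⟩
  cases b
  · change _ = γ ^ 2 * psi γ (.node (cell false) l .nil) + 0
    rw [psi, wt_c0, e']
    linear_combination (1 - γ) * hγ
  · change _ = γ ^ 2 * psi γ (.node (cell true) l .nil) + (1 - γ)
    rw [psi, wt_c1, e']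
    linear_combination (2 - γ) * hγ

theorem lst_0 (hγ : γ ^ 2 + γ = 1) (h1 : 1 / 2 ≤ γ) : Lst γ (.node (cell false) .nil .nil) := by
  have a2 := sq_nonneg γ
  refine .cons _ _ .nil ?_ ?_ <;> rw [psi, wt_c0, psi] <;> linarith

theorem lst_1 (hγ : γ ^ 2 + γ = 1) (h1 : 1 / 2 ≤ γ) :
    Lst γ (.node (cell true) (.node (cell false) .nil .nil) .nil) := by
  have a2 := sq_nonneg γ
  refine .cons _ _ (lst_0 hγ h1) ?_ ?_ <;> rw [psi, wt_c1, psi, wt_c0, psi] <;> linarith

theorem good_I (hγ : γ ^ 2 + γ = 1) (h1 : 1 / 2 ≤ γ) : GoodP γ (.node (st 0)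
    (.node (cell false) .nil .nil) (.node (cell true) (.node (cell false) .nil .nil) .nil)) := by
  refine good_st.2 ⟨lst_0 hγ h1, lst_1 hγ h1, ?_⟩
  change _ = γ ^ 2 * psi γ (.node (cell false) .nil .nil) + 0
  rw [psi, wt_c1, psi, wt_c0, psi]
  linear_combination (1 - γ) * hγ

theorem sound_C (hγ : γ ^ 2 + γ = 1) (h1 : 1 / 2 ≤ γ) {k k' : Fin 4} {b : Bool} (hw : Wr k k' b)
    (x y : Bool) : Sound γ (GoodP γ) (cC k b x y) := fun val hf hg => by
  have e0 : val 0 = .node (cell b) (val 3) .nil := fit_eq hf 0 (show 0 < 4 by omega) _ rfl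
  have e1 : val 1 = .node (st k) (val 2) (val 3) := fit_eq hf 1 (show 1 < 4 by omega) _ rfl
  have g1 := hg 1 (show 1 < 4 by omega) rfl
  rw [e1] at g1
  rw [e0]
  exact Or.inl (good_cell.2 (good_C hγ h1 hw g1))

theorem sound_W {k k' : Fin 4} {b : Bool} (hw : Wr k k' b)
    (x y : Bool) : Sound γ (GoodP γ) (cW k k' b x y) := fun val hf hg => by
  have e0 : val 0 = .node (st k') (val 3) (val 2) := fit_eq hf 0 (show 0 < 5 by omega) _ rfl
  have e1 : val 1 = .node (st k) (val 3) (val 4) := fit_eq hf 1 (show 1 < 5 by omega) _ rfl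
  have e2 : val 2 = .node (cell b) (val 4) .nil := fit_eq hf 2 (show 2 < 5 by omega) _ rfl
  have g1 := hg 1 (show 1 < 5 by omega) rfl
  have g2 := hg 2 (show 2 < 5 by omega) rfl
  rw [e1] at g1
  rw [e2] at g2
  rw [e0, e2]
  exact Or.inl (good_W hw g1 (good_cell.1 g2))

theorem sound_M (hγ : γ ^ 2 + γ = 1) (b x y : Bool) :
    Sound γ (GoodP γ) (cM (cond b 3 0) b x y) := fun val hf hg => by
  have e0 : val 0 = .node (st (cond b 3 0)) (val 2) (val 4) :=
    fit_eq hf 0 (show 0 < 5 by omega) _ rfl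
  have e1 : val 1 = .node (st 2) (val 3) (val 4) := fit_eq hf 1 (show 1 < 5 by omega) _ rfl
  have e2 : val 2 = .node (cell b) (val 3) .nil := fit_eq hf 2 (show 2 < 5 by omega) _ rfl
  have g1 := hg 1 (show 1 < 5 by omega) rfl
  have g2 := hg 2 (show 2 < 5 by omega) rfl
  rw [e1] at g1
  rw [e2] at g2
  rw [e0, e2]
  exact Or.inl (good_M hγ b g1 (good_cell.1 g2))

theorem prog_sound (hγ : γ ^ 2 + γ = 1) (h1 : 1 / 2 ≤ γ) (c : Fin 13 × Bool × Bool) :
    Sound γ (GoodP γ) (prog c) := by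
  obtain ⟨n, x, y⟩ := c
  have w0 : Wr 0 1 false := Or.inl ⟨rfl, rfl, rfl⟩
  have w1 : Wr 1 2 true := Or.inr (Or.inl ⟨rfl, rfl, rfl⟩)
  have w3 : Wr 3 0 true := Or.inr (Or.inr ⟨rfl, rfl, rfl⟩)
  match n with
  | 0 => exact sound_C hγ h1 w0 x y
  | 1 => exact sound_C hγ h1 w1 x y
  | 2 => exact sound_C hγ h1 w3 x y
  | 3 => exact sound_W w0 x y
  | 4 => exact sound_W w1 x y
  | 5 => exact sound_W w3 x y
  | 6 => exact sound_M hγ false x y
  | 7 => exact sound_M hγ true x y
  | 8 =>
    intro val hf _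
    have e0 : val 0 = .node (cell false) .nil .nil := fit_eq hf 0 (show 0 < 1 by omega) _ rfl
    rw [e0]
    exact Or.inl (good_cell.2 (lst_0 hγ h1))
  | 9 =>
    intro val hf _
    have e0 : val 0 = .node (cell true) (val 1) .nil := fit_eq hf 0 (show 0 < 2 by omega) _ rfl
    have e1 : val 1 = .node (cell false) .nil .nil := fit_eq hf 1 (show 1 < 2 by omega) _ rfl
    rw [e0, e1]
    exact Or.inl (good_cell.2 (lst_1 hγ h1))
  | 10 =>
    intro val hf _
    have e0 : val 0 = .node (st 0) (val 2) (val 1) := fit_eq hf 0 (show 0 < 3 by omega) _ rfl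
    have e1 : val 1 = .node (cell true) (val 2) .nil := fit_eq hf 1 (show 1 < 3 by omega) _ rfl
    have e2 : val 2 = .node (cell false) .nil .nil := fit_eq hf 2 (show 2 < 3 by omega) _ rfl
    rw [e0, e1, e2]
    exact Or.inl (good_I hγ h1)
  | 11 =>
    intro val hf hg
    have e0 : val 0 = .node (.inr false) (val 1) .nil := fit_eq hf 0 (show 0 < 2 by omega) _ rfl
    obtain ⟨l, r, e1, -⟩ := hf 1 (show 1 < 2 by omega)
    have g1 := hg 1 (show 1 < 2 by omega) rfl
    refine Or.inr ⟨le_rfl, _, _, _, e0, ?_, .nil⟩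
    rw [e1] at g1 ⊢
    exact g1
  | 12 =>
    intro val hf hg
    obtain ⟨l, r, e1, -⟩ := hf 1 (show 1 < 2 by omega)
    have g1 := hg 1 (show 1 < 2 by omega) rfl
    rw [e1] at g1
    exact g1.elim

end sound

end Pool.Agent.HI
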