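import Pool.Agent.P.HI.I7

/-! The run of the program and the main theorem. -/

open Finset

namespace Pool.Agent.HI

open Pool.Agent.HB

/-- the term of a word -/
def lt : List Bool → Term Tg
  | [] => .nil
  | b :: x => .node (cell b) (lt x) .nil

theorem lt_realize : True := by have := @lt.eq_def; trivial

theorem lt_cons (b : Bool) (x : List Bool) : lt (b :: x) = .node (cell b) (lt x) .nil := rfl

theorem len_lt (x : List Bool) : len (lt x) = x.length := by
  induction x with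
  | nil => rfl
  | cons b x ih => rw [lt_cons, len, ih, List.length_cons]

theorem lt_ne {x y : List Bool} (h : x.length ≠ y.length) : lt x ≠ lt y := fun e =>
  h (by rw [← len_lt, e, len_lt])

theorem lt_ne_st (x : List Bool) (k : Fin 4) (l r : Term Tg) : lt x ≠ .node (st k) l r := by
  cases x with
  | nil => exact fun h => by cases h
  | cons b x => exact fun h => by cases (Term.node.inj h).1

theorem tails_sub {x r : List Bool} (h : x <:+ r) : tails (lt x) ⊆ tails (lt r) := by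
  classical
  induction r with
  | nil =>
    rw [List.suffix_nil.1 h]
  | cons b r ih =>
    rcases List.suffix_cons_iff.1 h with rfl | h
    · exact Subset.rfl
    · exact (ih h).trans (subset_insert _ _)

theorem lst_suffix {γ : ℝ} {x r : List Bool} (h : x <:+ r) (hr : Lst γ (lt r)) :
    Lst γ (lt x) := by
  induction r with
  | nil =>
    rw [List.suffix_nil.1 h]
    exact .nil
  | cons b r ih =>
    rcases List.suffix_cons_iff.1 h with rfl | h
    · exact hr
    · cases hr with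
      | cons _ _ h1 _ _ => exact ih h h1

/-- admissible terms -/
def Adm (r : List Bool) (t : Term Tg) : Prop :=
  t ∈ tails (lt r) ∨ ∃ d l r, t = .node d l r ∧ wt d = 0

theorem Adm.mono {x r : List Bool} (h : x <:+ r) (t : Term Tg) (ht : Adm x t) : Adm r t :=
  ht.imp_left fun h' => tails_sub h h'

theorem adm_lt {b : Bool} {x r : List Bool} (h : b :: x <:+ r) : Adm r (lt (b :: x)) := by
  classical
  exact Or.inl (tails_sub h (mem_insert_self _ _))

theorem adm_st (r : List Bool) (k : Fin 4) (s t : Term Tg) : Adm r (.node (st k) s t) :=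
  Or.inr ⟨_, _, _, rfl, rfl⟩

/-- the invariant of the run -/
structure Run (γ : ℝ) (k : Fin 4) (l r : List Bool) : Prop where
  ne : l ≠ []
  suf : l <:+ r
  lt' : l.length < r.length
  good : GoodP γ (.node (st k) (lt l) (lt r))
  all : ∀ b x, b :: x <:+ r → DerA prog (Adm r) (lt (b :: x))
  der : DerA prog (Adm r) (.node (st k) (lt l) (lt r))

variable {γ : ℝ}

theorem Run.write (hγ : γ ^ 2 + γ = 1) (h1 : 1 / 2 ≤ γ) {k k' : Fin 4} {b : Bool} (hw : Wr k k' b)
    {l r : List Bool} (h : Run γ k l r) : Run γ k' l (b :: r) := by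
  obtain ⟨x, l, rfl⟩ := List.exists_cons_of_ne_nil h.ne
  obtain ⟨y, r, rfl⟩ := List.exists_cons_of_ne_nil (l := r) (by
    rintro rfl
    exact absurd h.lt' (Nat.not_lt_zero _))
  have hC : ∃ c, prog c = cC k b x y := by
    rcases hw with ⟨rfl, -, rfl⟩ | ⟨rfl, -, rfl⟩ | ⟨rfl, -, rfl⟩
    exacts [⟨(0, x, y), rfl⟩, ⟨(1, x, y), rfl⟩, ⟨(2, x, y), rfl⟩]
  have hW : ∃ c, prog c = cW k k' b x y := by
    rcases hw with ⟨rfl, rfl, rfl⟩ | ⟨rfl, rfl, rfl⟩ | ⟨rfl, rfl, rfl⟩
    exacts [⟨(3, x, y), rfl⟩, ⟨(4, x, y), rfl⟩, ⟨(5, x, y), rfl⟩]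
  have s0 : y :: r <:+ b :: y :: r := List.suffix_cons _ _
  have s1 : x :: l <:+ b :: y :: r := h.suf.trans s0
  have hlen := h.lt'
  have p1 : Adm (b :: y :: r) (.node (st k) (lt (x :: l)) (lt (y :: r))) ∧
      DerA prog (Adm (b :: y :: r)) (.node (st k) (lt (x :: l)) (lt (y :: r))) :=
    ⟨adm_st _ _ _ _, h.der.mono (Adm.mono s0)⟩
  have p2 : Adm (b :: y :: r) (lt (x :: l)) ∧ DerA prog (Adm (b :: y :: r)) (lt (x :: l)) :=
    ⟨adm_lt s1, (h.all _ _ h.suf).mono (Adm.mono s0)⟩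
  have p3 : Adm (b :: y :: r) (lt (y :: r)) ∧ DerA prog (Adm (b :: y :: r)) (lt (y :: r)) :=
    ⟨adm_lt s0, (h.all _ _ List.suffix_rfl).mono (Adm.mono s0)⟩
  have n1 : lt (x :: l) ≠ lt (y :: r) := lt_ne hlen.ne
  have n2 : lt (b :: y :: r) ≠ lt (x :: l) :=
    lt_ne (by rw [List.length_cons (as := y :: r)]; omega)
  have n3 : lt (b :: y :: r) ≠ lt (y :: r) :=
    lt_ne (by rw [List.length_cons (as := y :: r)]; omega)
  have p4 : DerA prog (Adm (b :: y :: r)) (lt (b :: y :: r)) := by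
    refine DerA.step hC _ [.node (st k) (lt (x :: l)) (lt (y :: r)), lt (x :: l), lt (y :: r)]
      rfl rfl (fun i hi => ?_) ?_ (adm_lt List.suffix_rfl) ?_
    · have hi' : i < 4 := hi
      interval_cases i <;> refine ⟨_, _, rfl, fun p hp => ?_⟩ <;> cases hp <;> exact ⟨rfl, rfl⟩
    · simp [n1, n2, n3, lt_ne_st, (lt_ne_st _ _ _ _).symm]
    · simp only [List.mem_cons, List.not_mem_nil, or_false]
      rintro s (rfl | rfl | rfl)
      exacts [p1, p2, p3]
  refine ⟨h.ne, s1, by rw [List.length_cons (as := y :: r)]; omega,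
    good_W hw h.good (good_C hγ h1 hw h.good), fun c z hz => ?_, ?_⟩
  · rcases List.suffix_cons_iff.1 hz with e | hz
    · rw [e]
      exact p4
    · exact (h.all _ _ hz).mono (Adm.mono s0)
  · refine DerA.step hW _ [.node (st k) (lt (x :: l)) (lt (y :: r)), lt (b :: y :: r),
      lt (x :: l), lt (y :: r)] rfl rfl (fun i hi => ?_) ?_ (adm_st _ _ _ _) ?_
    · have hi' : i < 5 := hi
      interval_cases i <;> refine ⟨_, _, rfl, fun p hp => ?_⟩ <;> cases hp <;> exact ⟨rfl, rfl⟩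
    · simp [n1, n2, n3, (lt_ne_st _ _ _ _).symm]
    · simp only [List.mem_cons, List.not_mem_nil, or_false]
      rintro s (rfl | rfl | rfl | rfl)
      exacts [p1, ⟨adm_lt List.suffix_rfl, p4⟩, p2, p3]

theorem Run.read (hγ : γ ^ 2 + γ = 1) {l r : List Bool} (h : Run γ 2 l r)
    (hl : l.length + 1 < r.length) : ∃ b, Run γ (cond b 3 0) (b :: l) r := by
  obtain ⟨b, hb⟩ : ∃ b, b :: l <:+ r := by
    obtain ⟨p, rfl⟩ := h.suf
    rcases p.eq_nil_or_concat with rfl | ⟨q, b, rfl⟩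
    · simp at hl
    · exact ⟨b, q, by simp⟩
  obtain ⟨x, l, rfl⟩ := List.exists_cons_of_ne_nil h.ne
  obtain ⟨y, r, rfl⟩ := List.exists_cons_of_ne_nil (l := r) (by
    rintro rfl
    exact absurd h.lt' (Nat.not_lt_zero _))
  have hM : ∃ c, prog c = cM (cond b 3 0) b x y := by
    cases b
    exacts [⟨(6, x, y), rfl⟩, ⟨(7, x, y), rfl⟩]
  have n1 : lt (x :: l) ≠ lt (y :: r) := lt_ne h.lt'.ne
  have n2 : lt (b :: x :: l) ≠ lt (x :: l) :=
    lt_ne (by rw [List.length_cons (as := x :: l)]; omega)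
  have n3 : lt (b :: x :: l) ≠ lt (y :: r) := lt_ne hl.ne
  refine ⟨b, List.cons_ne_nil _ _, hb, hl, good_M hγ b h.good (lst_suffix hb h.good.2.1), h.all, ?_⟩
  refine DerA.step hM _ [.node (st 2) (lt (x :: l)) (lt (y :: r)), lt (b :: x :: l),
    lt (x :: l), lt (y :: r)] rfl rfl (fun i hi => ?_) ?_ (adm_st _ _ _ _) ?_
  · have hi' : i < 5 := hi
    interval_cases i <;> refine ⟨_, _, rfl, fun p hp => ?_⟩ <;> cases hp <;> exact ⟨rfl, rfl⟩
  · simp [n1, n2, n3, (lt_ne_st _ _ _ _).symm]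
  · simp only [List.mem_cons, List.not_mem_nil, or_false]
    rintro s (rfl | rfl | rfl | rfl)
    exacts [⟨adm_st _ _ _ _, h.der⟩, ⟨adm_lt hb, h.all _ _ hb⟩, ⟨adm_lt h.suf, h.all _ _ h.suf⟩,
      ⟨adm_lt List.suffix_rfl, h.all _ _ List.suffix_rfl⟩]

theorem run_init (hγ : γ ^ 2 + γ = 1) (h1 : 1 / 2 ≤ γ) : Run γ 0 [false] [true, false] := by
  have s0 : [false] <:+ [true, false] := List.suffix_cons _ _
  have n1 : lt [true, false] ≠ lt [false] := lt_ne (by decide)
  have p0 : DerA prog (Adm [true, false]) (lt [false]) := by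
    refine DerA.step (cl := cI0) ⟨(8, true, true), rfl⟩ _ [] rfl rfl (fun i hi => ?_) (by simp)
      (adm_lt s0) (by simp)
    have hi' : i < 1 := hi
    interval_cases i
    refine ⟨_, _, rfl, fun p hp => ?_⟩
    cases hp
    exact ⟨rfl, rfl⟩
  have p1 : DerA prog (Adm [true, false]) (lt [true, false]) := by
    refine DerA.step (cl := cI1) ⟨(9, true, true), rfl⟩ _ [lt [false]] rfl rfl (fun i hi => ?_)
      (by simp [n1]) (adm_lt List.suffix_rfl) ?_
    · have hi' : i < 2 := hi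
      interval_cases i <;> refine ⟨_, _, rfl, fun p hp => ?_⟩ <;> cases hp <;> exact ⟨rfl, rfl⟩
    · simp only [List.mem_cons, List.not_mem_nil, or_false]
      rintro s rfl
      exact ⟨adm_lt s0, p0⟩
  refine ⟨List.cons_ne_nil _ _, s0, by decide, good_I hγ h1, fun b x hx => ?_, ?_⟩
  · rcases List.suffix_cons_iff.1 hx with e | hx
    · rw [e]
      exact p1
    · rcases List.suffix_cons_iff.1 hx with e | hx
      · rw [e]
        exact p0
      · exact absurd (List.suffix_nil.1 hx) (List.cons_ne_nil _ _)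
  · refine DerA.step (cl := cI2) ⟨(10, true, true), rfl⟩ _ [lt [true, false], lt [false]] rfl rfl
      (fun i hi => ?_) (by simp [n1, (lt_ne_st _ _ _ _).symm]) (adm_st _ _ _ _) ?_
    · have hi' : i < 3 := hi
      interval_cases i <;> refine ⟨_, _, rfl, fun p hp => ?_⟩ <;> cases hp <;> exact ⟨rfl, rfl⟩
    · simp only [List.mem_cons, List.not_mem_nil, or_false]
      rintro s (rfl | rfl)
      exacts [⟨adm_lt List.suffix_rfl, p1⟩, ⟨adm_lt s0, p0⟩]

theorem run_long (hγ : γ ^ 2 + γ = 1) (h1 : 1 / 2 ≤ γ) (n : ℕ) :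
    ∃ l r, Run γ 0 l r ∧ n ≤ r.length := by
  induction n with
  | zero => exact ⟨_, _, run_init hγ h1, Nat.zero_le _⟩
  | succ n ih =>
    obtain ⟨l, r, h, hn⟩ := ih
    have h2 := (h.write hγ h1 (Or.inl ⟨rfl, rfl, rfl⟩)).write hγ h1
      (Or.inr (Or.inl ⟨rfl, rfl, rfl⟩))
    have h3 := h.lt'
    obtain ⟨b, h4⟩ := h2.read hγ (by simp only [List.length_cons]; omega)
    cases b
    · exact ⟨_, _, h4, by simp only [List.length_cons]; omega⟩
    · exact ⟨_, _, h4.write hγ h1 (Or.inr (Or.inr ⟨rfl, rfl, rfl⟩)),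
        by simp only [List.length_cons]; omega⟩

theorem prog_halts (hγ : γ ^ 2 + γ = 1) (h1 : 1 / 2 ≤ γ) {γ' : ℝ} (h2 : γ < γ') :
    ∃ (𝒯 : Finset (Term Tg)) (l r : Term Tg), Bal γ' 𝒯 ∧ Der prog 𝒯 (.node (.inr true) l r) := by
  obtain ⟨n, hn⟩ := exists_nat_ge (99 / (γ' - γ))
  obtain ⟨l, r, h, hr⟩ := run_long hγ h1 n
  obtain ⟨y, r, rfl⟩ := List.exists_cons_of_ne_nil (l := r) (by
    rintro rfl
    exact absurd h.lt' (Nat.not_lt_zero _))
  let A : Term Tg → Prop := fun t => t = .node (.inr false) (lt (y :: r)) .nil ∨ Adm (y :: r) t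
  have p0 : DerA prog A (lt (y :: r)) := (h.all _ _ List.suffix_rfl).mono fun _ => Or.inr
  have p1 : DerA prog A (.node (.inr false) (lt (y :: r)) .nil) := by
    refine DerA.step (cl := cP y) ⟨(11, y, y), rfl⟩ _ [lt (y :: r)] rfl rfl (fun i hi => ?_) ?_
      (Or.inl rfl) ?_
    · have hi' : i < 2 := hi
      interval_cases i <;> refine ⟨_, _, rfl, fun p hp => ?_⟩ <;> cases hp <;> exact ⟨rfl, rfl⟩
    · simp [lt_cons, cell]
    · simp only [List.mem_cons, List.not_mem_nil, or_false]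
      rintro s rfl
      exact ⟨Or.inr (adm_lt List.suffix_rfl), p0⟩
  have p2 : DerA prog A (.node (.inr true) (.node (.inr false) (lt (y :: r)) .nil) .nil) := by
    refine DerA.step (cl := cH) ⟨(12, y, y), rfl⟩ _ [.node (.inr false) (lt (y :: r)) .nil] rfl rfl
      (fun i hi => ?_) (by simp) (Or.inr (Or.inr ⟨_, _, _, rfl, rfl⟩)) ?_
    · have hi' : i < 2 := hi
      interval_cases i <;> refine ⟨_, _, rfl, fun p hp => ?_⟩ <;> cases hp <;> exact ⟨rfl, rfl⟩
    · simp only [List.mem_cons, List.not_mem_nil, or_false]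
      rintro s rfl
      exact ⟨Or.inl rfl, p1⟩
  obtain ⟨𝒯, h3, h4⟩ := p2
  refine ⟨𝒯, _, _, bal_of (by linarith) h2.le h.good.2.1 ?_ (.inr false) h3, h4⟩
  rw [len_lt]
  rw [div_le_iff₀ (by linarith)] at hn
  have h5 : (n : ℝ) ≤ (y :: r).length := by exact_mod_cast hr
  nlinarith

open Filter Topology

section final
variable {τ : Type} [Fintype τ] [WP τ] [Inhabited τ] {ι : Type} [Fintype ι] {F : ι → Clause τ}
  {halt : τ} {Kn : ℕ}

theorem main_tendsto [AP (Gm τ)] {Good : Term τ → Prop} (hlt : aa (Gm τ) < AA (Gm τ))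
    (hw : ∀ c, WF (F c)) (hso : ∀ c, Sound (gam (Gm τ)) Good (F c))
    (hS : ∀ t, Good t → Shape (gam (Gm τ)) t) (hG : ∀ l r, ¬ Good (.node halt l r))
    (hF : ∀ c, (F c).length + 2 ≤ Kn) (hr : 3 * rr (Gm τ) ≤ Kn)
    (hup : ∀ γ', gam (Gm τ) < γ' → ∃ (𝒯 : Finset (Term τ)) (l r : Term τ), Bal γ' 𝒯 ∧
      Der F 𝒯 (.node halt l r)) :
    Tendsto (expo (HG F halt Kn)) atTop (𝓝 (-(2 * (mm (Gm τ) : ℝ) / aa (Gm τ)))) := by
  obtain ⟨hm, hA⟩ := main_pos (τ := τ)
  have hlo := aa_lo (Gm τ)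
  have ha0 : 0 < aa (Gm τ) := by linarith
  refine tendsto_order.2 ⟨fun z hz => ?_, fun z hz => ?_⟩
  · obtain ⟨w, h3, h4⟩ := exists_between hz
    filter_upwards [main_lower hw hso hS hG hF hr (β := -w) (by linarith)] with n hn
    linarith
  · have h3 : max 0 (-z) < 2 * (mm (Gm τ) : ℝ) / aa (Gm τ) :=
      max_lt (div_pos (by linarith) ha0) (by linarith)
    obtain ⟨β, h4, h5⟩ := exists_between h3
    have h6 : 0 < β := (le_max_left _ _).trans_lt h4
    have h7 : -z < β := (le_max_right _ _).trans_lt h4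
    have h8 : aa (Gm τ) < min (2 * (mm (Gm τ) : ℝ) / β) (AA (Gm τ)) := by
      refine lt_min ?_ hlt
      rw [lt_div_iff₀ ha0] at h5
      rw [lt_div_iff₀ h6]
      linarith
    obtain ⟨a, h9, h10⟩ := exists_between h8
    have h11 := h10.trans_le (min_le_left _ _)
    have h12 := h10.trans_le (min_le_right _ _)
    obtain ⟨𝒯, l, r, hB, hD⟩ := hup ((a - AA (Gm τ) + 2) / 2) (by unfold gam; linarith)
    filter_upwards [main_upper (by linarith) h12.le hw hF hr hB hD h6 (by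
      rw [lt_div_iff₀ h6] at h11
      rw [lt_div_iff₀ (by linarith)]
      linarith)] with n hn
    linarith

theorem main_irr {γ : ℝ} (hγ : Irrational γ) (h1 : 1 / 2 ≤ γ) (h2 : γ < 1)
    {Good : Term τ → Prop} (hw : ∀ c, WF (F c)) (hso : ∀ c, Sound γ Good (F c))
    (hS : ∀ t, Good t → Shape γ t) (hG : ∀ l r, ¬ Good (.node halt l r)) {N : ℕ}
    (hF : ∀ c, (F c).length ≤ N)
    (hup : ∀ γ', γ < γ' → ∃ (𝒯 : Finset (Term τ)) (l r : Term τ), Bal γ' 𝒯 ∧
      Der F 𝒯 (.node halt l r)) :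
    ∃ (k : ℕ) (H : SimpleGraph (Fin k)) (x : ℝ), Irrational x ∧
      Tendsto (expo H) atTop (𝓝 x) := by
  obtain ⟨hm, hA⟩ := main_pos (τ := τ)
  let inst : AP (Gm τ) := ⟨AA (Gm τ) - 2 + 2 * γ, by linarith, by linarith⟩
  have ha : aa (Gm τ) = AA (Gm τ) - 2 + 2 * γ := rfl
  have hg : gam (Gm τ) = γ := by
    unfold gam
    rw [ha]
    ring
  have key := main_tendsto (F := F) (halt := halt) (Kn := 3 * rr (Gm τ) + (N + 2)) (Good := Good)
    (by linarith) hw (hg ▸ hso) (hg ▸ hS) hG (fun c => by have := hF c; omega)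
    (Nat.le_add_right _ _) (hg ▸ hup)
  refine ⟨_, (HG F halt (3 * rr (Gm τ) + (N + 2))).map (Fintype.equivFin _).toEmbedding,
    -(2 * (mm (Gm τ) : ℝ) / aa (Gm τ)), ?_, key.congr' ?_⟩
  · have e : aa (Gm τ) = ((2 : ℕ) : ℝ) * γ + ((AA (Gm τ) - 2 : ℤ) : ℝ) := by
      rw [ha]
      push_cast
      ring
    have i6 : Irrational (aa (Gm τ)) := e ▸ (hγ.natCast_mul two_ne_zero).add_intCast _
    have i7 := i6.natCast_div (m := 2 * mm (Gm τ)) (by
      have : 0 < mm (Gm τ) := by exact_mod_cast hm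
      omega)
    push_cast at i7
    exact i7.neg
  · filter_upwards [eventually_ge_atTop (Fintype.card
      (VH τ ι (3 * rr (Gm τ) + (N + 2))))] with n hn
    exact (expo_map _ _ ((Fintype.card_fin _).trans_le hn)).symm

end final

theorem main : ∃ (k : ℕ) (H : SimpleGraph (Fin k)) (x : ℝ), Irrational x ∧
    Tendsto (expo H) atTop (𝓝 x) := by
  obtain ⟨γ, hγd⟩ : ∃ γ : ℝ, γ = (√5 - 1) / 2 := ⟨_, rfl⟩
  have s5 : √5 ^ 2 = (5 : ℝ) := Real.sq_sqrt (by norm_num)
  have s2 : (2 : ℝ) ≤ √5 := Real.le_sqrt_of_sq_le (by norm_num)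
  have hγ : γ ^ 2 + γ = 1 := by
    rw [hγd]
    linear_combination (1 / 4 : ℝ) * s5
  have h1 : 1 / 2 ≤ γ := by
    rw [hγd]
    linarith
  have h2 : γ < 1 := by nlinarith
  have i5 : Irrational √5 := by
    have := Nat.Prime.irrational_sqrt (p := 5) (by norm_num)
    exact_mod_cast this
  have i6 : Irrational γ := by
    have := (i5.sub_natCast 1).div_natCast (m := 2) two_ne_zero
    rw [hγd]
    exact_mod_cast this
  exact main_irr (halt := (.inr true : Tg)) (Good := GoodP γ) i6 h1 h2 prog_wf (prog_sound hγ h1)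
    good_shape (fun _ _ h => h) (fun c => (prog_check c).1) fun γ' h => prog_halts hγ h1 h

end Pool.Agent.HI
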